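import Pool.Agent.Work.MP_ff0f6a_lc.SC.Defs

/-!
Chomp on graphs: the code of a position.
-/

namespace Pool.Agent.Chomp.GR

/-- the number `n` in unary and the table that marks the pairs `(i, j)` with `{i, j} ∈ S` -/
def matrix (n : ℕ) (S : Finset (Finset ℕ)) : List Bool × List Bool :=
  (List.replicate n true, (List.range n).flatMap fun i =>
    (List.range n).map fun j => decide (({i, j} : Finset ℕ) ∈ S))

end Pool.Agent.Chomp.GR
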