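import Pool.Agent.Work.MP_ff0f6a_lc.GR.Stmt

namespace Pool.Agent.Chomp.GR

open Finset Function Pool.Agent.Chomp.SC

lemma grKill01_x4 : ∀ b < 4, ∀ w < 4, b ^^^ w < 4 ∧ (0 < w → b ^^^ w ≠ b) := by decide

lemma grKill01_x1 : ∀ b < 4, b ^^^ 1 < 4 ∧ b ^^^ 1 ≠ b ∧ (b ^^^ 1 < 2 ↔ b < 2) := by decide

lemma grKill01_x8 : ∀ b < 16, b ^^^ 8 < 16 ∧ b ^^^ 8 ≠ b := by decide

lemma grKill01_size (F : Q3) (κ : ℕ) : (κ % 8 = 0 → F.size κ = 0) ∧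
    (κ % 8 = 1 ∨ κ % 8 = 2 → (κ / 8 ≤ 2 * F.n → F.size κ = 2) ∧ (2 * F.n < κ / 8 → F.size κ = 0)) ∧
    (κ % 8 = 3 ∨ κ % 8 = 4 ∨ κ % 8 = 5 → F.size κ = 4 ∨ F.size κ = 0) ∧
    (κ % 8 = 7 → F.size κ = 16 ∨ F.size κ = 0) := by
  unfold Q3.size
  split_ifs with h1 h2 h3
  · omega
  · omega
  · omega
  · omega

lemma grKill01_mem (hm : T_mok) (F : Q3) (t : ℕ) (R : ℕ → Finset ℕ) (φ : ℕ → Bool) (x v : ℕ × ℕ) :
    v ∈ F.Kl t R φ x ↔ v ≠ x ∧ v ≠ (8 * t + 2, 0) ∧ F.alive t R φ v := by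
  rw [Q3.Kl, mem_erase, mem_erase, (hm F).2.2.1]

/-- the six kinds of vertices -/
lemma grKill01_pk (F : Q3) (t : ℕ) (ω : ℕ → ℕ) (κ b : ℕ) :
    (κ % 8 = 1 → κ / 8 = 2 * F.n → F.pk t ω (κ, b) = (κ, 1 - b)) ∧
    (κ % 8 = 1 → κ / 8 ≠ 2 * F.n → b = 0 → F.pk t ω (κ, b) = (κ + 9, 0)) ∧
    (κ % 8 = 2 → b = 0 → t < κ / 8 → F.pk t ω (κ, b) = (κ - 9, 0)) ∧
    (κ % 8 = 3 → F.pk t ω (κ, b) = (κ, b ^^^ ω (κ / 8))) ∧
    (κ % 8 = 4 ∨ κ % 8 = 5 → F.pk t ω (κ, b) = (κ, b ^^^ 1)) ∧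
    (κ % 8 = 7 → F.pk t ω (κ, b) = (κ, b ^^^ 8)) ∧
    ((κ % 8 = 1 ∧ κ / 8 ≠ 2 * F.n ∧ b ≠ 0) ∨ (κ % 8 = 2 ∧ (b ≠ 0 ∨ κ / 8 ≤ t)) ∨ κ % 8 = 6 ∨
      κ % 8 = 0 → F.pk t ω (κ, b) = (κ, b)) := by
  unfold Q3.pk
  dsimp only
  refine ⟨fun h1 h2 => if_pos ⟨h1, h2⟩, fun h1 h2 h3 => ?_, fun h1 h2 h3 => ?_, fun h1 => ?_,
    fun h1 => ?_, fun h1 => ?_, fun h1 => ?_⟩
  · rw [if_neg (by omega), if_pos ⟨h1, h3⟩]
  · rw [if_neg (by omega), if_neg (by omega), if_pos ⟨h1, h2, h3⟩]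
  · rw [if_neg (by omega), if_neg (by omega), if_neg (by omega), if_pos h1]
  · rw [if_neg (by omega), if_neg (by omega), if_neg (by omega), if_neg (by omega), if_pos h1]
  · rw [if_neg (by omega), if_neg (by omega), if_neg (by omega), if_neg (by omega),
      if_neg (by omega), if_pos h1]
  · rw [if_neg (by omega), if_neg (by omega), if_neg (by omega), if_neg (by omega),
      if_neg (by omega), if_neg (by omega)]

lemma grKill01_side (F : Q3) {κ κ' : ℕ} (h : (κ % 8 = 1 ∧ κ' = κ + 9) ∨ (κ' % 8 = 1 ∧ κ = κ' + 9)) :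
    F.mach.side κ' = F.mach.side κ := by
  show decide _ = decide _
  rw [decide_eq_decide]
  omega

lemma grKill01_lb (F : Q3) {κ : ℕ} (h : F.mach.lb κ = true) : κ % 8 = 3 ∨ κ % 8 = 4 ∨ κ % 8 = 7 :=
  of_decide_eq_true h

lemma grKill01_nx {x : ℕ × ℕ} (hx : x = (1, 1) ∨ x = (9, 1)) {κ b : ℕ}
    (h : (κ ≠ 1 ∧ κ ≠ 9) ∨ b ≠ 1) : (κ, b) ≠ x := fun e => by
  rcases hx with rfl | rfl <;> (rw [Prod.mk.injEq] at e; omega)

lemma grKill01_nk {t κ b : ℕ} (h : κ ≠ 8 * t + 2) : (κ, b) ≠ (8 * t + 2, 0) := fun e =>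
  h (congrArg Prod.fst e)

lemma grKill01_al {F : Q3} {t : ℕ} {R : ℕ → Finset ℕ} {φ : ℕ → Bool} {κ b : ℕ}
    (h : κ % 8 = 1 ∨ κ % 8 = 2) : F.alive t R φ (κ, b) ↔ κ / 8 ≤ 2 * F.n ∧ b < 2 ∧
      (κ % 8 = 1 → b = 0 → t ≤ κ / 8) ∧ (κ % 8 = 2 → b = 1 → t ≤ κ / 8) := by
  have s := (grKill01_size F κ).2.1 h
  unfold Q3.alive
  dsimp only
  constructor
  · rintro ⟨a1, a2, a3, -, -⟩
    refine ⟨?_, ?_, a2, a3⟩ <;> clear a2 a3 <;> omega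
  · rintro ⟨a1, a2, a3, a4⟩
    exact ⟨(s.1 a1).symm ▸ a2, a3, a4, fun k => absurd k (by clear s a3 a4; omega),
      fun k => absurd k (by clear s a3 a4; omega)⟩

/-- the case list -/
lemma grKill01_cases (F : Q3) (t : ℕ) (ω : ℕ → ℕ) (κ b : ℕ) :
    (κ % 8 = 1 ∧ κ / 8 = 2 * F.n ∧ F.pk t ω (κ, b) = (κ, 1 - b)) ∨
    (κ % 8 = 1 ∧ κ / 8 ≠ 2 * F.n ∧ b = 0 ∧ F.pk t ω (κ, b) = (κ + 9, 0)) ∨
    (κ % 8 = 2 ∧ b = 0 ∧ t < κ / 8 ∧ F.pk t ω (κ, b) = (κ - 9, 0)) ∨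
    (κ % 8 = 3 ∧ F.pk t ω (κ, b) = (κ, b ^^^ ω (κ / 8))) ∨
    ((κ % 8 = 4 ∨ κ % 8 = 5) ∧ F.pk t ω (κ, b) = (κ, b ^^^ 1)) ∨
    (κ % 8 = 7 ∧ F.pk t ω (κ, b) = (κ, b ^^^ 8)) ∨
    ((κ % 8 ≠ 3 ∧ κ % 8 ≠ 4 ∧ κ % 8 ≠ 5 ∧ κ % 8 ≠ 7) ∧ F.pk t ω (κ, b) = (κ, b)) := by
  have hc : (κ % 8 = 1 ∧ κ / 8 = 2 * F.n) ∨ (κ % 8 = 1 ∧ κ / 8 ≠ 2 * F.n ∧ b = 0) ∨
      (κ % 8 = 2 ∧ b = 0 ∧ t < κ / 8) ∨ κ % 8 = 3 ∨ (κ % 8 = 4 ∨ κ % 8 = 5) ∨ κ % 8 = 7 ∨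
      ((κ % 8 ≠ 3 ∧ κ % 8 ≠ 4 ∧ κ % 8 ≠ 5 ∧ κ % 8 ≠ 7) ∧
        ((κ % 8 = 1 ∧ κ / 8 ≠ 2 * F.n ∧ b ≠ 0) ∨ (κ % 8 = 2 ∧ (b ≠ 0 ∨ κ / 8 ≤ t)) ∨ κ % 8 = 6 ∨
          κ % 8 = 0)) := by omega
  obtain ⟨p1, p2, p3, p4, p5, p6, p7⟩ := grKill01_pk F t ω κ b
  rcases hc with h | h | h | h | h | h | h
  · exact Or.inl ⟨h.1, h.2, p1 h.1 h.2⟩
  · exact Or.inr (Or.inl ⟨h.1, h.2.1, h.2.2, p2 h.1 h.2.1 h.2.2⟩)
  · exact Or.inr (Or.inr (Or.inl ⟨h.1, h.2.1, h.2.2, p3 h.1 h.2.1 h.2.2⟩))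
  · exact Or.inr (Or.inr (Or.inr (Or.inl ⟨h, p4 h⟩)))
  · exact Or.inr (Or.inr (Or.inr (Or.inr (Or.inl ⟨h, p5 h⟩))))
  · exact Or.inr (Or.inr (Or.inr (Or.inr (Or.inr (Or.inl ⟨h, p6 h⟩)))))
  · exact Or.inr (Or.inr (Or.inr (Or.inr (Or.inr (Or.inr ⟨h.1, p7 h.2⟩)))))

lemma grKill01_lt4 {F : Q3} {κ b : ℕ} (h : κ % 8 = 3 ∨ κ % 8 = 4 ∨ κ % 8 = 5) (a : b < F.size κ) :
    b < 4 ∧ F.size κ = 4 := by
  have := (grKill01_size F κ).2.2.1 h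
  omega

theorem t_kill0 (hm : T_mok) : T_kill 0 := by
  intro F hF t R φ ω x _ hω ht hx v hv
  refine ⟨fun _ => ?_, fun h => absurd h (by decide), fun h => absurd h (by decide),
    fun h => absurd h (by decide)⟩
  obtain ⟨κ, b⟩ := v
  have hn := hF.hn
  rw [grKill01_mem hm] at hv ⊢
  obtain ⟨v1, v2, al⟩ := hv
  have nx := @grKill01_nx x hx
  clear hx
  dsimp only
  rcases grKill01_cases F t ω κ b with ⟨h, c1, e⟩ | ⟨h, c1, c2, e⟩ | ⟨h, c1, c2, e⟩ | ⟨h, e⟩ |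
    ⟨h, e⟩ | ⟨h, e⟩ | ⟨h, e⟩
  · obtain ⟨a1, a2, -, -⟩ := (grKill01_al (Or.inl h)).1 al
    rw [e, (grKill01_pk F t ω κ (1 - b)).1 h c1]
    exact ⟨⟨nx (by omega), grKill01_nk (by omega), (grKill01_al (Or.inl h)).2
      ⟨a1, by omega, by omega, by omega⟩⟩, by rw [Prod.mk.injEq]; omega, rfl,
      fun k => absurd (grKill01_lb F k) (by omega)⟩
  · obtain ⟨a1, a2, a3, -⟩ := (grKill01_al (Or.inl h)).1 al
    replace a3 := a3 h c2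
    rw [e, (grKill01_pk F t ω (κ + 9) 0).2.2.1 (by omega) rfl (by omega)]
    exact ⟨⟨nx (by omega), grKill01_nk (by omega), (grKill01_al (by omega)).2
      ⟨by omega, by omega, by omega, by omega⟩⟩, by rw [Prod.mk.injEq]; omega,
      grKill01_side F (Or.inl ⟨h, rfl⟩), fun k => absurd (grKill01_lb F k) (by omega)⟩
  · obtain ⟨a1, a2, -, -⟩ := (grKill01_al (Or.inr h)).1 al
    rw [e, (grKill01_pk F t ω (κ - 9) 0).2.1 (by omega) (by omega) rfl]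
    exact ⟨⟨nx (by omega), grKill01_nk (by omega), (grKill01_al (by omega)).2
      ⟨by omega, by omega, by omega, by omega⟩⟩, by rw [Prod.mk.injEq]; omega,
      grKill01_side F (Or.inr ⟨by omega, by omega⟩), fun k => absurd (grKill01_lb F k) (by omega)⟩
  · obtain ⟨w1, w2, w3⟩ := hω (κ / 8)
    obtain ⟨b1, b2⟩ := grKill01_lt4 (Or.inl h) al.1
    obtain ⟨y1, y2⟩ := grKill01_x4 b b1 _ w2
    replace y2 := y2 w1
    rw [e, (grKill01_pk F t ω κ _).2.2.2.1 h, Nat.xor_xor_cancel_right]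
    exact ⟨⟨nx (by omega), grKill01_nk (by omega), y1.trans_eq b2.symm,
      fun k => absurd (h.symm.trans k) (by decide), fun k => absurd (h.symm.trans k) (by decide),
      fun _ k => al.2.2.2.1 h ((w3 b).1 k), fun k => absurd (h.symm.trans k) (by decide)⟩, rfl, rfl,
      fun _ => ⟨rfl, fun e => y2 (congrArg Prod.snd e)⟩⟩
  · obtain ⟨b1, b2⟩ := grKill01_lt4 (Or.inr h) al.1
    obtain ⟨y1, y2, y3⟩ := grKill01_x1 b b1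
    rw [e, (grKill01_pk F t ω κ _).2.2.2.2.1 h, Nat.xor_xor_cancel_right]
    exact ⟨⟨nx (by omega), grKill01_nk (by omega), y1.trans_eq b2.symm,
      fun k : κ % 8 = 1 => by omega, fun k : κ % 8 = 2 => by omega, fun k : κ % 8 = 3 => by omega,
      fun k1 k2 => not_lt.1 fun k3 => absurd (al.2.2.2.2 k1 k2) (not_le.2 (y3.1 k3))⟩, rfl, rfl,
      fun _ => ⟨rfl, fun e => y2 (congrArg Prod.snd e)⟩⟩
  · have b0 := (grKill01_size F κ).2.2.2 h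
    have b1 : b < F.size κ := al.1
    have b2 : F.size κ = 16 := by omega
    obtain ⟨y1, y2⟩ := grKill01_x8 b (by omega)
    rw [e, (grKill01_pk F t ω κ _).2.2.2.2.2.1 h, Nat.xor_xor_cancel_right]
    exact ⟨⟨nx (by omega), grKill01_nk (by omega), y1.trans_eq b2.symm,
      fun k => absurd (h.symm.trans k) (by decide), fun k => absurd (h.symm.trans k) (by decide),
      fun k => absurd (h.symm.trans k) (by decide), fun k => absurd (h.symm.trans k) (by decide)⟩,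
      rfl, rfl, fun _ => ⟨rfl, fun e => y2 (congrArg Prod.snd e)⟩⟩
  · rw [e, e]
    exact ⟨⟨v1, v2, al⟩, rfl, rfl, fun k => absurd (grKill01_lb F k) (by omega)⟩

lemma grKill01_adjK (F : Q3) (t κ b : ℕ) : F.mach.adj (κ, b) (8 * t + 2, 0) = false ↔
    ¬ ((κ = 8 * t + 1 ∧ b = 0) ∨ (κ + 6 = 8 * t ∧ b = 1)) := by
  rw [← Bool.not_eq_true]
  refine not_congr ?_
  simp only [Q3.mach, Q3.arc, Bool.or_eq_true, decide_eq_true_eq]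
  constructor
  · rintro ((h | h | h | h | h | h | h | h | h | h) | (h | h | h | h | h | h | h | h | h | h)) <;>
      omega
  · rintro (h | h)
    · exact Or.inl (Or.inr (Or.inl ⟨by omega, by omega, h.2, Or.inl trivial⟩))
    · exact Or.inl (Or.inr (Or.inr (Or.inl ⟨by omega, by omega, h.2, trivial⟩)))

lemma grKill01_adjU (F : Q3) (hn : 0 < F.n) (κ b : ℕ) :
    F.mach.adj (κ, b) (1, 1) = false ↔ ¬ (κ = 9 ∧ b = 1) := by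
  rw [← Bool.not_eq_true]
  refine not_congr ?_
  simp only [Q3.mach, Q3.arc, Bool.or_eq_true, decide_eq_true_eq]
  constructor
  · rintro ((h | h | h | h | h | h | h | h | h | h) | (h | h | h | h | h | h | h | h | h | h)) <;>
      omega
  · intro h
    refine Or.inr (Or.inl ?_)
    simp only [true_and, or_true, and_true]
    omega

lemma grKill01_adjV (F : Q3) (κ b : ℕ) :
    F.mach.adj (κ, b) (9, 1) = false ↔ ¬ (κ = 1 ∧ b = 1) := by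
  rw [← Bool.not_eq_true]
  refine not_congr ?_
  simp only [Q3.mach, Q3.arc, Bool.or_eq_true, decide_eq_true_eq]
  constructor
  · rintro ((h | h | h | h | h | h | h | h | h | h) | (h | h | h | h | h | h | h | h | h | h)) <;>
      omega
  · intro h
    refine Or.inl (Or.inl ?_)
    omega

lemma grKill01_od (hm : T_mok) (he : T_elem) (ht : T_tableS) {F : Q3} (hF : F.Ok) {t : ℕ}
    {R : ℕ → Finset ℕ} {φ : ℕ → Bool} {x : ℕ × ℕ} (hR : Q3.Wf R) (h2 : t ≤ 2 * F.n)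
    (hx : x = (1, 1) ∨ x = (9, 1)) {κ b : ℕ} (hv : (κ, b) ∈ F.Kl t R φ x) :
    F.mach.od2 (F.Kl t R φ x) (κ, b) ↔ (κ % 8 = 3 ∧ 2 * (κ / 8) + 1 < t) ∨
      (κ % 8 = 4 ∧ b < 2 ∧ F.en t R (κ / 8)) ∨
      (κ % 8 = 5 ∧ ((b < 2 ∧ φ (F.host (κ / 8)) = true) ∨ (2 ≤ b ∧ F.neg (κ / 8)))) := by
  have hn := hF.hn
  obtain ⟨v1, v2, al⟩ := (grKill01_mem hm F t R φ x _).1 hv
  have st := (hm F).2.2.1 t R φ
  have k1 : (8 * t + 2, 0) ∈ F.St t R φ := by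
    have := (grKill01_size F (8 * t + 2)).2.1
    rw [st]
    unfold Q3.alive
    dsimp only
    exact ⟨by omega, by omega, by omega, by omega, by omega⟩
  have k2 : x ∈ (F.St t R φ).erase (8 * t + 2, 0) := by
    have s1 := (grKill01_size F 1).2.1
    have s9 := (grKill01_size F 9).2.1
    rw [mem_erase, st]
    unfold Q3.alive
    rcases hx with rfl | rfl <;> dsimp only <;>
      exact ⟨fun e => by rw [Prod.mk.injEq] at e; omega, by omega, by omega, by omega, by omega,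
        by omega⟩
  rw [Q3.Kl, (he F.mach _ x k2).1, (he F.mach _ _ k1).1, ht F hF t R φ hR h2 _ ((st _).2 al),
    grKill01_adjK]
  have a3 : κ % 8 = 2 → b = 1 → t ≤ κ / 8 := al.2.2.1
  have v2' : ¬ (κ = 8 * t + 2 ∧ b = 0) := fun e => v2 (by rw [e.1, e.2])
  unfold Q3.tabS Q3.tab Q3.junk
  simp only [Prod.mk.injEq]
  generalize F.en t R (κ / 8) = A
  generalize (φ (F.host (κ / 8)) = true) = B
  generalize F.neg (κ / 8) = C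
  have key : ∀ k k' : ℕ, (k = 1 ∧ k' = 9) ∨ (k = 9 ∧ k' = 1) → ¬ (κ = k ∧ b = 1) →
      (((((κ % 8 = 1 ∧ b = 0 ∧ κ / 8 = t) ∨ (κ % 8 = 3 ∧ 2 * (κ / 8) + 1 < t) ∨
        (κ % 8 = 4 ∧ b < 2 ∧ A)) ∨ (κ = 8 * t + 2 ∧ b = 0) ∨ (κ = 1 ∧ b = 1) ∨ (κ = 9 ∧ b = 1) ∨
        (κ % 8 = 5 ∧ ((κ % 8 = 1 ∧ b = 1 ∧ κ / 8 < 2 * F.n) ∨ (κ % 8 = 2 ∧ κ / 8 < t) ∨
          (κ % 8 = 5 ∧ ((b < 2 ∧ B) ∨ (2 ≤ b ∧ C))) ∨
          (κ % 8 = 6 ∧ ((b = 0 ∧ B) ∨ (b = 1 ∧ C))))) ↔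
        ¬ ((κ = 8 * t + 1 ∧ b = 0) ∨ (κ + 6 = 8 * t ∧ b = 1))) ↔ ¬ (κ = k' ∧ b = 1)) ↔
      (κ % 8 = 3 ∧ 2 * (κ / 8) + 1 < t) ∨ (κ % 8 = 4 ∧ b < 2 ∧ A) ∨
        (κ % 8 = 5 ∧ ((b < 2 ∧ B) ∨ (2 ≤ b ∧ C)))) := by
    intro k k' hk v1'
    have e0 : ¬ (κ + 6 = 8 * t ∧ b = 1) := by omega
    have e1 : (κ % 8 = 1 ∧ b = 0 ∧ κ / 8 = t) ↔ (κ = 8 * t + 1 ∧ b = 0) := by omega
    have e2 : ((κ = 1 ∧ b = 1) ∨ (κ = 9 ∧ b = 1)) ↔ (κ = k' ∧ b = 1) := by omega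
    rw [e1, ← or_assoc (a := κ = 1 ∧ b = 1), e2]
    by_cases c1 : κ = 8 * t + 1 ∧ b = 0
    · have d1 : ¬ (κ = k' ∧ b = 1) := by omega
      have d2 : κ % 8 = 1 := by omega
      simp only [eq_true c1, eq_false d1, d2, Nat.reduceEqDiff, false_and, true_or, or_false,
        not_true, not_false_iff, iff_false, iff_true]
    · by_cases c2 : κ = k' ∧ b = 1
      · have d2 : κ % 8 = 1 := by omega
        simp only [eq_false c1, eq_false e0, eq_true c2, d2, Nat.reduceEqDiff, false_and,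
          or_true, or_false, not_true, not_false_iff, iff_false]
      · simp only [eq_false c1, eq_false e0, eq_false c2, eq_false v2', false_or, or_false,
          not_false_iff, iff_true, or_assoc]
        refine or_congr Iff.rfl (or_congr Iff.rfl (and_congr_right fun h5 => ?_))
        simp only [h5, Nat.reduceEqDiff, false_and, true_and, false_or, or_false]
  rcases hx with rfl | rfl
  · rw [grKill01_adjU F hn]
    exact key 1 9 (Or.inl ⟨rfl, rfl⟩) fun e => v1 (by rw [e.1, e.2])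
  · rw [grKill01_adjV F]
    exact key 9 1 (Or.inr ⟨rfl, rfl⟩) fun e => v1 (by rw [e.1, e.2])

theorem t_kill1 (hm : T_mok) (he : T_elem) (ht : T_tableS) (h0 : T_kill 0) : T_kill 1 := by
  intro F hF t R φ ω x hR hω h2 hx v hv
  refine ⟨fun h => absurd h (by decide), fun _ => ?_, fun h => absurd h (by decide),
    fun h => absurd h (by decide)⟩
  have hp := ((h0 F hF t R φ ω x hR hω h2 hx v hv).1 rfl).1
  obtain ⟨κ, b⟩ := v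
  have a1 : b < F.size κ := ((grKill01_mem hm F t R φ x _).1 hv).2.2.1
  have od := @grKill01_od hm he ht F hF t R φ x hR h2 hx
  clear hx
  have no : ∀ κ' b', (κ', b') ∈ F.Kl t R φ x → κ' % 8 ≠ 3 ∧ κ' % 8 ≠ 4 ∧ κ' % 8 ≠ 5 →
      ¬ F.mach.od2 (F.Kl t R φ x) (κ', b') := by
    intro κ' b' hm' c
    rw [od hm']
    rintro (h | h | h)
    exacts [c.1 h.1, c.2.1 h.1, c.2.2 h.1]
  rcases grKill01_cases F t ω κ b with ⟨h, -, e⟩ | ⟨h, -, -, e⟩ | ⟨h, -, c2, e⟩ | ⟨h, e⟩ |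
    ⟨h, e⟩ | ⟨h, e⟩ | ⟨h, e⟩ <;> rw [e] at hp ⊢
  · exact ⟨iff_of_false (no _ _ hp (by omega)) (no _ _ hv (by omega)), fun _ => no _ _ hv (by omega)⟩
  · exact ⟨iff_of_false (no _ _ hp (by omega)) (no _ _ hv (by omega)), fun _ => no _ _ hv (by omega)⟩
  · exact ⟨iff_of_false (no _ _ hp (by omega)) (no _ _ hv (by omega)), fun _ => no _ _ hv (by omega)⟩
  · obtain ⟨w1, w2, -⟩ := hω (κ / 8)
    refine ⟨?_, fun e => absurd (congrArg Prod.snd e)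
      ((grKill01_x4 b (grKill01_lt4 (Or.inl h) a1).1 _ w2).2 w1)⟩
    rw [od hv, od hp]
    simp only [h, Nat.reduceEqDiff, false_and, or_false]
  · obtain ⟨-, y2, y3⟩ := grKill01_x1 b (grKill01_lt4 (Or.inr h) a1).1
    refine ⟨?_, fun e => absurd (congrArg Prod.snd e) y2⟩
    have y4 : 2 ≤ b ^^^ 1 ↔ 2 ≤ b := by rw [← not_lt, ← not_lt, y3]
    rw [od hv, od hp, y3, y4]
  · exact ⟨iff_of_false (no _ _ hp (by omega)) (no _ _ hv (by omega)), fun _ => no _ _ hv (by omega)⟩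
  · exact ⟨Iff.rfl, fun _ => no _ _ hv ⟨h.1, h.2.1, h.2.2.1⟩⟩

end Pool.Agent.Chomp.GR
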