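import Pool.Agent.Work.MP_ff0f6a_lc.GR.Tsm

/-!
Chomp on graphs: elementary facts about the machine of a formula.
-/

namespace Pool.Agent.Chomp.GR

open Finset Function Pool.Agent.Chomp.SC

theorem grMok_even {α : Type} (s : Finset α) (f : α → α) (h1 : ∀ a ∈ s, f a ∈ s)
    (h2 : ∀ a ∈ s, f (f a) = a) (h3 : ∀ a ∈ s, f a ≠ a) : Even s.card := by
  rw [← ZMod.natCast_eq_zero_iff_even, card_eq_sum_ones, Nat.cast_sum]
  exact sum_involution (fun a _ => f a) (fun _ _ => by decide) (fun a ha _ => h3 a ha) h1 h2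

/-- flip the bit of weight `w` -/
def grMok_fl (w : ℕ) (u : ℕ × ℕ) : ℕ × ℕ := (u.1, if u.2 / w % 2 = 0 then u.2 + w else u.2 - w)

theorem grMok_fl1 (u : ℕ × ℕ) : (grMok_fl 1 u).1 = u.1 ∧ (grMok_fl 1 u).2 / 2 = u.2 / 2 ∧
    (grMok_fl 1 u).2 ≠ u.2 := by
  refine ⟨rfl, ?_⟩
  simp only [grMok_fl]
  split_ifs <;> omega

theorem grMok_fl8 (u : ℕ × ℕ) : (grMok_fl 8 u).1 = u.1 ∧ (grMok_fl 8 u).2 / 16 = u.2 / 16 ∧
    (grMok_fl 8 u).2 % 8 = u.2 % 8 ∧ (grMok_fl 8 u).2 ≠ u.2 := by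
  refine ⟨rfl, ?_⟩
  simp only [grMok_fl]
  split_ifs <;> omega

theorem grMok_even1 (s : Finset (ℕ × ℕ))
    (h : ∀ a ∈ s, ∀ b : ℕ × ℕ, b.1 = a.1 → b.2 / 2 = a.2 / 2 → b ∈ s) : Even s.card := by
  refine grMok_even s (grMok_fl 1) (fun a ha => h a ha _ rfl (grMok_fl1 a).2.1) (fun a _ => ?_)
    fun a _ e => (grMok_fl1 a).2.2 (congrArg Prod.snd e)
  have p := grMok_fl1 a
  have q := grMok_fl1 (grMok_fl 1 a)
  exact Prod.ext rfl (by omega)

theorem grMok_even8 (s : Finset (ℕ × ℕ))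
    (h : ∀ a ∈ s, ∀ b : ℕ × ℕ, b.1 = a.1 → b.2 / 16 = a.2 / 16 → b.2 % 8 = a.2 % 8 → b ∈ s) :
    Even s.card := by
  refine grMok_even s (grMok_fl 8) (fun a ha => h a ha _ rfl (grMok_fl8 a).2.1 (grMok_fl8 a).2.2.1)
    (fun a _ => ?_) fun a _ e => (grMok_fl8 a).2.2.2 (congrArg Prod.snd e)
  have p := grMok_fl8 a
  have q := grMok_fl8 (grMok_fl 8 a)
  exact Prod.ext rfl (by omega)

theorem grMok_side (F : Q3) (u v : ℕ × ℕ) (h : F.arc u v = true) :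
    F.mach.side u.1 ≠ F.mach.side v.1 := by
  simp only [Q3.arc, decide_eq_true_eq] at h
  simp only [Q3.mach, ne_eq, decide_eq_decide]
  rcases h with h | h | h | h | h | h | h | h | h | h <;> omega

theorem grMok_size (F : Q3) (κ : ℕ) :
    F.size κ ≤ 16 ∧ Even (F.size κ) ∧ (0 < F.size κ → 0 < κ ∧ κ < F.mach.K) := by
  show _ ∧ _ ∧ (_ → _ ∧ κ < 8 * (3 * F.n + F.m + 1))
  unfold Q3.size
  split_ifs with a b c
  · exact ⟨le_rfl, by decide, fun _ => by omega⟩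
  · exact ⟨by decide, by decide, fun _ => by omega⟩
  · exact ⟨by decide, by decide, fun _ => by omega⟩
  · exact ⟨by decide, by decide, fun h => absurd h (lt_irrefl _)⟩

theorem grMok_mem (F : Q3) (t R φ u) : u ∈ F.St t R φ ↔ F.alive t R φ u := by
  have := grMok_size F u.1
  simp only [Q3.St, mem_filter, mem_product, mem_range]
  exact ⟨fun h => h.2, fun h => ⟨⟨(this.2.2 (Nat.zero_lt_of_lt h.1)).2, h.1.trans_le this.1⟩, h⟩⟩

theorem grMok_zero (F : Q3) (u : ℕ × ℕ) :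
    u ∈ F.St 0 (fun _ => ∅) (fun _ => false) ↔ u.2 < F.size u.1 := by
  simp [grMok_mem, Q3.alive]

theorem t_mok : T_mok := fun F => by
  have key : ∀ a b : ℕ × ℕ, a.2 < F.size a.1 → b.1 = a.1 → b.2 / 2 = a.2 / 2 →
      b.2 < F.size b.1 := fun a b h e f => by
    obtain ⟨k, hk⟩ := (grMok_size F a.1).2.1
    rw [e]
    omega
  refine ⟨⟨fun u v => Bool.or_comm _ _, fun u v h => ?_⟩, grMok_size F, grMok_mem F,
    fun t R φ u hu => (grMok_size F u.1).2.2 (Nat.zero_lt_of_lt ((grMok_mem F t R φ u).1 hu).1),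
    fun t R φ h => ⟨h, fun u hu => ((grMok_mem F t R φ u).1 hu).1, fun u _ => grMok_mem F t R φ u⟩,
    grMok_even1 _ fun a ha b e f => ?_, fun κ => grMok_even1 _ fun a ha b e f => ?_⟩
  · rcases Bool.or_eq_true _ _ ▸ h with h | h
    exacts [grMok_side F u v h, (grMok_side F v u h).symm]
  · rw [grMok_zero] at ha ⊢
    exact key a b ha e f
  · rw [mem_filter, grMok_zero] at ha ⊢
    exact ⟨key a b ha.1 e f, e.trans ha.2⟩

theorem grMok_adj (F : Q3) (u v : ℕ × ℕ) (hv : v.1 % 8 = 7) : F.mach.adj u v = true ↔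
    (u.1 = 8 * (2 * F.n) + 1 ∧ v.2 / 8 % 2 = 1) ∨ (u.1 % 8 = 5 ∧ u.2 % 2 = 0 ∧
    ((u.1 / 8 = F.lc (v.1 / 8) 0 ∧ v.2 % 2 = 1) ∨ (u.1 / 8 = F.lc (v.1 / 8) 1 ∧ v.2 / 2 % 2 = 1) ∨
     (u.1 / 8 = F.lc (v.1 / 8) 2 ∧ v.2 / 4 % 2 = 1))) := by
  simp only [Q3.mach, Q3.arc, Bool.or_eq_true, decide_eq_true_eq]
  constructor
  · rintro ((h | h | h | h | h | h | h | h | h | h) | h | h | h | h | h | h | h | h | h | h)
    any_goals omega
  · rintro (h | h)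
    · exact .inl (.inr (.inr (.inr (.inr (.inr (.inl ⟨h.1, hv, h.2⟩))))))
    · exact .inl (.inr (.inr (.inr (.inr (.inr (.inr (.inr (.inr (.inr ⟨h.1, hv, h.2⟩)))))))))

theorem grMok_16 (F : Q3) (κ : ℕ) (h : κ % 8 = 7) : F.size κ = 16 ∨ F.size κ = 0 := by
  unfold Q3.size
  split_ifs <;> omega

theorem t_gate : T_gate := fun F s u _ hs => by
  by_cases c : u.1 % 8 = 5
  · refine grMok_even8 _ fun a ha b e f g => ?_
    obtain ⟨h1, h2, h3⟩ := mem_filter.1 ha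
    have h4 : b.1 % 8 = 7 := e ▸ h2
    have h5 := grMok_16 F _ h2
    rw [hs a h2] at h1
    rw [grMok_adj F u a h2] at h3
    refine mem_filter.2 ⟨(hs b h4).2 ?_, h4, (grMok_adj F u b h4).2 ?_⟩ <;> rw [e] <;> omega
  · refine grMok_even1 _ fun a ha b e f => ?_
    obtain ⟨h1, h2, h3⟩ := mem_filter.1 ha
    have h4 : b.1 % 8 = 7 := e ▸ h2
    have h5 := grMok_16 F _ h2
    rw [hs a h2] at h1
    rw [grMok_adj F u a h2] at h3
    refine mem_filter.2 ⟨(hs b h4).2 ?_, h4, (grMok_adj F u b h4).2 ?_⟩ <;> rw [e] <;> omega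

set_option synthInstance.maxSize 1024 in
theorem grMok_m1 : ∀ r ∈ (range 4).powerset, ∀ sg < 3, Even r.card →
    Even (r.filter fun b => b / sg % 2 = 1).card → ∃ ω < 4, 0 < ω ∧
      (∀ b < 4, (b ^^^ ω ∈ r ↔ b ∈ r)) ∧ ω / sg % 2 = 0 := by
  decide +kernel

set_option synthInstance.maxSize 1024 in
theorem grMok_m2 : ∀ r ∈ (range 4).powerset, ∀ sg < 3, ∀ b < 4, Even r.card → b ∉ r →
    Even (r.filter fun x => x / sg % 2 = 1).card → ∃ b' < 4, b' ≠ b ∧ b' ∉ r ∧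
      Even ((insert b (insert b' r)).filter fun x => x / sg % 2 = 1).card := by
  decide +kernel

theorem t_mask : T_mask := by
  refine ⟨fun R hR sg h => ?_, fun r sg b h1 h2 h3 h4 h5 h6 => grMok_m2 r
    (mem_powerset.2 fun x hx => mem_range.2 (h1 x hx)) sg h5 b h3 h2 h4 h6, fun b h1 h2 => ?_⟩
  · choose ω h1 h2 h3 h4 using fun i => grMok_m1 (R i)
      (mem_powerset.2 fun x hx => mem_range.2 ((hR i).1 x hx)) (sg i) (h i).2 (hR i).2 (h i).1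
    refine ⟨ω, fun i => ⟨h2 i, h1 i, fun b => ?_⟩, h4⟩
    by_cases c : b < 4
    · exact h3 i b c
    refine iff_of_false (fun k => c ?_) fun k => c ((hR i).1 b k)
    have := Nat.xor_lt_two_pow (n := 2) ((hR i).1 _ k) (h1 i)
    rwa [Nat.xor_xor_cancel_right] at this
  · obtain rfl | rfl | rfl : b = 1 ∨ b = 2 ∨ b = 3 := by omega
    exacts [⟨1, .inl rfl, by decide⟩, ⟨2, .inr rfl, by decide⟩, ⟨1, .inl rfl, by decide⟩]

end Pool.Agent.Chomp.GR
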