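import Pool.Agent.Work.MP_ff0f6a_lc.GR.Tsm
import Pool.Agent.Work.MP_ff0f6a_lc.PS.Red

-- merged part: Pool.Agent.Work.MP_ff0f6a_lc.SC.Red
section
/-!
Numbering of the vertices; the position is computed in logarithmic space.
-/

namespace Pool.Agent.Chomp.SC

open Finset Function Pool.Agent.Lib.Cx Pool.Agent.Chomp.PS

def renc (R : ℕ) (v : ℕ × ℕ × ℕ) : ℕ := (7 * v.1 + v.2.1) * R + v.2.2
def rdec (R i : ℕ) : ℕ × ℕ × ℕ := (i / R / 7, i / R % 7, i % R)

theorem renc_rdec (R i : ℕ) : renc R (rdec R i) = i := by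
  simp only [renc, rdec, Nat.div_add_mod]
  rw [Nat.mul_comm, Nat.div_add_mod]

theorem rdec_renc {R : ℕ} {v : ℕ × ℕ × ℕ} (h1 : v.2.1 < 7) (h2 : v.2.2 < R) :
    rdec R (renc R v) = v := by
  obtain ⟨a, b, c⟩ := v
  have e : ((7 * a + b) * R + c) / R = 7 * a + b := by
    rw [Nat.add_comm, Nat.add_mul_div_right _ _ (by omega), Nat.div_eq_of_lt h2, Nat.zero_add]
  have e' : ((7 * a + b) * R + c) % R = c := by
    rw [Nat.add_comm, Nat.add_mul_mod_self_right, Nat.mod_eq_of_lt h2]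
  simp only at h1
  simp only [rdec, renc, e, e', Prod.mk.injEq]
  exact ⟨by omega, by omega, trivial⟩

theorem renc_lt {K R : ℕ} {v : ℕ × ℕ × ℕ} (h0 : v.1 < K) (h1 : v.2.1 < 7) (h2 : v.2.2 < R) :
    renc R v < 7 * K * R := by
  have : (7 * v.1 + v.2.1 + 1) * R ≤ 7 * K * R := Nat.mul_le_mul_right _ (by omega)
  rw [Nat.add_mul] at this
  unfold renc; omega

theorem red_image (hm : S_map) (hn : S_not_both) (ht : S_triple) (G : Apex (ℕ × ℕ × ℕ))
    (O : G.Ok) (t : Finset (ℕ × ℕ × ℕ)) (T : G.Tri t) (K R : ℕ)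
    (b : ∀ v ∈ t, v.1 < K ∧ v.2.1 < 7 ∧ v.2.2 < R) (p : Prop)
    (h1 : p → Res true (G.cx t true)) (h2 : ¬ p → Res false (G.cx t true)) :
    ∃ S : Finset (Finset ℕ), Down (7 * K * R) S ∧ (∀ σ ∈ S, σ.card ≤ 3) ∧
      (S.filter fun σ => σ.card = 3).card = 1 ∧ (p ↔ Res true S) ∧
      ∀ i j k, ({i, j, k} : Finset ℕ) ∈ S ↔
        rdec R i ∈ t ∧ rdec R j ∈ t ∧ rdec R k ∈ t ∧
        (i = j ∨ G.A (rdec R i) (rdec R j) = true) ∧ (i = k ∨ G.A (rdec R i) (rdec R k) = true) ∧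
        (j = k ∨ G.A (rdec R j) (rdec R k) = true) := by
  obtain ⟨t1, t2, t3⟩ := ht _ G O t T
  have de : ∀ v ∈ t, rdec R (renc R v) = v := fun v k => rdec_renc (b v k).2.1 (b v k).2.2
  have inj : Set.InjOn (renc R) t := fun u k v l e => by rw [← de u k, e, de v l]
  have dinj : Injective (rdec R) := fun i j e => by rw [← renc_rdec R i, e, renc_rdec]
  have back : ∀ σ ⊆ t, (σ.image (renc R)).image (rdec R) = σ := fun σ k => by
    rw [image_image]
    exact (image_congr (g := id) fun v l => de v (k l)).trans image_id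
  have forth : ∀ ρ : Finset ℕ, (ρ.image (rdec R)).image (renc R) = ρ := fun ρ => by
    rw [image_image]
    exact (image_congr (g := id) fun i _ => renc_rdec R i).trans image_id
  have mem : ∀ ρ : Finset ℕ, ρ ∈ (G.cx t true).image (image (renc R)) ↔
      ρ.image (rdec R) ∈ G.cx t true := fun ρ => by
    rw [mem_image]
    exact ⟨fun ⟨σ, k, e⟩ => by rw [← e, back σ (t1 σ k).2.1]; exact k, fun k => ⟨_, k, forth ρ⟩⟩
  have cd : ∀ ρ : Finset ℕ, (ρ.image (rdec R)).card = ρ.card := fun ρ =>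
    card_image_of_injective _ dinj
  refine ⟨(G.cx t true).image (image (renc R)), ⟨fun σ k => ?_, fun σ k ρ l e => ?_⟩,
    fun σ k => ?_, ?_, ?_, fun i j k => ?_⟩
  · have := t1 _ ((mem σ).1 k)
    refine ⟨this.1.of_image, fun i l => mem_range.2 ?_⟩
    have c := b _ (this.2.1 (mem_image_of_mem _ l))
    rw [← renc_rdec R i]
    exact renc_lt c.1 c.2.1 c.2.2
  · exact (mem ρ).2 ((t1 _ ((mem σ).1 k)).2.2.2.2 _ (image_subset_image l) (e.image _))
  · rw [← cd]; exact (t1 _ ((mem σ).1 k)).2.2.1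
  · have z : ({G.c, G.z, G.w} : Finset _) ∈ G.cx t true := (t3 _ _ _).2 ⟨T.1, T.2.1, T.2.2,
      .inr O.cz, .inr (by rw [O.symm]; exact (O.apex _).2 (.inl rfl)),
      .inr (by rw [O.symm]; exact (O.apex _).2 (.inr rfl))⟩
    refine card_eq_one.2 ⟨({G.c, G.z, G.w} : Finset _).image (renc R), ?_⟩
    ext ρ
    rw [mem_filter, mem, mem_singleton]
    constructor
    · rintro ⟨k, l⟩
      rw [← (t1 _ k).2.2.2.1 (by rw [cd, l]), forth]
    · rintro rfl
      rw [← cd, back _ (t1 _ z).2.1]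
      exact ⟨z, t2⟩
  · have s := fun σ k => (t1 σ k).2.1
    exact ⟨fun k => hm _ _ _ t inj _ _ s (h1 k),
      fun k => by_contra fun l => hn _ _ k (hm _ _ _ t inj _ _ s (h2 l))⟩
  · rw [mem, image_insert, image_insert, image_singleton, t3]
    simp only [dinj.eq_iff]

theorem red_det (k : ℕ) : ∀ S : Finset (Finset (ℕ × ℕ × ℕ)), S.card = k →
    Res true S ∨ Res false S := by
  induction k using Nat.strong_induction_on with
  | _ k ih =>
    intro S e
    by_cases c : ∃ σ ∈ S, Res false (cut S σ)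
    · obtain ⟨σ, c1, c2⟩ := c
      exact .inl (.win _ σ c1 c2)
    · refine .inr (.lose _ fun σ c1 => (ih _ ?_ _ rfl).resolve_right fun c2 => c ⟨σ, c1, c2⟩)
      rw [← e]
      exact card_lt_card ⟨filter_subset _ _, fun k => by simpa [cut] using k c1⟩

def rvb (Q : Qb) (v : ℕ × ℕ × ℕ) : Bool := decide (
  (v.2.2 = 0 ∧ ¬ (v.1 = 8 ∧ v.2.1 = 0) ∧ v.2.1 < Q.size v.1 ∧
    (v.1 % 8 = 0 → 0 < v.1 / 8 ∨ (v.1 / 8 = 0 ∧ v.2.1 = 1))) ∨
  (v.1 < Q.mach.K ∧ v.2.1 < 2 ∧ 1 ≤ v.2.2 ∧ v.2.2 ≤ tau v.1 v.2.1 + 1) ∨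
  (v.1 = 0 ∧ v.2.2 = 0 ∧ 4 ≤ v.2.1 ∧ v.2.1 ≤ 6))

def reb (Q : Qb) (R i j : ℕ) : Bool :=
  decide (i = j) || (Q.mach.arc (rdec R i) (rdec R j) || Q.mach.arc (rdec R j) (rdec R i))

def rtb (Q : Qb) (R i j k : ℕ) : Bool :=
  rvb Q (rdec R i) && (rvb Q (rdec R j) && (rvb Q (rdec R k) &&
    (reb Q R i j && (reb Q R i k && reb Q R j k))))

theorem red_q (hm : S_map) (hn : S_not_both) (ht : S_triple) (h0 : S_Gok) (hv : S_vs)
    (hk : S_mok) (Q : Qb) (K : ℕ) (c : Q.mach.K = K) :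
    ∃ S : Finset (Finset ℕ), Down (7 * K * (4 * K + 8)) S ∧ (∀ σ ∈ S, σ.card ≤ 3) ∧
      (S.filter fun σ => σ.card = 3).card = 1 ∧ (Res true (Q.mach.pos Q.s1 true) ↔ Res true S) ∧
      ∀ i j k, rtb Q (4 * K + 8) i j k = decide (({i, j, k} : Finset ℕ) ∈ S) := by
  obtain ⟨k1, -, k3, k4, -⟩ := hk Q
  have I : Q.mach.In Q.s1 := fun u k => k4 _ _ _ u (mem_of_mem_erase k)
  obtain ⟨v1, v2, -⟩ := hv _ k1 _ full I fun _ _ => le_rfl
  have K0 : 0 < K := by
    rw [← c]; show 0 < 8 * (3 * Q.n + Q.m + 3); omega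
  have bd : ∀ v ∈ Q.mach.vs Q.s1 full, v.1 < K ∧ v.2.1 < 7 ∧ v.2.2 < 4 * K + 8 := fun v k => by
    rcases (v2 v).1 k with k | k | k
    · have := I _ k.2
      simp only at this
      omega
    · simp only [full, tau] at k; omega
    · omega
  obtain ⟨S, s1, s2, s3, s4, s5⟩ := red_image hm hn ht _ (h0 _ k1) _ v1 K (4 * K + 8) bd
    (Res true (Q.mach.pos Q.s1 true)) id fun k => (red_det _ _ rfl).resolve_left k
  refine ⟨S, s1, s2, s3, s4, fun i j k => ?_⟩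
  have e1 : ∀ v, rvb Q v = true ↔ v ∈ Q.mach.vs Q.s1 full := fun v => by
    rw [v2, rvb, decide_eq_true_eq, Qb.s1, mem_erase, k3]
    simp [Qb.alive, full]
  rw [Bool.eq_iff_iff, decide_eq_true_eq, s5]
  simp only [rtb, reb, Bool.and_eq_true, e1, Bool.or_eq_true, decide_eq_true_eq]
  simp only [Mach.G, Bool.or_eq_true]

namespace Ls

variable {α : Type} [Obj α] {g : ℕ} (F : Fam g) {f : α → List Bool}

def Q (x : List Bool) : Qb := qb (Sv.par F x)
def n (x : List Bool) : ℕ := (Q F x).n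
def m (x : List Bool) : ℕ := (Q F x).m
def q (x : List Bool) (i : ℕ) : Bool := (Q F x).q i
def sg (x : List Bool) (j i : ℕ) : ℕ := (Q F x).sg j i
def size (x : List Bool) (κ : ℕ) : ℕ := (Q F x).size κ
def arc (x : List Bool) (u v : ℕ × ℕ) : Bool := (Q F x).arc u v
def K (x : List Bool) : ℕ := (Q F x).mach.K
def side (κ : ℕ) : Bool := decide (if κ % 8 = 0 then κ / 8 % 2 = 1 else κ % 8 ≠ 2 ∧ κ % 8 ≠ 4)
def fix (x : List Bool) (κ : ℕ) : Bool := (Q F x).mach.fix κ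
def garc (x : List Bool) (u v : ℕ × ℕ × ℕ) : Bool := (Q F x).mach.arc u v

@[fun_prop] theorem ls_n (hf : LS f) : LS fun a => n F (f a) := by
  show LS fun a => 1 + (Sv.T F (f a) - 1) * Sv.M F (f a); fun_prop
@[fun_prop] theorem ls_m (hf : LS f) : LS fun a => m F (f a) := by
  show LS fun a => Sv.T F (f a) * Sv.M F (f a) * Sv.M F (f a); fun_prop
@[fun_prop] theorem ls_K (hf : LS f) : LS fun a => K F (f a) := by
  show LS fun a => 8 * (3 * n F (f a) + m F (f a) + 3); fun_prop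
@[fun_prop] theorem ls_q {i : α → ℕ} (hf : LS f) (hi : LS i) : LS fun a => q F (f a) (i a) := by
  show LS fun a => decide (1 ≤ i a ∧ (i a - 1) / Sv.M F (f a) % 2 = 0); fun_prop
@[fun_prop] theorem ls_sign {M i j : α → ℕ} (hM : LS M) (hi : LS i) (hj : LS j) :
    LS fun a => sign (M a) (i a) (j a) := by unfold sign; fun_prop
@[fun_prop] theorem ls_sg {i j : α → ℕ} (hf : LS f) (hj : LS j) (hi : LS i) :
    LS fun a => sg F (f a) (j a) (i a) := by
  unfold sg Q qb Par.s0 Sv.par; dsimp only; fun_prop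
@[fun_prop] theorem ls_size {i : α → ℕ} (hf : LS f) (hi : LS i) :
    LS fun a => size F (f a) (i a) := by
  show LS fun a => if (i a % 8 = 1 ∧ i a / 8 < n F (f a) ∧ q F (f a) (i a / 8) = true) ∨
      (i a % 8 = 4 ∧ i a / 8 + 1 = m F (f a)) then 4
    else if (i a % 8 = 0 ∧ i a / 8 ≤ 2 * n F (f a)) ∨ (i a % 8 = 1 ∧ i a / 8 < n F (f a)) ∨
      (i a % 8 = 2 ∧ i a / 8 < 3 * n F (f a)) ∨ ((i a % 8 = 3 ∨ i a % 8 = 4) ∧ i a / 8 < m F (f a)) ∨
      (i a % 8 = 5 ∧ i a / 8 < 2) ∨ i a = 6 then 2 else 0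
  fun_prop
@[fun_prop] theorem ls_arc {u v : α → ℕ × ℕ} (hf : LS f) (hu : LS u) (hv : LS v) :
    LS fun a => arc F (f a) (u a) (v a) := by
  have e1 : ∀ x, (Q F x).n = n F x := fun _ => rfl
  have e2 : ∀ x, (Q F x).m = m F x := fun _ => rfl
  have e3 : ∀ x i, (Q F x).q i = q F x i := fun _ _ => rfl
  have e4 : ∀ x j i, (Q F x).sg j i = sg F x j i := fun _ _ _ => rfl
  simp only [arc, Qb.arc, e1, e2, e3, e4]
  fun_prop
@[fun_prop] theorem ls_side {i : α → ℕ} (hi : LS i) : LS fun a => side (i a) := by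
  have : LS fun a => decide ((i a % 8 = 0 ∧ i a / 8 % 2 = 1) ∨
      (i a % 8 ≠ 0 ∧ i a % 8 ≠ 2 ∧ i a % 8 ≠ 4)) := by fun_prop
  refine this.congr fun a => ?_
  unfold side
  by_cases h : i a % 8 = 0 <;> simp [h]
@[fun_prop] theorem ls_fix {i : α → ℕ} (hf : LS f) (hi : LS i) :
    LS fun a => fix F (f a) (i a) := by
  show LS fun a => decide ((i a % 8 = 0 ∧ i a / 8 < 2 * n F (f a)) ∨
    (i a % 8 = 1 ∧ q F (f a) (i a / 8) = true) ∨
    (i a % 8 = 2 ∧ i a / 8 % 3 = 1 ∧ q F (f a) (i a / 8 / 3) = false) ∨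
    (i a % 8 = 3 ∧ n F (f a) % 2 = 1) ∨ i a % 8 = 4 ∨ i a % 8 = 6)
  fun_prop
@[fun_prop] theorem ls_tau {i j : α → ℕ} (hi : LS i) (hj : LS j) : LS fun a => tau (i a) (j a) := by
  unfold tau; fun_prop
@[fun_prop] theorem ls_garc {u v : α → ℕ × ℕ × ℕ} (hf : LS f) (hu : LS u) (hv : LS v) :
    LS fun a => garc F (f a) (u a) (v a) := by
  have e1 : ∀ x u v, (Q F x).mach.adj u v = (arc F x u v || arc F x v u) := fun _ _ _ => rfl
  have e2 : ∀ x i, (Q F x).mach.side i = side i := fun _ _ => rfl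
  have e3 : ∀ x i, (Q F x).mach.fix i = fix F x i := fun _ _ => rfl
  simp only [garc, Mach.arc, e1, e2, e3]
  fun_prop
@[fun_prop] theorem ls_rdec {i j : α → ℕ} (hi : LS i) (hj : LS j) :
    LS fun a => rdec (i a) (j a) := by unfold rdec; fun_prop

def vb (x : List Bool) (v : ℕ × ℕ × ℕ) : Bool := rvb (Q F x) v
def eb (x : List Bool) (R i j : ℕ) : Bool := reb (Q F x) R i j
def tb (x : List Bool) (R i j k : ℕ) : Bool := rtb (Q F x) R i j k

@[fun_prop] theorem ls_vb {v : α → ℕ × ℕ × ℕ} (hf : LS f) (hv : LS v) :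
    LS fun a => vb F (f a) (v a) := by
  have e1 : ∀ x i, (Q F x).size i = size F x i := fun _ _ => rfl
  have e2 : ∀ x, (Q F x).mach.K = K F x := fun _ => rfl
  simp only [vb, rvb, e1, e2]
  fun_prop

@[fun_prop] theorem ls_eb {R i j : α → ℕ} (hf : LS f) (hR : LS R) (hi : LS i) (hj : LS j) :
    LS fun a => eb F (f a) (R a) (i a) (j a) := by
  have e1 : ∀ x u v, (Q F x).mach.arc u v = garc F x u v := fun _ _ _ => rfl
  simp only [eb, reb, e1]
  fun_prop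

@[fun_prop] theorem ls_tb {R i j k : α → ℕ} (hf : LS f) (hR : LS R) (hi : LS i) (hj : LS j)
    (hk : LS k) : LS fun a => tb F (f a) (R a) (i a) (j a) (k a) := by
  have e1 : ∀ x v, rvb (Q F x) v = vb F x v := fun _ _ => rfl
  have e2 : ∀ x R i j, reb (Q F x) R i j = eb F x R i j := fun _ _ _ _ => rfl
  simp only [tb, rtb, e1, e2]
  fun_prop

def cf (x : List Bool) (R N : ℕ) : List Bool × List Bool :=
  (List.replicate N true, (List.range N).flatMap fun i => (List.range N).flatMap fun j =>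
    (List.range N).map fun k => tb F x R i j k)

theorem ls_cf : LS fun x => cf F x (4 * K F x + 8) (7 * K F x * (4 * K F x + 8)) := by
  unfold cf; fun_prop

theorem cf_eq (x : List Bool) (R N : ℕ) (S : Finset (Finset ℕ))
    (h : ∀ i j k, rtb (Q F x) R i j k = decide (({i, j, k} : Finset ℕ) ∈ S)) :
    cf F x R N = table N S := by simp only [cf, table, tb, h]

end Ls

theorem p_hard (hm : S_map) (hn : S_not_both) (ht : S_triple) (h0 : S_Gok) (hv : S_vs)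
    (hk : S_mok) (h1 : S_main) (h2 : S_enc) {L : List Bool → Bool} (hL : L ∈ PSPACE) :
    ∃ f, LogspaceComputable f ∧ ∀ x, ∃ n S, f x = N487b59b3.bitEncode (table n S) ∧ Down n S ∧
      (∀ σ ∈ S, σ.card ≤ 3) ∧ (S.filter fun σ => σ.card = 3).card = 1 ∧
      (L x = true ↔ Res true S) := by
  obtain ⟨g, F, hF⟩ := exists_fam_of_PSPACE hL
  have l1 := Ls.ls_cf F
  have l2 : LogspaceComputable fun x => N487b59b3.bitEncode
      (Ls.cf F x (4 * Ls.K F x + 8) (7 * Ls.K F x * (4 * Ls.K F x + 8))) := by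
    have := LS.append (LS.listDl (LS.bitEncodeList l1.fst)) (LS.bitEncodeList l1.snd)
    have e : ∀ p : List Bool × List Bool, dl (N487b59b3.bitEncode p.1) ++
      N487b59b3.bitEncode p.2 = N487b59b3.bitEncode p := fun p => (bitEncode_pair p.1 p.2).symm
    exact LS.logspaceComputable (this.congr fun x => e _)
  refine ⟨_, l2, fun x => ?_⟩
  obtain ⟨a1, a2, a3⟩ := h2 (Sv.par F x) (Sv.ok F x).hM
    (by show 3 ≤ Sv.T F x; unfold Sv.T Sv.tE; omega)
    (by show Sv.T F x % 2 = 1; unfold Sv.T Sv.tE; omega)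
  obtain ⟨S, s1, s2, s3, s4, s5⟩ := red_q hm hn ht h0 hv hk (Ls.Q F x) (Ls.K F x) rfl
  refine ⟨_, S, by rw [Ls.cf_eq F x _ _ S s5], s1, s2, s3, ?_⟩
  rw [← s4, h1 (Ls.Q F x) a1 a2]
  refine ⟨fun k l => a3.1 l (Sv.accept ((hF x).1 k)), fun k => by_contra fun l => ?_⟩
  exact k (a3.2 (Sv.reject fun c => l ((hF x).2 c)))

end Pool.Agent.Chomp.SC
end

-- merged part: Pool.Agent.Work.MP_ff0f6a_lc.GR.Red
section
/-!
Numbering of the vertices; the graph is computed in logarithmic space.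
-/

namespace Pool.Agent.Chomp.GR

open Finset Function Pool.Agent.Lib.Cx Pool.Agent.Chomp.PS Pool.Agent.Chomp.SC

def genc (R : ℕ) (v : ℕ × ℕ × ℕ) : ℕ := (16 * v.1 + v.2.1) * R + v.2.2
def gdec (R i : ℕ) : ℕ × ℕ × ℕ := (i / R / 16, i / R % 16, i % R)

theorem genc_gdec (R i : ℕ) : genc R (gdec R i) = i := by
  simp only [genc, gdec, Nat.div_add_mod]
  rw [Nat.mul_comm, Nat.div_add_mod]

theorem gdec_genc {R : ℕ} {v : ℕ × ℕ × ℕ} (h1 : v.2.1 < 16) (h2 : v.2.2 < R) :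
    gdec R (genc R v) = v := by
  obtain ⟨a, b, c⟩ := v
  have e : ((16 * a + b) * R + c) / R = 16 * a + b := by
    rw [Nat.add_comm, Nat.add_mul_div_right _ _ (by omega), Nat.div_eq_of_lt h2, Nat.zero_add]
  have e' : ((16 * a + b) * R + c) % R = c := by
    rw [Nat.add_comm, Nat.add_mul_mod_self_right, Nat.mod_eq_of_lt h2]
  simp only at h1
  simp only [gdec, genc, e, e', Prod.mk.injEq]
  exact ⟨by omega, by omega, trivial⟩

theorem genc_lt {K R : ℕ} {v : ℕ × ℕ × ℕ} (h0 : v.1 < K) (h1 : v.2.1 < 16) (h2 : v.2.2 < R) :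
    genc R v < 16 * K * R := by
  have : (16 * v.1 + v.2.1 + 1) * R ≤ 16 * K * R := Nat.mul_le_mul_right _ (by omega)
  rw [Nat.add_mul] at this
  unfold genc; omega

theorem gred_image (hm : S_map) (hn : S_not_both) (ht : T_pairs) (G : Apex (ℕ × ℕ × ℕ))
    (O : G.Ok) (t : Finset (ℕ × ℕ × ℕ)) (K R : ℕ)
    (b : ∀ v ∈ t, v.1 < K ∧ v.2.1 < 16 ∧ v.2.2 < R) (p : Prop)
    (h1 : p → Res true (G.cx t false)) (h2 : ¬ p → Res false (G.cx t false)) :
    ∃ S : Finset (Finset ℕ), Down (16 * K * R) S ∧ (∀ σ ∈ S, σ.card ≤ 2) ∧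
      (∃ (col : ℕ → Bool) (e : Finset ℕ), ∀ i j, i ≠ j → ({i, j} : Finset ℕ) ∈ S →
        ({i, j} : Finset ℕ) ≠ e → col i ≠ col j) ∧ (p ↔ Res true S) ∧
      ∀ i j, ({i, j} : Finset ℕ) ∈ S ↔
        gdec R i ∈ t ∧ gdec R j ∈ t ∧ (i = j ∨ G.A (gdec R i) (gdec R j) = true) := by
  obtain ⟨t1, t3, col, t4⟩ := ht _ G O t
  have de : ∀ v ∈ t, gdec R (genc R v) = v := fun v k => gdec_genc (b v k).2.1 (b v k).2.2
  have inj : Set.InjOn (genc R) t := fun u k v l e => by rw [← de u k, e, de v l]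
  have dinj : Injective (gdec R) := fun i j e => by rw [← genc_gdec R i, e, genc_gdec]
  have back : ∀ σ ⊆ t, (σ.image (genc R)).image (gdec R) = σ := fun σ k => by
    rw [image_image]
    exact (image_congr (g := id) fun v l => de v (k l)).trans image_id
  have forth : ∀ ρ : Finset ℕ, (ρ.image (gdec R)).image (genc R) = ρ := fun ρ => by
    rw [image_image]
    exact (image_congr (g := id) fun i _ => genc_gdec R i).trans image_id
  have mem : ∀ ρ : Finset ℕ, ρ ∈ (G.cx t false).image (image (genc R)) ↔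
      ρ.image (gdec R) ∈ G.cx t false := fun ρ => by
    rw [mem_image]
    exact ⟨fun ⟨σ, k, e⟩ => by rw [← e, back σ (t1 σ k).2.1]; exact k, fun k => ⟨_, k, forth ρ⟩⟩
  have cd : ∀ ρ : Finset ℕ, (ρ.image (gdec R)).card = ρ.card := fun ρ =>
    card_image_of_injective _ dinj
  have pr : ∀ i j, ({i, j} : Finset ℕ) ∈ (G.cx t false).image (image (genc R)) ↔
      gdec R i ∈ t ∧ gdec R j ∈ t ∧ (i = j ∨ G.A (gdec R i) (gdec R j) = true) := fun i j => by
    rw [mem, image_insert, image_singleton, t3]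
    simp only [dinj.eq_iff]
  refine ⟨(G.cx t false).image (image (genc R)), ⟨fun σ k => ?_, fun σ k ρ l e => ?_⟩,
    fun σ k => ?_, ⟨fun i => col (gdec R i), ({G.c, G.w} : Finset _).image (genc R),
      fun i j k l e => ?_⟩, ?_, pr⟩
  · have := t1 _ ((mem σ).1 k)
    refine ⟨this.1.of_image, fun i l => mem_range.2 ?_⟩
    have c := b _ (this.2.1 (mem_image_of_mem _ l))
    rw [← genc_gdec R i]
    exact genc_lt c.1 c.2.1 c.2.2
  · exact (mem ρ).2 ((t1 _ ((mem σ).1 k)).2.2.2 _ (image_subset_image l) (e.image _))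
  · rw [← cd]; exact (t1 _ ((mem σ).1 k)).2.2.1
  · refine t4 _ _ (((pr i j).1 l).2.2.resolve_left k) fun c => e ?_
    rw [← c, image_insert, image_singleton, genc_gdec, genc_gdec]
  · have s := fun σ k => (t1 σ k).2.1
    exact ⟨fun k => hm _ _ _ t inj _ _ s (h1 k),
      fun k => by_contra fun l => hn _ _ k (hm _ _ _ t inj _ _ s (h2 l))⟩

def gvb (Q : Q3) (v : ℕ × ℕ × ℕ) : Bool := decide (
  (v.2.2 = 0 ∧ v.2.1 < Q.size v.1) ∨
  (v.1 < Q.mach.K ∧ v.2.1 < 2 ∧ 1 ≤ v.2.2 ∧ v.2.2 ≤ tau v.1 v.2.1 + 1) ∨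
  (v.1 = 0 ∧ v.2.2 = 0 ∧ 4 ≤ v.2.1 ∧ v.2.1 ≤ 6))

def geb (Q : Q3) (R i j : ℕ) : Bool :=
  gvb Q (gdec R i) && (gvb Q (gdec R j) &&
    (decide (i = j) || (Q.mach.arc2 (gdec R i) (gdec R j) || Q.mach.arc2 (gdec R j) (gdec R i))))

theorem gred_q (hm : S_map) (hn : S_not_both) (ht : T_pairs) (h0 : T_Gok) (hv : T_vs)
    (hk : T_mok) (Q : Q3) (K : ℕ) (c : Q.mach.K = K) :
    ∃ S : Finset (Finset ℕ), Down (16 * K * (4 * K + 8)) S ∧ (∀ σ ∈ S, σ.card ≤ 2) ∧
      (∃ (col : ℕ → Bool) (e : Finset ℕ), ∀ i j, i ≠ j → ({i, j} : Finset ℕ) ∈ S →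
        ({i, j} : Finset ℕ) ≠ e → col i ≠ col j) ∧
      (Q.mach.W (Q.St 0 (fun _ => ∅) fun _ => false) ↔ Res true S) ∧
      ∀ i j, geb Q (4 * K + 8) i j = decide (({i, j} : Finset ℕ) ∈ S) := by
  obtain ⟨k1, k2, k3, k4, -⟩ := hk Q
  have I := k4 0 (fun _ => ∅) fun _ => false
  obtain ⟨-, v2, -⟩ := hv _ k1 _ SC.full I fun _ _ => le_rfl
  have K0 : 0 < K := by
    rw [← c]; show 0 < 8 * (3 * Q.n + Q.m + 1); omega
  have bd : ∀ v ∈ Q.mach.vs (Q.St 0 (fun _ => ∅) fun _ => false) SC.full,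
      v.1 < K ∧ v.2.1 < 16 ∧ v.2.2 < 4 * K + 8 := fun v k => by
    rcases (v2 v).1 k with k | k | k
    · have a := I _ k.2
      have b := ((k3 _ _ _ _).1 k.2).1
      have d := (k2 v.1).1
      simp only at a b
      omega
    · simp only [SC.full, tau] at k; omega
    · omega
  obtain ⟨S, s1, s2, s3, s4, s5⟩ := gred_image hm hn ht _ (h0 _ k1) _ K (4 * K + 8) bd
    (Q.mach.W (Q.St 0 (fun _ => ∅) fun _ => false)) id fun k => (red_det _ _ rfl).resolve_left k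
  refine ⟨S, s1, s2, s3, s4, fun i j => ?_⟩
  have e1 : ∀ v, gvb Q v = true ↔ v ∈ Q.mach.vs (Q.St 0 (fun _ => ∅) fun _ => false) SC.full :=
    fun v => by
      rw [v2, gvb, decide_eq_true_eq, k3]
      simp [Q3.alive, SC.full]
  rw [Bool.eq_iff_iff, decide_eq_true_eq, s5]
  simp only [geb, Bool.and_eq_true, e1, Bool.or_eq_true, decide_eq_true_eq]
  simp only [Mg.G2, Bool.or_eq_true]

namespace Lg

variable {α : Type} [Obj α] {g : ℕ} (F : Fam g) {f : α → List Bool}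

def Q (x : List Bool) : Q3 := ts (Ls.Q F x)
def n (x : List Bool) : ℕ := (Q F x).n
def m (x : List Bool) : ℕ := (Q F x).m
def q (x : List Bool) (i : ℕ) : Bool := (Q F x).q i
def lc (x : List Bool) (j i : ℕ) : ℕ := (Q F x).lc j i
def size (x : List Bool) (κ : ℕ) : ℕ := (Q F x).size κ
def arc (x : List Bool) (u v : ℕ × ℕ) : Bool := (Q F x).arc u v
def K (x : List Bool) : ℕ := (Q F x).mach.K
def side (κ : ℕ) : Bool := decide ((κ % 8 = 1 ∧ κ / 8 % 2 = 1) ∨ (κ % 8 = 2 ∧ κ / 8 % 2 = 0) ∨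
  κ % 8 = 4 ∨ κ % 8 = 6 ∨ κ % 8 = 7)
def fix (κ : ℕ) : Bool := decide (κ % 8 = 4 ∨ κ % 8 = 7)
def lb (κ : ℕ) : Bool := decide (κ % 8 = 3 ∨ κ % 8 = 4 ∨ κ % 8 = 7)
def garc (x : List Bool) (u v : ℕ × ℕ × ℕ) : Bool := (Q F x).mach.arc2 u v

@[fun_prop] theorem lg_n (hf : LS f) : LS fun a => n F (f a) := by
  show LS fun a => Ls.n F (f a) + Ls.m F (f a) * (Ls.n F (f a) + 1) + 2; fun_prop
@[fun_prop] theorem lg_m (hf : LS f) : LS fun a => m F (f a) := by
  show LS fun a => Ls.m F (f a) * (Ls.n F (f a) + 3); fun_prop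
@[fun_prop] theorem lg_K (hf : LS f) : LS fun a => K F (f a) := by
  show LS fun a => 8 * (3 * n F (f a) + m F (f a) + 1); fun_prop
@[fun_prop] theorem lg_q {i : α → ℕ} (hf : LS f) (hi : LS i) : LS fun a => q F (f a) (i a) := by
  show LS fun a => if i a < Ls.n F (f a) then Ls.q F (f a) (i a)
    else decide (Ls.n F (f a) + Ls.m F (f a) * (Ls.n F (f a) + 1) ≤ i a)
  fun_prop
@[fun_prop] theorem lg_lc {i j : α → ℕ} (hf : LS f) (hj : LS j) (hi : LS i) :
    LS fun a => lc F (f a) (j a) (i a) := by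
  have e1 : ∀ x, (Ls.Q F x).n = Ls.n F x := fun _ => rfl
  have e2 : ∀ x, (Ls.Q F x).m = Ls.m F x := fun _ => rfl
  have e4 : ∀ x j i, (Ls.Q F x).sg j i = Ls.sg F x j i := fun _ _ _ => rfl
  simp only [lc, Q, ts, tsl, e1, e2, e4]
  fun_prop
@[fun_prop] theorem lg_size {i : α → ℕ} (hf : LS f) (hi : LS i) :
    LS fun a => size F (f a) (i a) := by
  have e1 : ∀ x, (Q F x).n = n F x := fun _ => rfl
  have e2 : ∀ x, (Q F x).m = m F x := fun _ => rfl
  have e3 : ∀ x i, (Q F x).q i = q F x i := fun _ _ => rfl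
  simp only [size, Q3.size, e1, e2, e3]
  fun_prop
@[fun_prop] theorem lg_arc {u v : α → ℕ × ℕ} (hf : LS f) (hu : LS u) (hv : LS v) :
    LS fun a => arc F (f a) (u a) (v a) := by
  have e1 : ∀ x, (Q F x).n = n F x := fun _ => rfl
  have e3 : ∀ x i, (Q F x).q i = q F x i := fun _ _ => rfl
  have e4 : ∀ x j i, (Q F x).lc j i = lc F x j i := fun _ _ _ => rfl
  simp only [arc, Q3.arc, e1, e3, e4]
  fun_prop
@[fun_prop] theorem lg_side {i : α → ℕ} (hi : LS i) : LS fun a => side (i a) := by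
  unfold side; fun_prop
@[fun_prop] theorem lg_fix {i : α → ℕ} (hi : LS i) : LS fun a => fix (i a) := by
  unfold fix; fun_prop
@[fun_prop] theorem lg_lb {i : α → ℕ} (hi : LS i) : LS fun a => lb (i a) := by
  unfold lb; fun_prop
@[fun_prop] theorem lg_garc {u v : α → ℕ × ℕ × ℕ} (hf : LS f) (hu : LS u) (hv : LS v) :
    LS fun a => garc F (f a) (u a) (v a) := by
  have e1 : ∀ x u v, (Q F x).mach.adj u v = (arc F x u v || arc F x v u) := fun _ _ _ => rfl
  have e2 : ∀ x i, (Q F x).mach.side i = side i := fun _ _ => rfl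
  have e3 : ∀ x i, (Q F x).mach.fix i = fix i := fun _ _ => rfl
  have e4 : ∀ x i, (Q F x).mach.lb i = lb i := fun _ _ => rfl
  simp only [garc, Mg.arc2, e1, e2, e3, e4]
  fun_prop
@[fun_prop] theorem lg_gdec {i j : α → ℕ} (hi : LS i) (hj : LS j) :
    LS fun a => gdec (i a) (j a) := by unfold gdec; fun_prop

def vb (x : List Bool) (v : ℕ × ℕ × ℕ) : Bool := gvb (Q F x) v
def eb (x : List Bool) (R i j : ℕ) : Bool := geb (Q F x) R i j

@[fun_prop] theorem lg_vb {v : α → ℕ × ℕ × ℕ} (hf : LS f) (hv : LS v) :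
    LS fun a => vb F (f a) (v a) := by
  have e1 : ∀ x i, (Q F x).size i = size F x i := fun _ _ => rfl
  have e2 : ∀ x, (Q F x).mach.K = K F x := fun _ => rfl
  simp only [vb, gvb, e1, e2]
  fun_prop

@[fun_prop] theorem lg_eb {R i j : α → ℕ} (hf : LS f) (hR : LS R) (hi : LS i) (hj : LS j) :
    LS fun a => eb F (f a) (R a) (i a) (j a) := by
  have e1 : ∀ x u v, (Q F x).mach.arc2 u v = garc F x u v := fun _ _ _ => rfl
  have e2 : ∀ x v, gvb (Q F x) v = vb F x v := fun _ _ => rfl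
  simp only [eb, geb, e1, e2]
  fun_prop

def cf (x : List Bool) (R N : ℕ) : List Bool × List Bool :=
  (List.replicate N true, (List.range N).flatMap fun i => (List.range N).map fun j => eb F x R i j)

theorem lg_cf : LS fun x => cf F x (4 * K F x + 8) (16 * K F x * (4 * K F x + 8)) := by
  unfold cf; fun_prop

theorem cf_eq (x : List Bool) (R N : ℕ) (S : Finset (Finset ℕ))
    (h : ∀ i j, geb (Q F x) R i j = decide (({i, j} : Finset ℕ) ∈ S)) :
    cf F x R N = matrix N S := by simp only [cf, matrix, eb, h]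

end Lg

theorem t_hard (hm : S_map) (hn : S_not_both) (ht : T_pairs) (h0 : T_Gok) (hv : T_vs)
    (hk : T_mok) (hz : T_zero) (ho : T_one) (h1 : T_tsok) (h3 : T_ts) (h2 : S_enc)
    {L : List Bool → Bool} (hL : L ∈ PSPACE) :
    ∃ f, LogspaceComputable f ∧ ∀ x, ∃ n S, f x = N487b59b3.bitEncode (matrix n S) ∧ Down n S ∧
      (∀ σ ∈ S, σ.card ≤ 2) ∧
      (∃ (col : ℕ → Bool) (e : Finset ℕ), ∀ i j, i ≠ j → ({i, j} : Finset ℕ) ∈ S →
        ({i, j} : Finset ℕ) ≠ e → col i ≠ col j) ∧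
      (L x = true ↔ Res true S) := by
  obtain ⟨g, F, hF⟩ := exists_fam_of_PSPACE hL
  have l1 := Lg.lg_cf F
  have l2 : LogspaceComputable fun x => N487b59b3.bitEncode
      (Lg.cf F x (4 * Lg.K F x + 8) (16 * Lg.K F x * (4 * Lg.K F x + 8))) := by
    have := LS.append (LS.listDl (LS.bitEncodeList l1.fst)) (LS.bitEncodeList l1.snd)
    have e : ∀ p : List Bool × List Bool, dl (N487b59b3.bitEncode p.1) ++
      N487b59b3.bitEncode p.2 = N487b59b3.bitEncode p := fun p => (bitEncode_pair p.1 p.2).symm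
    exact LS.logspaceComputable (this.congr fun x => e _)
  refine ⟨_, l2, fun x => ?_⟩
  obtain ⟨a1, a2, a3⟩ := h2 (Sv.par F x) (Sv.ok F x).hM
    (by show 3 ≤ Sv.T F x; unfold Sv.T Sv.tE; omega)
    (by show Sv.T F x % 2 = 1; unfold Sv.T Sv.tE; omega)
  obtain ⟨S, s1, s2, s3, s4, s5⟩ := gred_q hm hn ht h0 hv hk (Lg.Q F x) (Lg.K F x) rfl
  refine ⟨_, S, by rw [Lg.cf_eq F x _ _ S s5], s1, s2, s3, ?_⟩
  have b1 := h1 _ a1
  have b2 := h3 _ a1 a2
  rw [← s4]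
  refine ⟨fun k => ho _ b1 _ fun l => a3.1 (b2.1 l) (Sv.accept ((hF x).1 k)),
    fun k => by_contra fun l => ?_⟩
  exact hn _ _ k (hz _ b1 _ (b2.2 (a3.2 (Sv.reject fun c => l ((hF x).2 c)))))

end Pool.Agent.Chomp.GR
end
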