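import Pool.Agent.Work.MP_ff0f6a_lc.GR.Tsm

-- merged part: Pool.Agent.Work.MP_ff0f6a_lc.GR.End1
section
/-!
A clause with three active sensors is won by the first player.
-/

namespace Pool.Agent.Chomp.GR

open Finset Function Pool.Agent.Chomp.SC

lemma grEnd1_no (F : Q3) {u v : ℕ × ℕ} (h : (u.1 % 8 = 7 ∧ v.1 % 8 = 7) ∨
    (u.1 % 8 = 4 ∧ v.1 % 8 = 7) ∨ (u.1 % 8 = 5 ∧ v.1 % 8 = 5) ∨ (u.1 % 8 = 4 ∧ v.1 % 8 = 4)) :
    F.mach.adj u v = false := by
  rw [← Bool.not_eq_true]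
  simp only [Q3.mach, Q3.arc, Bool.or_eq_true, decide_eq_true_eq]
  intro q
  omega

lemma grEnd1_SH (F : Q3) {u : ℕ × ℕ} (hu : u.1 % 8 = 5) (j h : ℕ) :
    F.mach.adj u (8 * j + 7, h) = true ↔ u.2 % 2 = 0 ∧ ((u.1 / 8 = F.lc j 0 ∧ h % 2 = 1) ∨
      (u.1 / 8 = F.lc j 1 ∧ h / 2 % 2 = 1) ∨ (u.1 / 8 = F.lc j 2 ∧ h / 4 % 2 = 1)) := by
  have e : (8 * j + 7) / 8 = j := by omega
  simp only [Q3.mach, Q3.arc, Bool.or_eq_true, decide_eq_true_eq, e]
  constructor
  · intro q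
    omega
  · intro q
    exact Or.inl (Or.inr (Or.inr (Or.inr (Or.inr (Or.inr (Or.inr (Or.inr (Or.inr (Or.inr
      ⟨hu, by omega, q⟩)))))))))

lemma grEnd1_Y (F : Q3) {d k : ℕ} {v : ℕ × ℕ} (h : F.mach.adj (8 * d + 4, k) v = true) :
    (v.1 % 8 = 1 ∧ v.2 = 0 ∧ v.1 / 8 ≤ 2 * (d / 3) + 2) ∨ v.1 % 8 = 3 ∨
      (v.1 % 8 = 5 ∧ k = v.2 / 2 * 2 ∧
        (v.1 / 8 = d ∨ (v.1 / 8 = d + 1 ∧ v.2 < 2 ∧ F.neg (v.1 / 8)))) := by
  simp only [Q3.mach, Q3.arc, Bool.or_eq_true, decide_eq_true_eq] at h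
  rcases h with h | h | h | h | h | h | h | h | ⟨h1, -, h2, h3 | ⟨h3, h4, h5⟩⟩ | h
  · omega
  · omega
  · omega
  · omega
  · omega
  · exact Or.inl (by omega)
  · omega
  · exact Or.inr (Or.inl h.1)
  · exact Or.inr (Or.inr ⟨h1, h2, Or.inl (by omega)⟩)
  · exact Or.inr (Or.inr ⟨h1, h2, Or.inr ⟨by omega, h4, h5⟩⟩)
  · omega

lemma grEnd1_arc (F : Q3) {u v : ℕ × ℕ} (h1 : u.1 % 8 = 5) (h2 : v.1 % 8 = 4)
    (h3 : v.2 = u.2 / 2 * 2) (h4 : v.1 + 1 = u.1 ∨ (v.1 + 9 = u.1 ∧ u.2 < 2 ∧ F.neg (u.1 / 8))) :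
    F.mach.adj v u = true := by
  simp only [Q3.mach, Q3.arc, Bool.or_eq_true, decide_eq_true_eq]
  exact Or.inr (Or.inr (Or.inr (Or.inr (Or.inr (Or.inr (Or.inr (Or.inr (Or.inl
    ⟨h1, h2, h3, h4⟩))))))))

lemma grEnd1_lb (F : Q3) (κ : ℕ) : F.mach.lb κ = true ↔ κ % 8 = 3 ∨ κ % 8 = 4 ∨ κ % 8 = 7 := by
  simp only [Q3.mach, decide_eq_true_eq]

lemma grEnd1_keep (he : T_elem) {P : Mg} {s : Finset (ℕ × ℕ)} {u : ℕ × ℕ} (hu : u ∈ s)
    {v : ℕ × ℕ} (h : P.adj v u = false) : P.od2 (s.erase u) v ↔ P.od2 s v := by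
  rw [(he P s u hu).1 v]
  simp [h]

lemma grEnd1_flip (he : T_elem) {P : Mg} {s : Finset (ℕ × ℕ)} {u : ℕ × ℕ} (hu : u ∈ s)
    {v : ℕ × ℕ} (h : P.adj v u = true) : P.od2 (s.erase u) v ↔ ¬ P.od2 s v := by
  rw [(he P s u hu).1 v]
  simp [h]

/-- the data of an active sensor -/
lemma grEnd1_host (F : Q3) {φ : ℕ → Bool} {c : ℕ} (h1 : c / 3 < F.n) (h2 : c % 3 ≠ 0)
    (ha : F.act φ c) : ∃ d b, F.host c = d ∧ d / 3 = c / 3 ∧ ¬ F.neg d ∧ F.size (8 * d + 4) = 4 ∧
      (φ d = false → F.q (d / 3) = true) ∧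
      ((F.neg c ∧ d + 1 = c ∧ b = 0 ∧ φ d = false) ∨ (¬ F.neg c ∧ d = c ∧ b = 2 ∧ φ d = true)) := by
  by_cases hn : F.neg c
  · have e : F.host c = c - 1 := if_pos hn
    have e1 := hn.1
    have e2 : (c - 1) / 3 = c / 3 := by omega
    have e3 : φ (c - 1) = false := by
      rw [← Bool.not_eq_true, ← e]
      exact fun q => ha.1 q hn
    refine ⟨c - 1, 0, e, e2, fun q => by have := q.1; omega, ?_, fun _ => e2 ▸ hn.2,
      Or.inl ⟨hn, by omega, rfl, e3⟩⟩
    unfold Q3.size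
    rw [if_neg (by omega), if_pos (Or.inr (Or.inl ⟨by omega, by omega, Or.inl (by omega)⟩))]
  · have e : F.host c = c := if_neg hn
    have e3 : φ c = true := e ▸ ha.2 hn
    refine ⟨c, 2, e, rfl, hn, ?_, fun q => by simp [e3] at q, Or.inr ⟨hn, rfl, rfl, e3⟩⟩
    have e4 : (8 * c + 4) / 8 = c := by omega
    unfold Q3.size
    have e5 : c % 3 = 1 ∨ (c % 3 = 2 ∧ F.q (c / 3) = false) := by
      by_cases q : c % 3 = 1
      · exact Or.inl q
      · refine Or.inr ⟨by omega, ?_⟩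
        rw [← Bool.not_eq_true]
        exact fun r => hn ⟨by omega, r⟩
    rw [if_neg (by omega), e4, if_pos (Or.inr (Or.inl ⟨by omega, h1, e5⟩))]

theorem t_end1 (hm : T_mok) (he : T_elem) (hr : T_round) (ht : T_table) (hh : T_half) :
    T_end1 := by
  intro F hF s R φ hG hI j hj ha
  obtain ⟨r1, r2, -⟩ := hr F.mach (hm F).1
  have tb := ht F hF s _ R φ hI le_rfl
  have sz : F.size (8 * j + 7) = 16 := by
    unfold Q3.size
    rw [if_pos ⟨by omega, by omega⟩]
  obtain ⟨h, h08, ho, hne⟩ : ∃ h, (h = 0 ∨ h = 8) ∧ F.mach.od2 s (8 * j + 7, h) ∧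
      ¬ F.mach.od2 s (8 * j + 7, 8 - h) := by
    have e := hh F hF s R φ hI j hj 0 (by norm_num)
    rw [Nat.zero_xor] at e
    by_cases q : F.mach.od2 s (8 * j + 7, 0)
    · exact ⟨0, Or.inl rfl, q, fun r => e.1 r q⟩
    · exact ⟨8, Or.inr rfl, e.2 q, q⟩
  have hu : (8 * j + 7, h) ∈ s := by
    refine (hI.2.2 _ ?_).2 ⟨?_, ?_, ?_, ?_, ?_⟩
    · unfold Q3.junk
      omega
    all_goals
      dsimp only
      omega
  refine r2 s _ hG hu ho fun v hv ov sv => ?_
  have g2 := r1 s _ v hG hu ho hv ov sv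
  obtain ⟨κ, h'⟩ := v
  obtain rfl : κ = 8 * j + 7 := sv (Or.inl ((grEnd1_lb F _).2 (by omega)))
  have n1 : h' ≠ h := fun e => (mem_erase.1 hv).1 (by rw [e])
  have n2 : h' < 16 := sz ▸ hI.2.1 _ (mem_erase.1 hv).2
  have n3 : h' ≠ 8 - h := fun e => hne (e ▸
    (grEnd1_keep he hu (grEnd1_no F (Or.inl ⟨by omega, by omega⟩))).1 ov)
  obtain ⟨p, hp, hb⟩ : ∃ p < 3, (p = 0 ∧ h' % 2 = 1) ∨ (p = 1 ∧ h' / 2 % 2 = 1) ∨
      (p = 2 ∧ h' / 4 % 2 = 1) := by
    by_cases q0 : h' % 2 = 1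
    · exact ⟨0, by norm_num, Or.inl ⟨rfl, q0⟩⟩
    by_cases q1 : h' / 2 % 2 = 1
    · exact ⟨1, by norm_num, Or.inr (Or.inl ⟨rfl, q1⟩)⟩
    · exact ⟨2, by norm_num, Or.inr (Or.inr ⟨rfl, by omega⟩)⟩
  obtain ⟨c1, c2⟩ := hF.hv j hj p hp
  obtain ⟨d, b, d1, d2, d3, d4, d5, d6⟩ := grEnd1_host F c1 c2 (ha p hp)
  have hi := hF.hi j hj p hp
  generalize hc : F.lc j p = c at *
  have c8 : (8 * c + 5) / 8 = c := by omega
  have d8 : (8 * d + 4) / 8 = d := by omega
  have b02 : b = 0 ∨ b = 2 := d6.elim (fun q => Or.inl q.2.2.1) fun q => Or.inr q.2.2.1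
  have su : ∀ x : ℕ × ℕ, x.1 % 8 = 5 → F.mach.adj x (8 * j + 7, h) = false := fun x hx => by
    rw [← Bool.not_eq_true, grEnd1_SH F hx]
    omega
  have ev : ∀ x ∈ s, x.1 % 8 = 5 → ¬ F.junk (2 * F.n + 1) φ x → ¬ F.mach.od2 s x := by
    intro x hx e q
    rw [tb x hx (by omega) q (fun r => by rw [r] at e; omega)]
    unfold Q3.tab
    omega
  have jW : ¬ F.junk (2 * F.n + 1) φ (8 * c + 5, b) := by
    unfold Q3.junk
    dsimp only
    rw [c8, d1]
    rintro (r | r | ⟨-, ⟨r, r'⟩ | ⟨r, r'⟩⟩ | r)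
    · omega
    · omega
    · rcases d6 with ⟨-, -, -, q⟩ | ⟨-, -, q, -⟩
      · simp [q] at r'
      · omega
    · rcases d6 with ⟨-, -, q, -⟩ | ⟨q, -⟩
      · omega
      · exact q r'
    · omega
  have hW : (8 * c + 5, b) ∈ s := by
    have e : F.size (8 * c + 5) = 4 := by
      unfold Q3.size
      rw [if_neg (by omega), if_pos (Or.inr (Or.inr ⟨by omega, by omega, by omega⟩))]
    refine (hI.2.2 _ jW).2 ⟨?_, ?_, ?_, ?_, ?_⟩
    all_goals
      dsimp only
      omega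
  have hW2 : (8 * c + 5, b) ∈ (s.erase (8 * j + 7, h)).erase (8 * j + 7, h') :=
    mem_erase.2 ⟨fun e => by have := (Prod.mk.inj e).1; omega,
      mem_erase.2 ⟨fun e => by have := (Prod.mk.inj e).1; omega, hW⟩⟩
  have oW : F.mach.od2 ((s.erase (8 * j + 7, h)).erase (8 * j + 7, h')) (8 * c + 5, b) := by
    rw [grEnd1_flip he hv, grEnd1_keep he hu (su _ (by omega))]
    · exact ev _ hW (by omega) jW
    · rw [grEnd1_SH F (by omega)]
      dsimp only
      rw [c8, ← hc]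
      rcases hb with ⟨rfl, q⟩ | ⟨rfl, q⟩ | ⟨rfl, q⟩
      · exact ⟨by omega, Or.inl ⟨rfl, q⟩⟩
      · exact ⟨by omega, Or.inr (Or.inl ⟨rfl, q⟩)⟩
      · exact ⟨by omega, Or.inr (Or.inr ⟨rfl, q⟩)⟩
  have jY : ∀ k, ¬ F.junk (2 * F.n + 1) φ (8 * d + 4, k) := fun k => by
    unfold Q3.junk
    omega
  have aY : ∀ k, (8 * d + 4, k) ∈ s → φ d = true → 2 ≤ k := fun k hk q =>
    ((hI.2.2 _ (jY k)).1 hk).2.2.2.2 (by omega) (d8.symm ▸ q)
  have eY : ∀ k, (8 * d + 4, k) ∈ s → ¬ F.mach.od2 s (8 * d + 4, k) := by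
    intro k hk
    rw [tb _ hk (by omega) (jY k) (fun r => by have := (Prod.mk.inj r).1; omega)]
    rintro (q | q | ⟨-, q1, q2⟩)
    · omega
    · omega
    · have q3 : φ d = false := by
        rw [← Bool.not_eq_true]
        exact fun r => absurd (aY k hk r) (by omega)
      dsimp only at q2
      rw [d8] at q2
      rcases q2 with q2 | q2
      · omega
      · simp [d5 q3] at q2
  have aW : ∀ k, F.mach.adj (8 * d + 4, k) (8 * c + 5, b) = true ↔ k = b := by
    intro k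
    refine ⟨fun q => by have := grEnd1_Y F q; omega, fun q => ?_⟩
    refine grEnd1_arc F (by omega) (by omega) (by dsimp only; omega) ?_
    rcases d6 with ⟨q1, q2, q3, -⟩ | ⟨-, q2, -⟩
    · exact Or.inr ⟨by dsimp only; omega, by dsimp only; omega, c8.symm ▸ q1⟩
    · exact Or.inl (by dsimp only; omega)
  refine r2 _ _ g2 hW2 oW fun w hw ow sw => ?_
  have g4 := r1 _ _ w g2 hW2 oW hw ow sw
  have lw : ¬ (w.1 % 8 = 3 ∨ w.1 % 8 = 4 ∨ w.1 % 8 = 7) := fun q => by
    have := sw (Or.inr ((grEnd1_lb F _).2 q))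
    omega
  have ws : w ∈ s := (mem_erase.1 (mem_erase.1 (mem_erase.1 hw).2).2).2
  have nY : ∀ k, (8 * d + 4, k) ∈ s → F.mach.adj (8 * d + 4, k) w = false := by
    intro k hk
    rw [← Bool.not_eq_true]
    intro q
    have a1 := aY k hk
    rcases grEnd1_Y F q with ⟨q1, q2, q3⟩ | q1 | ⟨q1, q2, q3⟩
    · have := ((hI.2.2 w (by unfold Q3.junk; omega)).1 ws).2.1 q1 q2
      omega
    · omega
    have e1 : F.host (w.1 / 8) = d := by
      rcases q3 with q3 | ⟨q3, -, q4⟩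
      · rw [q3]
        exact if_neg d3
      · rw [Q3.host, if_pos q4]
        omega
    have jw : ¬ F.junk (2 * F.n + 1) φ w := by
      unfold Q3.junk
      rw [e1]
      rintro (q4 | q4 | ⟨-, ⟨q4, q5⟩ | ⟨q4, q5⟩⟩ | q4)
      · omega
      · omega
      · have := a1 q5
        omega
      · rcases q3 with q3 | q3
        · exact d3 (q3 ▸ q5)
        · omega
      · omega
    have e2 : w.1 / 8 / 3 = c / 3 := by
      rcases q3 with q3 | ⟨q3, -, q4, -⟩ <;> omega
    have e3 : F.mach.adj w (8 * j + 7, h') = false := by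
      rw [← Bool.not_eq_true, grEnd1_SH F q1]
      rintro ⟨q4, q5⟩
      have e4 : w.1 / 8 = c := by
        rcases q5 with ⟨q5, -⟩ | ⟨q5, -⟩ | ⟨q5, -⟩
        · rw [q5, ← hi 0 (by norm_num) (by omega), hc]
        · rw [q5, ← hi 1 (by norm_num) (by omega), hc]
        · rw [q5, ← hi 2 (by norm_num) (by omega), hc]
      have e5 : w.2 ≠ b := fun r => (mem_erase.1 hw).1 (Prod.ext (by dsimp only; omega) r)
      have e6 : w.2 < 4 := by
        have e7 := hI.2.1 w ws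
        unfold Q3.size at e7
        split_ifs at e7 <;> omega
      rcases d6 with ⟨-, q6, q7, -⟩ | ⟨-, q6, q7, q8⟩
      · omega
      · have := a1 q8
        omega
    rw [grEnd1_keep he hW2 (grEnd1_no F (by omega)), grEnd1_keep he hv e3,
      grEnd1_keep he hu (su w q1)] at ow
    exact ev w ws q1 jw ow
  have oY : ∀ k, (8 * d + 4, k) ∈ s → (F.mach.od2 ((((s.erase (8 * j + 7, h)).erase
      (8 * j + 7, h')).erase (8 * c + 5, b)).erase w) (8 * d + 4, k) ↔ k = b) := by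
    intro k hk
    have e1 : ¬ F.mach.od2 ((s.erase (8 * j + 7, h)).erase (8 * j + 7, h')) (8 * d + 4, k) := by
      rw [grEnd1_keep he hv (grEnd1_no F (by omega)), grEnd1_keep he hu (grEnd1_no F (by omega))]
      exact eY k hk
    rw [grEnd1_keep he hw (nY k hk), (he _ _ _ hW2).1, ← Bool.not_eq_true, aW]
    simp [e1]
  have hy : (8 * d + 4, b) ∈ s := by
    refine (hI.2.2 _ (jY b)).2 ⟨?_, ?_, ?_, ?_, fun _ q => ?_⟩
    iterate 4
      dsimp only
      omega
    dsimp only at q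
    rw [d8] at q
    rcases d6 with ⟨-, -, -, q1⟩ | ⟨-, -, q1, -⟩
    · simp [q1] at q
    · exact q1.ge
  have hy4 : (8 * d + 4, b) ∈ (((s.erase (8 * j + 7, h)).erase
      (8 * j + 7, h')).erase (8 * c + 5, b)).erase w :=
    mem_erase.2 ⟨fun e => lw (by rw [← e]; omega),
      mem_erase.2 ⟨fun e => by have := (Prod.mk.inj e).1; omega,
        mem_erase.2 ⟨fun e => by have := (Prod.mk.inj e).1; omega,
          mem_erase.2 ⟨fun e => by have := (Prod.mk.inj e).1; omega, hy⟩⟩⟩⟩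
  refine r2 _ _ g4 hy4 ((oY b hy).2 rfl) fun z hz oz sz' => ?_
  obtain ⟨κ, k⟩ := z
  obtain rfl : κ = 8 * d + 4 := sz' (Or.inl ((grEnd1_lb F _).2 (by omega)))
  rw [grEnd1_keep he hy4 (grEnd1_no F (by omega)), oY k (mem_erase.1 (mem_erase.1 (mem_erase.1
    (mem_erase.1 (mem_erase.1 hz).2).2).2).2).2] at oz
  exact absurd (by rw [oz]) (mem_erase.1 hz).1

end Pool.Agent.Chomp.GR
end

-- merged part: Pool.Agent.Work.MP_ff0f6a_lc.GR.Fin01
section
/-!
Chomp on graphs: structure and parity of the final pairing.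
-/

namespace Pool.Agent.Chomp.GR

open Finset Function Pool.Agent.Chomp.SC

/-- the mask of the final pairing -/
def grFin01_mu (a : ℕ → Bool) (ω p : ℕ → ℕ) (κ : ℕ) : ℕ :=
  if κ % 8 = 3 then ω (κ / 8)
  else if κ % 8 = 4 ∨ κ % 8 = 5 then (if tr a (κ / 8) then 2 else 1)
  else if κ % 8 = 6 ∧ tr a (κ / 8) then 1
  else if κ % 8 = 7 then 2 ^ p (κ / 8) else 0

theorem grFin01_pf (a : ℕ → Bool) (ω p : ℕ → ℕ) (u : ℕ × ℕ) :
    Q3.pf a ω p u = (u.1, u.2 ^^^ grFin01_mu a ω p u.1) := by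
  unfold Q3.pf grFin01_mu
  split_ifs <;> simp

theorem grFin01_ne {b m : ℕ} (hm : m ≠ 0) : b ^^^ m ≠ b := fun e => hm (by
  have h := congrArg (fun x => b ^^^ x) e
  simpa [← Nat.xor_assoc] using h)

theorem grFin01_lt4 {b m : ℕ} (hb : b < 4) (hm : m < 4) : b ^^^ m < 4 :=
  Nat.xor_lt_two_pow (n := 2) hb hm

theorem grFin01_one {b : ℕ} (hb : b < 4) : (b ^^^ 1 < 2 ↔ b < 2) := by
  interval_cases b <;> decide

theorem grFin01_hi {b q : ℕ} (hb : b < 16) (hq : q < 3) :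
    b ^^^ 2 ^ q < 16 ∧ (b ^^^ 2 ^ q) / 8 % 2 = b / 8 % 2 := by
  interval_cases q <;> interval_cases b <;> decide

theorem grFin01_mem (hm : T_mok) (F : Q3) (R : ℕ → Finset ℕ) (φ : ℕ → Bool) (u : ℕ × ℕ) :
    u ∈ F.Fn R φ ↔ u ≠ (1, 1) ∧ u ≠ (8 * (2 * F.n) + 1, 0) ∧ F.alive (2 * F.n) R φ u := by
  unfold Q3.Fn
  rw [mem_erase, mem_erase, (hm F).2.2.1]

theorem grFin01_size (F : Q3) (κ b : ℕ) (h : b < F.size κ) :
    (κ % 8 = 7 ∧ κ / 8 < F.m ∧ F.size κ = 16) ∨
    (κ % 8 = 3 ∧ κ / 8 < F.n ∧ F.size κ = 4) ∨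
    (κ % 8 = 4 ∧ κ / 8 / 3 < F.n ∧ ¬ F.neg (κ / 8) ∧ F.size κ = 4) ∨
    (κ % 8 = 5 ∧ κ / 8 / 3 < F.n ∧ F.size κ = 4) ∨
    ((κ % 8 = 1 ∨ κ % 8 = 2) ∧ κ / 8 ≤ 2 * F.n ∧ F.size κ = 2) ∨
    (κ % 8 = 6 ∧ F.size κ = 2) := by
  unfold Q3.size at h ⊢
  split_ifs at h ⊢ with h1 h2 h3
  · exact Or.inl ⟨h1.1, h1.2, rfl⟩
  · rcases h2 with h2 | h2 | h2
    · exact Or.inr (Or.inl ⟨h2.1, h2.2.1, rfl⟩)
    · refine Or.inr (Or.inr (Or.inl ⟨h2.1, h2.2.1, fun hn => ?_, rfl⟩))
      rcases h2.2.2 with h4 | h4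
      · have := hn.1
        omega
      · have := hn.2
        rw [h4.2] at this
        exact Bool.noConfusion this
    · exact Or.inr (Or.inr (Or.inr (Or.inl ⟨h2.1, h2.2.1, rfl⟩)))
  · rcases h3 with h3 | h3
    · exact Or.inr (Or.inr (Or.inr (Or.inr (Or.inl ⟨h3.1, h3.2, rfl⟩))))
    · exact Or.inr (Or.inr (Or.inr (Or.inr (Or.inr ⟨h3.1, rfl⟩))))
  · omega

theorem t_fin0 (hm : T_mok) : T_fin 0 := by
  intro F hF R φ ω p a hW hA hI hω hp v hv
  refine ⟨fun _ => ?_, fun h => absurd h (by decide), fun h => absurd h (by decide),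
    fun h => absurd h (by decide)⟩
  rw [grFin01_mem hm] at hv
  obtain ⟨κ, b⟩ := v
  obtain ⟨n1, n2, hs, a1, a2, a3, a4⟩ := hv
  simp only at hs a1 a2 a3 a4
  have key : ((κ, b ^^^ grFin01_mu a ω p κ) ≠ (1, 1) ∧
      (κ, b ^^^ grFin01_mu a ω p κ) ≠ (8 * (2 * F.n) + 1, 0) ∧
      F.alive (2 * F.n) R φ (κ, b ^^^ grFin01_mu a ω p κ)) ∧
      (F.mach.lb κ = true → grFin01_mu a ω p κ ≠ 0) := by
    have far : κ % 8 ≠ 1 → ∀ x : ℕ, (κ, x) ≠ (1, 1) ∧ (κ, x) ≠ (8 * (2 * F.n) + 1, 0) :=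
      fun h x => ⟨fun e => h (by rw [(Prod.mk.inj e).1]), fun e => h (by
        rw [(Prod.mk.inj e).1]
        omega)⟩
    rcases grFin01_size F κ b hs with ⟨r, c, e⟩ | ⟨r, c, e⟩ | ⟨r, c, ng, e⟩ | ⟨r, c, e⟩ |
      ⟨r, c, e⟩ | ⟨r, e⟩
    · have m : grFin01_mu a ω p κ = 2 ^ p (κ / 8) := by
        unfold grFin01_mu
        rw [if_neg (by omega), if_neg (by omega), if_neg (fun h => by omega), if_pos r]
      rw [m]
      refine ⟨⟨(far (by omega) _).1, (far (by omega) _).2, ?_, fun h => ?_, fun h => ?_,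
        fun h => ?_, fun h => ?_⟩, fun _ => by positivity⟩
      · show b ^^^ 2 ^ p (κ / 8) < F.size κ
        rw [e] at hs ⊢
        exact (grFin01_hi hs (hp _ c).1).1
      all_goals (simp only at h; omega)
    · have m : grFin01_mu a ω p κ = ω (κ / 8) := by
        unfold grFin01_mu
        rw [if_pos r]
      rw [m]
      refine ⟨⟨(far (by omega) _).1, (far (by omega) _).2, ?_, fun h => ?_, fun h => ?_,
        fun _ => ?_, fun h => ?_⟩, fun _ => (hA _).1.ne'⟩
      · show b ^^^ ω (κ / 8) < F.size κ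
        rw [e] at hs ⊢
        exact grFin01_lt4 hs (hA _).2.1
      · simp only at h; omega
      · simp only at h; omega
      · show b ^^^ ω (κ / 8) ∉ R (κ / 8)
        rw [(hA _).2.2]
        exact a3 r
      · simp only at h; omega
    · have m : grFin01_mu a ω p κ = if tr a (κ / 8) then 2 else 1 := by
        unfold grFin01_mu
        rw [if_neg (by omega), if_pos (Or.inl r)]
      rw [m]
      rw [e] at hs
      refine ⟨⟨(far (by omega) _).1, (far (by omega) _).2, ?_, fun h => ?_, fun h => ?_,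
        fun h => ?_, fun _ hφ => ?_⟩, fun _ => by split_ifs <;> decide⟩
      · show b ^^^ (if tr a (κ / 8) then 2 else 1) < F.size κ
        rw [e]
        exact grFin01_lt4 hs (by split_ifs <;> decide)
      · simp only at h; omega
      · simp only at h; omega
      · simp only at h; omega
      · show 2 ≤ b ^^^ (if tr a (κ / 8) then 2 else 1)
        have hφ' : φ (κ / 8) = true := hφ
        by_cases ht : tr a (κ / 8)
        · refine absurd ?_ (hI _ c ht).1
          unfold Q3.act Q3.host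
          rw [if_neg ng]
          exact ⟨fun _ => ng, fun _ => hφ'⟩
        · rw [if_neg ht]
          have h1 := grFin01_one hs
          have h2 := a4 r hφ'
          omega
    · have m : grFin01_mu a ω p κ = if tr a (κ / 8) then 2 else 1 := by
        unfold grFin01_mu
        rw [if_neg (by omega), if_pos (Or.inr r)]
      rw [m]
      rw [e] at hs
      refine ⟨⟨(far (by omega) _).1, (far (by omega) _).2, ?_, fun h => ?_, fun h => ?_,
        fun h => ?_, fun h => ?_⟩, fun _ => by split_ifs <;> decide⟩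
      · show b ^^^ (if tr a (κ / 8) then 2 else 1) < F.size κ
        rw [e]
        exact grFin01_lt4 hs (by split_ifs <;> decide)
      all_goals (simp only at h; omega)
    · have m : grFin01_mu a ω p κ = 0 := by
        unfold grFin01_mu
        rw [if_neg (by omega), if_neg (by omega), if_neg (fun h => by omega), if_neg (by omega)]
      rw [m, Nat.xor_zero]
      refine ⟨⟨n1, n2, hs, a1, a2, a3, a4⟩, fun h => ?_⟩
      simp only [Q3.mach, decide_eq_true_eq] at h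
      omega
    · have m : grFin01_mu a ω p κ < 2 := by
        unfold grFin01_mu
        rw [if_neg (by omega), if_neg (by omega)]
        split_ifs with h1 h2
        · decide
        · omega
        · decide
      refine ⟨⟨(far (by omega) _).1, (far (by omega) _).2, ?_, fun h => ?_, fun h => ?_,
        fun h => ?_, fun h => ?_⟩, fun h => ?_⟩
      · show b ^^^ grFin01_mu a ω p κ < F.size κ
        rw [e] at hs ⊢
        exact Nat.xor_lt_two_pow (n := 1) hs m
      · simp only at h; omega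
      · simp only at h; omega
      · simp only at h; omega
      · simp only at h; omega
      · simp only [Q3.mach, decide_eq_true_eq] at h
        omega
  rw [grFin01_pf, grFin01_pf, grFin01_mem hm]
  refine ⟨key.1, ?_, rfl, fun h => ⟨rfl, fun e => grFin01_ne (key.2 h) (Prod.mk.inj e).2⟩⟩
  simp only [Nat.xor_assoc, Nat.xor_self, Nat.xor_zero]

/-- the odd vertices at the end -/
def grFin01_O (F : Q3) (R : ℕ → Finset ℕ) (φ : ℕ → Bool) (κ b : ℕ) : Prop :=
  κ % 8 = 3 ∨ (κ % 8 = 4 ∧ b < 2 ∧ F.q (κ / 8 / 3) = false ∧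
    Odd ((R (κ / 8 / 3)).filter fun x => x / (κ / 8 % 3) % 2 = 1).card) ∨
  (κ % 8 = 5 ∧ ((b < 2 ∧ φ (F.host (κ / 8)) = true) ∨ (2 ≤ b ∧ F.neg (κ / 8)))) ∨
  (κ % 8 = 7 ∧ b / 8 % 2 = 1)

theorem grFin01_adj1 (F : Q3) (hF : F.Ok) (κ b : ℕ) :
    F.mach.adj (κ, b) (1, 1) = false ↔ ¬ (κ = 9 ∧ b = 1) := by
  have hn := hF.hn
  rw [← Bool.not_eq_true, not_iff_not]
  simp only [Q3.mach, Q3.arc, Bool.or_eq_true, decide_eq_true_eq]
  constructor
  · rintro ((h | h | h | h | h | h | h | h | h | h) | (h | h | h | h | h | h | h | h | h | h)) <;>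
      omega
  · rintro ⟨h1, h2⟩
    exact Or.inr (Or.inl ⟨by decide, by omega, h2.symm, Or.inr trivial⟩)

theorem grFin01_adjg (F : Q3) (κ b : ℕ) (h1 : κ % 8 = 1 → b = 1)
    (h4 : κ % 8 = 4 → κ / 8 / 3 < F.n) :
    F.mach.adj (κ, b) (8 * (2 * F.n) + 1, 0) = false ↔ ¬ ((κ = 8 * (2 * F.n) + 2 ∧ b = 0) ∨
      (κ % 8 = 4 ∧ b < 2 ∧ F.q (κ / 8 / 3) = true ∧ κ / 8 / 3 + 1 = F.n) ∨
      (κ % 8 = 7 ∧ b / 8 % 2 = 1)) := by
  rw [← Bool.not_eq_true, not_iff_not]
  simp only [Q3.mach, Q3.arc, Bool.or_eq_true, decide_eq_true_eq]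
  constructor
  · rintro ((h | h | h | h | h | h | h | h | h | h) | (h | h | h | h | h | h | h | h | h | h))
    any_goals omega
    exact Or.inr (Or.inl ⟨h.2.1, h.2.2.2.1, h.2.2.2.2.1, by omega⟩)
  · rintro (h | h | h)
    · exact Or.inr (Or.inr (Or.inl ⟨by omega, by omega, trivial, Or.inl h.2⟩))
    · exact Or.inr (Or.inr (Or.inr (Or.inr (Or.inr (Or.inl
        ⟨by omega, h.1, trivial, h.2.1, h.2.2.1, Or.inr (by omega)⟩)))))
    · exact Or.inr (Or.inr (Or.inr (Or.inr (Or.inr (Or.inr (Or.inl ⟨trivial, h.1, h.2⟩))))))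

theorem grFin01_aux (P Q : Prop) : ¬ (P ∧ Q ↔ P → ¬ Q) := by tauto

theorem grFin01_od (hm : T_mok) (he : T_elem) (ht : T_tableS) (F : Q3) (hF : F.Ok)
    (R : ℕ → Finset ℕ) (φ : ℕ → Bool) (hW : Q3.Wf R) (κ b : ℕ) (hv : (κ, b) ∈ F.Fn R φ) :
    F.mach.od2 (F.Fn R φ) (κ, b) ↔ grFin01_O F R φ κ b := by
  have hn := hF.hn
  have g1 : (8 * (2 * F.n) + 1, 0) ∈ F.St (2 * F.n) R φ := by
    rw [(hm F).2.2.1]
    refine ⟨?_, fun _ _ => ?_, fun h => ?_, fun h => ?_, fun h => ?_⟩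
    · show 0 < F.size (8 * (2 * F.n) + 1)
      unfold Q3.size
      rw [if_neg (fun h => by omega), if_neg (fun h => by omega), if_pos (by omega)]
      decide
    · show 2 * F.n ≤ (8 * (2 * F.n) + 1) / 8
      omega
    all_goals (simp only at h; omega)
  have g2 : (1, 1) ∈ (F.St (2 * F.n) R φ).erase (8 * (2 * F.n) + 1, 0) := by
    rw [mem_erase, (hm F).2.2.1]
    refine ⟨fun e => absurd (Prod.mk.inj e).2 (by decide), ?_, fun _ h => ?_, fun h => ?_,
      fun h => ?_, fun h => ?_⟩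
    · show 1 < F.size 1
      unfold Q3.size
      rw [if_neg (fun h => by omega), if_neg (fun h => by omega), if_pos (by omega)]
      decide
    all_goals (simp only at h; omega)
  rw [grFin01_mem hm] at hv
  obtain ⟨n1, n2, hal⟩ := hv
  have hS : (κ, b) ∈ F.St (2 * F.n) R φ := ((hm F).2.2.1 _ _ _ _).2 hal
  obtain ⟨hs, a1, a2, a3, a4⟩ := hal
  simp only at hs a1 a2 a3 a4
  simp only [ne_eq, Prod.mk.injEq] at n1 n2
  have hz := grFin01_size F κ b hs
  have k1 : κ % 8 = 1 → b = 1 := fun r => by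
    rcases hz with ⟨r', -⟩ | ⟨r', -⟩ | ⟨r', -⟩ | ⟨r', -⟩ | ⟨-, c, e⟩ | ⟨r', -⟩
    any_goals omega
  have k4 : κ % 8 = 4 → κ / 8 / 3 < F.n := fun r => by
    rcases hz with ⟨r', -⟩ | ⟨r', -⟩ | ⟨-, c, -⟩ | ⟨r', -⟩ | ⟨r', -⟩ | ⟨r', -⟩
    any_goals omega
  unfold Q3.Fn
  rw [(he F.mach _ _ g2).1, (he F.mach _ _ g1).1, ht F hF _ R φ hW le_rfl _ hS,
    grFin01_adj1 F hF, grFin01_adjg F κ b k1 k4]
  unfold Q3.tabS Q3.tab Q3.junk Q3.en grFin01_O
  simp only [Prod.mk.injEq]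
  generalize Odd ((R (κ / 8 / 3)).filter fun x => x / (κ / 8 % 3) % 2 = 1).card = A
  generalize (φ (F.host (κ / 8)) = true) = B
  generalize F.q (κ / 8 / 3) = d
  rcases hz with ⟨r, c, e⟩ | ⟨r, c, e⟩ | ⟨r, c, -, e⟩ | ⟨r, c, e⟩ | ⟨r | r, c, e⟩ | ⟨r, e⟩
  · have e1 : ¬ κ = 8 * (2 * F.n) + 2 := by omega
    have e2 : ¬ κ = 1 := by omega
    have e3 : ¬ κ = 9 := by omega
    simp [r, e1, e2, e3]
  · have e1 : ¬ κ = 8 * (2 * F.n) + 2 := by omega
    have e2 : ¬ κ = 1 := by omega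
    have e3 : ¬ κ = 9 := by omega
    have e4 : 2 * (κ / 8) + 1 < 2 * F.n := by omega
    simp [r, e1, e2, e3, e4]
  · have e1 : ¬ κ = 8 * (2 * F.n) + 2 := by omega
    have e2 : ¬ κ = 1 := by omega
    have e3 : ¬ κ = 9 := by omega
    have e4 : 2 * (κ / 8 / 3) < 2 * F.n := by omega
    have e5 : 2 * F.n ≤ 2 * (κ / 8 / 3) + 2 ↔ κ / 8 / 3 + 1 = F.n := by omega
    simp only [r, e1, e2, e3, e4, e5]
    cases d
    · simp
    · simp
      exact grFin01_aux _ _
  · have e1 : ¬ κ = 8 * (2 * F.n) + 2 := by omega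
    have e2 : ¬ κ = 1 := by omega
    have e3 : ¬ κ = 9 := by omega
    simp [r, e1, e2, e3]
  · have e1 : ¬ κ = 8 * (2 * F.n) + 2 := by omega
    have e2 : ¬ (κ = 1 ∧ b = 1) := n1
    have e3 : ¬ (b = 0 ∧ κ / 8 = 2 * F.n) := by omega
    simp only [r, e1, e2, e3]
    simp
    exact grFin01_aux _ _
  · have e2 : ¬ κ = 1 := by omega
    have e3 : ¬ κ = 9 := by omega
    simp only [r, e2, e3]
    simp
    exact grFin01_aux _ _
  · have e1 : ¬ κ = 8 * (2 * F.n) + 2 := by omega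
    have e2 : ¬ κ = 1 := by omega
    have e3 : ¬ κ = 9 := by omega
    simp [r, e1, e2, e3]

theorem t_fin1 (hm : T_mok) (he : T_elem) (ht : T_tableS) (h0 : T_fin 0) : T_fin 1 := by
  intro F hF R φ ω p a hW hA hI hω hp v hv
  refine ⟨fun h => absurd h (by decide), fun _ => ?_, fun h => absurd h (by decide),
    fun h => absurd h (by decide)⟩
  have hv' := ((h0 F hF R φ ω p a hW hA hI hω hp v hv).1 rfl).1
  obtain ⟨κ, b⟩ := v
  rw [grFin01_pf] at hv' ⊢
  rw [grFin01_od hm he ht F hF R φ hW _ _ hv', grFin01_od hm he ht F hF R φ hW _ _ hv]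
  have hs : b < F.size κ := ((grFin01_mem hm F R φ _).1 hv).2.2.1
  simp only [Prod.mk.injEq, true_and]
  unfold grFin01_O
  rcases grFin01_size F κ b hs with ⟨r, c, e⟩ | ⟨r, c, e⟩ | ⟨r, c, ng, e⟩ | ⟨r, c, e⟩ |
    ⟨r, c, e⟩ | ⟨r, e⟩
  · have m : grFin01_mu a ω p κ = 2 ^ p (κ / 8) := by
      unfold grFin01_mu
      rw [if_neg (by omega), if_neg (by omega), if_neg (fun h => by omega), if_pos r]
    rw [m]
    rw [e] at hs
    refine ⟨?_, fun h => absurd h (grFin01_ne (by positivity))⟩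
    rw [(grFin01_hi hs (hp _ c).1).2]
    simp [r]
  · have m : grFin01_mu a ω p κ = ω (κ / 8) := by
      unfold grFin01_mu
      rw [if_pos r]
    rw [m]
    exact ⟨by simp [r], fun h => absurd h (grFin01_ne (hA _).1.ne')⟩
  · have m : grFin01_mu a ω p κ = if tr a (κ / 8) then 2 else 1 := by
      unfold grFin01_mu
      rw [if_neg (by omega), if_pos (Or.inl r)]
    rw [m]
    rw [e] at hs
    refine ⟨?_, fun h => absurd h (grFin01_ne (by split_ifs <;> decide))⟩
    by_cases ht : tr a (κ / 8)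
    · have h1 : ¬ (F.q (κ / 8 / 3) = false ∧
          Odd ((R (κ / 8 / 3)).filter fun x => x / (κ / 8 % 3) % 2 = 1).card) := fun h =>
        Nat.not_odd_iff_even.2 ((hI _ c ht).2 h.1) h.2
      simp only [r, h1]
      simp
    · rw [if_neg ht, grFin01_one hs]
      simp [r]
  · have m : grFin01_mu a ω p κ = if tr a (κ / 8) then 2 else 1 := by
      unfold grFin01_mu
      rw [if_neg (by omega), if_pos (Or.inr r)]
    rw [m]
    rw [e] at hs
    refine ⟨?_, fun h => absurd h (grFin01_ne (by split_ifs <;> decide))⟩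
    by_cases ht : tr a (κ / 8)
    · have h1 := (hI _ c ht).1
      unfold Q3.act at h1
      have h2 : ∀ x : ℕ, ((x < 2 ∧ φ (F.host (κ / 8)) = true) ∨ (2 ≤ x ∧ F.neg (κ / 8))) ↔
          F.neg (κ / 8) := fun x => by
        rcases lt_or_ge x 2 with h | h
        · have h' : ¬ 2 ≤ x := by omega
          tauto
        · have h' : ¬ x < 2 := by omega
          tauto
      simp only [h2]
      simp [r]
    · rw [if_neg ht]
      have h1 := grFin01_one hs
      have h2 : 2 ≤ b ^^^ 1 ↔ 2 ≤ b := by omega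
      rw [h1, h2]
      simp [r]
  · refine ⟨?_, fun _ h => by omega⟩
    constructor <;> (intro h; omega)
  · refine ⟨?_, fun _ h => by omega⟩
    constructor <;> (intro h; omega)

end Pool.Agent.Chomp.GR
end

-- merged part: Pool.Agent.Work.MP_ff0f6a_lc.GR.Fin2
section
/-!
The neighbourhood of a fixed vertex of the final pairing is invariant.
-/

namespace Pool.Agent.Chomp.GR

open Finset Function Pool.Agent.Chomp.SC

theorem grFin2_xor {x y : ℕ} (h : x ^^^ y = x) : y = 0 := by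
  have h1 : x ^^^ (x ^^^ y) = x ^^^ x := by rw [h]
  rw [← Nat.xor_assoc, Nat.xor_self, Nat.zero_xor] at h1
  exact h1

theorem grFin2_a : ∀ x < 16, (x ^^^ 1) / 2 = x / 2 := by decide

theorem grFin2_b : ∀ p < 3, ∀ x < 16, (x ^^^ 2 ^ p) / 8 % 2 = x / 8 % 2 := by decide

theorem grFin2_fix {a : ℕ → Bool} {ω p : ℕ → ℕ} (hω : ∀ i, 0 < ω i) {v : ℕ × ℕ}
    (h : Q3.pf a ω p v = v) :
    v.1 % 8 ≠ 3 ∧ v.1 % 8 ≠ 4 ∧ v.1 % 8 ≠ 5 ∧ v.1 % 8 ≠ 7 ∧ (v.1 % 8 = 6 → ¬ tr a (v.1 / 8)) := by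
  have h2 := congrArg Prod.snd h
  unfold Q3.pf at h2
  split_ifs at h2 with h3 h4 h5 h6 h7
  · exact absurd (grFin2_xor h2) (hω _).ne'
  · exact absurd (grFin2_xor h2) (by decide)
  · exact absurd (grFin2_xor h2) (by decide)
  · exact absurd (grFin2_xor h2) (by decide)
  · exact absurd (grFin2_xor h2) (by positivity)
  · exact ⟨h3, fun e => h4 (Or.inl e), fun e => h4 (Or.inr e), h7, fun e e' => h6 ⟨e, e'⟩⟩

/-- adjacency to `v` depends on little of the second coordinate -/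
theorem grFin2_adj (F : Q3) {κ x y : ℕ} {v : ℕ × ℕ} (hk : 3 ≤ κ % 8)
    (h3 : v.1 % 8 ≠ 3) (h4 : v.1 % 8 ≠ 4) (h5 : v.1 % 8 ≠ 5) (h7 : v.1 % 8 ≠ 7)
    (h1 : v.1 % 8 = 1 → v.2 ≠ 0)
    (e5 : κ % 8 = 5 → v.1 = κ + 1 → x / 2 = y / 2)
    (e7 : κ % 8 = 7 → x / 8 % 2 = y / 8 % 2) :
    F.mach.adj (κ, x) v = F.mach.adj (κ, y) v := by
  have a1 : ∀ z, F.arc (κ, z) v = decide (κ % 8 = 5 ∧ v.1 = κ + 1 ∧ v.2 = z / 2) := by
    intro z
    unfold Q3.arc
    rw [decide_eq_decide]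
    dsimp only
    constructor
    · rintro (h | h | h | h | h | h | h | h | h | h)
      all_goals first | exact h | (exfalso; omega)
    · intro h
      exact Or.inr (Or.inr (Or.inr (Or.inr (Or.inr (Or.inr (Or.inr (Or.inr (Or.inl h))))))))
  have a2 : ∀ z, F.arc v (κ, z) =
      decide (v.1 = 8 * (2 * F.n) + 1 ∧ κ % 8 = 7 ∧ z / 8 % 2 = 1) := by
    intro z
    unfold Q3.arc
    rw [decide_eq_decide]
    dsimp only
    constructor
    · rintro (h | h | h | h | h | h | h | h | h | h)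
      all_goals first | exact h | (exfalso; omega)
    · intro h
      exact Or.inr (Or.inr (Or.inr (Or.inr (Or.inr (Or.inl h)))))
  show (F.arc (κ, x) v || F.arc v (κ, x)) = (F.arc (κ, y) v || F.arc v (κ, y))
  rw [a1, a1, a2, a2]
  congr 1
  · rw [decide_eq_decide]
    constructor
    · rintro ⟨b1, b2, b3⟩
      exact ⟨b1, b2, b3.trans (e5 b1 b2)⟩
    · rintro ⟨b1, b2, b3⟩
      exact ⟨b1, b2, b3.trans (e5 b1 b2).symm⟩
  · rw [decide_eq_decide]
    constructor
    · rintro ⟨b1, b2, b3⟩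
      exact ⟨b1, b2, (e7 b2).symm.trans b3⟩
    · rintro ⟨b1, b2, b3⟩
      exact ⟨b1, b2, (e7 b2).trans b3⟩

theorem t_fin2 (hm : T_mok) : T_fin 2 := by
  intro F hF R φ ω p a hR hω hI hq hp v hv
  refine ⟨fun h => absurd h (by decide), fun h => absurd h (by decide), fun _ hfix u hu => ?_,
    fun h => absurd h (by decide)⟩
  obtain ⟨-, hsz, hal, -⟩ := hm F
  obtain ⟨h3, h4, h5, h7, h6⟩ := grFin2_fix (fun i => (hω i).1) hfix
  have hv' := mem_erase.1 (mem_erase.1 hv).2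
  have hu' := (hal _ _ _ _).1 (mem_erase.1 (mem_erase.1 hu).2).2
  have hva := (hal _ _ _ _).1 hv'.2
  have h1 : v.1 % 8 = 1 → v.2 ≠ 0 := by
    intro e e0
    have b1 := hva.2.1 e e0
    have b2 := hva.1
    unfold Q3.size at b2
    apply hv'.1
    have b3 : v.1 / 8 ≤ 2 * F.n := by
      split_ifs at b2 with c1 c2 c3
      · omega
      · exfalso
        rcases c2 with c | c | c <;> have := c.1 <;> omega
      · rcases c3 with c | c
        · exact c.2
        · have := c.1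
          omega
      · omega
    exact Prod.ext (by show v.1 = 8 * (2 * F.n) + 1; omega) e0
  have hu2 : u.2 < 16 := lt_of_lt_of_le hu'.1 (hsz u.1).1
  obtain ⟨κ, x⟩ := u
  unfold Q3.pf
  dsimp only at hu2 ⊢
  split_ifs with c3 c4 c5 c6 c7
  · exact grFin2_adj F (by omega) h3 h4 h5 h7 h1 (fun e => by omega) (fun e => by omega)
  · refine grFin2_adj F (by omega) h3 h4 h5 h7 h1 (fun e e' => ?_) (fun e => by omega)
    refine absurd ?_ (h6 (by omega))
    have : v.1 / 8 = κ / 8 := by omega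
    rw [this]
    exact c5
  · exact grFin2_adj F (by omega) h3 h4 h5 h7 h1 (fun _ _ => grFin2_a x hu2) (fun e => by omega)
  · exact grFin2_adj F (by omega) h3 h4 h5 h7 h1 (fun e => by omega) (fun e => by omega)
  · refine grFin2_adj F (by omega) h3 h4 h5 h7 h1 (fun e => by omega)
      (fun _ => grFin2_b _ (hp _ ?_).1 x hu2)
    have b2 := hu'.1
    unfold Q3.size at b2
    dsimp only at b2
    split_ifs at b2 with d1 d2 d3
    · exact d1.2
    · exfalso
      rcases d2 with c | c | c <;> have := c.1 <;> omega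
    · exfalso
      rcases d3 with c | c <;> have := c.1 <;> omega
    · omega
  · rfl

end Pool.Agent.Chomp.GR
end

-- merged part: Pool.Agent.Work.MP_ff0f6a_lc.GR.Kill3
section
/-!
Chomp on graphs: the block condition for the pairing after the kill.
-/

namespace Pool.Agent.Chomp.GR

open Finset Function Pool.Agent.Chomp.SC

theorem grKill3_symm (F : Q3) (u v : ℕ × ℕ) : F.mach.adj u v = F.mach.adj v u :=
  Bool.or_comm _ _

theorem grKill3_eq (F : Q3) {x v v' : ℕ × ℕ} (h1 : F.arc x v = true → F.arc x v' = true)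
    (h2 : F.arc x v' = true → F.arc x v = true) (h3 : F.arc v x = true → F.arc v' x = true)
    (h4 : F.arc v' x = true → F.arc v x = true) : F.mach.adj x v = F.mach.adj x v' := by
  show (F.arc x v || F.arc v x) = (F.arc x v' || F.arc v' x)
  rw [Bool.eq_iff_iff.2 ⟨h1, h2⟩, Bool.eq_iff_iff.2 ⟨h3, h4⟩]

theorem grKill3_a3 (F : Q3) {x : ℕ × ℕ} {κ : ℕ} (b b' : ℕ) (hκ : κ % 8 = 3) (hx : x.1 % 8 ≠ 4) :
    (F.arc x (κ, b) = true → F.arc x (κ, b') = true) ∧
    (F.arc (κ, b) x = true → F.arc (κ, b') x = true) := by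
  simp only [Q3.arc, decide_eq_true_eq]
  refine ⟨fun h => ?_, fun h => ?_⟩
  · rcases h with h | h | h | h | h | h | h | h | h | h
    all_goals first
      | (exfalso; omega)
      | exact Or.inr (Or.inr (Or.inr (Or.inl h)))
  · rcases h with h | h | h | h | h | h | h | h | h | h
    all_goals (exfalso; omega)

theorem grKill3_a4 (F : Q3) {x : ℕ × ℕ} {κ : ℕ} {b b' : ℕ} (hκ : κ % 8 = 4) (hx : x.1 % 8 ≠ 5)
    (hb : b / 2 = b' / 2) :
    (F.arc x (κ, b) = true → F.arc x (κ, b') = true) ∧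
    (F.arc (κ, b) x = true → F.arc (κ, b') x = true) := by
  simp only [Q3.arc, decide_eq_true_eq]
  refine ⟨fun h => ?_, fun h => ?_⟩
  · rcases h with h | h | h | h | h | h | h | h | h | h
    all_goals first
      | (exfalso; omega)
      | exact Or.inr (Or.inr (Or.inr (Or.inr (Or.inl
          ⟨h.1, h.2.1, h.2.2.1, by have := h.2.2.2.1; omega, h.2.2.2.2⟩))))
      | exact Or.inr (Or.inr (Or.inr (Or.inr (Or.inr (Or.inr (Or.inl
          ⟨h.1, h.2.1, h.2.2.1, by have := h.2.2.2.1; omega, h.2.2.2.2⟩))))))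
  · rcases h with h | h | h | h | h | h | h | h | h | h
    all_goals (exfalso; omega)

theorem grKill3_a5 (F : Q3) {x : ℕ × ℕ} {κ : ℕ} {b b' : ℕ} (hκ : κ % 8 = 5) (hx : x.1 % 8 ≠ 7)
    (hb : b / 2 = b' / 2) :
    (F.arc x (κ, b) = true → F.arc x (κ, b') = true) ∧
    (F.arc (κ, b) x = true → F.arc (κ, b') x = true) := by
  simp only [Q3.arc, decide_eq_true_eq]
  refine ⟨fun h => ?_, fun h => ?_⟩
  · rcases h with h | h | h | h | h | h | h | h | h | h
    all_goals (exfalso; omega)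
  · rcases h with h | h | h | h | h | h | h | h | h | h
    all_goals first
      | (exfalso; omega)
      | exact Or.inr (Or.inr (Or.inr (Or.inr (Or.inr (Or.inr (Or.inr (Or.inl
          ⟨h.1, h.2.1, hb ▸ h.2.2.1, h.2.2.2.imp_right fun k =>
            ⟨k.1, by have := k.2.1; omega, k.2.2⟩⟩)))))))
      | exact Or.inr (Or.inr (Or.inr (Or.inr (Or.inr (Or.inr (Or.inr (Or.inr (Or.inl
          ⟨h.1, h.2.1, hb ▸ h.2.2⟩))))))))

theorem grKill3_a7 (F : Q3) {x : ℕ × ℕ} {κ : ℕ} {b b' : ℕ} (hκ : κ % 8 = 7) (hx : x.1 % 8 ≠ 1)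
    (hb : b % 8 = b' % 8) :
    (F.arc x (κ, b) = true → F.arc x (κ, b') = true) ∧
    (F.arc (κ, b) x = true → F.arc (κ, b') x = true) := by
  have e1 : b % 2 = b' % 2 := by omega
  have e2 : b / 2 % 2 = b' / 2 % 2 := by omega
  have e3 : b / 4 % 2 = b' / 4 % 2 := by omega
  simp only [Q3.arc, decide_eq_true_eq]
  refine ⟨fun h => ?_, fun h => ?_⟩
  · rcases h with h | h | h | h | h | h | h | h | h | h
    all_goals first
      | (exfalso; omega)
      | exact Or.inr (Or.inr (Or.inr (Or.inr (Or.inr (Or.inr (Or.inr (Or.inr (Or.inr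
          (e1 ▸ e2 ▸ e3 ▸ h)))))))))
  · rcases h with h | h | h | h | h | h | h | h | h | h
    all_goals (exfalso; omega)

theorem grKill3_a1 (F : Q3) {x v v' : ℕ × ℕ} (hx : x.1 % 8 = 7)
    (hv : v.1 % 8 = 1 ∨ v.1 % 8 = 2) (he : v.1 = 8 * (2 * F.n) + 1 → v'.1 = 8 * (2 * F.n) + 1) :
    (F.arc x v = true → F.arc x v' = true) ∧ (F.arc v x = true → F.arc v' x = true) := by
  simp only [Q3.arc, decide_eq_true_eq]
  refine ⟨fun h => ?_, fun h => ?_⟩
  · rcases h with h | h | h | h | h | h | h | h | h | h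
    all_goals (exfalso; omega)
  · rcases h with h | h | h | h | h | h | h | h | h | h
    all_goals first
      | (exfalso; omega)
      | exact Or.inr (Or.inr (Or.inr (Or.inr (Or.inr (Or.inl ⟨he h.1, h.2⟩)))))

/-- the arcs inside the ladder -/
def grKill3_c (n : ℕ) (u v : ℕ × ℕ) : Prop :=
  (u.1 % 8 = 1 ∧ v.1 = u.1 + 8 ∧ u.2 = v.2 ∧ (u.2 = 0 ∨ u.1 = 1)) ∨
  (u.1 % 8 = 1 ∧ v.1 = u.1 + 1 ∧ u.2 = 0 ∧ (v.2 = 0 ∨ u.1 / 8 < 2 * n)) ∨
  (u.1 % 8 = 2 ∧ v.1 = u.1 + 8 ∧ u.2 = 1 ∧ v.2 = 0)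

theorem grKill3_arc (F : Q3) {u v : ℕ × ℕ}
    (hv : v.1 % 8 = 1 ∨ v.1 % 8 = 2) : F.arc u v = true ↔ grKill3_c F.n u v := by
  simp only [Q3.arc, decide_eq_true_eq, grKill3_c]
  refine ⟨fun h => ?_, fun h => ?_⟩
  · rcases h with h | h | h | h | h | h | h | h | h | h
    all_goals first
      | exact Or.inl h
      | exact Or.inr (Or.inl h)
      | exact Or.inr (Or.inr h)
      | (exfalso; omega)
  · rcases h with h | h | h
    exacts [Or.inl h, Or.inr (Or.inl h), Or.inr (Or.inr (Or.inl h))]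

theorem grKill3_adj (F : Q3) {u v : ℕ × ℕ} (hu : u.1 % 8 = 1 ∨ u.1 % 8 = 2)
    (hv : v.1 % 8 = 1 ∨ v.1 % 8 = 2) :
    F.mach.adj u v = true ↔ grKill3_c F.n u v ∨ grKill3_c F.n v u := by
  show (F.arc u v || F.arc v u) = true ↔ _
  rw [Bool.or_eq_true, grKill3_arc F hv, grKill3_arc F hu]

theorem grKill3_xor {a b c d : Bool} (h : (a = true ↔ b = true) ↔ (c = true ↔ d = true)) :
    (a ^^ b) = (c ^^ d) := by
  revert h
  cases a <;> cases b <;> cases c <;> cases d <;> simp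

/-- the shape of a pair of the ladder -/
def grKill3_p (n : ℕ) (u u' : ℕ × ℕ) : Prop :=
  (∃ r < 2 * n, u = (8 * r + 1, 0) ∧ u' = (8 * r + 10, 0)) ∨
  (u = (8 * (2 * n) + 1, 0) ∧ u' = (8 * (2 * n) + 1, 1))

theorem grKill3_gg (F : Q3) (r r' : ℕ) :
    F.mach.adj (8 * r + 1, 0) (8 * r' + 1, 0) = true ↔ r' = r + 1 ∨ r = r' + 1 := by
  rw [grKill3_adj F (by dsimp only; omega) (by dsimp only; omega)]
  simp only [grKill3_c, true_or, and_true, zero_ne_one, and_false, or_false]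
  omega

theorem grKill3_gk (F : Q3) (r r' : ℕ) :
    F.mach.adj (8 * r + 1, 0) (8 * r' + 10, 0) = true ↔ r = r' + 1 := by
  rw [grKill3_adj F (by dsimp only; omega) (by dsimp only; omega)]
  simp only [grKill3_c, true_or, and_true, zero_ne_one, and_false, or_false]
  omega

theorem grKill3_kk (F : Q3) (r r' : ℕ) :
    F.mach.adj (8 * r + 10, 0) (8 * r' + 10, 0) = true ↔ 1 = 0 := by
  rw [grKill3_adj F (by dsimp only; omega) (by dsimp only; omega)]
  simp only [grKill3_c, true_or, and_true, zero_ne_one, and_false, or_false]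
  omega

theorem grKill3_sf (F : Q3) (hn : 0 < F.n) {v : ℕ × ℕ} (hv : v.1 % 8 = 1 ∨ v.1 % 8 = 2)
    (h : v.2 = 0 ∨ v.1 = 8 * (2 * F.n) + 1) :
    F.mach.adj (8 * (2 * F.n) + 1, 1) v = true ↔ 1 = 0 := by
  rw [grKill3_adj F (by dsimp only; omega) hv]
  refine ⟨fun k => ?_, fun k => by omega⟩
  rcases k with (k | k | k) | (k | k | k)
  all_goals (dsimp only at k; omega)

theorem grKill3_blk (F : Q3) (hn : 0 < F.n) {u u' v v' : ℕ × ℕ} (hu : grKill3_p F.n u u')
    (hv : grKill3_p F.n v v') :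
    (F.mach.adj u v ^^ F.mach.adj u v') = (F.mach.adj u' v ^^ F.mach.adj u' v') := by
  apply grKill3_xor
  rcases hu with ⟨r, hr, rfl, rfl⟩ | ⟨rfl, rfl⟩ <;> rcases hv with ⟨r', hr', rfl, rfl⟩ | ⟨rfl, rfl⟩
  · rw [grKill3_gg, grKill3_gk, grKill3_symm F (8 * r + 10, 0) (8 * r' + 1, 0), grKill3_gk,
      grKill3_kk]
    omega
  · rw [grKill3_gg, grKill3_symm F _ (_, 1), grKill3_sf F hn (by dsimp only; omega) (Or.inl rfl),
      grKill3_symm F (8 * r + 10, 0) (_, 0), grKill3_gk, grKill3_symm F _ (_, 1),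
      grKill3_sf F hn (by dsimp only; omega) (Or.inl rfl)]
    omega
  · rw [grKill3_gg, grKill3_gk, grKill3_sf F hn (by dsimp only; omega) (Or.inl rfl),
      grKill3_sf F hn (by dsimp only; omega) (Or.inl rfl)]
    omega
  · rw [grKill3_gg, grKill3_symm F (_, 0) (_, 1),
      grKill3_sf F hn (by dsimp only; omega) (Or.inl rfl),
      grKill3_sf F hn (by dsimp only; omega) (Or.inr rfl)]
    omega

theorem grKill3_x1 : ∀ b < 16, b / 2 = (b ^^^ 1) / 2 := by decide
theorem grKill3_x8 : ∀ b < 16, b % 8 = (b ^^^ 8) % 8 := by decide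

theorem grKill3_pk (F : Q3) (t : ℕ) (ω : ℕ → ℕ) (u : ℕ × ℕ) (h16 : u.2 < 16)
    (hs : u.1 % 8 = 1 ∨ u.1 % 8 = 2 → u.1 / 8 ≤ 2 * F.n ∧ u.2 < 2) :
    F.pk t ω u = u ∨
    ((u.1 % 8 = 1 ∨ u.1 % 8 = 2) ∧
      (grKill3_p F.n u (F.pk t ω u) ∨ grKill3_p F.n (F.pk t ω u) u)) ∨
    ∃ b, F.pk t ω u = (u.1, b) ∧ (u.1 % 8 = 3 ∨ ((u.1 % 8 = 4 ∨ u.1 % 8 = 5) ∧ u.2 / 2 = b / 2) ∨
      (u.1 % 8 = 7 ∧ u.2 % 8 = b % 8)) := by
  obtain ⟨κ, b⟩ := u
  dsimp only at h16 hs
  unfold Q3.pk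
  dsimp only
  split_ifs with h1 h2 h3 h4 h5 h6
  · have := hs (Or.inl h1.1)
    have e : κ = 8 * (2 * F.n) + 1 := by omega
    refine Or.inr (Or.inl ⟨Or.inl h1.1, ?_⟩)
    rcases (by omega : b = 0 ∨ b = 1) with rfl | rfl
    · exact Or.inl (Or.inr ⟨by rw [e], by rw [e]⟩)
    · exact Or.inr (Or.inr ⟨by rw [e], by rw [e]⟩)
  · have := hs (Or.inl h2.1)
    exact Or.inr (Or.inl ⟨Or.inl h2.1, Or.inl (Or.inl ⟨κ / 8, by omega,
      Prod.ext (by dsimp only; omega) h2.2, Prod.ext (by dsimp only; omega) rfl⟩)⟩)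
  · have := hs (Or.inr h3.1)
    exact Or.inr (Or.inl ⟨Or.inr h3.1, Or.inr (Or.inl ⟨κ / 8 - 1, by omega,
      Prod.ext (by dsimp only; omega) rfl, Prod.ext (by dsimp only; omega) h3.2.1⟩)⟩)
  · exact Or.inr (Or.inr ⟨_, rfl, Or.inl h4⟩)
  · exact Or.inr (Or.inr ⟨_, rfl, Or.inr (Or.inl ⟨h5, grKill3_x1 b h16⟩)⟩)
  · exact Or.inr (Or.inr ⟨_, rfl, Or.inr (Or.inr ⟨h6, grKill3_x8 b h16⟩)⟩)
  · exact Or.inl rfl

theorem grKill3_size (F : Q3) {κ b : ℕ} (h : b < F.size κ) (hκ : κ % 8 = 1 ∨ κ % 8 = 2) :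
    κ / 8 ≤ 2 * F.n ∧ b < 2 := by
  unfold Q3.size at h
  split_ifs at h with h1 h2 h3
  all_goals omega

theorem grKill3_pt {n : ℕ} {u u' : ℕ × ℕ} (h : grKill3_p n u u' ∨ grKill3_p n u' u) :
    (u'.1 % 8 = 1 ∨ u'.1 % 8 = 2) ∧ (u.1 = 8 * (2 * n) + 1 ↔ u'.1 = 8 * (2 * n) + 1) := by
  rcases h with (⟨r, hr, rfl, rfl⟩ | ⟨rfl, rfl⟩) | (⟨r, hr, rfl, rfl⟩ | ⟨rfl, rfl⟩)
  all_goals (dsimp only; omega)

/-- rows are invariant -/
theorem grKill3_row (F : Q3) {x v : ℕ × ℕ} {b : ℕ}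
    (h : (v.1 % 8 = 3 ∧ x.1 % 8 ≠ 4) ∨ (v.1 % 8 = 4 ∧ x.1 % 8 ≠ 5 ∧ v.2 / 2 = b / 2) ∨
      (v.1 % 8 = 5 ∧ x.1 % 8 ≠ 7 ∧ v.2 / 2 = b / 2) ∨
      (v.1 % 8 = 7 ∧ x.1 % 8 ≠ 1 ∧ v.2 % 8 = b % 8)) :
    F.mach.adj x v = F.mach.adj x (v.1, b) := by
  obtain ⟨κ, a⟩ := v
  rcases h with ⟨h, k⟩ | ⟨h, k, e⟩ | ⟨h, k, e⟩ | ⟨h, k, e⟩
  · exact grKill3_eq F (grKill3_a3 F a b h k).1 (grKill3_a3 F b a h k).1
      (grKill3_a3 F a b h k).2 (grKill3_a3 F b a h k).2
  · exact grKill3_eq F (grKill3_a4 F h k e).1 (grKill3_a4 F h k e.symm).1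
      (grKill3_a4 F h k e).2 (grKill3_a4 F h k e.symm).2
  · exact grKill3_eq F (grKill3_a5 F h k e).1 (grKill3_a5 F h k e.symm).1
      (grKill3_a5 F h k e).2 (grKill3_a5 F h k e.symm).2
  · exact grKill3_eq F (grKill3_a7 F h k e).1 (grKill3_a7 F h k e.symm).1
      (grKill3_a7 F h k e).2 (grKill3_a7 F h k e.symm).2

theorem grKill3_row1 (F : Q3) {x v v' : ℕ × ℕ} (hx : x.1 % 8 = 7)
    (hv : v.1 % 8 = 1 ∨ v.1 % 8 = 2) (h : grKill3_p F.n v v' ∨ grKill3_p F.n v' v) :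
    F.mach.adj x v = F.mach.adj x v' :=
  have k := grKill3_pt h
  grKill3_eq F (grKill3_a1 F hx hv k.2.1).1 (grKill3_a1 F hx k.1 k.2.2).1
    (grKill3_a1 F hx hv k.2.1).2 (grKill3_a1 F hx k.1 k.2.2).2

theorem grKill3_of_row (F : Q3) {u u' v v' : ℕ × ℕ} (h1 : F.mach.adj u v = F.mach.adj u v')
    (h2 : F.mach.adj u' v = F.mach.adj u' v') :
    (F.mach.adj u v ^^ F.mach.adj u v') = (F.mach.adj u' v ^^ F.mach.adj u' v') := by
  rw [h1, h2, Bool.xor_self, Bool.xor_self]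

theorem grKill3_of_col (F : Q3) {u u' v v' : ℕ × ℕ} (h1 : F.mach.adj v u = F.mach.adj v u')
    (h2 : F.mach.adj v' u = F.mach.adj v' u') :
    (F.mach.adj u v ^^ F.mach.adj u v') = (F.mach.adj u' v ^^ F.mach.adj u' v') := by
  rw [grKill3_symm F u v, grKill3_symm F u v', grKill3_symm F u' v, grKill3_symm F u' v', h1, h2]

theorem grKill3_ar {x y a a' b b' : ℕ}
    (ha : x = 3 ∨ ((x = 4 ∨ x = 5) ∧ a / 2 = a' / 2) ∨ (x = 7 ∧ a % 8 = a' % 8))
    (hb : y = 3 ∨ ((y = 4 ∨ y = 5) ∧ b / 2 = b' / 2) ∨ (y = 7 ∧ b % 8 = b' % 8)) :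
    ((x = 3 ∧ y ≠ 4) ∨ (x = 4 ∧ y ≠ 5 ∧ a / 2 = a' / 2) ∨ (x = 5 ∧ y ≠ 7 ∧ a / 2 = a' / 2) ∨
      (x = 7 ∧ y ≠ 1 ∧ a % 8 = a' % 8)) ∨
    ((y = 3 ∧ x ≠ 4) ∨ (y = 4 ∧ x ≠ 5 ∧ b / 2 = b' / 2) ∨ (y = 5 ∧ x ≠ 7 ∧ b / 2 = b' / 2) ∨
      (y = 7 ∧ x ≠ 1 ∧ b % 8 = b' % 8)) := by
  rcases ha with rfl | ⟨rfl | rfl, k⟩ | ⟨rfl, k⟩ <;> rcases hb with rfl | ⟨rfl | rfl, l⟩ | ⟨rfl, l⟩
  all_goals simp [*]

theorem t_kill3 (hm : T_mok) : T_kill 3 := by
  intro F hF t R φ ω x _ _ _ _ v hv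
  refine ⟨fun h => absurd h (by decide), fun h => absurd h (by decide),
    fun h => absurd h (by decide), fun _ u hu => ?_⟩
  have key : ∀ w ∈ F.Kl t R φ x, w.2 < 16 ∧
      (w.1 % 8 = 1 ∨ w.1 % 8 = 2 → w.1 / 8 ≤ 2 * F.n ∧ w.2 < 2) := fun w hw => by
    have a := (((hm F).2.2.1 t R φ w).1 (mem_of_mem_erase (mem_of_mem_erase hw))).1
    exact ⟨a.trans_le ((hm F).2.1 w.1).1, grKill3_size F a⟩
  rcases grKill3_pk F t ω u (key u hu).1 (key u hu).2 with e | ⟨tu, pu⟩ | ⟨a, e, ha⟩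
  · rw [e]
  · have ku := (grKill3_pt pu).1
    rcases grKill3_pk F t ω v (key v hv).1 (key v hv).2 with e | ⟨_, pv⟩ | ⟨b, e, hb⟩
    · rw [e, Bool.xor_self, Bool.xor_self]
    · rcases pu with pu | pu <;> rcases pv with pv | pv
      · exact grKill3_blk F hF.hn pu pv
      · rw [Bool.xor_comm, grKill3_blk F hF.hn pu pv, Bool.xor_comm]
      · exact (grKill3_blk F hF.hn pu pv).symm
      · rw [Bool.xor_comm, ← grKill3_blk F hF.hn pu pv, Bool.xor_comm]
    · rw [e]
      rcases hb with c | ⟨c | c, k⟩ | ⟨c, _⟩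
      · exact grKill3_of_row F (grKill3_row F (Or.inl ⟨c, by omega⟩))
          (grKill3_row F (Or.inl ⟨c, by omega⟩))
      · exact grKill3_of_row F (grKill3_row F (Or.inr (Or.inl ⟨c, by omega, k⟩)))
          (grKill3_row F (Or.inr (Or.inl ⟨c, by omega, k⟩)))
      · exact grKill3_of_row F (grKill3_row F (Or.inr (Or.inr (Or.inl ⟨c, by omega, k⟩))))
          (grKill3_row F (Or.inr (Or.inr (Or.inl ⟨c, by omega, k⟩))))
      · exact grKill3_of_col F (grKill3_row1 F c tu pu) (grKill3_row1 F c tu pu)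
  · rcases grKill3_pk F t ω v (key v hv).1 (key v hv).2 with e' | ⟨tv, pv⟩ | ⟨b, e', hb⟩
    · rw [e', Bool.xor_self, Bool.xor_self]
    · have kv := (grKill3_pt pv).1
      rw [e]
      rcases ha with c | ⟨c | c, k⟩ | ⟨c, _⟩
      · exact grKill3_of_col F (grKill3_row F (Or.inl ⟨c, by omega⟩))
          (grKill3_row F (Or.inl ⟨c, by omega⟩))
      · exact grKill3_of_col F (grKill3_row F (Or.inr (Or.inl ⟨c, by omega, k⟩)))
          (grKill3_row F (Or.inr (Or.inl ⟨c, by omega, k⟩)))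
      · exact grKill3_of_col F (grKill3_row F (Or.inr (Or.inr (Or.inl ⟨c, by omega, k⟩))))
          (grKill3_row F (Or.inr (Or.inr (Or.inl ⟨c, by omega, k⟩))))
      · exact grKill3_of_row F (grKill3_row1 F c tv pv) (grKill3_row1 F c tv pv)
    · rw [e, e']
      rcases grKill3_ar ha hb with c | c
      · exact grKill3_of_col F (grKill3_row F c) (grKill3_row F c)
      · exact grKill3_of_row F (grKill3_row F c) (grKill3_row F c)

end Pool.Agent.Chomp.GR
end

-- merged part: Pool.Agent.Work.MP_ff0f6a_lc.GR.Kill2B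
section
namespace Pool.Agent.Chomp.GR

open Finset Function Pool.Agent.Chomp.SC

theorem grK2b_no (F : Q3) {u v : ℕ × ℕ} (h : ((u.1 % 8 = 1 ∨ u.1 % 8 = 2) ∧ v.1 % 8 = 6) ∨
    (u.1 % 8 = 7 ∧ v.1 % 8 = 1 ∧ v.1 / 8 ≠ 2 * F.n)) : F.mach.adj u v = false := by
  show (F.arc u v || F.arc v u) = false
  rw [Bool.or_eq_false_iff]
  simp only [Q3.arc, decide_eq_false_iff_not]
  refine ⟨fun k => ?_, fun k => ?_⟩ <;>
  rcases k with k | k | k | k | k | k | k | k | k | k <;> omega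

theorem grK2b_d (F : Q3) {r i b c : ℕ} (hb : (c = 1 ∧ b = 0) ∨ (c = 10 ∧ b = 0) ∨ (c = 1 ∧ 2 ≤ r)) :
    ¬ F.mach.adj (8 * r + c, b) (8 * i + 1, 1) = true := by
  rw [grKill3_adj F (by dsimp only; omega) (by dsimp only; omega)]
  rintro ((k | k | k) | (k | k | k)) <;> (dsimp only at k; omega)

theorem grK2b_a (F : Q3) {r i : ℕ} (hr : r < 2 * F.n) :
    (F.mach.adj (8 * r + 1, 0) (8 * i + 2, 1) = true ↔ r = i) ∧
    (F.mach.adj (8 * r + 10, 0) (8 * i + 2, 1) = true ↔ r = i) := by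
  rw [grKill3_adj F (by dsimp only; omega) (by dsimp only; omega),
    grKill3_adj F (by dsimp only; omega) (by dsimp only; omega)]
  refine ⟨⟨?_, ?_⟩, ?_, ?_⟩
  · rintro ((k | k | k) | (k | k | k)) <;> (dsimp only at k; omega)
  · rintro rfl
    exact .inl (.inr (.inl ⟨by dsimp only; omega, rfl, rfl, .inr (by dsimp only; omega)⟩))
  · rintro ((k | k | k) | (k | k | k)) <;> (dsimp only at k; omega)
  · rintro rfl
    exact .inr (.inr (.inr ⟨by dsimp only; omega, rfl, rfl, rfl⟩))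

theorem grK2b_e (F : Q3) {i b : ℕ} :
    ¬ F.mach.adj (8 * (2 * F.n) + 1, b) (8 * i + 2, 1) = true := by
  rw [grKill3_adj F (by dsimp only; omega) (by dsimp only; omega)]
  rintro ((k | k | k) | (k | k | k)) <;> (dsimp only at k; omega)

theorem grK2b_k (F : Q3) {r i b c : ℕ} (hb : c = 1 ∨ (c = 10 ∧ b = 0)) (h : i < r) :
    ¬ F.mach.adj (8 * r + c, b) (8 * i + 2, 0) = true := by
  rw [grKill3_adj F (by dsimp only; omega) (by dsimp only; omega)]
  rintro ((k | k | k) | (k | k | k)) <;> (dsimp only at k; omega)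

theorem grK2b_lad (F : Q3) (hn : 0 < F.n) {t : ℕ} {u u' v : ℕ × ℕ} (p : grKill3_p F.n u u')
    (hu : t ≤ u.1 / 8) (fv : (v.1 % 8 = 1 ∧ v.2 = 1) ∨
      (v.1 % 8 = 2 ∧ (v.2 = 1 ∨ (v.2 = 0 ∧ v.1 / 8 < t)))) :
    F.mach.adj u v = true ↔ F.mach.adj u' v = true := by
  obtain ⟨κ, b⟩ := v
  dsimp only at fv
  rcases fv with ⟨c, rfl⟩ | ⟨c, rfl | ⟨rfl, d⟩⟩
  · obtain ⟨i, rfl⟩ : ∃ i, κ = 8 * i + 1 := ⟨κ / 8, by omega⟩
    rcases p with ⟨r, hr, rfl, rfl⟩ | ⟨rfl, rfl⟩
    · exact iff_of_false (grK2b_d F (by omega)) (grK2b_d F (by omega))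
    · exact iff_of_false (grK2b_d F (by omega)) (grK2b_d F (by omega))
  · obtain ⟨i, rfl⟩ : ∃ i, κ = 8 * i + 2 := ⟨κ / 8, by omega⟩
    rcases p with ⟨r, hr, rfl, rfl⟩ | ⟨rfl, rfl⟩
    · rw [(grK2b_a F hr).1, (grK2b_a F hr).2]
    · exact iff_of_false (grK2b_e F) (grK2b_e F)
  · obtain ⟨i, rfl⟩ : ∃ i, κ = 8 * i + 2 := ⟨κ / 8, by omega⟩
    rcases p with ⟨r, hr, rfl, rfl⟩ | ⟨rfl, rfl⟩ <;> dsimp only at hu
    · exact iff_of_false (grK2b_k F (by omega) (by omega)) (grK2b_k F (by omega) (by omega))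
    · exact iff_of_false (grK2b_k F (by omega) (by omega)) (grK2b_k F (by omega) (by omega))

theorem b_kill2 (hm : T_mok) : T_kill 2 := by
  intro F hF t R φ ω x _ hω ht hx v hv
  refine ⟨fun h => absurd h (by decide), fun h => absurd h (by decide), fun _ hfix u hu => ?_,
    fun h => absurd h (by decide)⟩
  have al : ∀ w ∈ F.Kl t R φ x, F.alive t R φ w := fun w hw =>
    ((hm F).2.2.1 t R φ w).1 (mem_of_mem_erase (mem_of_mem_erase hw))
  have key : ∀ w ∈ F.Kl t R φ x, w.2 < 16 ∧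
      (w.1 % 8 = 1 ∨ w.1 % 8 = 2 → w.1 / 8 ≤ 2 * F.n ∧ w.2 < 2) := fun w hw =>
    ⟨(al w hw).1.trans_le ((hm F).2.1 w.1).1, grKill3_size F (al w hw).1⟩
  have nk : ∀ w ∈ F.Kl t R φ x, ¬ (w.1 = 8 * t + 2 ∧ w.2 = 0) := fun w hw k =>
    (mem_erase.1 (mem_erase.1 hw).2).1 (Prod.ext k.1 k.2)
  have hn := hF.hn
  have fv : (v.1 % 8 = 1 ∧ v.2 = 1 ∧ v.1 / 8 < 2 * F.n) ∨
      (v.1 % 8 = 2 ∧ (v.2 = 1 ∨ (v.2 = 0 ∧ v.1 / 8 < t))) ∨ v.1 % 8 = 6 := by
    have k1 := key v hv
    have k2 := nk v hv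
    have k3 := (al v hv).1
    have h1 := congrArg Prod.fst hfix
    have h2 := congrArg Prod.snd hfix
    unfold Q3.pk at h1 h2
    split_ifs at h1 h2 with c1 c2 c3 c4 c5 c6
    · dsimp only at h2; omega
    · dsimp only at h1; omega
    · dsimp only at h1; omega
    · exact absurd (grFin2_xor h2) (hω _).1.ne'
    · exact absurd (grFin2_xor h2) (by decide)
    · exact absurd (grFin2_xor h2) (by decide)
    · by_cases z : v.1 % 8 = 0
      · unfold Q3.size at k3
        split_ifs at k3 <;> omega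
      · omega
  rcases grKill3_pk F t ω u (key u hu).1 (key u hu).2 with e | ⟨tu, pu⟩ | ⟨a, e, ha⟩
  · rw [e]
  · have ku := (grKill3_pt pu).1
    by_cases z : v.1 % 8 = 6
    · rw [grK2b_no F (.inl ⟨tu, z⟩), grK2b_no F (.inl ⟨ku, z⟩)]
    · have tv : v.1 % 8 = 1 ∨ v.1 % 8 = 2 := by omega
      have a1 := (al u hu).2.1
      have a2 := (al v hv).2.2.1
      have a3 := nk u hu
      have a4 : u.1 % 8 = 2 → t < u.1 / 8 := fun c => by
        by_contra d
        have : F.pk t ω u = u := by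
          unfold Q3.pk
          rw [if_neg (by omega), if_neg (by omega), if_neg (by omega), if_neg (by omega),
            if_neg (by omega), if_neg (by omega)]
        rw [this] at pu
        rcases pu with (⟨r, -, p, q⟩ | ⟨p, q⟩) | (⟨r, -, p, q⟩ | ⟨p, q⟩) <;>
          (have := p.symm.trans q; simp only [Prod.mk.injEq] at this; omega)
      have fv' : (v.1 % 8 = 1 ∧ v.2 = 1) ∨
          (v.1 % 8 = 2 ∧ (v.2 = 1 ∨ (v.2 = 0 ∧ v.1 / 8 < t))) :=
        fv.imp (fun k => ⟨k.1, k.2.1⟩) fun k => k.resolve_right z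
      rw [Bool.eq_iff_iff]
      generalize F.pk t ω u = u' at pu
      clear fv key al nk a3 a2 ku tv
      rcases pu with pu | pu
      · refine (grK2b_lad F hn pu ?_ fv').symm
        rcases pu with ⟨r, hr, rfl, rfl⟩ | ⟨rfl, rfl⟩ <;> (dsimp only at *; omega)
      · refine grK2b_lad F hn pu ?_ fv'
        rcases pu with ⟨r, hr, rfl, rfl⟩ | ⟨rfl, rfl⟩ <;> (dsimp only at *; omega)
  · rw [e, grKill3_symm F _ v, grKill3_symm F u v]
    by_cases z : u.1 % 8 = 7 ∧ v.1 % 8 = 1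
    · rw [grKill3_symm F v, grKill3_symm F v, grK2b_no F (u := u) (.inr ⟨z.1, z.2, by omega⟩),
        grK2b_no F (u := (u.1, a)) (.inr ⟨z.1, z.2, by omega⟩)]
    · refine (grKill3_row F ?_).symm
      have tv : v.1 % 8 = 1 ∨ v.1 % 8 = 2 ∨ v.1 % 8 = 6 := fv.imp And.left (Or.imp_left And.left)
      clear fv key al nk
      rcases ha with c | ⟨c | c, k⟩ | ⟨c, k⟩
      · exact .inl ⟨c, by omega⟩
      · exact .inr (.inl ⟨c, by omega, k⟩)
      · exact .inr (.inr (.inl ⟨c, by omega, k⟩))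
      · exact .inr (.inr (.inr ⟨c, fun d => z ⟨c, d⟩, k⟩))

end Pool.Agent.Chomp.GR
end

-- merged part: Pool.Agent.Work.MP_ff0f6a_lc.GR.Kill01B
section
namespace Pool.Agent.Chomp.GR

open Finset Function Pool.Agent.Chomp.SC

theorem grK0b_mem (hm : T_mok) (F : Q3) (t R φ x w) :
    w ∈ F.Kl t R φ x ↔ w ≠ x ∧ w ≠ (8 * t + 2, 0) ∧ F.alive t R φ w := by
  rw [Q3.Kl, mem_erase, mem_erase, (hm F).2.2.1]

theorem grK0b_s12 (F : Q3) {κ : ℕ} (h : κ % 8 = 1 ∨ κ % 8 = 2) (k : κ / 8 ≤ 2 * F.n) :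
    F.size κ = 2 := by
  unfold Q3.size
  rw [if_neg (by omega), if_neg (by omega), if_pos (.inl ⟨h, k⟩)]

theorem grK0b_sz (F : Q3) (κ : ℕ) : (κ % 8 = 7 → F.size κ = 16 ∨ F.size κ = 0) ∧
    (κ % 8 = 3 ∨ κ % 8 = 4 ∨ κ % 8 = 5 → F.size κ = 4 ∨ F.size κ = 0) ∧
    (κ % 8 = 6 → F.size κ = 2 ∨ F.size κ = 0) ∧ (κ % 8 = 0 → F.size κ = 0) := by
  unfold Q3.size
  split_ifs with a b c
  · omega
  · have : κ % 8 = 3 ∨ κ % 8 = 4 ∨ κ % 8 = 5 := b.imp And.left (Or.imp And.left And.left)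
    omega
  · have : (κ % 8 = 1 ∨ κ % 8 = 2) ∨ κ % 8 = 6 := c.imp And.left And.left
    omega
  · omega

theorem grK0b_x4 : ∀ b < 4, ∀ w < 4, b ^^^ w < 4 := by decide
theorem grK0b_x1 : ∀ b < 4, b ^^^ 1 < 4 ∧ (b ^^^ 1) / 2 = b / 2 := by decide
theorem grK0b_x8 : ∀ b < 16, b ^^^ 8 < 16 := by decide

theorem grK0b_c (F : Q3) (t ω) {κ : ℕ} (b : ℕ) :
    (κ % 8 = 3 → F.pk t ω (κ, b) = (κ, b ^^^ ω (κ / 8))) ∧
    (κ % 8 = 4 ∨ κ % 8 = 5 → F.pk t ω (κ, b) = (κ, b ^^^ 1)) ∧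
    (κ % 8 = 7 → F.pk t ω (κ, b) = (κ, b ^^^ 8)) := by
  unfold Q3.pk
  dsimp only
  refine ⟨fun h => ?_, fun h => ?_, fun h => ?_⟩
  · rw [if_neg (by omega), if_neg (by omega), if_neg (by omega), if_pos h]
  · rw [if_neg (by omega), if_neg (by omega), if_neg (by omega), if_neg (by omega), if_pos h]
  · rw [if_neg (by omega), if_neg (by omega), if_neg (by omega), if_neg (by omega),
      if_neg (by omega), if_pos h]

theorem grK0b_l (F : Q3) (t ω) (r b : ℕ) :
    F.pk t ω (8 * (2 * F.n) + 1, b) = (8 * (2 * F.n) + 1, 1 - b) ∧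
    (r < 2 * F.n → F.pk t ω (8 * r + 1, 0) = (8 * r + 10, 0)) ∧
    (t ≤ r → F.pk t ω (8 * r + 10, 0) = (8 * r + 1, 0)) := by
  unfold Q3.pk
  dsimp only
  refine ⟨?_, fun h => ?_, fun h => ?_⟩
  · rw [if_pos (by omega)]
  · rw [if_neg (by omega), if_pos (by omega)]
  · rw [if_neg (by omega), if_neg (by omega), if_pos (by omega)]
    congr 1

/-- the shapes of the vertices -/
theorem grK0b_shape (F : Q3) (t ω R φ) {v : ℕ × ℕ} (h : F.alive t R φ v) :
    (F.pk t ω v = v ∧ (v.1 % 8 = 1 ∨ v.1 % 8 = 2 ∨ v.1 % 8 = 6)) ∨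
    (∃ b < 2, v = (8 * (2 * F.n) + 1, b)) ∨ (∃ r < 2 * F.n, t ≤ r ∧ v = (8 * r + 1, 0)) ∨
    (∃ r < 2 * F.n, t ≤ r ∧ v = (8 * r + 10, 0)) ∨
    ((v.1 % 8 = 3 ∨ v.1 % 8 = 4 ∨ v.1 % 8 = 5) ∧ F.size v.1 = 4) ∨
    (v.1 % 8 = 7 ∧ F.size v.1 = 16) := by
  obtain ⟨κ, b⟩ := v
  obtain ⟨h1, h2, -⟩ := h
  have z := grK0b_sz F κ
  dsimp only at h1 h2 ⊢
  by_cases c1 : κ % 8 = 1 ∧ κ / 8 = 2 * F.n
  · exact .inr (.inl ⟨b, (grKill3_size F h1 (.inl c1.1)).2, by congr 1; omega⟩)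
  by_cases c2 : κ % 8 = 1 ∧ b = 0
  · have := grKill3_size F h1 (.inl c2.1)
    exact .inr (.inr (.inl ⟨κ / 8, by omega, h2 c2.1 c2.2, by congr 1 <;> omega⟩))
  by_cases c3 : κ % 8 = 2 ∧ b = 0 ∧ t < κ / 8
  · have := grKill3_size F h1 (.inr c3.1)
    exact .inr (.inr (.inr (.inl ⟨κ / 8 - 1, by omega, by omega, by congr 1 <;> omega⟩)))
  by_cases c4 : κ % 8 = 3 ∨ κ % 8 = 4 ∨ κ % 8 = 5
  · exact .inr (.inr (.inr (.inr (.inl ⟨c4, by have := z.2.1 c4; omega⟩))))
  by_cases c5 : κ % 8 = 7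
  · exact .inr (.inr (.inr (.inr (.inr ⟨c5, by have := z.1 c5; omega⟩))))
  have := z.2.2.2
  refine .inl ⟨?_, by omega⟩
  unfold Q3.pk
  dsimp only
  rw [if_neg c1, if_neg c2, if_neg c3, if_neg (by omega), if_neg (by omega), if_neg c5]

theorem grK0b_ne {κ b w : ℕ} (h : 0 < w) : ((κ, b ^^^ w) : ℕ × ℕ) ≠ (κ, b) := fun e =>
  h.ne' (grFin2_xor (congrArg Prod.snd e))

theorem b_kill0 (hm : T_mok) : T_kill 0 := by
  intro F hF t R φ ω x _ hω ht hx v hv
  refine ⟨fun _ => ?_, fun h => absurd h (by decide), fun h => absurd h (by decide),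
    fun h => absurd h (by decide)⟩
  have hn := hF.hn
  have nx : ∀ w : ℕ × ℕ, w.1 % 8 ≠ 1 ∨ w.2 = 0 ∨ 16 < w.1 → w ≠ x := by
    rintro w k rfl
    rcases hx with rfl | rfl <;> simp at k
  have nk : ∀ w : ℕ × ℕ, w.1 ≠ 8 * t + 2 → w ≠ (8 * t + 2, 0) := by
    rintro w k rfl
    exact k rfl
  obtain ⟨-, -, al⟩ := (grK0b_mem hm F t R φ x v).1 hv
  have nl : ∀ κ, κ % 8 = 1 ∨ κ % 8 = 2 ∨ κ % 8 = 6 → ¬ F.mach.lb κ = true := fun κ k => by
    simp only [Q3.mach, decide_eq_true_eq]; omega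
  rw [grK0b_mem hm]
  rcases grK0b_shape F t ω R φ al with ⟨e, c⟩ | ⟨b, hb, rfl⟩ | ⟨r, hr, k, rfl⟩ | ⟨r, hr, k, rfl⟩ |
    ⟨c, z⟩ | ⟨c, z⟩
  · rw [e, e]
    exact ⟨(grK0b_mem hm F t R φ x v).1 hv, rfl, rfl, fun l => absurd l (nl _ c)⟩
  · rw [(grK0b_l F t ω 0 b).1, (grK0b_l F t ω 0 _).1]
    refine ⟨⟨nx _ (by dsimp only; omega), nk _ (by dsimp only; omega), ?_⟩, by congr 1; omega, rfl,
      fun l => absurd l (nl _ (by dsimp only; omega))⟩
    unfold Q3.alive
    dsimp only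
    rw [grK0b_s12 F (by omega) (by omega)]
    omega
  · rw [(grK0b_l F t ω r 0).2.1 hr, (grK0b_l F t ω r 0).2.2 k]
    refine ⟨⟨nx _ (by dsimp only; omega), nk _ (by dsimp only; omega), ?_⟩, rfl, ?_,
      fun l => absurd l (nl _ (by dsimp only; omega))⟩
    · unfold Q3.alive
      dsimp only
      rw [grK0b_s12 F (by omega) (by omega)]
      omega
    · simp only [Q3.mach, decide_eq_decide]; omega
  · rw [(grK0b_l F t ω r 0).2.2 k, (grK0b_l F t ω r 0).2.1 hr]
    refine ⟨⟨nx _ (by dsimp only; omega), nk _ (by dsimp only; omega), ?_⟩, rfl, ?_,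
      fun l => absurd l (nl _ (by dsimp only; omega))⟩
    · unfold Q3.alive
      dsimp only
      rw [grK0b_s12 F (by omega) (by omega)]
      omega
    · simp only [Q3.mach, decide_eq_decide]; omega
  · obtain ⟨κ, b⟩ := v
    obtain ⟨a1, -, -, a4, a5⟩ := al
    dsimp only at c z a1 a4 a5
    rw [z] at a1
    rcases c with c | c
    · rw [(grK0b_c F t ω b).1 c, (grK0b_c F t ω _).1 c, Nat.xor_xor_cancel_right]
      refine ⟨⟨nx _ (by dsimp only; omega), nk _ (by dsimp only; omega), ?_, by omega, by omega,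
        fun _ l => a4 c (((hω _).2.2 b).1 l), by omega⟩, rfl, rfl,
        fun _ => ⟨rfl, grK0b_ne (hω _).1⟩⟩
      rw [z]; exact grK0b_x4 b a1 _ (hω _).2.1
    · rw [(grK0b_c F t ω b).2.1 c, (grK0b_c F t ω _).2.1 c, Nat.xor_xor_cancel_right]
      have := grK0b_x1 b a1
      refine ⟨⟨nx _ (by dsimp only; omega), nk _ (by dsimp only; omega), ?_, by omega, by omega,
        by omega, fun l m => ?_⟩, rfl, rfl, fun _ => ⟨rfl, grK0b_ne one_pos⟩⟩
      · rw [z]; exact this.1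
      · have := a5 l m; dsimp only; omega
  · obtain ⟨κ, b⟩ := v
    have a1 := al.1
    dsimp only at c z a1
    rw [z] at a1
    rw [(grK0b_c F t ω b).2.2 c, (grK0b_c F t ω _).2.2 c, Nat.xor_xor_cancel_right]
    refine ⟨⟨nx _ (by dsimp only; omega), nk _ (by dsimp only; omega), ?_, by omega, by omega,
      by omega, by omega⟩, rfl, rfl, fun _ => ⟨rfl, grK0b_ne (by decide)⟩⟩
    rw [z]; exact grK0b_x8 b a1

/-- odd vertices after the kill -/
def grK1b_P (F : Q3) (t : ℕ) (R : ℕ → Finset ℕ) (φ : ℕ → Bool) (u : ℕ × ℕ) : Prop :=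
  (u.1 % 8 = 3 ∧ 2 * (u.1 / 8) + 1 < t) ∨ (u.1 % 8 = 4 ∧ u.2 < 2 ∧ F.en t R (u.1 / 8)) ∨
    (u.1 % 8 = 5 ∧ F.junk t φ u)

theorem grK1b_aK (F : Q3) {t R φ} {w : ℕ × ℕ} (h : F.alive t R φ w) :
    F.mach.adj w (8 * t + 2, 0) = true ↔ w = (8 * t + 1, 0) := by
  have h3 := h.2.2.1
  show (F.arc w _ || F.arc _ w) = true ↔ _
  simp only [Q3.arc, Bool.or_eq_true, decide_eq_true_eq]
  refine ⟨fun k => ?_, ?_⟩
  · rcases k with (k | k | k | k | k | k | k | k | k | k) | (k | k | k | k | k | k | k | k | k | k)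
    all_goals first
      | (exfalso; omega)
      | exact Prod.ext (by dsimp only; omega) k.2.2.1
  · rintro rfl
    exact .inl (.inr (.inl ⟨by dsimp only; omega, rfl, rfl, .inl trivial⟩))

theorem grK1b_ax (F : Q3) (hn : 0 < F.n) {w x : ℕ × ℕ} (hx : x = (1, 1) ∨ x = (9, 1)) :
    F.mach.adj w x = true ↔ w = (10 - x.1, 1) := by
  show (F.arc w _ || F.arc _ w) = true ↔ _
  rcases hx with rfl | rfl <;> simp only [Q3.arc, Bool.or_eq_true, decide_eq_true_eq] <;>
    refine ⟨fun k => ?_, ?_⟩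
  · rcases k with (k | k | k | k | k | k | k | k | k | k) | (k | k | k | k | k | k | k | k | k | k)
    all_goals first
      | (exfalso; omega)
      | exact Prod.ext (by dsimp only; omega) (by dsimp only; omega)
  · rintro rfl
    exact .inr (.inl (by simp))
  · rcases k with (k | k | k | k | k | k | k | k | k | k) | (k | k | k | k | k | k | k | k | k | k)
    all_goals first
      | (exfalso; omega)
      | exact Prod.ext (by dsimp only; omega) (by dsimp only; omega)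
  · rintro rfl
    exact .inl (.inl (by simp))

theorem grK1b_log {a b c : Prop} (h1 : a → b → False) (h2 : a → ¬ c) (h3 : b → ¬ c) :
    (((a ∨ b ∨ c ↔ ¬ a) ↔ ¬ b) ↔ c) := by tauto

theorem grK1b_od (hm : T_mok) (he : T_elem) (hs : T_tableS) (F : Q3) (hF : F.Ok) {t R φ x}
    (hR : Q3.Wf R) (ht : t ≤ 2 * F.n) (hx : x = (1, 1) ∨ x = (9, 1)) {w : ℕ × ℕ}
    (hw : w ∈ F.Kl t R φ x) : F.mach.od2 (F.Kl t R φ x) w ↔ grK1b_P F t R φ w := by
  have hn := hF.hn
  obtain ⟨w1, w2, w3⟩ := (grK0b_mem hm F t R φ x w).1 hw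
  have mK : (8 * t + 2, 0) ∈ F.St t R φ := ((hm F).2.2.1 _ _ _ _).2 (by
    unfold Q3.alive; dsimp only; rw [grK0b_s12 F (by omega) (by omega)]; omega)
  have mx : x ∈ (F.St t R φ).erase (8 * t + 2, 0) := by
    rw [mem_erase, (hm F).2.2.1]
    rcases hx with rfl | rfl <;> refine ⟨by simp only [ne_eq, Prod.mk.injEq]; omega, ?_⟩ <;>
      (unfold Q3.alive; dsimp only; rw [grK0b_s12 F (by omega) (by omega)]; omega)
  rw [Q3.Kl, (he _ _ _ mx).1, (he _ _ _ mK).1, hs F hF t R φ hR ht w (((hm F).2.2.1 _ _ _ _).2 w3),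
    ← Bool.not_eq_true, ← Bool.not_eq_true, grK1b_aK F w3, grK1b_ax F hn hx]
  have np : w.1 % 8 = 1 → ¬ grK1b_P F t R φ w := fun c k => by
    rcases k with k | k | k <;> omega
  have e : F.tabS t R φ w ↔ w = (8 * t + 1, 0) ∨ w = (10 - x.1, 1) ∨ grK1b_P F t R φ w := by
    refine ⟨?_, ?_⟩
    · rintro ((k | k | k) | k | k | k | k)
      · exact .inl (Prod.ext (by dsimp only; omega) k.2.1)
      · exact .inr (.inr (.inl k))
      · exact .inr (.inr (.inr (.inl k)))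
      · exact absurd k w2
      · rcases hx with rfl | rfl
        exacts [absurd k w1, .inr (.inl k)]
      · rcases hx with rfl | rfl
        exacts [.inr (.inl k), absurd k w1]
      · exact .inr (.inr (.inr (.inr k)))
    · rintro (rfl | k | k | k | k)
      · exact .inl (.inl ⟨by dsimp only; omega, rfl, by dsimp only; omega⟩)
      · rcases hx with rfl | rfl
        exacts [.inr (.inr (.inr (.inl k))), .inr (.inr (.inl k))]
      · exact .inl (.inr (.inl k))
      · exact .inl (.inr (.inr k))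
      · exact .inr (.inr (.inr (.inr k)))
  rw [e]
  refine grK1b_log (fun c1 c2 => ?_) (fun c1 => np ?_) fun c2 => np ?_
  · rw [c1] at c2; simp at c2
  · rw [c1]; dsimp only; omega
  · rw [c2]; rcases hx with rfl | rfl <;> rfl

theorem b_kill1 (hm : T_mok) (he : T_elem) (hs : T_tableS) (h0 : T_kill 0) : T_kill 1 := by
  intro F hF t R φ ω x hR hω ht hx v hv
  refine ⟨fun h => absurd h (by decide), fun _ => ?_, fun h => absurd h (by decide),
    fun h => absurd h (by decide)⟩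
  rw [grK1b_od hm he hs F hF hR ht hx hv,
    grK1b_od hm he hs F hF hR ht hx ((h0 F hF t R φ ω x hR hω ht hx v hv).1 rfl).1]
  obtain ⟨-, -, al⟩ := (grK0b_mem hm F t R φ x v).1 hv
  have np : ∀ w : ℕ × ℕ, w.1 % 8 = 1 ∨ w.1 % 8 = 2 ∨ w.1 % 8 = 6 ∨ w.1 % 8 = 7 →
      ¬ grK1b_P F t R φ w := fun w c k => by
    rcases k with k | k | k <;> omega
  rcases grK0b_shape F t ω R φ al with ⟨e, c⟩ | ⟨b, hb, rfl⟩ | ⟨r, hr, k, rfl⟩ | ⟨r, hr, k, rfl⟩ |
    ⟨c, z⟩ | ⟨c, z⟩
  · rw [e]; exact ⟨Iff.rfl, fun _ => np _ (by omega)⟩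
  · rw [(grK0b_l F t ω 0 b).1]
    exact ⟨iff_of_false (np _ (by dsimp only; omega)) (np _ (by dsimp only; omega)),
      fun _ => np _ (by dsimp only; omega)⟩
  · rw [(grK0b_l F t ω r 0).2.1 hr]
    exact ⟨iff_of_false (np _ (by dsimp only; omega)) (np _ (by dsimp only; omega)),
      fun _ => np _ (by dsimp only; omega)⟩
  · rw [(grK0b_l F t ω r 0).2.2 k]
    exact ⟨iff_of_false (np _ (by dsimp only; omega)) (np _ (by dsimp only; omega)),
      fun _ => np _ (by dsimp only; omega)⟩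
  · obtain ⟨κ, b⟩ := v
    have a1 := al.1
    dsimp only at c z a1
    rw [z] at a1
    rcases c with c | c
    · rw [(grK0b_c F t ω b).1 c]
      refine ⟨?_, fun l => absurd l (grK0b_ne (hω _).1)⟩
      simp only [grK1b_P, c]
      simp
    · rw [(grK0b_c F t ω b).2.1 c]
      refine ⟨?_, fun l => absurd l (grK0b_ne one_pos)⟩
      have := grK0b_x1 b a1
      have e1 : b ^^^ 1 < 2 ↔ b < 2 := by omega
      have e2 : 2 ≤ b ^^^ 1 ↔ 2 ≤ b := by omega
      rcases c with c | c <;> simp only [grK1b_P, Q3.junk, c, e1, e2] <;> simp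
  · obtain ⟨κ, b⟩ := v
    rw [(grK0b_c F t ω b).2.2 c]
    exact ⟨iff_of_false (np _ (by dsimp only at *; omega)) (np _ (by omega)),
      fun _ => np _ (by omega)⟩

end Pool.Agent.Chomp.GR
end

-- merged part: Pool.Agent.Work.MP_ff0f6a_lc.GR.Tab1
section
/-! The parity table for the classes of type 1. -/

namespace Pool.Agent.Chomp.GR

open Finset Function Pool.Agent.Chomp.SC

theorem grTab1_even {α : Type} (s : Finset α) (g : α → α) (h1 : ∀ a ∈ s, g a ∈ s)
    (h2 : ∀ a ∈ s, g (g a) = a) (h3 : ∀ a ∈ s, g a ≠ a) : Even s.card := by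
  rw [← ZMod.natCast_eq_zero_iff_even, Finset.card_eq_sum_ones, Nat.cast_sum]
  exact Finset.sum_involution (fun a _ => g a) (fun _ _ => by decide) (fun a ha _ => h3 a ha) h1 h2

theorem grTab1_adj0 (F : Q3) (i : ℕ) (v : ℕ × ℕ) : F.mach.adj (8 * i + 1, 0) v = true ↔
    (v.1 = 8 * i + 9 ∧ v.2 = 0) ∨ (v.1 + 8 = 8 * i + 1 ∧ v.2 = 0) ∨
    (v.1 = 8 * i + 2 ∧ (v.2 = 0 ∨ i < 2 * F.n)) ∨ (v.1 % 8 = 3 ∧ i = 2 * (v.1 / 8) + 1) ∨
    (v.1 % 8 = 4 ∧ v.2 < 2 ∧ F.q (v.1 / 8 / 3) = true ∧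
      (i = 2 * (v.1 / 8 / 3) ∨ i = 2 * (v.1 / 8 / 3) + 2)) ∨
    (i = 2 * F.n ∧ v.1 % 8 = 7 ∧ v.2 / 8 % 2 = 1) := by
  simp only [Q3.mach, Q3.arc, Bool.or_eq_true, decide_eq_true_eq]
  constructor
  · rintro ((h | h | h | h | h | h | h | h | h | h) | h | h | h | h | h | h | h | h | h | h)
    · exact .inl (by omega)
    · exact .inr (.inr (.inl (by omega)))
    · exfalso; omega
    · exact .inr (.inr (.inr (.inl (by omega))))
    · exact .inr (.inr (.inr (.inr (.inl ⟨h.2.1, h.2.2.2.1, h.2.2.2.2.1, by omega⟩))))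
    · exact .inr (.inr (.inr (.inr (.inr (by omega)))))
    · exfalso; omega
    · exfalso; omega
    · exfalso; omega
    · exfalso; omega
    · exact .inr (.inl (by omega))
    all_goals exfalso; omega
  · rintro (h | h | h | h | h | h)
    · exact .inl (.inl ⟨by omega, by omega, by omega, .inl (by trivial)⟩)
    · exact .inr (.inl (by omega))
    · exact .inl (.inr (.inl ⟨by omega, by omega, by trivial, by omega⟩))
    · exact .inl (.inr (.inr (.inr (.inl ⟨by omega, by omega, by trivial, by omega⟩))))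
    · exact .inl (.inr (.inr (.inr (.inr (.inl
        ⟨by omega, h.1, by trivial, h.2.1, h.2.2.1, by omega⟩)))))
    · exact .inl (.inr (.inr (.inr (.inr (.inr (.inl (by omega)))))))

theorem grTab1_adj1 (F : Q3) (hn : 0 < F.n) (v : ℕ × ℕ)
    (h : F.mach.adj (8 * (2 * F.n) + 1, 1) v = true) : v.1 % 8 = 7 := by
  simp only [Q3.mach, Q3.arc, Bool.or_eq_true, decide_eq_true_eq] at h
  rcases h with (h | h | h | h | h | h | h | h | h | h) | h | h | h | h | h | h | h | h | h | h <;>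
    omega

theorem grTab1_split (s : Finset (ℕ × ℕ)) (p : ℕ × ℕ → Prop) [DecidablePred p] :
    (s.filter p).card = ∑ r ∈ range 8, (s.filter fun v => v.1 % 8 = r ∧ p v).card := by
  rw [card_eq_sum_card_fiberwise (f := fun v : ℕ × ℕ => v.1 % 8) (t := range 8)
    fun v _ => mem_coe.2 (mem_range.2 (Nat.mod_lt _ (by norm_num)))]
  refine sum_congr rfl fun r _ => ?_
  rw [filter_filter]
  exact congrArg card (filter_congr fun v _ => and_comm)

theorem grTab1_s1 (F : Q3) (i : ℕ) : F.size (8 * i + 1) = if i ≤ 2 * F.n then 2 else 0 := by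
  have e1 : (8 * i + 1) % 8 = 1 := by omega
  have e2 : (8 * i + 1) / 8 = i := by omega
  simp [Q3.size, e1, e2]

theorem grTab1_s2 (F : Q3) (i : ℕ) : F.size (8 * i + 2) = if i ≤ 2 * F.n then 2 else 0 := by
  have e1 : (8 * i + 2) % 8 = 2 := by omega
  have e2 : (8 * i + 2) / 8 = i := by omega
  simp [Q3.size, e1, e2]

theorem grTab1_s3 (F : Q3) (κ : ℕ) (h : κ % 8 = 3) : F.size κ = 4 ∨ F.size κ = 0 := by
  unfold Q3.size
  split_ifs <;> omega

theorem grTab1_s4 (F : Q3) (κ : ℕ) (h : κ % 8 = 4) : F.size κ = 4 ∨ F.size κ = 0 := by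
  unfold Q3.size
  split_ifs <;> omega

variable {F : Q3} {s : Finset (ℕ × ℕ)} {t : ℕ} {R : ℕ → Finset ℕ} {φ : ℕ → Bool}

theorem grTab1_m1 (h : F.Inv s t R φ) (j : ℕ) : (8 * j + 1, 0) ∈ s ↔ t ≤ j ∧ j ≤ 2 * F.n := by
  rw [h.2.2 _ (by unfold Q3.junk; omega)]
  unfold Q3.alive
  rw [grTab1_s1]
  constructor
  · rintro ⟨h1, h2, -⟩
    split_ifs at h1 <;> omega
  · intro h1
    rw [if_pos h1.2]
    exact ⟨by omega, by omega, by omega, by omega, by omega⟩

theorem grTab1_m2 (h : F.Inv s t R φ) {j : ℕ} (h1 : t ≤ j) (h2 : j ≤ 2 * F.n) (b : ℕ) :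
    (8 * j + 2, b) ∈ s ↔ b < 2 := by
  rw [h.2.2 _ (by unfold Q3.junk; omega)]
  unfold Q3.alive
  rw [grTab1_s2, if_pos h2]
  exact ⟨And.left, fun h3 => ⟨h3, by omega, by omega, by omega, by omega⟩⟩

theorem grTab1_m3 (h : F.Inv s t R φ) {v : ℕ × ℕ} (h1 : v.1 % 8 = 3) :
    v ∈ s ↔ v.2 < F.size v.1 ∧ v.2 ∉ R (v.1 / 8) := by
  rw [h.2.2 _ (by unfold Q3.junk; omega)]
  exact ⟨fun h3 => ⟨h3.1, h3.2.2.2.1 h1⟩,
    fun h3 => ⟨h3.1, by omega, by omega, fun _ => h3.2, by omega⟩⟩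

theorem grTab1_m4 (h : F.Inv s t R φ) {v : ℕ × ℕ} (h1 : v.1 % 8 = 4) :
    v ∈ s ↔ v.2 < F.size v.1 ∧ (φ (v.1 / 8) = true → 2 ≤ v.2) := by
  rw [h.2.2 _ (by unfold Q3.junk; omega)]
  exact ⟨fun h3 => ⟨h3.1, h3.2.2.2.2 h1⟩,
    fun h3 => ⟨h3.1, by omega, by omega, by omega, fun _ => h3.2⟩⟩

theorem grTab1_m7 (h : F.Inv s t R φ) (v : ℕ × ℕ) (h1 : v.1 % 8 = 7) :
    v ∈ s ↔ v.2 < F.size v.1 := by
  rw [h.2.2 _ (by unfold Q3.junk; omega)]
  exact ⟨And.left, fun h3 => ⟨h3, by omega, by omega, by omega, by omega⟩⟩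

theorem grTab1_c0 (F : Q3) (s : Finset (ℕ × ℕ)) (i r : ℕ) (hr : r = 0 ∨ r = 5 ∨ r = 6) :
    (s.filter fun v => v.1 % 8 = r ∧ F.mach.adj (8 * i + 1, 0) v = true).card = 0 := by
  rw [card_eq_zero, filter_eq_empty_iff]
  rintro v - ⟨h1, h2⟩
  rw [grTab1_adj0] at h2
  omega

theorem grTab1_c1 (h : F.Inv s t R φ) {i : ℕ} (h1 : t ≤ i) (h2 : i ≤ 2 * F.n) :
    (s.filter fun v => v.1 % 8 = 1 ∧ F.mach.adj (8 * i + 1, 0) v = true).card =
      (if i < 2 * F.n then 1 else 0) + if t < i then 1 else 0 := by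
  have e : (s.filter fun v => v.1 % 8 = 1 ∧ F.mach.adj (8 * i + 1, 0) v = true) =
      (if i < 2 * F.n then {(8 * (i + 1) + 1, 0)} else ∅) ∪
        if t < i then {(8 * (i - 1) + 1, 0)} else ∅ := by
    ext ⟨κ, b⟩
    rw [mem_filter, grTab1_adj0, mem_union]
    constructor
    · rintro ⟨h3, h4, h5⟩
      obtain ⟨j, rfl⟩ : ∃ j, κ = 8 * j + 1 := ⟨κ / 8, by omega⟩
      obtain rfl : b = 0 := by omega
      rw [grTab1_m1 h] at h3
      by_cases h6 : j = i + 1
      · left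
        rw [if_pos (by omega), h6]
        exact mem_singleton_self _
      · right
        rw [if_pos (by omega), show j = i - 1 by omega]
        exact mem_singleton_self _
    · rintro (h3 | h3) <;> split_ifs at h3 with h4
      · rw [mem_singleton.1 h3, grTab1_m1 h]
        omega
      · exact absurd h3 (notMem_empty _)
      · rw [mem_singleton.1 h3, grTab1_m1 h]
        omega
      · exact absurd h3 (notMem_empty _)
  rw [e]
  split_ifs
  · rw [card_union_of_disjoint (disjoint_singleton.2 (by simp; omega))]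
    rfl
  all_goals simp

theorem grTab1_c2 (h : F.Inv s t R φ) {i : ℕ} (h1 : t ≤ i) (h2 : i ≤ 2 * F.n) :
    (s.filter fun v => v.1 % 8 = 2 ∧ F.mach.adj (8 * i + 1, 0) v = true).card =
      1 + if i < 2 * F.n then 1 else 0 := by
  have e : (s.filter fun v => v.1 % 8 = 2 ∧ F.mach.adj (8 * i + 1, 0) v = true) =
      (range (1 + if i < 2 * F.n then 1 else 0)).image fun b => (8 * i + 2, b) := by
    ext ⟨κ, b⟩
    rw [mem_filter, grTab1_adj0, mem_image]
    constructor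
    · rintro ⟨h3, h4, h5⟩
      obtain rfl : κ = 8 * i + 2 := by omega
      rw [grTab1_m2 h h1 h2] at h3
      refine ⟨b, mem_range.2 ?_, rfl⟩
      split_ifs <;> omega
    · rintro ⟨b', h3, h4⟩
      rw [← h4, grTab1_m2 h h1 h2]
      rw [mem_range] at h3
      split_ifs at h3 <;> omega
  rw [e, card_image_of_injective _ (Prod.mk_right_injective _), card_range]

theorem grTab1_c3 (h : F.Inv s t R φ) (i : ℕ) :
    Even (s.filter fun v => v.1 % 8 = 3 ∧ F.mach.adj (8 * i + 1, 0) v = true).card := by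
  by_cases h1 : i % 2 = 1 ∧ F.size (8 * (i / 2) + 3) = 4
  · have e : (s.filter fun v => v.1 % 8 = 3 ∧ F.mach.adj (8 * i + 1, 0) v = true) =
        (range 4 \ R (i / 2)).image fun b => (8 * (i / 2) + 3, b) := by
      have e2 : (8 * (i / 2) + 3) / 8 = i / 2 := by omega
      ext ⟨κ, b⟩
      rw [mem_filter, grTab1_adj0, mem_image]
      constructor
      · rintro ⟨h3, h4, h5⟩
        obtain rfl : κ = 8 * (i / 2) + 3 := by omega
        rw [grTab1_m3 h h4, h1.2, e2] at h3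
        exact ⟨b, mem_sdiff.2 ⟨mem_range.2 h3.1, h3.2⟩, rfl⟩
      · rintro ⟨b', h3, h4⟩
        rw [← h4, grTab1_m3 h (by omega), h1.2, e2]
        exact ⟨⟨mem_range.1 (mem_sdiff.1 h3).1, (mem_sdiff.1 h3).2⟩, by omega, by omega⟩
    have hsub : R (i / 2) ⊆ range 4 := fun b hb => mem_range.2 ((h.1 _).1 b hb)
    rw [e, card_image_of_injective _ (Prod.mk_right_injective _), card_sdiff_of_subset hsub,
      card_range, Nat.even_sub (by simpa using card_le_card hsub)]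
    exact ⟨fun _ => (h.1 _).2, fun _ => by decide⟩
  · rw [filter_eq_empty_iff.2, card_empty]
    · exact Even.zero
    rintro ⟨κ, b⟩ h3 ⟨h4, h5⟩
    rw [grTab1_adj0] at h5
    obtain rfl : κ = 8 * (i / 2) + 3 := by omega
    have h6 : b < F.size (8 * (i / 2) + 3) := h.2.1 _ h3
    have h7 := grTab1_s3 F (8 * (i / 2) + 3) h4
    omega

theorem grTab1_c4 (h : F.Inv s t R φ) (i : ℕ) :
    Even (s.filter fun v => v.1 % 8 = 4 ∧ F.mach.adj (8 * i + 1, 0) v = true).card := by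
  have k : ∀ v ∈ s.filter fun v => v.1 % 8 = 4 ∧ F.mach.adj (8 * i + 1, 0) v = true, v.2 < 2 := by
    intro v hv
    obtain ⟨-, h4, h5⟩ := mem_filter.1 hv
    rw [grTab1_adj0] at h5
    omega
  refine grTab1_even _ (fun v => (v.1, 1 - v.2)) (fun v hv => ?_) (fun v hv => ?_) fun v hv e => ?_
  · have h2 := k v hv
    obtain ⟨h3, h4, h5⟩ := mem_filter.1 hv
    rw [grTab1_adj0] at h5
    rw [grTab1_m4 h h4] at h3
    have h7 := grTab1_s4 F _ h4
    refine mem_filter.2 ⟨(grTab1_m4 (v := (v.1, 1 - v.2)) h h4).2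
      ⟨show 1 - v.2 < F.size v.1 by omega, fun h8 => ?_⟩, h4, ?_⟩
    · have := h3.2 h8
      omega
    · rw [grTab1_adj0]
      rcases h5 with h5 | h5 | h5 | h5 | h5 | h5
      any_goals exfalso; omega
      exact Or.inr (Or.inr (Or.inr (Or.inr (Or.inl
        ⟨h4, show 1 - v.2 < 2 by omega, h5.2.2⟩))))
  · have h2 := k v hv
    exact Prod.ext rfl (by show 1 - (1 - v.2) = v.2; omega)
  · have h2 := k v hv
    have h3 : 1 - v.2 = v.2 := congrArg Prod.snd e
    omega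

theorem t_tab1 (hm : T_mok) (hg : T_gate) : T_tab 1 := by
  rintro F hF s t R φ h ht ⟨κ, b⟩ hu h1 hj -
  obtain ⟨i, rfl⟩ : ∃ i, κ = 8 * i + 1 := ⟨κ / 8, by omega⟩
  have hn := hF.hn
  have e2 : (8 * i + 1) / 8 = i := by omega
  have h7 := hg F s (8 * i + 1, b) (by omega) (grTab1_m7 h)
  have hb := h.2.1 _ hu
  have hl : F.mach.lb (8 * i + 1) = false := by
    simp only [Q3.mach, decide_eq_false_iff_not]
    omega
  rw [grTab1_s1] at hb
  unfold Mg.od2 Q3.tab
  rw [hl, if_neg Bool.false_ne_true, add_zero]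
  by_cases h0 : b = 0
  · subst h0
    obtain ⟨h2, h3⟩ := (grTab1_m1 h i).1 hu
    have c3 := grTab1_c3 h i
    have c4 := grTab1_c4 h i
    rw [grTab1_split]
    simp only [sum_range_succ, sum_range_zero]
    rw [grTab1_c0 F s i 0 (by omega), grTab1_c0 F s i 5 (by omega), grTab1_c0 F s i 6 (by omega),
      grTab1_c1 h h2 h3, grTab1_c2 h h2 h3, Nat.odd_iff]
    rw [Nat.even_iff] at c3 c4 h7
    rw [e2]
    simp only [true_and]
    split_ifs <;> omega
  · have h2 : b = 1 ∧ i = 2 * F.n := by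
      unfold Q3.junk at hj
      split_ifs at hb <;> omega
    obtain ⟨rfl, rfl⟩ := h2
    have e : (s.filter fun v => F.mach.adj (8 * (2 * F.n) + 1, 1) v = true) =
        s.filter fun v => v.1 % 8 = 7 ∧ F.mach.adj (8 * (2 * F.n) + 1, 1) v = true :=
      filter_congr fun v _ => ⟨fun h3 => ⟨grTab1_adj1 F hn v h3, h3⟩, And.right⟩
    rw [e, Nat.odd_iff]
    rw [Nat.even_iff] at h7
    omega

end Pool.Agent.Chomp.GR
end

-- merged part: Pool.Agent.Work.MP_ff0f6a_lc.GR.Tab23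
section
/-!
Chomp on graphs: the parity table for the classes of types 0, 2, 3 and 6.
-/

namespace Pool.Agent.Chomp.GR

open Finset Function Pool.Agent.Chomp.SC

theorem grTab23_adj (F : Q3) (u v : ℕ × ℕ) :
    F.mach.adj u v = true ↔ F.arc u v = true ∨ F.arc v u = true := by
  show (F.arc u v || F.arc v u) = true ↔ _
  rw [Bool.or_eq_true]

theorem grTab23_adj2 (F : Q3) (i e : ℕ) (v : ℕ × ℕ) : F.mach.adj (8 * i + 2, e) v = true ↔
    (e = 1 ∧ v.1 = 8 * i + 10 ∧ v.2 = 0) ∨ (v.1 = 8 * i + 1 ∧ v.2 = 0 ∧ (e = 0 ∨ i < 2 * F.n)) ∨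
      (v.1 + 8 = 8 * i + 2 ∧ v.2 = 1 ∧ e = 0) := by
  rw [grTab23_adj]
  unfold Q3.arc
  simp only [decide_eq_true_eq]
  constructor
  · rintro (h | h)
    · rcases h with h | h | h | h | h | h | h | h | h | h <;> omega
    · rcases h with h | h | h | h | h | h | h | h | h | h <;> omega
  · rintro (h | h | h)
    · left; right; right; left; omega
    · right; right; left; omega
    · right; right; right; left; omega

theorem grTab23_adj3 (F : Q3) (i e : ℕ) (v : ℕ × ℕ) : F.mach.adj (8 * i + 3, e) v = true ↔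
    (v.1 = 8 * (2 * i + 1) + 1 ∧ v.2 = 0) ∨
      (v.1 % 8 = 4 ∧ v.1 / 8 / 3 = i ∧ v.2 < 2 ∧ e / (v.1 / 8 % 3) % 2 = 1) := by
  rw [grTab23_adj]
  unfold Q3.arc
  simp only [decide_eq_true_eq]
  constructor
  · rintro (h | h)
    · rcases h with h | h | h | h | h | h | h | h | h | h
      · omega
      · omega
      · omega
      · omega
      · omega
      · omega
      · right
        exact ⟨h.2.1, by omega, h.2.2.2.1, h.2.2.2.2⟩
      · omega
      · omega
      · omega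
    · rcases h with h | h | h | h | h | h | h | h | h | h
      · omega
      · omega
      · omega
      · left; omega
      · omega
      · omega
      · omega
      · omega
      · omega
      · omega
  · rintro (h | h)
    · right; right; right; right; left; omega
    · left; right; right; right; right; right; right; left
      exact ⟨by omega, h.1, by omega, h.2.2.1, h.2.2.2⟩

theorem grTab23_adj6 (F : Q3) (c e : ℕ) (v : ℕ × ℕ) : F.mach.adj (8 * c + 6, e) v = true ↔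
    v.1 = 8 * c + 5 ∧ e = v.2 / 2 := by
  rw [grTab23_adj]
  unfold Q3.arc
  simp only [decide_eq_true_eq]
  constructor
  · rintro (h | h)
    · rcases h with h | h | h | h | h | h | h | h | h | h <;> omega
    · rcases h with h | h | h | h | h | h | h | h | h | h <;> omega
  · intro h
    right; right; right; right; right; right; right; right; right; left; omega

theorem grTab23_size12 (F : Q3) (κ : ℕ) (h : κ % 8 = 1 ∨ κ % 8 = 2) :
    F.size κ = if κ / 8 ≤ 2 * F.n then 2 else 0 := by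
  unfold Q3.size
  rw [if_neg (by omega), if_neg (by omega)]
  by_cases hk : κ / 8 ≤ 2 * F.n
  · rw [if_pos hk, if_pos (Or.inl ⟨h, hk⟩)]
  · rw [if_neg hk, if_neg (by omega)]

theorem grTab23_size3 (F : Q3) (κ : ℕ) (h : κ % 8 = 3) (hp : 0 < F.size κ) : κ / 8 < F.n := by
  unfold Q3.size at hp
  split_ifs at hp <;> omega

theorem grTab23_size4 (F : Q3) (κ : ℕ) (h : κ % 8 = 4) (hp : 0 < F.size κ) : F.size κ = 4 := by
  unfold Q3.size at hp ⊢
  split_ifs at hp ⊢ <;> omega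

theorem grTab23_size5 (F : Q3) (κ : ℕ) (h : κ % 8 = 5) (h1 : κ / 8 / 3 < F.n)
    (h2 : κ / 8 % 3 ≠ 0) : F.size κ = 4 := by
  unfold Q3.size
  rw [if_neg (by omega), if_pos (Or.inr (Or.inr ⟨h, h1, h2⟩))]

theorem grTab23_size6 (F : Q3) (κ : ℕ) (h : κ % 8 = 6) (hp : 0 < F.size κ) :
    F.size κ = 2 ∧ κ / 8 / 3 < F.n ∧ κ / 8 % 3 ≠ 0 := by
  unfold Q3.size at hp ⊢
  split_ifs at hp ⊢ <;> omega

theorem grTab23_even (S : Finset (ℕ × ℕ)) (h : ∀ v ∈ S, v.2 < 2 ∧ (v.1, 1 - v.2) ∈ S) :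
    Even S.card := by
  have hc : (S.filter fun v => v.2 = 0).card = (S.filter fun v => ¬ v.2 = 0).card := by
    apply Finset.card_nbij' (fun v => (v.1, 1 - v.2)) (fun v => (v.1, 1 - v.2))
    · intro v hv
      simp only [coe_filter, Set.mem_ofPred_eq] at hv ⊢
      exact ⟨(h v hv.1).2, by omega⟩
    · intro v hv
      simp only [coe_filter, Set.mem_ofPred_eq] at hv ⊢
      have := (h v hv.1).1
      exact ⟨(h v hv.1).2, by omega⟩
    · intro v hv
      simp only [coe_filter, Set.mem_ofPred_eq] at hv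
      exact Prod.ext rfl (by simp only; omega)
    · intro v hv
      simp only [coe_filter, Set.mem_ofPred_eq] at hv
      have := (h v hv.1).1
      exact Prod.ext rfl (by simp only; omega)
  have := Finset.card_filter_add_card_filter_not (s := S) (fun v => v.2 = 0)
  exact ⟨(S.filter fun v => v.2 = 0).card, by omega⟩

/-- the vertex `g` of stage `i` -/
theorem grTab23_g (F : Q3) {s : Finset (ℕ × ℕ)} {t : ℕ} {R : ℕ → Finset ℕ} {φ : ℕ → Bool}
    (hI : F.Inv s t R φ) (i : ℕ) (hi : i ≤ 2 * F.n) : (8 * i + 1, 0) ∈ s ↔ t ≤ i := by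
  rw [hI.2.2 _ (by unfold Q3.junk; simp only; omega)]
  unfold Q3.alive
  simp only
  rw [grTab23_size12 F _ (by omega), if_pos (by omega)]
  constructor
  · intro h
    have := h.2.1 (by omega) trivial
    omega
  · intro h
    exact ⟨by omega, fun _ _ => by omega, fun h => by omega, fun h => by omega, fun h => by omega⟩

/-- the vertices `K` and `a` of stage `i` -/
theorem grTab23_k (F : Q3) {s : Finset (ℕ × ℕ)} {t : ℕ} {R : ℕ → Finset ℕ} {φ : ℕ → Bool}
    (hI : F.Inv s t R φ) (i e : ℕ) (hi : i ≤ 2 * F.n) (ht : t ≤ i) (he : e < 2) :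
    (8 * i + 2, e) ∈ s := by
  rw [hI.2.2 _ (by unfold Q3.junk; simp only; omega)]
  unfold Q3.alive
  simp only
  rw [grTab23_size12 F _ (by omega), if_pos (by omega)]
  exact ⟨he, fun h => by omega, fun _ _ => by omega, fun h => by omega, fun h => by omega⟩

theorem t_tab0 (hm : T_mok) : T_tab 0 := by
  have _ := hm
  intro F _ s t R φ hI _ u hu h0 _ _
  have hs := hI.2.1 u hu
  unfold Q3.size at hs
  split_ifs at hs <;> omega

theorem t_tab2 (hm : T_mok) : T_tab 2 := by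
  have _ := hm
  intro F _ s t R φ hI _ u hu h0 hj hne
  obtain ⟨κ, e⟩ := u
  simp only at h0
  obtain ⟨i, rfl⟩ : ∃ i, κ = 8 * i + 2 := ⟨κ / 8, by omega⟩
  have hs := hI.2.1 _ hu
  simp only at hs
  rw [grTab23_size12 F _ (by omega)] at hs
  have hi : i ≤ 2 * F.n ∧ e < 2 := by split_ifs at hs <;> omega
  have ht : t ≤ i := by
    by_contra hlt
    exact hj (Or.inr (Or.inl ⟨by omega, by simp only; omega⟩))
  have htab : ¬ F.tab t R (8 * i + 2, e) := by
    unfold Q3.tab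
    simp only
    omega
  have hlb : ¬ F.mach.lb (8 * i + 2) = true := by
    show ¬ decide _ = true
    rw [decide_eq_true_eq]
    omega
  refine iff_of_false ?_ htab
  unfold Mg.od2
  simp only
  rw [if_neg hlb, Nat.add_zero, Nat.not_odd_iff_even]
  by_cases he : e = 0
  · subst he
    have hti : t < i := by
      rcases Nat.lt_or_eq_of_le ht with h | h
      · exact h
      · exact absurd (by rw [h]) hne
    have hset : (s.filter fun v => F.mach.adj (8 * i + 2, 0) v = true) =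
        {(8 * i + 1, 0), (8 * (i - 1) + 2, 1)} := by
      ext v
      rw [mem_filter, grTab23_adj2, mem_insert, mem_singleton]
      constructor
      · rintro ⟨_, h | h | h⟩
        · omega
        · left; exact Prod.ext h.1 h.2.1
        · right; exact Prod.ext (by simp only; omega) h.2.1
      · rintro (rfl | rfl)
        · exact ⟨(grTab23_g F hI i hi.1).2 ht, Or.inr (Or.inl ⟨rfl, rfl, Or.inl rfl⟩)⟩
        · exact ⟨grTab23_k F hI (i - 1) 1 (by omega) (by omega) (by omega),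
            Or.inr (Or.inr ⟨by simp only; omega, rfl, rfl⟩)⟩
    rw [hset, card_pair (by simp)]
    exact even_two
  · obtain rfl : e = 1 := by omega
    by_cases hn : i < 2 * F.n
    · have hset : (s.filter fun v => F.mach.adj (8 * i + 2, 1) v = true) =
          {(8 * i + 1, 0), (8 * (i + 1) + 2, 0)} := by
        ext v
        rw [mem_filter, grTab23_adj2, mem_insert, mem_singleton]
        constructor
        · rintro ⟨_, h | h | h⟩
          · right; exact Prod.ext (by simp only; omega) h.2.2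
          · left; exact Prod.ext h.1 h.2.1
          · omega
        · rintro (rfl | rfl)
          · exact ⟨(grTab23_g F hI i hi.1).2 ht, Or.inr (Or.inl ⟨rfl, rfl, Or.inr hn⟩)⟩
          · exact ⟨grTab23_k F hI (i + 1) 0 (by omega) (by omega) (by omega),
              Or.inl ⟨rfl, by simp only; omega, rfl⟩⟩
      rw [hset, card_pair (by simp only [ne_eq, Prod.mk.injEq]; omega)]
      exact even_two
    · have hset : (s.filter fun v => F.mach.adj (8 * i + 2, 1) v = true) = ∅ := by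
        apply filter_eq_empty_iff.2
        intro v hv
        rw [grTab23_adj2]
        rintro (h | h | h)
        · have h1 := hI.2.1 v hv
          rw [grTab23_size12 F _ (by omega), if_neg (by omega)] at h1
          omega
        · omega
        · omega
      rw [hset, card_empty]
      exact Even.zero

theorem t_tab3 (hm : T_mok) : T_tab 3 := by
  have _ := hm
  intro F _ s t R φ hI _ u hu h0 _ _
  obtain ⟨κ, e⟩ := u
  simp only at h0
  obtain ⟨i, rfl⟩ : ∃ i, κ = 8 * i + 3 := ⟨κ / 8, by omega⟩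
  have hs := hI.2.1 _ hu
  simp only at hs
  have hi : i < F.n := by
    have := grTab23_size3 F (8 * i + 3) (by omega) (by omega)
    omega
  have htab : F.tab t R (8 * i + 3, e) ↔ 2 * i + 1 < t := by
    unfold Q3.tab
    simp only
    constructor
    · intro h
      omega
    · intro h
      exact Or.inr (Or.inl (by omega))
  have hlb : F.mach.lb (8 * i + 3) = true := by
    show decide _ = true
    rw [decide_eq_true_eq]
    omega
  have hfix : F.mach.fix (8 * i + 3) = false := by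
    show decide _ = false
    rw [decide_eq_false_iff_not]
    omega
  rw [htab]
  unfold Mg.od2
  simp only
  rw [if_pos hlb, hfix]
  set A := s.filter fun v => F.mach.adj (8 * i + 3, e) v = true with hA
  have hsplit := Finset.card_filter_add_card_filter_not (s := A) (fun v => v.1 % 8 = 4)
  have hev : Even (A.filter fun v => v.1 % 8 = 4).card := by
    apply grTab23_even
    intro v hv
    rw [mem_filter, hA, mem_filter, grTab23_adj3] at hv
    obtain ⟨⟨hvs, h | h⟩, h4⟩ := hv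
    · omega
    · refine ⟨h.2.2.1, ?_⟩
      rw [mem_filter, hA, mem_filter, grTab23_adj3]
      refine ⟨⟨?_, Or.inr ⟨h.1, h.2.1, by simp only; omega, h.2.2.2⟩⟩, h4⟩
      have hal := (hI.2.2 v (by unfold Q3.junk; omega)).1 hvs
      rw [hI.2.2 _ (by unfold Q3.junk; simp only; omega)]
      unfold Q3.alive at hal ⊢
      simp only
      have h5 := grTab23_size4 F v.1 h4 (by omega)
      refine ⟨by omega, fun h => by omega, fun h => by omega, fun h => by omega, fun _ hφ => ?_⟩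
      have := hal.2.2.2.2 h4 hφ
      omega
  have hg := grTab23_g F hI (2 * i + 1) (by omega)
  have hrest : (A.filter fun v => ¬ v.1 % 8 = 4).card = if t ≤ 2 * i + 1 then 1 else 0 := by
    split_ifs with ht
    · rw [card_eq_one]
      refine ⟨(8 * (2 * i + 1) + 1, 0), ?_⟩
      ext v
      rw [mem_filter, hA, mem_filter, grTab23_adj3, mem_singleton]
      constructor
      · rintro ⟨⟨_, h | h⟩, h4⟩
        · exact Prod.ext h.1 h.2
        · exact absurd h.1 h4
      · rintro rfl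
        exact ⟨⟨hg.2 ht, Or.inl ⟨rfl, rfl⟩⟩, by simp only; omega⟩
    · rw [card_eq_zero]
      apply filter_eq_empty_iff.2
      intro v hv h4
      rw [hA, mem_filter, grTab23_adj3] at hv
      obtain ⟨hvs, h | h⟩ := hv
      · have hv : v = (8 * (2 * i + 1) + 1, 0) := Prod.ext h.1 h.2
        rw [hv] at hvs
        exact ht (hg.1 hvs)
      · exact h4 h.1
  rw [Nat.odd_iff, Bool.toNat_false]
  rw [Nat.even_iff] at hev
  split_ifs at hrest <;> omega

theorem t_tab6 (hm : T_mok) : T_tab 6 := by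
  have _ := hm
  intro F _ s t R φ hI _ u hu h0 hj _
  obtain ⟨κ, e⟩ := u
  simp only at h0
  obtain ⟨c, rfl⟩ : ∃ c, κ = 8 * c + 6 := ⟨κ / 8, by omega⟩
  have hs := hI.2.1 _ hu
  simp only at hs
  obtain ⟨h2, hc1, hc2⟩ := grTab23_size6 F (8 * c + 6) (by omega) (by omega)
  have e6 : (8 * c + 6) / 8 = c := by omega
  have e5 : (8 * c + 5) / 8 = c := by omega
  rw [e6] at hc1 hc2
  have htab : ¬ F.tab t R (8 * c + 6, e) := by
    unfold Q3.tab
    simp only
    omega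
  have hlb : ¬ F.mach.lb (8 * c + 6) = true := by
    show ¬ decide _ = true
    rw [decide_eq_true_eq]
    omega
  have hmem : ∀ b, e = b / 2 → (8 * c + 5, b) ∈ s := by
    intro b hb
    have hnj : ¬ F.junk t φ (8 * c + 5, b) := by
      rintro (h | h | h | h)
      · omega
      · omega
      · apply hj
        refine Or.inr (Or.inr (Or.inr ⟨by omega, ?_⟩))
        simp only [e5, e6] at h ⊢
        rcases h.2 with h | h
        · exact Or.inl ⟨by omega, h.2⟩
        · exact Or.inr ⟨by omega, h.2⟩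
      · omega
    rw [hI.2.2 _ hnj]
    unfold Q3.alive
    simp only
    rw [grTab23_size5 F _ (by omega) (by omega) (by omega)]
    exact ⟨by omega, fun h => by omega, fun h => by omega, fun h => by omega, fun h => by omega⟩
  refine iff_of_false ?_ htab
  unfold Mg.od2
  simp only
  rw [if_neg hlb, Nat.add_zero, Nat.not_odd_iff_even]
  have hset : (s.filter fun v => F.mach.adj (8 * c + 6, e) v = true) =
      {(8 * c + 5, 2 * e), (8 * c + 5, 2 * e + 1)} := by
    ext v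
    rw [mem_filter, grTab23_adj6, mem_insert, mem_singleton]
    constructor
    · rintro ⟨_, h1, h3⟩
      rcases Nat.mod_two_eq_zero_or_one v.2 with h | h
      · left; exact Prod.ext h1 (by simp only; omega)
      · right; exact Prod.ext h1 (by simp only; omega)
    · rintro (rfl | rfl)
      · exact ⟨hmem _ (by omega), rfl, by simp only; omega⟩
      · exact ⟨hmem _ (by omega), rfl, by simp only; omega⟩
  rw [hset, card_pair (by simp)]
  exact even_two

end Pool.Agent.Chomp.GR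
end

-- merged part: Pool.Agent.Work.MP_ff0f6a_lc.GR.Tab4
section
/-!
The parity table for the classes of type 4.
-/

namespace Pool.Agent.Chomp.GR

open Finset Function Pool.Agent.Chomp.SC

theorem grTab4_adj (F : Q3) (c b κ x : ℕ) : F.mach.adj (8 * c + 4, b) (κ, x) = true ↔
    (κ % 8 = 1 ∧ x = 0 ∧ b < 2 ∧ F.q (c / 3) = true ∧
      (κ / 8 = 2 * (c / 3) ∨ κ / 8 = 2 * (c / 3) + 2)) ∨
    (κ % 8 = 3 ∧ c / 3 = κ / 8 ∧ b < 2 ∧ x / (c % 3) % 2 = 1) ∨
    (κ % 8 = 5 ∧ b = x / 2 * 2 ∧ (8 * c + 5 = κ ∨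
      (8 * c + 13 = κ ∧ x < 2 ∧ κ / 8 % 3 = 2 ∧ F.q (κ / 8 / 3) = true))) := by
  have e1 : (8 * c + 4) % 8 = 4 := by omega
  have e2 : (8 * c + 4) / 8 = c := by omega
  show (F.arc (8 * c + 4, b) (κ, x) || F.arc (κ, x) (8 * c + 4, b)) = true ↔ _
  unfold Q3.arc
  simp only [Bool.or_eq_true, decide_eq_true_eq, e1, e2]
  constructor
  · rintro (h | h)
    · rcases h with h | h | h | h | h | h | h | h | h | h <;> omega
    · rcases h with h | h | h | h | h | h | h | h | h | h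
      · omega
      · omega
      · omega
      · omega
      · exact Or.inl ⟨h.1, h.2.2⟩
      · omega
      · exact Or.inr (Or.inl ⟨h.1, h.2.2⟩)
      · exact Or.inr (Or.inr ⟨h.1, h.2.2⟩)
      · omega
      · omega
  · rintro (h | h | h)
    · exact Or.inr (Or.inr (Or.inr (Or.inr (Or.inr (Or.inl ⟨h.1, trivial, h.2⟩)))))
    · exact Or.inr (Or.inr (Or.inr (Or.inr (Or.inr (Or.inr (Or.inr (Or.inl
        ⟨h.1, trivial, h.2⟩)))))))
    · exact Or.inr (Or.inr (Or.inr (Or.inr (Or.inr (Or.inr (Or.inr (Or.inr (Or.inl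
        ⟨h.1, trivial, h.2⟩))))))))

section

variable {F : Q3} {s : Finset (ℕ × ℕ)} {t : ℕ} {R : ℕ → Finset ℕ} {φ : ℕ → Bool}

theorem grTab4_g (hI : F.Inv s t R φ) {k : ℕ} (hk : k ≤ 2 * F.n) : (8 * k + 1, 0) ∈ s ↔ t ≤ k := by
  have e1 : (8 * k + 1) % 8 = 1 := by omega
  have e2 : (8 * k + 1) / 8 = k := by omega
  rw [hI.2.2 _ (by simp [Q3.junk, e1])]
  simp [Q3.alive, Q3.size, e1, e2, hk]

theorem grTab4_X (hI : F.Inv s t R φ) {i x : ℕ} (hi : i < F.n) :
    (8 * i + 3, x) ∈ s ↔ F.q i = false ∧ x < 4 ∧ x ∉ R i := by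
  have e1 : (8 * i + 3) % 8 = 3 := by omega
  have e2 : (8 * i + 3) / 8 = i := by omega
  rw [hI.2.2 _ (by simp [Q3.junk, e1])]
  cases h : F.q i <;> simp [Q3.alive, Q3.size, e1, e2, hi, h]

theorem grTab4_S (hI : F.Inv s t R φ) {c x : ℕ} (hc : c / 3 < F.n) (h3 : c % 3 ≠ 0) (hx : x < 4)
    (h1 : x < 2 → φ (F.host c) = false) (h2 : 2 ≤ x → ¬ F.neg c) : (8 * c + 5, x) ∈ s := by
  have e1 : (8 * c + 5) % 8 = 5 := by omega
  have e2 : (8 * c + 5) / 8 = c := by omega
  rw [hI.2.2 _ (by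
    simp only [Q3.junk, e1, e2]
    rintro (h | h | ⟨-, h | h⟩ | h)
    · omega
    · omega
    · rw [h1 h.1] at h
      exact absurd h.2 (by decide)
    · exact h2 h.1 h.2
    · omega)]
  simp [Q3.alive, Q3.size, e1, e2, hc, h3, hx]

theorem grTab4_sz (hI : F.Inv s t R φ) {κ x : ℕ} (h : (κ, x) ∈ s) (h7 : κ % 8 ≠ 7) : x < 4 := by
  have := hI.2.1 _ h
  unfold Q3.size at this
  split_ifs at this <;> omega

end

theorem t_tab4 (hm : T_mok) : T_tab 4 := by
  have _ := hm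
  rintro F - s t R φ hI - ⟨κ₀, b⟩ hu h4 hj -
  obtain ⟨c, rfl⟩ : ∃ c, κ₀ = 8 * c + 4 := ⟨κ₀ / 8, by simp only at h4; omega⟩
  have e1 : (8 * c + 4) % 8 = 4 := by omega
  have e2 : (8 * c + 4) / 8 = c := by omega
  have al := (hI.2.2 _ hj).1 hu
  have hb : b < 4 := grTab4_sz hI hu (by omega)
  have hφ : b < 2 → φ c = false := fun h => by
    have := al.2.2.2.2 e1
    simp only [e2] at this
    cases hc : φ c
    · rfl
    · have := this hc
      omega
  have hc : c / 3 < F.n ∧ (c % 3 = 1 ∨ (c % 3 = 2 ∧ F.q (c / 3) = false)) := by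
    have := al.1
    unfold Q3.size at this
    simp only [e1, e2] at this
    by_contra h
    simp [h] at this
  have hn : ¬ F.neg c := fun h => by
    rcases hc.2 with k | k
    · have := h.1
      omega
    · have := h.2
      rw [k.2] at this
      exact absurd this (by decide)
  have hh : F.host c = c := if_neg hn
  set A := s.filter fun v => F.mach.adj (8 * c + 4, b) v = true with hA
  have p1 : A.filter (fun v => v.1 % 8 = 1) = ((range 2).filter fun k =>
      b < 2 ∧ F.q (c / 3) = true ∧ t ≤ 2 * (c / 3) + 2 * k).image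
        fun k => (8 * (2 * (c / 3) + 2 * k) + 1, 0) := by
    ext ⟨κ, x⟩
    simp only [hA, mem_filter, mem_image, mem_range, grTab4_adj, Prod.mk.injEq]
    constructor
    · rintro ⟨⟨h1, h2 | h2 | h2⟩, h3⟩
      · obtain ⟨-, rfl, k1, k2, k3⟩ := h2
        obtain ⟨k, hk, rfl⟩ : ∃ k, k < 2 ∧ κ = 8 * (2 * (c / 3) + 2 * k) + 1 :=
          ⟨(κ / 8 - 2 * (c / 3)) / 2, by omega, by omega⟩
        exact ⟨k, ⟨hk, k1, k2, (grTab4_g hI (by omega)).1 h1⟩, rfl, rfl⟩
      · omega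
      · omega
    · rintro ⟨k, ⟨hk, k1, k2, k3⟩, rfl, rfl⟩
      exact ⟨⟨(grTab4_g hI (by omega)).2 k3, Or.inl ⟨by omega, rfl, k1, k2, by omega⟩⟩, by omega⟩
  have p3 : A.filter (fun v => v.1 % 8 = 3) = ((range 4).filter fun x =>
      (b < 2 ∧ F.q (c / 3) = false) ∧ x / (c % 3) % 2 = 1 ∧ x ∉ R (c / 3)).image
        fun x => (8 * (c / 3) + 3, x) := by
    ext ⟨κ, x⟩
    simp only [hA, mem_filter, mem_image, mem_range, grTab4_adj, Prod.mk.injEq]
    constructor
    · rintro ⟨⟨h1, h2 | h2 | h2⟩, h3⟩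
      · omega
      · obtain rfl : κ = 8 * (c / 3) + 3 := by omega
        obtain ⟨k1, k2, k3⟩ := (grTab4_X hI hc.1).1 h1
        exact ⟨x, ⟨k2, ⟨h2.2.2.1, k1⟩, h2.2.2.2, k3⟩, rfl, rfl⟩
      · omega
    · rintro ⟨y, ⟨k1, ⟨k2, k3⟩, k4, k5⟩, rfl, rfl⟩
      exact ⟨⟨(grTab4_X hI hc.1).2 ⟨k3, k1, k5⟩, Or.inr (Or.inl ⟨by omega, by omega, k2, k4⟩)⟩,
        by omega⟩
  obtain ⟨m, hm⟩ : ∃ m : ℕ, ∀ j, j < m ↔ b % 2 = 0 ∧
      (j = 0 ∨ (j = 1 ∧ b = 0 ∧ F.q (c / 3) = true)) := by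
    by_cases h0 : b % 2 = 0
    · by_cases h1 : b = 0 ∧ F.q (c / 3) = true
      · exact ⟨2, fun j => by simp only [h0, h1, and_true, true_and]; omega⟩
      · exact ⟨1, fun j => by simp only [h0, h1, and_false, or_false, true_and]; omega⟩
    · exact ⟨0, fun j => ⟨fun h => absurd h (Nat.not_lt_zero j), fun h => absurd h.1 h0⟩⟩
  have p5 : A.filter (fun v => v.1 % 8 = 5) = (range m ×ˢ range 2).image
      fun p => (8 * (c + p.1) + 5, b + p.2) := by
    ext ⟨κ, x⟩
    simp only [hA, mem_filter, mem_image, mem_product, mem_range, grTab4_adj, Prod.mk.injEq, hm,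
      Prod.exists]
    constructor
    · rintro ⟨⟨h1, h2 | h2 | ⟨-, k1, k2 | ⟨k2, k3, k4, k5⟩⟩⟩, h3⟩
      · omega
      · omega
      · exact ⟨0, x % 2, ⟨⟨by omega, Or.inl rfl⟩, by omega⟩, by omega, by omega⟩
      · have e : κ / 8 / 3 = c / 3 := by omega
        exact ⟨1, x, ⟨⟨by omega, Or.inr ⟨rfl, by omega, e ▸ k5⟩⟩, k3⟩, by omega, by omega⟩
    · rintro ⟨j, y, ⟨⟨k1, rfl | ⟨rfl, rfl, k2⟩⟩, k3⟩, rfl, rfl⟩
      · refine ⟨⟨grTab4_S hI hc.1 (by omega) (by omega) (fun h => ?_) fun _ => hn,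
          Or.inr (Or.inr ⟨by omega, by omega, Or.inl rfl⟩)⟩, by omega⟩
        rw [Nat.add_zero, hh]
        exact hφ (by omega)
      · have c1 : c % 3 = 1 := by
          rcases hc.2 with k | k
          · exact k
          · rw [k.2] at k2
            exact absurd k2 (by decide)
        have e : (c + 1) / 3 = c / 3 := by omega
        have e' : (8 * (c + 1) + 5) / 8 / 3 = c / 3 := by omega
        have ng : F.neg (c + 1) := ⟨by omega, e ▸ k2⟩
        refine ⟨⟨grTab4_S hI (e ▸ hc.1) (by omega) (by omega) (fun _ => ?_) fun h => by omega,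
          Or.inr (Or.inr ⟨by omega, by omega, Or.inr ⟨by omega, by omega, by omega, e' ▸ k2⟩⟩)⟩,
          by omega⟩
        rw [show F.host (c + 1) = c from if_pos ng]
        exact hφ (by omega)
  have tot : A.card = (A.filter fun v => v.1 % 8 = 1).card + (A.filter fun v => v.1 % 8 = 3).card +
      (A.filter fun v => v.1 % 8 = 5).card := by
    simp only [card_filter]
    rw [← sum_add_distrib, ← sum_add_distrib, card_eq_sum_ones]
    refine sum_congr rfl fun v hv => ?_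
    have := (grTab4_adj F c b v.1 v.2).1 (mem_filter.1 hv).2
    split_ifs <;> omega
  rw [p1, p3, p5, card_image_of_injective _ (fun x y h => by simp only [Prod.mk.injEq] at h; omega),
    card_image_of_injective _ (fun x y h => (Prod.mk.inj h).2),
    card_image_of_injective _ (fun x y h => by
      simp only [Prod.mk.injEq] at h
      exact Prod.ext (by omega) (by omega)), card_product, card_range, card_range] at tot
  have od : F.mach.od2 s (8 * c + 4, b) ↔ A.card % 2 = 1 := by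
    unfold Mg.od2
    rw [← hA, Nat.odd_iff]
    simp only [Q3.mach, e1]
    simp only [true_or, or_true, decide_true, if_true, Bool.toNat_true]
    omega
  have tb : F.tab t R (8 * c + 4, b) ↔ b < 2 ∧ F.en t R c := by
    simp [Q3.tab, e1, e2]
  rw [od, tb, tot]
  unfold Q3.en
  by_cases h2 : b < 2
  · cases hq : F.q (c / 3)
    · have k : ((range 4).filter fun x => x / (c % 3) % 2 = 1 ∧ x ∉ R (c / 3)).card +
          ((R (c / 3)).filter fun x => x / (c % 3) % 2 = 1).card = 2 := by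
        have k1 : ((range 4).filter fun x => x / (c % 3) % 2 = 1).card = 2 := by
          rcases hc.2 with k | k
          · rw [k]
            decide
          · rw [k.1]
            decide
        refine Eq.trans ?_ k1
        rw [← filter_filter, add_comm]
        refine Eq.trans ?_ (card_filter_add_card_filter_not (fun x => x ∈ R (c / 3)))
        congr 2
        ext x
        simp only [mem_filter, mem_range]
        exact ⟨fun h => ⟨⟨(hI.1 _).1 x h.1, h.2⟩, h.1⟩, fun h => ⟨h.2, h.1.2⟩⟩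
      simp only [h2, Nat.odd_iff, true_and, Bool.false_eq_true, false_and, filter_false, card_empty,
        false_or]
      omega
    · simp only [h2, true_and, Bool.true_eq_false, false_and, filter_false, card_empty, or_false,
        card_filter, sum_range_succ, sum_range_zero]
      split_ifs <;> omega
  · simp only [h2, false_and, filter_false, card_empty, iff_false]
    omega

end Pool.Agent.Chomp.GR
end

-- merged part: Pool.Agent.Work.MP_ff0f6a_lc.GR.Tab5
section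
/-!
The parity table for the sensors, and the whole tables.
-/

namespace Pool.Agent.Chomp.GR

open Finset Function Pool.Agent.Chomp.SC

lemma grTab5_adj (F : Q3) (c b : ℕ) (v : ℕ × ℕ) (h7 : v.1 % 8 ≠ 7) :
    F.mach.adj (8 * c + 5, b) v = true ↔
      (v.2 = b / 2 * 2 ∧ (v.1 = 8 * c + 4 ∨ (v.1 + 4 = 8 * c ∧ b < 2 ∧ F.neg c))) ∨
        (v.1 = 8 * c + 6 ∧ v.2 = b / 2) := by
  have e1 : (8 * c + 5) % 8 = 5 := by omega
  have e2 : (8 * c + 5) / 8 = c := by omega
  simp only [Q3.mach, Q3.arc, Q3.neg, Bool.or_eq_true, decide_eq_true_eq, e1, e2]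
  constructor
  · rintro (h | h)
    · rcases h with h | h | h | h | h | h | h | h | h | h
      · omega
      · omega
      · omega
      · omega
      · omega
      · omega
      · omega
      · obtain ⟨-, -, h1, h2 | ⟨h2, h3, h4⟩⟩ := h
        · exact .inl ⟨h1, .inl (by omega)⟩
        · exact .inl ⟨h1, .inr ⟨by omega, h3, h4⟩⟩
      · exact .inr ⟨by omega, h.2.2⟩
      · exact absurd h.2.1 h7
    · rcases h with h | h | h | h | h | h | h | h | h | h <;> omega
  · rintro (⟨h1, h2 | ⟨h2, h3, h4⟩⟩ | ⟨h1, h2⟩)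
    · left
      iterate 7 right
      exact .inl ⟨trivial, by omega, h1, .inl (by omega)⟩
    · left
      iterate 7 right
      exact .inl ⟨trivial, by omega, h1, .inr ⟨by omega, h3, h4⟩⟩
    · left
      iterate 8 right
      exact .inl ⟨trivial, by omega, h2⟩

lemma grTab5_sizeY (F : Q3) {c : ℕ} (h1 : c / 3 < F.n) (h2 : c % 3 ≠ 0) (h3 : ¬ F.neg c) :
    F.size (8 * c + 4) = 4 := by
  have e1 : (8 * c + 4) % 8 = 4 := by omega
  have e2 : (8 * c + 4) / 8 = c := by omega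
  unfold Q3.size
  rw [e1, e2, if_neg (by omega), if_pos]
  refine .inr (.inl ⟨rfl, h1, ?_⟩)
  by_cases e : c % 3 = 1
  · exact .inl e
  · refine .inr ⟨by omega, ?_⟩
    cases hq : F.q (c / 3)
    · rfl
    · exact absurd ⟨by omega, hq⟩ h3

lemma grTab5_sizeN (F : Q3) {c : ℕ} (h : F.neg c) : F.size (8 * c + 4) = 0 := by
  have e1 : (8 * c + 4) % 8 = 4 := by omega
  have e2 : (8 * c + 4) / 8 = c := by omega
  obtain ⟨h1, h2⟩ := h
  unfold Q3.size
  rw [e1, e2, h2, if_neg (by omega), if_neg, if_neg (by omega)]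
  rintro (k | ⟨-, -, k | k⟩ | k)
  · omega
  · omega
  · exact absurd k.2 (by decide)
  · omega

lemma grTab5_sizeE (F : Q3) {c : ℕ} (h1 : c / 3 < F.n) (h2 : c % 3 ≠ 0) :
    F.size (8 * c + 6) = 2 := by
  have e1 : (8 * c + 6) % 8 = 6 := by omega
  have e2 : (8 * c + 6) / 8 = c := by omega
  unfold Q3.size
  rw [e1, e2, if_neg (by omega), if_neg (by omega), if_pos (.inr ⟨rfl, h1, h2⟩)]

lemma grTab5_memY (F : Q3) {s t R φ} (hI : F.Inv s t R φ) {c b : ℕ} (hb : b < F.size (8 * c + 4))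
    (hφ : φ c = true → 2 ≤ b) : (8 * c + 4, b) ∈ s := by
  have e1 : (8 * c + 4) % 8 = 4 := by omega
  have e2 : (8 * c + 4) / 8 = c := by omega
  refine (hI.2.2 _ ?_).2 ⟨hb, by omega, by omega, by omega, fun _ => ?_⟩
  · unfold Q3.junk
    simp only [e1]
    omega
  · simpa only [e2] using hφ

theorem t_tab5 (hm : T_mok) (hg : T_gate) : T_tab 5 := by
  intro F _ s t R φ hI _ u hu h5 hj _
  obtain ⟨κ, b⟩ := u
  obtain ⟨c, rfl⟩ : ∃ c, κ = 8 * c + 5 := ⟨κ / 8, by simp only at h5; omega⟩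
  have e1 : (8 * c + 5) % 8 = 5 := by omega
  have e2 : (8 * c + 5) / 8 = c := by omega
  have hs := hI.2.1 _ hu
  have hc : c / 3 < F.n ∧ c % 3 ≠ 0 ∧ b < 4 := by
    unfold Q3.size at hs
    simp only [e1, e2] at hs
    split_ifs at hs <;> omega
  obtain ⟨c1, c2, c3⟩ := hc
  have j1 : b < 2 → ¬ φ (F.host c) = true := fun k k' =>
    hj (.inr (.inr (.inl ⟨e1, .inl ⟨k, by simpa only [e2] using k'⟩⟩)))
  have j2 : 2 ≤ b → ¬ F.neg c := fun k k' =>
    hj (.inr (.inr (.inl ⟨e1, .inr ⟨k, by simpa only [e2] using k'⟩⟩)))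
  have htab : ¬ F.tab t R (8 * c + 5, b) := by
    unfold Q3.tab
    simp only [e1]
    rintro (h | h | h) <;> omega
  have hlb : F.mach.lb (8 * c + 5) = false := by
    simp only [Q3.mach, decide_eq_false_iff_not]
    omega
  have hev := hg F s (8 * c + 5, b) (by simp only [e1]; omega) fun v hv => by
    rw [hI.2.2 v (by unfold Q3.junk; omega)]
    exact ⟨fun k => k.1, fun k => ⟨k, by omega, by omega, by omega, by omega⟩⟩
  have hE : (8 * c + 6, b / 2) ∈ s := by
    have e3 : (8 * c + 6) % 8 = 6 := by omega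
    have e4 : (8 * c + 6) / 8 = c := by omega
    refine (hI.2.2 _ ?_).2 ⟨by rw [grTab5_sizeE F c1 c2]; omega, by omega, by omega, by omega,
      by omega⟩
    unfold Q3.junk
    simp only [e3, e4]
    rintro (k | k | k | ⟨-, k | k⟩)
    · omega
    · omega
    · omega
    · exact j1 (by omega) k.2
    · exact j2 (by omega) k.2
  obtain ⟨y, y1, y2, y3⟩ : ∃ y, (8 * y + 4, b / 2 * 2) ∈ s ∧
      (y = c ∨ (y + 1 = c ∧ b < 2 ∧ F.neg c)) ∧ (F.neg c → y + 1 = c) := by
    by_cases hn : F.neg c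
    · have k : b < 2 := by
        by_contra k
        exact j2 (by omega) hn
      have k1 := hn.1
      have k2 : F.host c = c - 1 := if_pos hn
      refine ⟨c - 1, grTab5_memY F hI ?_ fun k3 => absurd (k2 ▸ k3) (j1 k),
        .inr ⟨by omega, k, hn⟩, fun _ => by omega⟩
      rw [grTab5_sizeY F (by omega) (by omega) fun k3 => by have := k3.1; omega]
      omega
    · have k2 : F.host c = c := if_neg hn
      refine ⟨c, grTab5_memY F hI (by rw [grTab5_sizeY F c1 c2 hn]; omega) fun k3 => ?_,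
        .inl rfl, fun k => absurd k hn⟩
      by_contra k
      exact j1 (by omega) (k2.symm ▸ k3)
  have hset : (s.filter fun v => F.mach.adj (8 * c + 5, b) v = true) =
      insert (8 * y + 4, b / 2 * 2) (insert (8 * c + 6, b / 2)
        (s.filter fun v => v.1 % 8 = 7 ∧ F.mach.adj (8 * c + 5, b) v = true)) := by
    ext v
    simp only [mem_filter, mem_insert]
    constructor
    · rintro ⟨hv, ha⟩
      by_cases h7 : v.1 % 8 = 7
      · exact .inr (.inr ⟨hv, h7, ha⟩)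
      rcases (grTab5_adj F c b v h7).1 ha with ⟨k1, k2 | ⟨k2, k3, k4⟩⟩ | ⟨k1, k2⟩
      · refine .inl (Prod.ext ?_ k1)
        rcases y2 with rfl | ⟨-, -, hn⟩
        · exact k2
        · have := hI.2.1 v hv
          rw [k2, grTab5_sizeN F hn] at this
          omega
      · have := y3 k4
        exact .inl (Prod.ext (by simp only; omega) k1)
      · exact .inr (.inl (Prod.ext k1 k2))
    · rintro (rfl | rfl | ⟨hv, -, ha⟩)
      · refine ⟨y1, (grTab5_adj F c b _ (by simp only; omega)).2 (.inl ⟨rfl, ?_⟩)⟩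
        rcases y2 with rfl | ⟨k1, k2⟩
        · exact .inl rfl
        · exact .inr ⟨by simp only; omega, k2⟩
      · exact ⟨hE, (grTab5_adj F c b _ (by simp only; omega)).2 (.inr ⟨rfl, rfl⟩)⟩
      · exact ⟨hv, ha⟩
  unfold Mg.od2
  simp only [htab, iff_false, hlb]
  rw [hset, card_insert_of_notMem, card_insert_of_notMem, if_neg (by decide), Nat.odd_iff]
  · rw [Nat.even_iff] at hev
    omega
  · simp only [mem_filter]
    omega
  · simp only [mem_filter, mem_insert, Prod.mk.injEq]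
    omega

theorem t_table (h : ∀ ty < 7, T_tab ty) : T_table := fun F hF s t R φ hI ht u hu h7 hj hne =>
  h _ (by omega) F hF s t R φ hI ht u hu rfl hj hne

theorem t_tableS (hm : T_mok) (ht : T_table) (h1 : T_tabJ 1) (h2 : T_tabJ 2) (h5 : T_tabJ 5)
    (h6 : T_tabJ 6) (h7 : T_tabJ 7) : T_tableS := by
  intro F hF t R φ hW hle u hu
  by_cases k7 : u.1 % 8 = 7
  · exact h7 F hF t R φ hW hle u hu k7 (.inl rfl)
  by_cases kj : F.junk t φ u
  · rcases id kj with k | k | k | k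
    · exact h1 F hF t R φ hW hle u hu k.1 (.inr (.inl kj))
    · exact h2 F hF t R φ hW hle u hu k.1 (.inr (.inl kj))
    · exact h5 F hF t R φ hW hle u hu k.1 (.inr (.inl kj))
    · exact h6 F hF t R φ hW hle u hu k.1 (.inr (.inl kj))
  by_cases ke : u = (8 * t + 2, 0)
  · exact h2 F hF t R φ hW hle u hu (by rw [ke]; simp only; omega) (.inr (.inr ke))
  have hn := hF.hn
  rw [ht F hF _ t R φ ((hm F).2.2.2.2.1 t R φ hW) (by omega) u hu k7 kj ke]
  refine ⟨.inl, ?_⟩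
  rintro (k | k | rfl | rfl | k)
  · exact k
  · exact absurd k ke
  · exact absurd (.inl ⟨rfl, rfl, by simp only; omega⟩) kj
  · exact absurd (.inl ⟨rfl, rfl, by simp only; omega⟩) kj
  · exact absurd k.2 kj

end Pool.Agent.Chomp.GR
end

-- merged part: Pool.Agent.Work.MP_ff0f6a_lc.GR.TabH
section
/-!
Chomp on graphs: parity of the gate vertices.
-/

namespace Pool.Agent.Chomp.GR

open Finset Function Pool.Agent.Chomp.SC

/-- the sensor neighbours of a gate vertex -/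
def grTabH_S (F : Q3) (j h : ℕ) (v : ℕ × ℕ) : Prop :=
  v.1 % 8 = 5 ∧ v.2 % 2 = 0 ∧ ((v.1 / 8 = F.lc j 0 ∧ h % 2 = 1) ∨
    (v.1 / 8 = F.lc j 1 ∧ h / 2 % 2 = 1) ∨ (v.1 / 8 = F.lc j 2 ∧ h / 4 % 2 = 1))

instance (F : Q3) (j h : ℕ) (v : ℕ × ℕ) : Decidable (grTabH_S F j h v) := by
  unfold grTabH_S; infer_instance

theorem grTabH_adj (F : Q3) (u v : ℕ × ℕ) (hu : u.1 % 8 = 7) :
    F.mach.adj u v = true ↔
      (v.1 = 8 * (2 * F.n) + 1 ∧ u.2 / 8 % 2 = 1) ∨ grTabH_S F (u.1 / 8) u.2 v := by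
  show (F.arc u v || F.arc v u) = true ↔ _
  rw [Bool.or_eq_true]
  unfold Q3.arc grTabH_S
  rw [decide_eq_true_iff, decide_eq_true_iff]
  constructor
  · rintro ((h | h | h | h | h | h | h | h | h | h) | (h | h | h | h | h | h | h | h | h | h))
    · exact absurd h.1 (by omega)
    · exact absurd h.1 (by omega)
    · exact absurd h.1 (by omega)
    · exact absurd h.1 (by omega)
    · exact absurd h.1 (by omega)
    · exact absurd h.1 (by omega)
    · exact absurd h.1 (by omega)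
    · exact absurd h.1 (by omega)
    · exact absurd h.1 (by omega)
    · exact absurd h.1 (by omega)
    · have := h.1; have := h.2.1; omega
    · have := h.1; have := h.2.1; omega
    · have := h.1; have := h.2.1; omega
    · exact absurd h.2.1 (by omega)
    · exact absurd h.2.1 (by omega)
    · exact Or.inl ⟨h.1, h.2.2⟩
    · exact absurd h.2.1 (by omega)
    · exact absurd h.2.1 (by omega)
    · have := h.1; have := h.2.1; omega
    · exact Or.inr ⟨h.1, h.2.2⟩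
  · rintro (h | h)
    · exact Or.inr (Or.inr (Or.inr (Or.inr (Or.inr (Or.inr (Or.inl ⟨h.1, hu, h.2⟩))))))
    · exact Or.inr (Or.inr (Or.inr (Or.inr (Or.inr (Or.inr (Or.inr (Or.inr (Or.inr (Or.inr
        ⟨h.1, hu, h.2⟩)))))))))

theorem grTabH_even {α : Type} (s : Finset α) (g : α → α) (h1 : ∀ a ∈ s, g a ≠ a)
    (h2 : ∀ a ∈ s, g a ∈ s) (h3 : ∀ a ∈ s, g (g a) = a) : Even s.card := by
  have e : ∑ _a ∈ s, (1 : ZMod 2) = 0 :=
    sum_involution (fun a _ => g a) (fun _ _ => by decide) (fun a ha _ => h1 a ha) h2 h3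
  rw [sum_const, nsmul_eq_mul, mul_one] at e
  exact ZMod.natCast_eq_zero_iff_even.1 e

theorem grTabH_size1 (F : Q3) : F.size (8 * (2 * F.n) + 1) = 2 := by
  unfold Q3.size
  rw [if_neg (by omega), if_neg (by omega), if_pos (by omega)]

theorem grTabH_size5 (F : Q3) {κ : ℕ} (h : κ % 8 = 5) : F.size κ = 4 ∨ F.size κ = 0 := by
  unfold Q3.size
  rw [if_neg (by omega)]
  split_ifs with h1 h2
  · exact Or.inl rfl
  · omega
  · exact Or.inr rfl

theorem grTabH_od (F : Q3) (s : Finset (ℕ × ℕ)) (u : ℕ × ℕ) (hu : u.1 % 8 = 7) :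
    F.mach.od2 s u ↔ Odd (s.filter fun v => F.mach.adj u v = true).card := by
  have a : F.mach.lb u.1 = true := decide_eq_true (Or.inr (Or.inr hu))
  have b : F.mach.fix u.1 = true := decide_eq_true (Or.inr hu)
  unfold Mg.od2
  rw [if_pos a, b, Nat.odd_iff, Nat.odd_iff, Bool.toNat_true]
  omega

theorem t_tabJ7 (hm : T_mok) : T_tabJ 7 := by
  intro F _ t R φ _ ht u _ hu _
  have mem := (hm F).2.2.1 t R φ
  refine iff_of_false ?_ ?_
  · rw [grTabH_od F _ u hu, Nat.not_odd_iff_even]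
    have key : ∀ a ∈ (F.St t R φ).filter fun v => F.mach.adj u v = true,
        (a.1 = 8 * (2 * F.n) + 1 ∧ u.2 / 8 % 2 = 1 ∧ a.2 < 2) ∨
          (grTabH_S F (u.1 / 8) u.2 a ∧ F.size a.1 = 4 ∧ a.2 < 4) := fun a ha => by
      obtain ⟨h1, h2⟩ := mem_filter.1 ha
      have h3 := ((mem a).1 h1).1
      rcases (grTabH_adj F u a hu).1 h2 with h | h
      · rw [h.1, grTabH_size1] at h3
        exact Or.inl ⟨h.1, h.2, h3⟩
      · rcases grTabH_size5 F h.1 with e | e
        · exact Or.inr ⟨h, e, e ▸ h3⟩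
        · omega
    refine grTabH_even _ (fun v => (v.1, if v.1 % 8 = 1 then 1 - v.2 else 2 - v.2))
      (fun a ha e => ?_) (fun a ha => ?_) fun a ha => ?_
    · have e2 : (if a.1 % 8 = 1 then 1 - a.2 else 2 - a.2) = a.2 := congrArg Prod.snd e
      rcases key a ha with h | h
      · rw [if_pos (by omega)] at e2
        omega
      · have := h.1.1
        have := h.1.2.1
        rw [if_neg (by omega)] at e2
        omega
    · rw [mem_filter, mem, grTabH_adj F u _ hu]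
      rcases key a ha with h | h
      · have e : a.1 % 8 = 1 := by omega
        rw [if_pos e]
        refine ⟨⟨?_, ?_, ?_, ?_, ?_⟩, Or.inl ⟨h.1, h.2.1⟩⟩
        · show 1 - a.2 < F.size a.1
          rw [h.1, grTabH_size1]
          omega
        · intro _ _
          show t ≤ a.1 / 8
          omega
        · intro k
          exact absurd (show a.1 % 8 = 2 from k) (by omega)
        · intro k
          exact absurd (show a.1 % 8 = 3 from k) (by omega)
        · intro k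
          exact absurd (show a.1 % 8 = 4 from k) (by omega)
      · have e := h.1.1
        have e' := h.1.2.1
        rw [if_neg (by omega)]
        refine ⟨⟨?_, ?_, ?_, ?_, ?_⟩, Or.inr ⟨e, ?_, h.1.2.2⟩⟩
        · show 2 - a.2 < F.size a.1
          omega
        · intro k
          exact absurd (show a.1 % 8 = 1 from k) (by omega)
        · intro k
          exact absurd (show a.1 % 8 = 2 from k) (by omega)
        · intro k
          exact absurd (show a.1 % 8 = 3 from k) (by omega)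
        · intro k
          exact absurd (show a.1 % 8 = 4 from k) (by omega)
        · show (2 - a.2) % 2 = 0
          omega
    · refine Prod.ext rfl ?_
      show (if a.1 % 8 = 1 then 1 - (if a.1 % 8 = 1 then 1 - a.2 else 2 - a.2)
        else 2 - (if a.1 % 8 = 1 then 1 - a.2 else 2 - a.2)) = a.2
      rcases key a ha with h | h
      · rw [if_pos (by omega), if_pos (by omega)]
        omega
      · have := h.1.1
        have := h.1.2.1
        rw [if_neg (by omega), if_neg (by omega)]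
        omega
  · rintro ((h | h | h) | h | h | h | h)
    · exact absurd h.1 (by omega)
    · exact absurd h.1 (by omega)
    · exact absurd h.1 (by omega)
    · have : u.1 = 8 * t + 2 := congrArg Prod.fst h
      omega
    · have : u.1 = 1 := congrArg Prod.fst h
      omega
    · have : u.1 = 9 := congrArg Prod.fst h
      omega
    · exact absurd h.1 (by omega)

theorem grTabH_card (F : Q3) {s : Finset (ℕ × ℕ)} {R : ℕ → Finset ℕ} {φ : ℕ → Bool}
    (I : F.Inv s (2 * F.n + 1) R φ) (j h : ℕ) :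
    (s.filter fun v => F.mach.adj (8 * j + 7, h) v = true).card =
      (s.filter (grTabH_S F j h)).card + h / 8 % 2 := by
  have e7 : (8 * j + 7) % 8 = 7 := by omega
  have ej : (8 * j + 7) / 8 = j := by omega
  have adj : ∀ v, F.mach.adj (8 * j + 7, h) v = true ↔
      (v.1 = 8 * (2 * F.n) + 1 ∧ h / 8 % 2 = 1) ∨ grTabH_S F j h v := fun v => by
    rw [grTabH_adj F _ v e7]
    show _ ∨ grTabH_S F ((8 * j + 7) / 8) h v ↔ _
    rw [ej]
  have nj : ∀ b, ¬ F.junk (2 * F.n + 1) φ (8 * (2 * F.n) + 1, b) := fun b k => by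
    rcases k with k | k | k | k
    · have : (8 * (2 * F.n) + 1) / 8 < 2 * F.n := k.2.2
      omega
    · have : (8 * (2 * F.n) + 1) % 8 = 2 := k.1
      omega
    · have : (8 * (2 * F.n) + 1) % 8 = 5 := k.1
      omega
    · have : (8 * (2 * F.n) + 1) % 8 = 6 := k.1
      omega
  rcases Nat.mod_two_eq_zero_or_one (h / 8) with k | k
  · rw [k, add_zero]
    congr 1
    refine filter_congr fun v _ => ?_
    rw [adj]
    exact or_iff_right fun c => by omega
  · have m1 : (8 * (2 * F.n) + 1, 1) ∈ s := by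
      refine (I.2.2 _ (nj 1)).2 ⟨?_, ?_, ?_, ?_, ?_⟩
      · show 1 < F.size (8 * (2 * F.n) + 1)
        rw [grTabH_size1]
        omega
      · intro _ c
        exact absurd (show 1 = 0 from c) (by omega)
      · intro c
        exact absurd (show (8 * (2 * F.n) + 1) % 8 = 2 from c) (by omega)
      · intro c
        exact absurd (show (8 * (2 * F.n) + 1) % 8 = 3 from c) (by omega)
      · intro c
        exact absurd (show (8 * (2 * F.n) + 1) % 8 = 4 from c) (by omega)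
    have m0 : (8 * (2 * F.n) + 1, 0) ∉ s := fun c => by
      have : 2 * F.n + 1 ≤ (8 * (2 * F.n) + 1) / 8 :=
        ((I.2.2 _ (nj 0)).1 c).2.1 (show (8 * (2 * F.n) + 1) % 8 = 1 by omega) rfl
      omega
    have e : (s.filter fun v => F.mach.adj (8 * j + 7, h) v = true) =
        insert (8 * (2 * F.n) + 1, 1) (s.filter (grTabH_S F j h)) := by
      ext v
      rw [mem_insert, mem_filter, mem_filter, adj]
      constructor
      · rintro ⟨hv, c | c⟩
        · have l := I.2.1 v hv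
          rw [c.1, grTabH_size1] at l
          refine Or.inl (Prod.ext c.1 ?_)
          show v.2 = 1
          by_contra n
          exact m0 ((show v = (8 * (2 * F.n) + 1, 0) from Prod.ext c.1 (show v.2 = 0 by omega)) ▸ hv)
        · exact Or.inr ⟨hv, c⟩
      · rintro (rfl | c)
        · exact ⟨m1, Or.inl ⟨rfl, k⟩⟩
        · exact ⟨c.1, Or.inr c.2⟩
    rw [e, card_insert_of_notMem, k]
    intro c
    have : (8 * (2 * F.n) + 1) % 8 = 5 := (mem_filter.1 c).2.1
    omega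

theorem grTabH_xor : ∀ h < 16, (h ^^^ 8) % 2 = h % 2 ∧ (h ^^^ 8) / 2 % 2 = h / 2 % 2 ∧
    (h ^^^ 8) / 4 % 2 = h / 4 % 2 ∧ (h ^^^ 8) / 8 % 2 + h / 8 % 2 = 1 := by decide

theorem t_half (_hm : T_mok) : T_half := by
  intro F _ s R φ I j _ h hh
  obtain ⟨x1, x2, x3, x4⟩ := grTabH_xor h hh
  have e7 : (8 * j + 7) % 8 = 7 := by omega
  have e : s.filter (grTabH_S F j (h ^^^ 8)) = s.filter (grTabH_S F j h) :=
    filter_congr fun v _ => by unfold grTabH_S; rw [x1, x2, x3]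
  rw [grTabH_od F s _ e7, grTabH_od F s _ e7, grTabH_card F I, grTabH_card F I, e, Nat.odd_iff,
    Nat.odd_iff]
  omega

end Pool.Agent.Chomp.GR
end

-- merged part: Pool.Agent.Work.MP_ff0f6a_lc.SC.Vs
section
/-!
The whole graph is an apex graph; vertices of the states.
-/

namespace Pool.Agent.Chomp.SC

open Finset Function

lemma vs_arc_col (P : Mach) (hP : P.Ok) (u v : ℕ × ℕ × ℕ) (h : P.arc u v = true)
    (hu : u ≠ (0, 6, 0)) (hv : v ≠ (0, 6, 0)) : P.G.col u ≠ P.G.col v := by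
  obtain ⟨a, b, c⟩ := u
  obtain ⟨a', b', c'⟩ := v
  simp only [Mach.arc, decide_eq_true_eq] at h
  simp only [Mach.G]
  rcases h with ⟨h1, h2, h3, h4, h5⟩ | ⟨h1, h2, h3, h4, -⟩ | ⟨h1, h2, h3, h4⟩ | ⟨h1, h2, h3, h4⟩ |
    ⟨h1, h2, h3, h4, h5, h6, h7⟩
  · have := hP.sd _ _ h5
    simp only [h1, h2, h3, h4, if_true]
    exact this
  · have e : c' % 2 = 1 := by unfold tau at h4; omega
    have e0 : c' ≠ 0 := by omega
    subst h3
    simp only [h1, h2, e, e0, if_true, if_false, decide_true]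
    cases P.side a' <;> simp
  · have e0 : c ≠ 0 := by omega
    have e1 : c' ≠ 0 := by omega
    subst h2
    simp only [e0, e1, if_false]
    rcases Nat.mod_two_eq_zero_or_one c with e | e
    · have e' : c' % 2 = 1 := by omega
      simp only [e, e']
      cases P.side a' <;> simp
    · have e' : c' % 2 = 0 := by omega
      simp only [e, e']
      cases P.side a' <;> simp
  · have e : c' % 2 = 1 := by unfold tau at h4; omega
    have e0 : c' ≠ 0 := by omega
    simp only [h3, e, e0, if_true, if_false, decide_true, h2]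
    cases P.side a' <;> simp
  · subst h1 h2 h3 h4
    have e1 : b' ≠ 6 := fun e => hv (by rw [e])
    have e2 : b = 4 := by omega
    have e3 : b' = 5 := by omega
    subst e2 e3
    simp

theorem p_Gok : S_Gok := by
  intro P hP
  refine ⟨?_, ?_, ?_, ?_, ?_, ?_⟩
  · intro u v
    simp only [Mach.G]
    exact Bool.or_comm _ _
  · intro u v h hu hv
    have h' : P.arc u v = true ∨ P.arc v u = true := by simpa [Mach.G] using h
    rcases h' with h' | h'
    · exact vs_arc_col P hP u v h' hu hv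
    · exact (vs_arc_col P hP v u h' hv hu).symm
  · rintro ⟨a, b, c⟩
    simp only [Mach.G, Mach.arc, goal, Bool.or_eq_true, decide_eq_true_eq, Prod.mk.injEq,
      Bool.toNat_false, Bool.toNat_true]
    have h1 : (P.side a).toNat ≤ 1 := Bool.toNat_le _
    constructor
    · rintro ((h | h | h | h | h) | (h | h | h | h | h)) <;> omega
    · intro h
      right; right; right; right; right
      rcases h with ⟨rfl, rfl, rfl⟩ | ⟨rfl, rfl, rfl⟩ <;> simp
  · simp [Mach.G, Mach.arc, goal]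
  · simp [Mach.G, goal]
  · simp [Mach.G, goal]

lemma vs_mem (P : Mach) (s : Finset (ℕ × ℕ)) (h : ℕ → ℕ → ℕ) (v : ℕ × ℕ × ℕ) :
    v ∈ P.vs s h ↔ (v.2.2 = 0 ∧ (v.1, v.2.1) ∈ s) ∨
    (v.1 < P.K ∧ v.2.1 < 2 ∧ 1 ≤ v.2.2 ∧ v.2.2 ≤ h v.1 v.2.1) ∨
    (v.1 = 0 ∧ v.2.2 = 0 ∧ 4 ≤ v.2.1 ∧ v.2.1 ≤ 6) := by
  obtain ⟨a, b, c⟩ := v
  simp only [Mach.vs, mem_union, mem_image, mem_biUnion, mem_product, mem_range, mem_Icc,
    mem_insert, mem_singleton, Prod.mk.injEq, or_assoc]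
  refine or_congr ?_ (or_congr ?_ ?_)
  · constructor
    · rintro ⟨⟨x, y⟩, hu, rfl, rfl, rfl⟩
      exact ⟨rfl, hu⟩
    · rintro ⟨rfl, hu⟩
      exact ⟨(a, b), hu, rfl, rfl, rfl⟩
  · constructor
    · rintro ⟨⟨x, y⟩, ⟨h1, h2⟩, r, ⟨h3, h4⟩, rfl, rfl, rfl⟩
      exact ⟨h1, h2, h3, h4⟩
    · rintro ⟨h1, h2, h3, h4⟩
      exact ⟨(a, b), ⟨h1, h2⟩, c, ⟨h3, h4⟩, rfl, rfl, rfl⟩
  · omega

lemma vs_card (P : Mach) (s : Finset (ℕ × ℕ)) (h : ℕ → ℕ → ℕ) (hs : P.In s) :
    (P.vs s h).card = s.card + ∑ p ∈ range P.K ×ˢ range 2, h p.1 p.2 + 3 := by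
  unfold Mach.vs
  rw [card_union_of_disjoint, card_union_of_disjoint, card_image_of_injective, card_biUnion]
  · congr 2
    refine sum_congr rfl fun p _ => ?_
    rw [card_image_of_injective]
    · simp
    · intro r r' e
      simpa using e
  · intro p _ q _ hpq
    simp only [onFun]
    rw [disjoint_left]
    intro v h1 h2
    simp only [mem_image] at h1 h2
    obtain ⟨r, -, rfl⟩ := h1
    obtain ⟨r', -, e⟩ := h2
    simp only [Prod.mk.injEq] at e
    exact hpq (Prod.ext e.1.symm e.2.1.symm)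
  · intro u v e
    simp only [Prod.mk.injEq] at e
    exact Prod.ext e.1 e.2.1
  · rw [disjoint_left]
    intro v h1 h2
    simp only [mem_image, mem_biUnion, mem_Icc] at h1 h2
    obtain ⟨u, -, rfl⟩ := h1
    obtain ⟨p, -, r, ⟨h3, -⟩, e⟩ := h2
    simp only [Prod.mk.injEq] at e
    omega
  · rw [disjoint_left]
    intro v h1 h2
    simp only [mem_union, mem_image, mem_biUnion, mem_Icc, mem_insert, mem_singleton] at h1 h2
    rcases h1 with ⟨u, hu, rfl⟩ | ⟨p, -, r, ⟨h3, -⟩, rfl⟩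
    · have := (hs u hu).2
      simp only [Prod.mk.injEq] at h2
      omega
    · simp only [Prod.mk.injEq] at h2
      omega

lemma vs_sum_even (K : ℕ) : Even (∑ p ∈ range K ×ˢ range 2, full p.1 p.2) := by
  rw [sum_product]
  refine Finset.even_sum _ fun κ _ => ?_
  simp only [sum_range_succ, sum_range_zero, full, tau]
  exact ⟨4 * κ + 6, by omega⟩

theorem p_vs : S_vs := by
  intro P _ s h hs _
  refine ⟨?_, vs_mem P s h, ?_, ?_, ?_⟩
  · refine ⟨?_, ?_, ?_⟩ <;> rw [vs_mem] <;> simp [Mach.G, goal]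
  · rintro ⟨x, y⟩ hu
    have hy := (hs _ hu).2
    ext ⟨a, b, c⟩
    simp only [mem_erase, vs_mem, ne_eq, Prod.mk.injEq] at hy ⊢
    constructor
    · rintro ⟨h0, ⟨h1, h2⟩ | h1 | h1⟩
      · exact Or.inl ⟨h1, fun e => h0 ⟨e.1, e.2, h1⟩, h2⟩
      · exact Or.inr (Or.inl h1)
      · exact Or.inr (Or.inr h1)
    · rintro (⟨h1, h0, h2⟩ | h1 | h1)
      · exact ⟨fun e => h0 ⟨e.1, e.2.1⟩, Or.inl ⟨h1, h2⟩⟩
      · exact ⟨by omega, Or.inr (Or.inl h1)⟩
      · exact ⟨by omega, Or.inr (Or.inr h1)⟩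
  · intro κ _ e _ h1
    ext ⟨a, b, c⟩
    simp only [mem_erase, vs_mem, ne_eq, Prod.mk.injEq, Mach.low]
    by_cases hq : a = κ ∧ b = e
    · obtain ⟨rfl, rfl⟩ := hq
      simp only [true_and, and_self, if_true]
      constructor
      · rintro ⟨h0, h2 | h2 | h2⟩
        · exact Or.inl h2
        · exact Or.inr (Or.inl (by omega))
        · exact Or.inr (Or.inr h2)
      · rintro (h2 | h2 | h2)
        · exact ⟨by omega, Or.inl h2⟩
        · exact ⟨by omega, Or.inr (Or.inl (by omega))⟩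
        · exact ⟨by omega, Or.inr (Or.inr h2)⟩
    · simp only [hq, if_false]
      constructor
      · exact fun h0 => h0.2
      · exact fun h0 => ⟨fun e => hq ⟨e.1, e.2.1⟩, h0⟩
  · rw [vs_card P s full hs]
    obtain ⟨m, hm⟩ := vs_sum_even P.K
    rw [hm, Nat.odd_iff, Nat.even_iff]
    omega

end Pool.Agent.Chomp.SC
end

-- merged part: Pool.Agent.Work.MP_ff0f6a_lc.GR.Vs
section
/-!
The whole graph is an apex graph; vertices of the states; the degrees of the goals.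
-/

namespace Pool.Agent.Chomp.GR

open Finset Function Pool.Agent.Chomp.SC

lemma grVs_arc_col (P : Mg) (hP : P.toMach.Ok) (u v : ℕ × ℕ × ℕ) (h : P.arc2 u v = true)
    (hu : u ≠ (0, 6, 0)) (hv : v ≠ (0, 6, 0)) : P.G2.col u ≠ P.G2.col v := by
  obtain ⟨a, b, c⟩ := u
  obtain ⟨a', b', c'⟩ := v
  simp only [Mg.arc2, decide_eq_true_eq] at h
  simp only [Mg.G2]
  rcases h with ⟨h1, h2, h3, h4, h5⟩ | ⟨h1, h2, -, h3, h4, -⟩ | ⟨h1, h2, h3, h4⟩ | ⟨h1, h2, h3, h4⟩ |
    ⟨h1, h2, h3, h4, h5, h6, h7⟩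
  · have := hP.sd _ _ h5
    simp only [h1, h2, h3, h4, if_true, ne_eq, not_false_eq_true]
    exact this
  · have e : c' % 2 = 1 := by unfold tau at h4; omega
    have e0 : c' ≠ 0 := by omega
    subst h3
    simp only [h1, h2, e, e0, if_true, if_false, decide_true, ne_eq, not_false_eq_true]
    cases P.side a' <;> simp
  · have e0 : c ≠ 0 := by omega
    have e1 : c' ≠ 0 := by omega
    subst h2
    simp only [e0, e1, if_false]
    rcases Nat.mod_two_eq_zero_or_one c with e | e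
    · have e' : c' % 2 = 1 := by omega
      simp only [e, e']
      cases P.side a' <;> simp
    · have e' : c' % 2 = 0 := by omega
      simp only [e, e']
      cases P.side a' <;> simp
  · have e : c' % 2 = 1 := by unfold tau at h4; omega
    have e0 : c' ≠ 0 := by omega
    simp only [h1, h3, e, e0, if_true, if_false, decide_true, h2]
    cases P.side a' <;> simp
  · subst h1 h2 h3 h4
    have e1 : b' ≠ 6 := fun e => hv (by rw [e])
    have e2 : b = 4 := by omega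
    have e3 : b' = 5 := by omega
    subst e2 e3
    simp

theorem t_Gok : T_Gok := by
  intro P hP
  refine ⟨?_, ?_, ?_, ?_, ?_, ?_⟩
  · intro u v
    simp only [Mg.G2]
    exact Bool.or_comm _ _
  · intro u v h hu hv
    have h' : P.arc2 u v = true ∨ P.arc2 v u = true := by simpa [Mg.G2] using h
    rcases h' with h' | h'
    · exact grVs_arc_col P hP u v h' hu hv
    · exact (grVs_arc_col P hP v u h' hv hu).symm
  · rintro ⟨a, b, c⟩
    simp only [Mg.G2, Mg.arc2, goal, Bool.or_eq_true, decide_eq_true_eq, Prod.mk.injEq,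
      Bool.toNat_false, Bool.toNat_true]
    have h1 : (P.side a).toNat ≤ 1 := Bool.toNat_le _
    constructor
    · rintro ((h | h | h | h | h) | (h | h | h | h | h)) <;> omega
    · intro h
      right; right; right; right; right
      rcases h with ⟨rfl, rfl, rfl⟩ | ⟨rfl, rfl, rfl⟩ <;> simp
  · simp [Mg.G2, Mg.arc2, goal]
  · simp [Mg.G2, goal]
  · simp [Mg.G2, goal]

lemma grVs_card (P : Mg) (s : Finset (ℕ × ℕ)) (h : ℕ → ℕ → ℕ) (hs : P.In2 s) :
    (P.vs s h).card = s.card + ∑ p ∈ range P.K ×ˢ range 2, h p.1 p.2 + 3 := by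
  unfold Mach.vs
  rw [card_union_of_disjoint, card_union_of_disjoint, card_image_of_injective, card_biUnion]
  · congr 2
    refine sum_congr rfl fun p _ => ?_
    rw [card_image_of_injective]
    · simp
    · intro r r' e
      simpa using e
  · intro p _ q _ hpq
    simp only [onFun]
    rw [disjoint_left]
    intro v h1 h2
    simp only [mem_image] at h1 h2
    obtain ⟨r, -, rfl⟩ := h1
    obtain ⟨r', -, e⟩ := h2
    simp only [Prod.mk.injEq] at e
    exact hpq (Prod.ext e.1.symm e.2.1.symm)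
  · intro u v e
    simp only [Prod.mk.injEq] at e
    exact Prod.ext e.1 e.2.1
  · rw [disjoint_left]
    intro v h1 h2
    simp only [mem_image, mem_biUnion, mem_Icc] at h1 h2
    obtain ⟨u, -, rfl⟩ := h1
    obtain ⟨p, -, r, ⟨h3, -⟩, e⟩ := h2
    simp only [Prod.mk.injEq] at e
    omega
  · rw [disjoint_left]
    intro v h1 h2
    simp only [mem_union, mem_image, mem_biUnion, mem_Icc, mem_insert, mem_singleton] at h1 h2
    rcases h1 with ⟨u, hu, rfl⟩ | ⟨p, -, r, ⟨h3, -⟩, rfl⟩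
    · have := (hs u hu).1
      simp only [Prod.mk.injEq] at h2
      omega
    · simp only [Prod.mk.injEq] at h2
      omega

theorem t_vs : T_vs := by
  intro P _ s h hs _
  refine ⟨?_, vs_mem P.toMach s h, ?_, ?_, ?_⟩
  · refine ⟨?_, ?_, ?_⟩ <;> rw [vs_mem] <;> simp [Mg.G2, goal]
  · rintro ⟨x, y⟩ hu
    have hy := (hs _ hu).1
    ext ⟨a, b, c⟩
    simp only [mem_erase, vs_mem, ne_eq, Prod.mk.injEq] at hy ⊢
    constructor
    · rintro ⟨h0, ⟨h1, h2⟩ | h1 | h1⟩
      · exact Or.inl ⟨h1, fun e => h0 ⟨e.1, e.2, h1⟩, h2⟩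
      · exact Or.inr (Or.inl h1)
      · exact Or.inr (Or.inr h1)
    · rintro (⟨h1, h0, h2⟩ | h1 | h1)
      · exact ⟨fun e => h0 ⟨e.1, e.2.1⟩, Or.inl ⟨h1, h2⟩⟩
      · exact ⟨by omega, Or.inr (Or.inl h1)⟩
      · exact ⟨by omega, Or.inr (Or.inr h1)⟩
  · intro κ _ e _ h1
    ext ⟨a, b, c⟩
    simp only [mem_erase, vs_mem, ne_eq, Prod.mk.injEq, Mach.low]
    by_cases hq : a = κ ∧ b = e
    · obtain ⟨rfl, rfl⟩ := hq
      simp only [true_and, and_self, if_true]
      constructor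
      · rintro ⟨h0, h2 | h2 | h2⟩
        · exact Or.inl h2
        · exact Or.inr (Or.inl (by omega))
        · exact Or.inr (Or.inr h2)
      · rintro (h2 | h2 | h2)
        · exact ⟨by omega, Or.inl h2⟩
        · exact ⟨by omega, Or.inr (Or.inl (by omega))⟩
        · exact ⟨by omega, Or.inr (Or.inr h2)⟩
    · simp only [hq, if_false]
      constructor
      · exact fun h0 => h0.2
      · exact fun h0 => ⟨fun e => hq ⟨e.1, e.2.1⟩, h0⟩
  · rw [grVs_card P s full hs]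
    obtain ⟨m, hm⟩ := vs_sum_even P.K
    rw [hm, Nat.odd_iff, Nat.even_iff]
    omega

theorem t_goal (hv : T_vs) : T_goal := by
  intro P O s h I hh σ
  obtain ⟨-, v2, -⟩ := hv P O s h I hh
  let T := (range P.K ×ˢ range 2).filter fun p => P.side p.1 = σ
  let A := T.filter fun p => 1 ≤ h p.1 p.2
  let B := T.filter fun p => h p.1 p.2 = tau p.1 p.2 + 1
  have e : (P.vs s h).filter (fun u => P.G2.A (goal σ) u = true) =
      insert (0, 6, 0) (insert (goal (!σ)) (A.image (fun p => (p.1, p.2, 1)) ∪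
        B.image fun p => (p.1, p.2, tau p.1 p.2 + 1))) := by
    ext ⟨a, b, c⟩
    have i := I (a, b)
    have j := hh a b
    simp only [mem_filter, v2, Mg.G2, Mg.arc2, goal, Bool.or_eq_true, decide_eq_true_eq,
      mem_insert, mem_union, mem_image, A, B, T, mem_product, mem_range, Prod.mk.injEq, Prod.exists]
    constructor
    · rintro ⟨k, l⟩
      have u : (σ.toNat = (P.side a).toNat ∧ (c = 1 ∨ c = tau a b + 1)) ∨
          (a = 0 ∧ c = 0 ∧ 4 ≤ b ∧ b ≤ 6 ∧ b ≠ 4 + σ.toNat) := by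
        have : tau 0 (4 + σ.toNat) + 1 ≠ 0 := by omega
        omega
      rcases u with ⟨u, u' | u'⟩ | u
      · refine .inr (.inr (.inl ⟨a, b, ⟨⟨by omega, ?_⟩, by omega⟩, rfl, rfl, u'.symm⟩))
        revert u; cases σ <;> cases P.side a <;> simp
      · refine .inr (.inr (.inr ⟨a, b, ⟨⟨by omega, ?_⟩, by omega⟩, rfl, rfl, u'.symm⟩))
        revert u; cases σ <;> cases P.side a <;> simp
      · cases σ <;> simp only [Bool.toNat_true, Bool.toNat_false, Bool.not_true, Bool.not_false] at * <;>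
          omega
    · rintro (k | k | ⟨_, _, k, rfl, rfl, rfl⟩ | ⟨_, _, k, rfl, rfl, rfl⟩)
      · obtain ⟨rfl, rfl, rfl⟩ := k
        cases σ <;> simp
      · obtain ⟨rfl, rfl, rfl⟩ := k
        cases σ <;> simp
      · exact ⟨by omega, by simp [k.1.2]⟩
      · exact ⟨by omega, by simp [k.1.2]⟩
  have c1 : A.card + (T.filter fun p => h p.1 p.2 = 0).card = T.card := by
    rw [← card_filter_add_card_filter_not (s := T) fun p => 1 ≤ h p.1 p.2]
    congr 2
    exact filter_congr fun p _ => by omega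
  have c2 : B.card + (T.filter fun p => h p.1 p.2 ≤ tau p.1 p.2).card = T.card := by
    rw [← card_filter_add_card_filter_not (s := T) fun p => h p.1 p.2 = tau p.1 p.2 + 1]
    congr 2
    exact filter_congr fun p _ => by have := hh p.1 p.2; omega
  have c3 : P.fr h σ 0 = (T.filter fun p => h p.1 p.2 = 0).card +
      (T.filter fun p => h p.1 p.2 ≤ tau p.1 p.2).card := by
    simp only [Mach.fr, T, filter_filter, if_true, Nat.zero_le, and_true]
  have c4 : P.G2.deg (P.vs s h) (goal σ) = A.card + B.card + 2 := by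
    rw [Apex.deg, e, card_insert_of_notMem, card_insert_of_notMem, card_union_of_disjoint,
      card_image_of_injective, card_image_of_injective]
    · exact fun p q k => by simp only [Prod.mk.injEq] at k; exact Prod.ext k.1 k.2.1
    · exact fun p q k => by simp only [Prod.mk.injEq] at k; exact Prod.ext k.1 k.2.1
    · simp only [disjoint_left, mem_image]
      rintro _ ⟨p, -, rfl⟩ ⟨q, -, k⟩
      simp only [Prod.mk.injEq, tau] at k
      omega
    · simp [goal]
    · cases σ <;> simp [goal]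
  rw [c3, c4, Nat.odd_iff, Nat.odd_iff]
  omega

end Pool.Agent.Chomp.GR
end
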