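import Pool.Agent.Work.MP_ff0f6a_lc.GR.Tsm
import Pool.Agent.Work.MP_ff0f6a_lc.GR.Vs
import Pool.Agent.Work.MP_ff0f6a_lc.GR.Mok
import Pool.Agent.Work.MP_ff0f6a_lc.GR.Red

-- merged part: Pool.Agent.Work.MP_ff0f6a_lc.SC.Bip
section
/-!
The game on a bipartite graph.
-/

namespace Pool.Agent.Chomp.SC

open Finset Function

section
variable {α : Type} [DecidableEq α] {col : α → Bool} {S : Finset (Finset α)}

/-- the number of edges at a vertex -/
def bipDg (S : Finset (Finset α)) (v : α) : ℕ := (S.filter fun σ => σ.card = 2 ∧ v ∈ σ).card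

/-- the vertices -/
def bipVs (S : Finset (Finset α)) : Finset α := (S.biUnion id).filter fun v => {v} ∈ S

lemma bip_mem {v : α} : v ∈ bipVs S ↔ {v} ∈ S := by
  refine mem_filter.trans ⟨fun h => h.2, fun h => ⟨mem_biUnion.2 ⟨_, h, ?_⟩, h⟩⟩
  exact mem_singleton_self v

lemma bip_nV : nV S = (bipVs S).card := by
  symm
  refine card_bij (fun v _ => {v}) (fun v hv => mem_filter.2 ⟨bip_mem.1 hv, card_singleton v⟩)
    (fun _ _ _ _ h => singleton_injective h) fun σ hσ => ?_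
  obtain ⟨h1, h2⟩ := mem_filter.1 hσ
  obtain ⟨v, rfl⟩ := card_eq_one.1 h2
  exact ⟨v, bip_mem.2 h1, rfl⟩

lemma bip_card (h : Gr col S) {σ : Finset α} (hσ : σ ∈ S) : σ.card = 1 ∨ σ.card = 2 := by
  rcases h σ hσ with ⟨v, rfl⟩ | ⟨u, v, huv, rfl, -, -⟩
  · exact Or.inl (card_singleton v)
  · exact Or.inr (card_pair fun e => huv (by rw [e]))

lemma bip_gr_v (h : Gr col S) (v : α) : Gr col (cut S {v}) := by
  intro σ hσ
  obtain ⟨h1, h2⟩ := mem_filter.1 hσ
  rcases h σ h1 with k | ⟨a, b, hab, rfl, ha, hb⟩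
  · exact Or.inl k
  · refine Or.inr ⟨a, b, hab, rfl, mem_filter.2 ⟨ha, fun k => h2 (k.trans ?_)⟩,
      mem_filter.2 ⟨hb, fun k => h2 (k.trans ?_)⟩⟩ <;> simp

lemma bip_gr_e (h : Gr col S) {τ : Finset α} (hτ : τ.card = 2) : Gr col (cut S τ) := by
  intro σ hσ
  obtain ⟨h1, -⟩ := mem_filter.1 hσ
  have k : ∀ a : α, ¬ τ ⊆ {a} := fun a e => by
    have := card_le_card e
    rw [card_singleton] at this
    omega
  rcases h σ h1 with k | ⟨a, b, hab, rfl, ha, hb⟩
  · exact Or.inl k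
  · exact Or.inr ⟨a, b, hab, rfl, mem_filter.2 ⟨ha, k a⟩, mem_filter.2 ⟨hb, k b⟩⟩

lemma bip_cut_v {v : α} (hv : {v} ∈ S) :
    nV (cut S {v}) + 1 = nV S ∧ nE (cut S {v}) + bipDg S v = nE S := by
  constructor
  · have e : (cut S {v}).filter (fun σ => σ.card = 1) =
        (S.filter fun σ => σ.card = 1).erase {v} := by
      ext σ
      simp only [cut, mem_filter, mem_erase, singleton_subset_iff]
      constructor
      · rintro ⟨⟨a, b⟩, c⟩
        exact ⟨fun e => b (e ▸ mem_singleton_self v), a, c⟩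
      · rintro ⟨a, b, c⟩
        obtain ⟨w, rfl⟩ := card_eq_one.1 c
        exact ⟨⟨b, fun e => a (by rw [mem_singleton.1 e])⟩, c⟩
    rw [nV, nV, e]
    exact card_erase_add_one (mem_filter.2 ⟨hv, card_singleton v⟩)
  · rw [nE, nE, bipDg, ← card_filter_add_card_filter_not (s := S.filter fun σ => σ.card = 2)
      (fun σ => v ∈ σ), add_comm, filter_filter, filter_filter, cut, filter_filter]
    congr 2
    ext σ
    simp only [mem_filter, singleton_subset_iff]
    tauto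

lemma bip_cut_e {τ : Finset α} (h : τ ∈ S) (hτ : τ.card = 2) :
    nV (cut S τ) = nV S ∧ nE (cut S τ) + 1 = nE S := by
  constructor
  · rw [nV, nV, cut, filter_filter]
    congr 1
    refine filter_congr fun σ _ => ⟨fun k => k.2, fun k => ⟨fun e => ?_, k⟩⟩
    have := card_le_card e
    omega
  · have e : (cut S τ).filter (fun σ => σ.card = 2) =
        (S.filter fun σ => σ.card = 2).erase τ := by
      ext σ
      simp only [cut, mem_filter, mem_erase]
      constructor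
      · rintro ⟨⟨a, b⟩, c⟩
        exact ⟨fun e => b (e ▸ Subset.rfl), a, c⟩
      · rintro ⟨a, b, c⟩
        exact ⟨⟨b, fun e => a (eq_of_subset_of_card_le e (by omega)).symm⟩, c⟩
    rw [nE, nE, e]
    exact card_erase_add_one (mem_filter.2 ⟨h, hτ⟩)

lemma bip_sum (h : Gr col S) (b : Bool) :
    ∑ v ∈ (bipVs S).filter (fun v => col v = b), bipDg S v = nE S := by
  have e : ∀ v, bipDg S v = ∑ σ ∈ S.filter (fun σ => σ.card = 2), if v ∈ σ then 1 else 0 := by
    intro v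
    rw [bipDg, ← card_filter, filter_filter]
  simp only [e]
  rw [sum_comm, nE, card_eq_sum_ones]
  refine sum_congr rfl fun σ hσ => ?_
  obtain ⟨h1, h2⟩ := mem_filter.1 hσ
  rw [← card_filter, card_eq_one]
  rcases h σ h1 with ⟨v, rfl⟩ | ⟨u, v, huv, rfl, hu, hv⟩
  · simp at h2
  · by_cases hb : col u = b
    · refine ⟨u, Finset.ext fun x => ?_⟩
      simp only [mem_filter, bip_mem, mem_insert, mem_singleton]
      constructor
      · rintro ⟨⟨-, a⟩, c | c⟩
        · exact c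
        · exact absurd (hb.trans (c ▸ a).symm) huv
      · rintro rfl
        exact ⟨⟨hu, hb⟩, Or.inl rfl⟩
    · have hb' : col v = b := by
        revert huv hb
        cases col u <;> cases col v <;> cases b <;> simp
      refine ⟨v, Finset.ext fun x => ?_⟩
      simp only [mem_filter, bip_mem, mem_insert, mem_singleton]
      constructor
      · rintro ⟨⟨-, a⟩, c | c⟩
        · exact absurd (c ▸ a) hb
        · exact c
      · rintro rfl
        exact ⟨⟨hv, hb'⟩, Or.inr rfl⟩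

lemma bip_vertex (h : Gr col S) (hV : Odd (nV S)) :
    ∃ v, {v} ∈ S ∧ (Even (bipDg S v) ↔ Even (nE S)) := by
  by_contra hc
  push Not at hc
  rcases Nat.even_or_odd (nE S) with hE | hE
  · have k : ∀ v ∈ bipVs S, Odd (bipDg S v) := fun v hv => by
      rcases hc v (bip_mem.1 hv) with a | a
      · exact absurd hE a.2
      · exact Nat.not_even_iff_odd.1 a.1
    have s : ∑ v ∈ bipVs S, bipDg S v = nE S + nE S := by
      rw [← sum_filter_add_sum_filter_not (bipVs S) (fun v => col v = true), bip_sum h true]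
      simp only [Bool.not_eq_true]
      rw [bip_sum h false]
    have o : Odd (∑ v ∈ bipVs S, bipDg S v) := by
      rw [odd_sum_iff_odd_card_odd, filter_true_of_mem k, ← bip_nV]
      exact hV
    rw [s] at o
    exact Nat.not_even_iff_odd.2 o ⟨_, rfl⟩
  · have k : ∀ v ∈ (bipVs S).filter (fun v => col v = true), Even (bipDg S v) := fun v hv => by
      rcases hc v (bip_mem.1 (mem_filter.1 hv).1) with a | a
      · exact a.1
      · exact absurd a.2 (Nat.not_even_iff_odd.2 hE)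
    have o := even_sum _ k
    rw [bip_sum h true] at o
    exact Nat.not_even_iff_odd.2 hE o

end

theorem p_bip : S_bip := by
  intro α _ col S
  induction hn : S.card using Nat.strong_induction_on generalizing S with
  | _ n ih =>
    intro h
    have lt : ∀ σ ∈ S, (cut S σ).card < n := fun σ hσ =>
      hn ▸ card_lt_card (filter_ssubset.2 ⟨σ, hσ, not_not.2 Subset.rfl⟩)
    refine ⟨fun hV hE => Res.lose S fun σ hσ => ?_, fun ho => ?_⟩
    · rcases bip_card h hσ with c | c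
      · obtain ⟨v, rfl⟩ := card_eq_one.1 c
        refine (ih _ (lt _ hσ) _ rfl (bip_gr_v h v)).2 (Or.inl ?_)
        have := (bip_cut_v hσ).1
        rw [Nat.even_iff] at hV
        rw [Nat.odd_iff]
        omega
      · refine (ih _ (lt _ hσ) _ rfl (bip_gr_e h c)).2 (Or.inr ?_)
        have := (bip_cut_e hσ c).2
        rw [Nat.even_iff] at hE
        rw [Nat.odd_iff]
        omega
    · rcases Nat.even_or_odd (nV S) with hV | hV
      · have hE : Odd (nE S) := ho.resolve_left (Nat.not_odd_iff_even.2 hV)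
        obtain ⟨τ, hτ⟩ := card_pos.1 hE.pos
        obtain ⟨h1, h2⟩ := mem_filter.1 hτ
        obtain ⟨e1, e2⟩ := bip_cut_e h1 h2
        refine Res.win S τ h1 ((ih _ (lt _ h1) _ rfl (bip_gr_e h h2)).1 (e1 ▸ hV) ?_)
        rw [Nat.odd_iff] at hE
        rw [Nat.even_iff]
        omega
      · obtain ⟨v, h1, h2⟩ := bip_vertex h hV
        obtain ⟨e1, e2⟩ := bip_cut_v h1
        rw [Nat.odd_iff] at hV
        rw [Nat.even_iff, Nat.even_iff] at h2
        refine Res.win S _ h1 ((ih _ (lt _ h1) _ rfl (bip_gr_v h v)).1 ?_ ?_) <;>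
          rw [Nat.even_iff] <;> omega

end Pool.Agent.Chomp.SC
end

-- merged part: Pool.Agent.Work.MP_ff0f6a_lc.SC.Cx
section
/-! Elementary facts on the complex of an apex graph. -/

namespace Pool.Agent.Chomp.SC

open Finset

variable {α : Type} [DecidableEq α] {G : Apex α}

theorem cx_irr (h : G.Ok) {u v : α} (e : G.A u v = true) : u ≠ v := by
  rintro rfl
  by_cases hw : u = G.w
  · subst hw
    rcases (h.apex _).1 e with h1 | h1
    · exact h.cw h1.symm
    · exact h.zw h1.symm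
  · exact h.prop u u e hw hw rfl

theorem cx_mem {s : Finset α} {b : Bool} {σ : Finset α} : σ ∈ G.cx s b ↔
    (∃ v ∈ s, σ = {v}) ∨ (∃ u ∈ s, ∃ v ∈ s, G.A u v = true ∧ σ = {u, v}) ∨
      (b = true ∧ G.Tri s ∧ σ = {G.c, G.z, G.w}) := by
  unfold Apex.cx Apex.Tri
  simp only [mem_union, mem_image, mem_filter, mem_product, Prod.exists]
  constructor
  · rintro ((⟨v, hv, rfl⟩ | ⟨u, v, ⟨⟨hu, hv⟩, e⟩, rfl⟩) | h3)
    · exact .inl ⟨v, hv, rfl⟩
    · exact .inr (.inl ⟨u, hu, v, hv, e, rfl⟩)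
    · split_ifs at h3 with hc
      · exact .inr (.inr ⟨hc.1, hc.2, mem_singleton.1 h3⟩)
      · simp at h3
  · rintro (⟨v, hv, rfl⟩ | ⟨u, hu, v, hv, e, rfl⟩ | ⟨hb, ht, rfl⟩)
    · exact .inl (.inl ⟨v, hv, rfl⟩)
    · exact .inl (.inr ⟨u, v, ⟨⟨hu, hv⟩, e⟩, rfl⟩)
    · exact .inr (by rw [if_pos ⟨hb, ht⟩]; exact mem_singleton_self _)

theorem cx_c3 (h : G.Ok) : ({G.c, G.z, G.w} : Finset α).card = 3 :=
  card_eq_three.2 ⟨_, _, _, cx_irr h h.cz, h.cw, h.zw, rfl⟩

theorem cx_c2 (h : G.Ok) {u v : α} (e : G.A u v = true) : ({u, v} : Finset α).card = 2 :=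
  card_pair (cx_irr h e)

theorem cx_sing (h : G.Ok) {s : Finset α} {b : Bool} (v : α) :
    ({v} : Finset α) ∈ G.cx s b ↔ v ∈ s := by
  rw [cx_mem]
  constructor
  · rintro (⟨u, hu, e⟩ | ⟨u, -, w, -, a, e⟩ | ⟨-, -, e⟩)
    · rw [singleton_inj.1 e]; exact hu
    · have := cx_c2 h a
      rw [← e] at this; simp at this
    · have := cx_c3 h
      rw [← e] at this; simp at this
  · exact fun hv => .inl ⟨v, hv, rfl⟩

omit [DecidableEq α] in
theorem cx_cw (h : G.Ok) : G.A G.c G.w = true := by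
  rw [h.symm]; exact (h.apex _).2 (.inl rfl)

omit [DecidableEq α] in
theorem cx_zw (h : G.Ok) : G.A G.z G.w = true := by
  rw [h.symm]; exact (h.apex _).2 (.inr rfl)

theorem cx_f1 (h : G.Ok) (s : Finset α) (b : Bool) :
    (G.cx s b).filter (fun σ => σ.card = 1) = s.image fun v => ({v} : Finset α) := by
  ext σ
  simp only [mem_filter, mem_image, cx_mem]
  constructor
  · rintro ⟨⟨u, hu, e⟩ | ⟨u, -, w, -, a, rfl⟩ | ⟨-, -, rfl⟩, hc⟩
    · exact ⟨u, hu, e.symm⟩
    · have := cx_c2 h a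
      omega
    · have := cx_c3 h
      omega
  · rintro ⟨v, hv, rfl⟩
    exact ⟨.inl ⟨v, hv, rfl⟩, card_singleton v⟩

theorem cx_m2 (h : G.Ok) {s : Finset α} {b : Bool} {σ : Finset α} :
    σ ∈ (G.cx s b).filter (fun σ => σ.card = 2) ↔
      ∃ u ∈ s, ∃ v ∈ s, G.A u v = true ∧ σ = {u, v} := by
  simp only [mem_filter, cx_mem]
  constructor
  · rintro ⟨⟨u, hu, rfl⟩ | h2 | ⟨-, -, rfl⟩, hc⟩
    · simp at hc
    · exact h2
    · have := cx_c3 h
      omega
  · rintro ⟨u, hu, v, hv, a, rfl⟩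
    exact ⟨.inr (.inl ⟨u, hu, v, hv, a, rfl⟩), cx_c2 h a⟩

theorem cx_nV (h : G.Ok) (s : Finset α) (b : Bool) : nV (G.cx s b) = s.card := by
  unfold nV
  rw [cx_f1 h, card_image_of_injective _ singleton_injective]

theorem cx_f2 (h : G.Ok) (s : Finset α) (b : Bool) :
    (G.cx s b).filter (fun σ => σ.card = 2) = (G.cx s false).filter (fun σ => σ.card = 2) := by
  ext σ
  rw [cx_m2 h, cx_m2 h]

theorem cx_deg (h : G.Ok) (s : Finset α) {v : α} (hv : v ∈ s) :
    nE (G.cx (s.erase v) false) + G.deg s v = nE (G.cx s false) := by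
  unfold nE Apex.deg
  have e1 : (G.cx (s.erase v) false).filter (fun σ => σ.card = 2) =
      ((G.cx s false).filter (fun σ => σ.card = 2)).filter fun σ => ¬ v ∈ σ := by
    ext σ
    rw [mem_filter (p := fun σ => ¬ v ∈ σ), cx_m2 h, cx_m2 h]
    constructor
    · rintro ⟨x, hx, y, hy, a, rfl⟩
      rw [mem_erase] at hx hy
      refine ⟨⟨x, hx.2, y, hy.2, a, rfl⟩, ?_⟩
      simp only [mem_insert, mem_singleton, not_or]
      exact ⟨hx.1.symm, hy.1.symm⟩
    · rintro ⟨⟨x, hx, y, hy, a, rfl⟩, hn⟩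
      simp only [mem_insert, mem_singleton, not_or] at hn
      exact ⟨x, mem_erase.2 ⟨Ne.symm hn.1, hx⟩, y, mem_erase.2 ⟨Ne.symm hn.2, hy⟩, a, rfl⟩
  have e2 : ((G.cx s false).filter (fun σ => σ.card = 2)).filter (fun σ => v ∈ σ) =
      (s.filter fun u => G.A v u = true).image fun u => ({v, u} : Finset α) := by
    ext σ
    rw [mem_filter (p := fun σ => v ∈ σ), cx_m2 h]
    simp only [mem_image, mem_filter]
    constructor
    · rintro ⟨⟨x, hx, y, hy, a, rfl⟩, hn⟩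
      simp only [mem_insert, mem_singleton] at hn
      rcases hn with rfl | rfl
      · exact ⟨y, ⟨hy, a⟩, rfl⟩
      · exact ⟨x, ⟨hx, by rw [h.symm]; exact a⟩, pair_comm _ _⟩
    · rintro ⟨u, ⟨hu, a⟩, rfl⟩
      exact ⟨⟨v, hv, u, hu, a, rfl⟩, mem_insert_self _ _⟩
  have e3 : ((s.filter fun u => G.A v u = true).image fun u => ({v, u} : Finset α)).card =
      (s.filter fun u => G.A v u = true).card := by
    refine card_image_of_injOn fun x hx y _ e => ?_
    have hx' := cx_irr h (mem_filter.1 (mem_coe.1 hx)).2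
    have e' : ({v, x} : Finset α) = {v, y} := e
    have : x ∈ ({v, y} : Finset α) := by rw [← e']; simp
    simp only [mem_insert, mem_singleton] at this
    rcases this with h1 | h1
    · exact absurd h1.symm hx'
    · exact h1
  rw [e1, ← e3, ← e2, add_comm]
  exact card_filter_add_card_filter_not _

theorem cx_sub (h : G.Ok) (s : Finset α) (b : Bool) {σ : Finset α} (hσ : σ.card = 2) :
    G.Sub (cut (G.cx s b) σ) := by
  have one : ∀ v ∈ s, ({v} : Finset α) ∈ cut (G.cx s b) σ := fun v hv =>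
    mem_filter.2 ⟨(cx_sing h v).2 hv, fun e => by
      have := card_le_card e
      rw [card_singleton] at this
      omega⟩
  intro ρ hρ
  obtain ⟨h1, h2⟩ := mem_filter.1 hρ
  rcases cx_mem.1 h1 with ⟨v, -, e⟩ | ⟨u, hu, v, hv, a, e⟩ | ⟨-, ht, e⟩
  · exact .inl ⟨v, e⟩
  · exact .inr (.inl ⟨u, v, a, e, one u hu, one v hv⟩)
  · refine .inr (.inr ⟨e, mem_filter.2 ⟨cx_mem.2 (.inr (.inl ⟨_, ht.1, _, ht.2.2, cx_cw h, rfl⟩)),
      fun e' => h2 (e ▸ e'.trans ?_)⟩, mem_filter.2 ⟨cx_mem.2 (.inr (.inl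
        ⟨_, ht.2.1, _, ht.2.2, cx_zw h, rfl⟩)), fun e' => h2 (e ▸ e'.trans ?_)⟩⟩)
    · intro x hx
      simp only [mem_insert, mem_singleton] at hx ⊢
      tauto
    · intro x hx
      simp only [mem_insert, mem_singleton] at hx ⊢
      tauto

theorem cx_sub0 (h : G.Ok) (s : Finset α) (b : Bool) : G.Sub (G.cx s b) := by
  intro ρ h1
  rcases cx_mem.1 h1 with ⟨v, -, e⟩ | ⟨u, hu, v, hv, a, e⟩ | ⟨-, ht, e⟩
  · exact .inl ⟨v, e⟩
  · exact .inr (.inl ⟨u, v, a, e, (cx_sing h u).2 hu, (cx_sing h v).2 hv⟩)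
  · exact .inr (.inr ⟨e, cx_mem.2 (.inr (.inl ⟨_, ht.1, _, ht.2.2, cx_cw h, rfl⟩)),
      cx_mem.2 (.inr (.inl ⟨_, ht.2.1, _, ht.2.2, cx_zw h, rfl⟩))⟩)

theorem cx_cut1 (s : Finset α) (b : Bool) (v : α) : cut (G.cx s b) {v} = G.cx (s.erase v) b := by
  ext σ
  unfold cut
  rw [mem_filter, cx_mem, cx_mem, singleton_subset_iff]
  unfold Apex.Tri
  simp only [mem_erase]
  constructor
  · rintro ⟨⟨x, hx, rfl⟩ | ⟨x, hx, y, hy, a, rfl⟩ | ⟨hb, ht, rfl⟩, hn⟩
    · simp only [mem_singleton] at hn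
      exact .inl ⟨x, ⟨Ne.symm hn, hx⟩, rfl⟩
    · simp only [mem_insert, mem_singleton, not_or] at hn
      exact .inr (.inl ⟨x, ⟨Ne.symm hn.1, hx⟩, y, ⟨Ne.symm hn.2, hy⟩, a, rfl⟩)
    · simp only [mem_insert, mem_singleton, not_or] at hn
      exact .inr (.inr ⟨hb, ⟨⟨Ne.symm hn.1, ht.1⟩, ⟨Ne.symm hn.2.1, ht.2.1⟩,
        ⟨Ne.symm hn.2.2, ht.2.2⟩⟩, rfl⟩)
  · rintro (⟨x, hx, rfl⟩ | ⟨x, hx, y, hy, a, rfl⟩ | ⟨hb, ht, rfl⟩)
    · exact ⟨.inl ⟨x, hx.2, rfl⟩, by simpa using hx.1.symm⟩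
    · refine ⟨.inr (.inl ⟨x, hx.2, y, hy.2, a, rfl⟩), ?_⟩
      simp only [mem_insert, mem_singleton, not_or]
      exact ⟨hx.1.symm, hy.1.symm⟩
    · refine ⟨.inr (.inr ⟨hb, ⟨ht.1.2, ht.2.1.2, ht.2.2.2⟩, rfl⟩), ?_⟩
      simp only [mem_insert, mem_singleton, not_or]
      exact ⟨ht.1.1.symm, ht.2.1.1.symm, ht.2.2.1.symm⟩

theorem cx_cut3 (h : G.Ok) (s : Finset α) :
    cut (G.cx s true) {G.c, G.z, G.w} = G.cx s false := by
  ext σ
  unfold cut
  rw [mem_filter, cx_mem, cx_mem]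
  have h3 := cx_c3 h
  constructor
  · rintro ⟨h1 | h1 | ⟨-, -, rfl⟩, hn⟩
    · exact .inl h1
    · exact .inr (.inl h1)
    · exact absurd Subset.rfl hn
  · rintro (⟨x, hx, rfl⟩ | ⟨x, hx, y, hy, a, rfl⟩ | ⟨hb, -⟩)
    · refine ⟨.inl ⟨x, hx, rfl⟩, fun e => ?_⟩
      have := card_le_card e
      rw [card_singleton] at this
      omega
    · refine ⟨.inr (.inl ⟨x, hx, y, hy, a, rfl⟩), fun e => ?_⟩
      have := card_le_card e
      rw [cx_c2 h a] at this
      omega
    · exact absurd hb (by simp)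

theorem p_cx : S_cx := by
  intro α _ G h s b
  refine ⟨cx_sub0 h s b, cx_nV h s b, by unfold nE; rw [cx_f2 h], cx_sing h, cx_cut1 s b,
    fun v hv => cx_deg h s hv, fun ht => ⟨cx_mem.2 (.inr (.inr ⟨rfl, ht, rfl⟩)), cx_cut3 h s⟩,
    fun σ hσ => ?_⟩
  rcases cx_mem.1 hσ with h1 | ⟨u, hu, v, hv, a, e⟩ | h1
  · exact .inl h1
  · have h2 : σ.card = 2 := e ▸ cx_c2 h a
    refine .inr (.inr ⟨cx_sub h s b h2, ?_, ?_⟩)
    · rw [← cx_nV h s b]
      unfold nV cut
      have : ((G.cx s b).filter fun ρ => ¬ σ ⊆ ρ).filter (fun ρ => ρ.card = 1) =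
          (G.cx s b).filter (fun ρ => ρ.card = 1) := by
        ext ρ
        simp only [mem_filter]
        refine ⟨fun x => ⟨x.1.1, x.2⟩, fun x => ⟨⟨x.1, fun e' => ?_⟩, x.2⟩⟩
        have := card_le_card e'
        omega
      rw [this]
    · unfold nE cut
      rw [← cx_f2 h s b]
      have : ((G.cx s b).filter fun ρ => ¬ σ ⊆ ρ).filter (fun ρ => ρ.card = 2) =
          ((G.cx s b).filter (fun ρ => ρ.card = 2)).erase σ := by
        ext ρ
        simp only [mem_filter, mem_erase]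
        refine ⟨fun x => ⟨fun e' => x.1.2 (e' ▸ Subset.rfl), x.1.1, x.2⟩,
          fun x => ⟨⟨x.2.1, fun e' => x.1 ?_⟩, x.2.2⟩⟩
        exact (eq_of_subset_of_card_le e' (by omega)).symm
      rw [this]
      exact card_erase_add_one (mem_filter.2 ⟨hσ, h2⟩)
  · exact .inr (.inl h1)

end Pool.Agent.Chomp.SC
end

-- merged part: Pool.Agent.Work.MP_ff0f6a_lc.SC.Goal
section
/-!
The degrees of the goals and the counts of fronts.
-/

namespace Pool.Agent.Chomp.SC

open Finset Function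

theorem goal_split {β : Type} [DecidableEq β] (T : Finset β) (x : β) (hx : x ∈ T)
    (p q : β → Prop) [DecidablePred p] [DecidablePred q] (h : ∀ y, y ≠ x → (p y ↔ q y)) :
    (T.filter p).card + (if q x then 1 else 0) = (T.filter q).card + if p x then 1 else 0 := by
  rw [card_filter, card_filter, ← add_sum_erase _ _ hx, ← add_sum_erase _ _ hx,
    sum_congr rfl fun y k => if_congr (h y (ne_of_mem_erase k)) rfl rfl]
  omega

theorem p_fr : S_fr := by
  intro P h hh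
  refine ⟨fun σ r => ?_, fun σ r h1 h2 => ?_, fun κ hk e he h1 σ r => ?_⟩
  · have a : ∀ p : ℕ × ℕ → Prop, ∀ [DecidablePred p], (∀ x, ¬ p x) →
        ((range P.K ×ˢ range 2).filter p).card = 0 := fun p _ k =>
      card_eq_zero.2 (filter_eq_empty_iff.2 fun x _ => k x)
    unfold Mach.fr
    rw [a _ fun x => by unfold full; omega, a _ fun x => by unfold full; omega]
    simp
  · unfold Mach.fr at h2
    rw [if_neg (by omega), Nat.add_zero] at h2
    obtain ⟨p, k⟩ := card_pos.1 h2.pos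
    simp only [mem_filter, mem_product, mem_range] at k
    exact ⟨p.1, k.1.1, p.2, k.1.2, k.2⟩
  · have m : (κ, e) ∈ range P.K ×ˢ range 2 := by simp [hk, he]
    have l : ∀ y : ℕ × ℕ, y ≠ (κ, e) → Mach.low h κ e y.1 y.2 = h y.1 y.2 := fun y k => by
      unfold Mach.low
      rw [if_neg fun c => k (Prod.ext c.1 c.2)]
    have l0 : Mach.low h κ e κ e = h κ e - 1 := by simp [Mach.low]
    have a := goal_split _ _ m
      (fun p => P.side p.1 = σ ∧ Mach.low h κ e p.1 p.2 = r ∧ r ≤ tau p.1 p.2)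
      (fun p => P.side p.1 = σ ∧ h p.1 p.2 = r ∧ r ≤ tau p.1 p.2) fun y k => by rw [l y k]
    have b := goal_split _ _ m
      (fun p => P.side p.1 = σ ∧ Mach.low h κ e p.1 p.2 ≤ tau p.1 p.2)
      (fun p => P.side p.1 = σ ∧ h p.1 p.2 ≤ tau p.1 p.2) fun y k => by rw [l y k]
    have c := hh κ e
    have t : 4 ≤ tau κ e := by unfold tau; omega
    have d : h κ e % (tau κ e + 1) = if h κ e ≤ tau κ e then h κ e else 0 := by
      split_ifs with k
      · exact Nat.mod_eq_of_lt (by omega)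
      · rw [show h κ e = tau κ e + 1 by omega, Nat.mod_self]
    simp only [l0] at a b
    unfold Mach.fr
    rw [d, Nat.even_iff, Nat.even_iff, @eq_comm _ σ]
    by_cases s : P.side κ = σ
    · simp only [s, true_and] at a b ⊢
      split_ifs at a b ⊢ <;> omega
    · simp only [s, false_and, if_false, not_false_iff, iff_true] at a b ⊢
      split_ifs <;> omega

theorem p_goal (hv : S_vs) : S_goal := by
  intro P O s h I hh σ
  obtain ⟨-, v2, -⟩ := hv P O s h I hh
  let T := (range P.K ×ˢ range 2).filter fun p => P.side p.1 = σ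
  let A := T.filter fun p => 1 ≤ h p.1 p.2
  let B := T.filter fun p => h p.1 p.2 = tau p.1 p.2 + 1
  have e : (P.vs s h).filter (fun u => P.G.A (goal σ) u = true) =
      insert (0, 6, 0) (insert (goal (!σ)) (A.image (fun p => (p.1, p.2, 1)) ∪
        B.image fun p => (p.1, p.2, tau p.1 p.2 + 1))) := by
    ext ⟨a, b, c⟩
    have i := I (a, b)
    have j := hh a b
    simp only [mem_filter, v2, Mach.G, Mach.arc, goal, Bool.or_eq_true, decide_eq_true_eq,
      mem_insert, mem_union, mem_image, A, B, T, mem_product, mem_range, Prod.mk.injEq, Prod.exists]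
    constructor
    · rintro ⟨k, l⟩
      have u : (σ.toNat = (P.side a).toNat ∧ (c = 1 ∨ c = tau a b + 1)) ∨
          (a = 0 ∧ c = 0 ∧ 4 ≤ b ∧ b ≤ 6 ∧ b ≠ 4 + σ.toNat) := by
        have : tau 0 (4 + σ.toNat) + 1 ≠ 0 := by omega
        omega
      rcases u with ⟨u, u' | u'⟩ | u
      · refine .inr (.inr (.inl ⟨a, b, ⟨⟨by omega, ?_⟩, by omega⟩, rfl, rfl, u'.symm⟩))
        revert u; cases σ <;> cases P.side a <;> simp
      · refine .inr (.inr (.inr ⟨a, b, ⟨⟨by omega, ?_⟩, by omega⟩, rfl, rfl, u'.symm⟩))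
        revert u; cases σ <;> cases P.side a <;> simp
      · cases σ <;> simp only [Bool.toNat_true, Bool.toNat_false, Bool.not_true, Bool.not_false] at * <;>
          omega
    · rintro (k | k | ⟨_, _, k, rfl, rfl, rfl⟩ | ⟨_, _, k, rfl, rfl, rfl⟩)
      · obtain ⟨rfl, rfl, rfl⟩ := k
        cases σ <;> simp
      · obtain ⟨rfl, rfl, rfl⟩ := k
        cases σ <;> simp
      · exact ⟨by omega, by simp [k.1.2]⟩
      · exact ⟨by omega, by simp [k.1.2]⟩
  have c1 : A.card + (T.filter fun p => h p.1 p.2 = 0).card = T.card := by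
    rw [← card_filter_add_card_filter_not (s := T) fun p => 1 ≤ h p.1 p.2]
    congr 2
    exact filter_congr fun p _ => by omega
  have c2 : B.card + (T.filter fun p => h p.1 p.2 ≤ tau p.1 p.2).card = T.card := by
    rw [← card_filter_add_card_filter_not (s := T) fun p => h p.1 p.2 = tau p.1 p.2 + 1]
    congr 2
    exact filter_congr fun p _ => by have := hh p.1 p.2; omega
  have c3 : P.fr h σ 0 = (T.filter fun p => h p.1 p.2 = 0).card +
      (T.filter fun p => h p.1 p.2 ≤ tau p.1 p.2).card := by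
    simp only [Mach.fr, T, filter_filter, if_true, Nat.zero_le, and_true]
  have c4 : P.G.deg (P.vs s h) (goal σ) = A.card + B.card + 2 := by
    rw [Apex.deg, e, card_insert_of_notMem, card_insert_of_notMem, card_union_of_disjoint,
      card_image_of_injective, card_image_of_injective]
    · exact fun p q k => by simp only [Prod.mk.injEq] at k; exact Prod.ext k.1 k.2.1
    · exact fun p q k => by simp only [Prod.mk.injEq] at k; exact Prod.ext k.1 k.2.1
    · simp only [disjoint_left, mem_image]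
      rintro _ ⟨p, -, rfl⟩ ⟨q, -, k⟩
      simp only [Prod.mk.injEq, tau] at k
      omega
    · simp [goal]
    · cases σ <;> simp [goal]
  rw [c3, c4, Nat.odd_iff, Nat.odd_iff]
  omega

end Pool.Agent.Chomp.SC
end

-- merged part: Pool.Agent.Work.MP_ff0f6a_lc.SC.Pair
section
/-!
A paired position of the odd class is lost for the player to move.
-/

namespace Pool.Agent.Chomp.SC

open Finset

theorem pair_deg {α : Type} [DecidableEq α] (G : Apex α) (s : Finset α) (v : α) (hv : v ∈ s)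
    (u : α) : G.deg (s.erase v) u + (G.A u v).toNat = G.deg s u := by
  unfold Apex.deg
  rw [Finset.filter_erase]
  cases h : G.A u v
  · rw [Finset.erase_eq_of_notMem (by simp [h])]
    simp
  · have hm : v ∈ s.filter fun x => G.A u x = true := by simp [hv, h]
    have := Finset.card_erase_add_one hm
    simpa using this

theorem pair_pd {α : Type} [DecidableEq α] (G : Apex α) (hG : G.Ok) (π : α → α) (s : Finset α)
    (h : G.Pd π s) (v : α) (hv : v ∈ s) (hne : π v ≠ v) :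
    G.Pd π ((s.erase v).erase (π v)) := by
  have hp : π v ∈ s.erase v := Finset.mem_erase.2 ⟨hne, h.mem v hv⟩
  have hfix : ∀ x ∈ s, π x = x → x ∈ (s.erase v).erase (π v) := by
    intro x hx hf
    have h1 : x ≠ v := by
      rintro rfl
      exact hne hf
    have h2 : x ≠ π v := by
      rintro rfl
      rw [h.inv v hv] at hf
      exact hne hf.symm
    exact Finset.mem_erase.2 ⟨h2, Finset.mem_erase.2 ⟨h1, hx⟩⟩
  have hsub : ∀ x ∈ (s.erase v).erase (π v), x ∈ s := fun x hx =>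
    Finset.mem_of_mem_erase (Finset.mem_of_mem_erase hx)
  have hdeg : ∀ u, G.deg ((s.erase v).erase (π v)) u + (G.A u (π v)).toNat + (G.A u v).toNat =
      G.deg s u := by
    intro u
    rw [pair_deg G _ _ hp, pair_deg G _ _ hv]
  refine ⟨⟨hfix _ h.tri.1 h.fx.1, hfix _ h.tri.2.1 h.fx.2.1, hfix _ h.tri.2.2 h.fx.2.2⟩, h.fx,
    ?_, fun x hx => h.inv x (hsub x hx), fun x hx => h.col x (hsub x hx), ?_, ?_,
    fun x hx y hy => h.blk x (hsub x hx) y (hsub y hy)⟩
  · intro x hx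
    have hx2 := Finset.mem_erase.1 hx
    have hx1 := Finset.mem_erase.1 hx2.2
    refine Finset.mem_erase.2 ⟨?_, Finset.mem_erase.2 ⟨?_, h.mem x hx1.2⟩⟩
    · intro e
      apply hx1.1
      rw [← h.inv x hx1.2, e, h.inv v hv]
    · intro e
      apply hx2.1
      rw [← h.inv x hx1.2, e]
  · intro x hx
    have hxs := hsub x hx
    have h1 := hdeg x
    have h2 := hdeg (π x)
    have h3 := h.par x hxs
    have h4 := h.blk x hxs v hv
    rw [Nat.odd_iff, Nat.odd_iff] at h3 ⊢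
    revert h1 h2 h4
    cases G.A x v <;> cases G.A x (π v) <;> cases G.A (π x) v <;> cases G.A (π x) (π v) <;>
      simp <;> omega
  · intro x hx hf
    have hxs := hsub x hx
    obtain ⟨h1, h2⟩ := h.ev x hxs hf
    refine ⟨?_, fun u hu => h2 u (hsub u hu)⟩
    have h3 := h2 v hv
    have h4 := hdeg x
    rw [hG.symm x (π v), hG.symm x v, h3] at h4
    rw [Nat.even_iff] at h1 ⊢
    omega

theorem p_pair (hx : S_cx) (hl : S_lose) : S_pair := by
  intro α _ G hG π s
  induction s using Finset.strongInduction with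
  | H s ih =>
    intro h hc
    refine (hl α G hG s false).2.2.2 h.tri
      (Or.inr ⟨hc, (h.ev _ h.tri.1 h.fx.1).1, (h.ev _ h.tri.2.1 h.fx.2.1).1⟩) ?_ (by simp)
    intro v hv ho _ _
    have hne : π v ≠ v := fun e => (Nat.not_even_iff_odd.2 ho) (h.ev v hv e).1
    have hp : π v ∈ s.erase v := Finset.mem_erase.2 ⟨hne, h.mem v hv⟩
    have hvw : v ≠ G.w := by
      rintro rfl
      exact hne h.fx.2.2
    have hpw : π v ≠ G.w := by
      intro e
      apply hvw
      rw [← h.inv v hv, e, h.fx.2.2]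
    have hA : G.A (π v) v = false := by
      cases e : G.A (π v) v
      · rfl
      · exact absurd (h.col v hv) (hG.prop _ _ e hpw hvw)
    have ho2 : Odd (G.deg (s.erase v) (π v)) := by
      have h1 := pair_deg G s v hv (π v)
      rw [hA] at h1
      have h2 := (h.par v hv).2 ho
      rw [← h1] at h2
      simpa using h2
    have hE : G.ClE (s.erase v) := ((hl α G hG s false).1 v hv ho).2.1 hc
    have hO : G.ClO ((s.erase v).erase (π v)) :=
      ((hl α G hG (s.erase v) false).1 _ hp ho2).1.1 hE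
    refine (hl α G hG (s.erase v) false).2.1 _ hp (ih _ ?_ (pair_pd G hG π s h v hv hne) hO)
    exact lt_of_le_of_lt (Finset.erase_subset _ _) (Finset.erase_ssubset hv)

end Pool.Agent.Chomp.SC
end

-- merged part: Pool.Agent.Work.MP_ff0f6a_lc.SC.PairO
section
namespace Pool.Agent.Chomp.SC

open Finset Function

section

variable {α : Type} [DecidableEq α]

lemma pairO_deg (G : Apex α) {s : Finset α} {x : α} (hx : x ∈ s) (u : α) :
    G.deg (s.erase x) u + (if G.A u x = true then 1 else 0) = G.deg s u := by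
  unfold Apex.deg
  rw [filter_erase]
  split_ifs with h
  · exact card_erase_add_one (mem_filter.2 ⟨hx, h⟩)
  · have : x ∉ s.filter fun v => G.A u v = true := fun h' => h (mem_filter.1 h').2
    rw [erase_eq_of_notMem this, add_zero]

lemma pairO_sum (hx : S_cx) (G : Apex α) (hG : G.Ok) (β : Bool) (t : Finset α) (ht : G.w ∉ t) :
    nE (G.cx t false) = ∑ u ∈ t, if G.col u = β then G.deg t u else 0 := by
  induction t using Finset.induction_on with
  | empty => simp [nE, Apex.cx]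
  | insert x t hxt ih =>
    have hw : x ≠ G.w := fun e => ht (e ▸ mem_insert_self x t)
    have ht' : G.w ∉ t := fun h => ht (mem_insert_of_mem h)
    have hu : ∀ u ∈ t, u ≠ G.w := fun u h e => ht' (e ▸ h)
    have h1 := (hx α G hG (insert x t) false).2.2.2.2.2.1 x (mem_insert_self x t)
    have h2 := fun u => pairO_deg G (mem_insert_self x t) u
    rw [erase_insert hxt] at h1 h2
    have h3 : ∑ u ∈ t, (if G.col u = β then G.deg (insert x t) u else 0) =
        ∑ u ∈ t, (if G.col u = β then G.deg t u else 0) +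
          ∑ u ∈ t, (if G.col u = β ∧ G.A u x = true then 1 else 0) := by
      rw [← sum_add_distrib]
      refine sum_congr rfl fun u _ => ?_
      rw [← h2 u]
      by_cases a : G.col u = β <;> simp [a]
    rw [← h1, ih ht', sum_insert hxt, h3]
    by_cases a : G.col x = β
    · have h4 : ∑ u ∈ t, (if G.col u = β ∧ G.A u x = true then 1 else 0) = 0 :=
        sum_eq_zero fun u h => if_neg fun b => hG.prop u x b.2 (hu u h) hw (b.1.trans a.symm)
      rw [if_pos a, h4]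
      omega
    · have h4 : ∑ u ∈ t, (if G.col u = β ∧ G.A u x = true then 1 else 0) = G.deg t x := by
        rw [Apex.deg, card_filter]
        refine sum_congr rfl fun u h => if_congr ?_ rfl rfl
        rw [hG.symm x u]
        refine and_iff_right_of_imp fun b => ?_
        have := hG.prop u x b (hu u h) hw
        revert a this
        cases G.col u <;> cases G.col x <;> cases β <;> simp
      have h5 := h2 x
      rw [if_neg fun b => hG.prop x x b hw hw rfl] at h5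
      rw [if_neg a, h4]
      omega

end

theorem p_pairO (hx : S_cx) : S_pairO := by
  intro α _ G hG π s hP
  obtain ⟨hc, hz, hw⟩ := hP.tri
  have hcz : G.col G.c ≠ G.col G.z := hG.prop _ _ hG.cz hG.cw hG.zw
  have h1 := (hx α G hG s false).2.2.2.2.2.1 G.w hw
  have h2 : G.deg s G.w = 2 := by
    have : (s.filter fun u => G.A G.w u = true) = {G.c, G.z} := by
      ext u
      rw [mem_filter, hG.apex, mem_insert, mem_singleton]
      refine and_iff_right_of_imp ?_
      rintro (rfl | rfl) <;> assumption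
    rw [Apex.deg, this, card_pair fun e => hcz (by rw [e])]
  have h3 := pairO_sum hx G hG (G.col G.c) (s.erase G.w) (notMem_erase _ _)
  have h4 : ∑ u ∈ s.erase G.w, (if G.col u = G.col G.c then G.deg s u else 0) =
      ∑ u ∈ s.erase G.w, (if G.col u = G.col G.c then G.deg (s.erase G.w) u else 0) +
        ∑ u ∈ s.erase G.w, (if u = G.c then 1 else 0) := by
    rw [← sum_add_distrib]
    refine sum_congr rfl fun u _ => ?_
    rw [← pairO_deg G hw u, hG.symm u]
    simp only [hG.apex]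
    by_cases a : u = G.c
    · simp [a]
    · by_cases b : u = G.z
      · have : G.col u ≠ G.col G.c := by rw [b]; exact hcz.symm
        simp [a, this]
      · simp [a, b]
  rw [sum_ite_eq', if_pos (mem_erase.2 ⟨hG.cw, hc⟩)] at h4
  have h5 : ((∑ u ∈ s.erase G.w, (if G.col u = G.col G.c then G.deg s u else 0) : ℕ) :
      ZMod 2) = 0 := by
    rw [Nat.cast_sum]
    refine sum_involution (fun u _ => π u) (fun u h => ?_) (fun u h a b => a ?_)
      (fun u h => ?_) fun u h => hP.inv u (mem_of_mem_erase h)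
    · have hu := mem_of_mem_erase h
      rw [hP.col u hu, ← Nat.cast_add, ZMod.natCast_eq_zero_iff_even]
      split_ifs
      · have := hP.par u hu
        rw [Nat.odd_iff, Nat.odd_iff] at this
        rw [Nat.even_iff]
        omega
      · exact ⟨0, rfl⟩
    · rw [ZMod.natCast_eq_zero_iff_even]
      split_ifs
      · exact (hP.ev u (mem_of_mem_erase h) b).1
      · exact ⟨0, rfl⟩
    · obtain ⟨a, hu⟩ := mem_erase.1 h
      refine mem_erase.2 ⟨fun e => a ?_, hP.mem u hu⟩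
      rw [← hP.inv u hu, e, hP.fx.2.2]
  rw [ZMod.natCast_eq_zero_iff_even, Nat.even_iff] at h5
  rw [Nat.odd_iff]
  omega

end Pool.Agent.Chomp.SC
end

-- merged part: Pool.Agent.Work.MP_ff0f6a_lc.SC.Step
section
/-!
The attacker keeps the state unbalanced.
-/

namespace Pool.Agent.Chomp.SC

lemma step_bd {h : ℕ → ℕ → ℕ} (hb : ∀ κ e, h κ e ≤ tau κ e + 1) (κ e : ℕ) :
    ∀ κ' e', Mach.low h κ e κ' e' ≤ tau κ' e' + 1 := by
  intro κ' e'
  unfold Mach.low
  split_ifs with q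
  · obtain ⟨rfl, rfl⟩ := q
    have := hb κ' e'
    omega
  · exact hb _ _

lemma step_lo (hf : S_fr) (P : Mach) {h : ℕ → ℕ → ℕ} (hb : ∀ κ e, h κ e ≤ tau κ e + 1)
    {κ e : ℕ} (hκ : κ < P.K) (he : e < 2) (h1 : 1 ≤ h κ e) (h2 : h κ e ≤ tau κ e) (σ : Bool)
    (r : ℕ) : Even (P.fr (Mach.low h κ e) σ r) ↔
      (Even (P.fr h σ r) ↔ ¬ (σ = P.side κ ∧ (r + 1 = h κ e ∨ r = h κ e))) := by
  have h3 : r = h κ e - 1 ↔ r + 1 = h κ e := by omega
  rw [(hf P h hb).2.2 κ hκ e he h1 σ r, Nat.mod_eq_of_lt (by omega), h3]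

lemma step_hi (hf : S_fr) (P : Mach) {h : ℕ → ℕ → ℕ} (hb : ∀ κ e, h κ e ≤ tau κ e + 1)
    {κ e : ℕ} (hκ : κ < P.K) (he : e < 2) (h2 : h κ e = tau κ e + 1) (σ : Bool)
    (r : ℕ) : Even (P.fr (Mach.low h κ e) σ r) ↔
      (Even (P.fr h σ r) ↔ ¬ (σ = P.side κ ∧ (r = tau κ e ∨ r = 0))) := by
  rw [(hf P h hb).2.2 κ hκ e he (by omega) σ r, h2, Nat.mod_self, Nat.add_sub_cancel]

/-- a move that balances the fronts determines the odd levels -/
lemma step_bal (hf : S_fr) (P : Mach) {s : Finset (ℕ × ℕ)} {h : ℕ → ℕ → ℕ}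
    (hb : ∀ κ e, h κ e ≤ tau κ e + 1) {κ e : ℕ} (hF : P.Fr s h κ e)
    (hB : P.Bal s (Mach.low h κ e)) :
    (∃ t, 1 ≤ t ∧ ∀ σ r, Even (P.fr h σ r) ↔ ¬ (σ = P.side κ ∧ (r + 1 = t ∨ r = t))) ∨
      (h κ e = tau κ e + 1 ∧
        ∀ σ r, Even (P.fr h σ r) ↔ ¬ (σ = P.side κ ∧ (r = tau κ e ∨ r = 0))) := by
  obtain ⟨hκ, he, h1, -⟩ := hF
  by_cases h2 : h κ e ≤ tau κ e
  · exact Or.inl ⟨h κ e, h1, fun σ r => (step_lo hf P hb hκ he h1 h2 σ r).1 (hB.2 σ r)⟩
  · have h3 : h κ e = tau κ e + 1 := le_antisymm (hb κ e) (by omega)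
    exact Or.inr ⟨h3, fun σ r => (step_hi hf P hb hκ he h3 σ r).1 (hB.2 σ r)⟩

lemma step_tau (κ e : ℕ) : 4 ≤ tau κ e := by
  unfold tau
  omega

theorem p_step (hf : S_fr) : S_step := by
  classical
  intro P s h hb hB h0
  by_cases hA : ∃ σ r, ¬ Even (P.fr h σ r)
  · obtain ⟨σ, hσ⟩ := hA
    obtain ⟨r, hr, hmin⟩ : ∃ r, ¬ Even (P.fr h σ r) ∧ ∀ r' < r, Even (P.fr h σ r') :=
      ⟨Nat.find hσ, Nat.find_spec hσ, fun r' q => not_not.1 (Nat.find_min hσ q)⟩
    have hr1 : 1 ≤ r := by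
      rcases r with _ | r
      · exact absurd (h0 σ) hr
      · omega
    obtain ⟨κ, hκ, e, he, hs, hh, ht⟩ := (hf P h hb).2.1 σ r hr1 (Nat.not_even_iff_odd.1 hr)
    have tg := step_lo hf P hb hκ he (hh ▸ hr1) (hh ▸ ht)
    rw [hh, hs] at tg
    have o1 : ¬ Even (P.fr (Mach.low h κ e) σ (r - 1)) := fun q =>
      (((tg σ (r - 1)).1 q).1 (hmin _ (by omega))) ⟨rfl, Or.inl (by omega)⟩
    have o2 : Even (P.fr (Mach.low h κ e) σ r) :=
      (tg σ r).2 ⟨fun q => absurd q hr, fun q => absurd ⟨rfl, Or.inr rfl⟩ q⟩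
    by_cases hG : ∀ κ' e', P.Fr s (Mach.low h κ e) κ' e' →
        ¬ P.Bal s (Mach.low (Mach.low h κ e) κ' e')
    · exact ⟨κ, e, ⟨hκ, he, hh ▸ hr1, Or.inl (hh ▸ ht)⟩, fun s' q => o1 (q.2 _ _), hG⟩
    simp only [not_forall, not_not] at hG
    obtain ⟨κ', e', hF', hB'⟩ := hG
    rcases step_bal hf P (step_bd hb κ e) hF' hB' with ⟨t, t1, ht'⟩ | ⟨-, ht'⟩
    · exfalso
      obtain ⟨a1, a2⟩ := not_not.1 fun q => o1 ((ht' σ (r - 1)).2 q)
      have a3 := (ht' σ r).1 o2
      have a4 : r - 1 = t := by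
        rcases a2 with a2 | a2
        · exact absurd ⟨a1, Or.inr (by omega)⟩ a3
        · exact a2
      have a5 : Even (P.fr (Mach.low h κ e) σ (t - 1)) :=
        (tg σ (t - 1)).2 ⟨fun _ q => by omega, fun _ => hmin _ (by omega)⟩
      exact (ht' σ (t - 1)).1 a5 ⟨a1, Or.inl (by omega)⟩
    · obtain ⟨a1, -⟩ := not_not.1 fun q => o1 ((ht' σ (r - 1)).2 q)
      rw [← a1] at ht'
      have t4 := step_tau κ' e'
      generalize tau κ' e' = T at ht' t4
      have a2 : r = 1 := by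
        by_contra q
        exact (ht' σ 0).1 ((tg σ 0).2 ⟨fun _ q => by omega, fun _ => h0 σ⟩) ⟨rfl, Or.inr rfl⟩
      subst a2
      have a3 : ¬ Even (P.fr h σ T) := fun q =>
        (ht' σ T).1 ((tg σ T).2 ⟨fun _ q => by omega, fun _ => q⟩) ⟨rfl, Or.inl rfl⟩
      have a4 : Even (P.fr h σ (T - 1)) :=
        ((tg σ (T - 1)).1 ((ht' σ (T - 1)).2 fun q => by omega)).2 fun q => by omega
      obtain ⟨κ₂, hκ₂, e₂, he₂, hs₂, hh₂, ht₂⟩ :=
        (hf P h hb).2.1 σ T (by omega) (Nat.not_even_iff_odd.1 a3)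
      have tg₂ := step_lo hf P hb hκ₂ he₂ (by omega) (hh₂ ▸ ht₂)
      rw [hh₂, hs₂] at tg₂
      have b0 : Even (P.fr (Mach.low h κ₂ e₂) σ 0) :=
        (tg₂ σ 0).2 ⟨fun _ q => by omega, fun _ => h0 σ⟩
      have b1 : ¬ Even (P.fr (Mach.low h κ₂ e₂) σ 1) := fun q =>
        hr (((tg₂ σ 1).1 q).2 fun q => by omega)
      have b2 : ¬ Even (P.fr (Mach.low h κ₂ e₂) σ (T - 1)) := fun q =>
        ((tg₂ σ (T - 1)).1 q).1 a4 ⟨rfl, Or.inl (by omega)⟩
      refine ⟨κ₂, e₂, ⟨hκ₂, he₂, by omega, Or.inl (hh₂ ▸ ht₂)⟩, fun s' q => b1 (q.2 _ _), ?_⟩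
      intro κ₃ e₃ hF₃ hB₃
      rcases step_bal hf P (step_bd hb κ₂ e₂) hF₃ hB₃ with ⟨t, -, ht₃⟩ | ⟨-, ht₃⟩
      · obtain ⟨-, c1⟩ := not_not.1 fun q => b1 ((ht₃ σ 1).2 q)
        obtain ⟨-, c2⟩ := not_not.1 fun q => b2 ((ht₃ σ (T - 1)).2 q)
        omega
      · obtain ⟨c1, -⟩ := not_not.1 fun q => b1 ((ht₃ σ 1).2 q)
        exact (ht₃ σ 0).1 b0 ⟨c1, Or.inr rfl⟩
  · simp only [not_exists, not_not] at hA
    obtain ⟨κ, hκ, e, he, hh, hl⟩ : ∃ κ < P.K, ∃ e < 2, h κ e = tau κ e + 1 ∧ P.lab s κ e := by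
      by_contra q
      exact hB ⟨fun κ hκ e he hh hl => q ⟨κ, hκ, e, he, hh, hl⟩, hA⟩
    have tg := step_hi hf P hb hκ he hh
    have b0 : ¬ Even (P.fr (Mach.low h κ e) (P.side κ) 0) := fun q =>
      ((tg _ _).1 q).1 (hA _ _) ⟨rfl, Or.inr rfl⟩
    have b1 : ¬ Even (P.fr (Mach.low h κ e) (P.side κ) (tau κ e)) := fun q =>
      ((tg _ _).1 q).1 (hA _ _) ⟨rfl, Or.inl rfl⟩
    have t4 := step_tau κ e
    refine ⟨κ, e, ⟨hκ, he, by omega, Or.inr hl⟩, fun s' q => b0 (q.2 _ _), ?_⟩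
    intro κ' e' hF' hB'
    rcases step_bal hf P (step_bd hb κ e) hF' hB' with ⟨t, -, ht'⟩ | ⟨c0, ht'⟩
    · obtain ⟨-, c1⟩ := not_not.1 fun q => b0 ((ht' _ _).2 q)
      obtain ⟨-, c2⟩ := not_not.1 fun q => b1 ((ht' _ _).2 q)
      omega
    · obtain ⟨-, c2⟩ := not_not.1 fun q => b1 ((ht' _ _).2 q)
      have he' := hF'.2.1
      have c3 : κ' = κ ∧ e' = e := by
        unfold tau at c2 t4
        omega
      unfold Mach.low at c0
      rw [if_pos c3, c3.1, c3.2] at c0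
      omega

end Pool.Agent.Chomp.SC
end

-- merged part: Pool.Agent.Work.MP_ff0f6a_lc.GR.Deg
section
namespace Pool.Agent.Chomp.GR

open Finset Function Pool.Agent.Chomp.SC

lemma grDeg_img (T : Finset (ℕ × ℕ)) (a b c : ℕ) :
    (a, b, c) ∈ T.image (fun u : ℕ × ℕ => (u.1, u.2, 0)) ↔ c = 0 ∧ (a, b) ∈ T := by
  simp only [mem_image, Prod.mk.injEq]
  constructor
  · rintro ⟨u, hu, rfl, rfl, rfl⟩
    exact ⟨rfl, hu⟩
  · rintro ⟨rfl, h⟩
    exact ⟨(a, b), h, rfl, rfl, rfl⟩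

lemma grDeg_img_card (T : Finset (ℕ × ℕ)) :
    (T.image (fun u : ℕ × ℕ => (u.1, u.2, 0))).card = T.card :=
  card_image_of_injective _ fun u v h => by
    simp only [Prod.mk.injEq] at h
    exact Prod.ext h.1 h.2.1

lemma grDeg_A_mach {P : Mg} (hP : P.toMach.Ok) {κ b : ℕ} (hb : κ ≠ 0) (a e c : ℕ) :
    P.G2.A (κ, b, 0) (a, e, c) = true ↔ (c = 0 ∧ a ≠ 0 ∧ P.adj (κ, b) (a, e) = true) ∨
      (P.lb κ = true ∧ a = κ ∧ c = tau κ e + 1 ∧ (e = 0 ∨ P.fix κ = true)) := by
  simp only [Mg.G2, Mg.arc2, Bool.or_eq_true, decide_eq_true_eq]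
  rw [hP.symm (a, e) (κ, b)]
  constructor
  · rintro ((h | h | h | h | h) | (h | h | h | h | h))
    · exact Or.inl ⟨h.2.1, h.2.2.2.1, h.2.2.2.2⟩
    · obtain ⟨-, -, h0, rfl, h1, h2⟩ := h
      exact Or.inr ⟨h0, rfl, h1, h2⟩
    · omega
    · omega
    · omega
    · exact Or.inl ⟨h.1, h.2.2.1, h.2.2.2.2⟩
    · omega
    · omega
    · omega
    · omega
  · rintro (h | ⟨h0, rfl, h1, h2⟩)
    · exact Or.inl (Or.inl ⟨trivial, h.1, hb, h.2.1, h.2.2⟩)
    · exact Or.inl (Or.inr (Or.inl ⟨trivial, hb, h0, rfl, h1, h2⟩))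

lemma grDeg_A_cyc (P : Mg) {κ e r : ℕ} (hr : 1 ≤ r) (a b c : ℕ) :
    P.G2.A (κ, e, r) (a, b, c) = true ↔ (a = κ ∧ b = e ∧ c = r + 1) ∨
      (a = κ ∧ b = e ∧ 1 ≤ c ∧ c + 1 = r) ∨
      ((r = 1 ∨ r = tau κ e + 1) ∧ a = 0 ∧ b = 4 + (P.side κ).toNat ∧ c = 0) ∨
      (r = tau κ e + 1 ∧ (e = 0 ∨ P.fix κ = true) ∧ c = 0 ∧ (a ≠ 0 ∧ P.lb a = true) ∧ a = κ) := by
  simp only [Mg.G2, Mg.arc2, Bool.or_eq_true, decide_eq_true_eq]
  constructor
  · rintro ((h | h | h | h | h) | (h | h | h | h | h))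
    · omega
    · omega
    · exact Or.inl ⟨h.2.1, h.2.2.1, h.2.2.2⟩
    · omega
    · omega
    · omega
    · obtain ⟨h1, h2, h0, rfl, h3, h4⟩ := h
      exact Or.inr (Or.inr (Or.inr ⟨h3, h4, h1, ⟨h2, h0⟩, rfl⟩))
    · exact Or.inr (Or.inl ⟨h.2.1.symm, h.2.2.1.symm, h.1, h.2.2.2.symm⟩)
    · exact Or.inr (Or.inr (Or.inl ⟨h.2.2.2, h.1, h.2.1, h.2.2.1⟩))
    · omega
  · rintro (h | h | h | ⟨h1, h2, h3, h4, rfl⟩)
    · exact Or.inl (Or.inr (Or.inr (Or.inl ⟨hr, h.1, h.2.1, h.2.2⟩)))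
    · exact Or.inr (Or.inr (Or.inr (Or.inl ⟨h.2.2.1, h.1.symm, h.2.1.symm, h.2.2.2.symm⟩)))
    · exact Or.inr (Or.inr (Or.inr (Or.inr (Or.inl ⟨h.2.1, h.2.2.1, h.2.2.2, h.1⟩))))
    · exact Or.inr (Or.inr (Or.inl ⟨h3, h4.1, h4.2, rfl, h1, h2⟩))

lemma grDeg_A_w (P : Mg) (a b c : ℕ) :
    P.G2.A (0, 6, 0) (a, b, c) = true ↔ a = 0 ∧ (b = 4 ∨ b = 5) ∧ c = 0 := by
  simp only [Mg.G2, Mg.arc2, Bool.or_eq_true, decide_eq_true_eq]
  have := Bool.toNat_le (P.side a)
  constructor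
  · rintro ((h | h | h | h | h) | (h | h | h | h | h)) <;> omega
  · intro h
    refine Or.inr (Or.inr (Or.inr (Or.inr (Or.inr ?_))))
    simp only [true_and]
    omega

lemma grDeg_mach (hv : T_vs) {P : Mg} (hP : P.toMach.Ok) {s : Finset (ℕ × ℕ)} (hs : P.In2 s)
    {κ b : ℕ} (hu : (κ, b) ∈ s) : P.G2.deg (P.vs s full) (κ, b, 0) =
      (s.filter fun v => P.adj (κ, b) v = true).card +
        if P.lb κ = true then 1 + (P.fix κ).toNat else 0 := by
  have hm := (hv P hP s full hs fun _ _ => le_rfl).2.1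
  have hκ : κ < P.K := (hs _ hu).2
  have hb : κ ≠ 0 := (hs _ hu).1.ne'
  have key : ∀ a e c : ℕ, (a, e, c) ∈ (P.vs s full).filter (fun u => P.G2.A (κ, b, 0) u = true) ↔
      (P.lb κ = true ∧ a = κ ∧ e = 0 ∧ c = tau κ 0 + 1) ∨
        (P.lb κ = true ∧ P.fix κ = true ∧ a = κ ∧ e = 1 ∧ c = tau κ 1 + 1) ∨
        (c = 0 ∧ (a, e) ∈ s.filter fun v => P.adj (κ, b) v = true) := by
    intro a e c
    rw [mem_filter, mem_filter, hm, grDeg_A_mach hP hb]
    dsimp only
    constructor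
    · rintro ⟨h1, h2 | ⟨h0, rfl, h2, h3⟩⟩
      · rcases h1 with h1 | h1 | h1
        · exact Or.inr (Or.inr ⟨h1.1, h1.2, h2.2.2⟩)
        · omega
        · omega
      · have he : e = 0 ∨ e = 1 := by omega
        rcases he with rfl | rfl
        · exact Or.inl ⟨h0, rfl, rfl, h2⟩
        · exact Or.inr (Or.inl ⟨h0, h3.resolve_left (by omega), rfl, rfl, h2⟩)
    · rintro (⟨h0, rfl, rfl, rfl⟩ | ⟨h0, h, rfl, rfl, rfl⟩ | ⟨rfl, h1, h2⟩)
      · exact ⟨Or.inr (Or.inl ⟨hκ, by omega, by omega, le_rfl⟩), Or.inr ⟨h0, rfl, rfl, Or.inl rfl⟩⟩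
      · exact ⟨Or.inr (Or.inl ⟨hκ, by omega, by omega, le_rfl⟩), Or.inr ⟨h0, rfl, rfl, Or.inr h⟩⟩
      · exact ⟨Or.inl ⟨rfl, h1⟩, Or.inl ⟨rfl, (hs _ h1).1.ne', h2⟩⟩
  unfold Apex.deg
  cases hl : P.lb κ
  · have e1 : (P.vs s full).filter (fun u => P.G2.A (κ, b, 0) u = true) =
        (s.filter fun v => P.adj (κ, b) v = true).image fun u : ℕ × ℕ => (u.1, u.2, 0) := by
      ext ⟨a, e, c⟩
      rw [key, grDeg_img, hl]
      simp only [Bool.false_eq_true, false_and, false_or]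
    rw [e1, grDeg_img_card]
    rfl
  cases hf : P.fix κ
  · have e1 : (P.vs s full).filter (fun u => P.G2.A (κ, b, 0) u = true) =
        insert (κ, 0, tau κ 0 + 1) ((s.filter fun v => P.adj (κ, b) v = true).image
          fun u : ℕ × ℕ => (u.1, u.2, 0)) := by
      ext ⟨a, e, c⟩
      rw [key, mem_insert, grDeg_img, hf, hl]
      simp only [Prod.mk.injEq, Bool.false_eq_true, false_and, false_or, true_and]
    rw [e1, card_insert_of_notMem (by rw [grDeg_img]; omega), grDeg_img_card]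
    rfl
  · have e1 : (P.vs s full).filter (fun u => P.G2.A (κ, b, 0) u = true) =
        insert (κ, 0, tau κ 0 + 1) (insert (κ, 1, tau κ 1 + 1)
          ((s.filter fun v => P.adj (κ, b) v = true).image fun u : ℕ × ℕ => (u.1, u.2, 0))) := by
      ext ⟨a, e, c⟩
      rw [key, mem_insert, mem_insert, grDeg_img, hf, hl]
      simp only [Prod.mk.injEq, true_and]
    rw [e1, card_insert_of_notMem
        (by rw [mem_insert, grDeg_img, Prod.mk.injEq, Prod.mk.injEq]; omega),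
      card_insert_of_notMem (by rw [grDeg_img]; omega), grDeg_img_card]
    rfl

lemma grDeg_cyc (hv : T_vs) {P : Mg} (hP : P.toMach.Ok) {s : Finset (ℕ × ℕ)} {h : ℕ → ℕ → ℕ}
    (hs : P.In2 s) (hh : ∀ κ e, h κ e ≤ tau κ e + 1) {κ e r : ℕ} (hκ : κ < P.K) (he : e < 2)
    (hr : 1 ≤ r) (hrh : r ≤ h κ e) :
    Odd (P.G2.deg (P.vs s h) (κ, e, r)) ↔ r = h κ e ∧ P.Fr (P.lp s) h κ e := by
  have hm := (hv P hP s h hs hh).2.1
  have ht := Bool.toNat_le (P.side κ)
  have hτ : 4 ≤ tau κ e := by unfold tau; omega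
  have hh' := hh κ e
  have key : ∀ a b c : ℕ, (a, b, c) ∈ (P.vs s h).filter (fun u => P.G2.A (κ, e, r) u = true) ↔
      (r + 1 ≤ h κ e ∧ a = κ ∧ b = e ∧ c = r + 1) ∨ (2 ≤ r ∧ a = κ ∧ b = e ∧ c = r - 1) ∨
      ((r = 1 ∨ r = tau κ e + 1) ∧ a = 0 ∧ b = 4 + (P.side κ).toNat ∧ c = 0) ∨
      (r = tau κ e + 1 ∧ (e = 0 ∨ P.fix κ = true) ∧ c = 0 ∧
        (a, b) ∈ (P.lp s).filter fun u => u.1 = κ) := by
    intro a b c
    rw [mem_filter, mem_filter, hm, grDeg_A_cyc P hr]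
    dsimp only
    constructor
    · rintro ⟨h1, ⟨rfl, rfl, rfl⟩ | h2 | h2 | h2⟩
      · exact Or.inl ⟨by omega, rfl, rfl, rfl⟩
      · exact Or.inr (Or.inl ⟨by omega, h2.1, h2.2.1, by omega⟩)
      · exact Or.inr (Or.inr (Or.inl h2))
      · rcases h1 with h1 | h1 | h1
        · exact Or.inr (Or.inr (Or.inr ⟨h2.1, h2.2.1, h2.2.2.1,
            mem_filter.2 ⟨h1.2, h2.2.2.2.1.2⟩, h2.2.2.2.2⟩))
        · omega
        · omega
    · rintro (⟨h1, rfl, rfl, rfl⟩ | ⟨h1, rfl, rfl, rfl⟩ | ⟨h1, rfl, rfl, rfl⟩ | ⟨h1, h2, rfl, h3, rfl⟩)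
      · exact ⟨Or.inr (Or.inl ⟨hκ, he, by omega, h1⟩), Or.inl ⟨rfl, rfl, rfl⟩⟩
      · exact ⟨Or.inr (Or.inl ⟨hκ, he, by omega, by omega⟩),
          Or.inr (Or.inl ⟨rfl, rfl, by omega, by omega⟩)⟩
      · exact ⟨Or.inr (Or.inr ⟨rfl, rfl, by omega, by omega⟩),
          Or.inr (Or.inr (Or.inl ⟨h1, rfl, rfl, rfl⟩))⟩
      · exact ⟨Or.inl ⟨rfl, (mem_filter.1 h3).1⟩, Or.inr (Or.inr (Or.inr ⟨h1, h2, rfl,
          ⟨(hs _ (mem_filter.1 h3).1).1.ne', (mem_filter.1 h3).2⟩, rfl⟩))⟩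
  unfold Apex.deg Mach.Fr Mach.lab
  by_cases c1 : r = tau κ e + 1
  · by_cases c2 : e = 0 ∨ P.fix κ = true
    · have e1 : (P.vs s h).filter (fun u => P.G2.A (κ, e, r) u = true) =
          insert (κ, e, r - 1) (insert (0, 4 + (P.side κ).toNat, 0)
            (((P.lp s).filter fun u => u.1 = κ).image fun u : ℕ × ℕ => (u.1, u.2, 0))) := by
        ext ⟨a, b, c⟩
        rw [key, mem_insert, mem_insert, grDeg_img, Prod.mk.injEq, Prod.mk.injEq, Prod.mk.injEq,
          Prod.mk.injEq]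
        constructor
        · rintro (h1 | h1 | h1 | h1)
          · omega
          · exact Or.inl h1.2
          · exact Or.inr (Or.inl h1.2)
          · exact Or.inr (Or.inr h1.2.2)
        · rintro (h1 | h1 | h1)
          · exact Or.inr (Or.inl ⟨by omega, h1⟩)
          · exact Or.inr (Or.inr (Or.inl ⟨Or.inr c1, h1⟩))
          · exact Or.inr (Or.inr (Or.inr ⟨c1, c2, h1⟩))
      have n1 : (0, 4 + (P.side κ).toNat, 0) ∉
          ((P.lp s).filter fun u => u.1 = κ).image fun u : ℕ × ℕ => (u.1, u.2, 0) := by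
        rw [grDeg_img]
        rintro ⟨-, h1⟩
        have := (hs _ (mem_filter.1 (mem_filter.1 h1).1).1).1
        dsimp only at this
        omega
      rw [e1, card_insert_of_notMem
          (by rw [mem_insert, grDeg_img, Prod.mk.injEq, Prod.mk.injEq]; omega),
        card_insert_of_notMem n1, grDeg_img_card]
      have e2 : Odd (((P.lp s).filter fun u => u.1 = κ).card + 1 + 1) ↔ Odd (cnt (P.lp s) κ) := by
        unfold cnt
        rw [Nat.odd_iff, Nat.odd_iff]
        omega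
      rw [e2]
      constructor
      · intro h1
        exact ⟨by omega, hκ, he, by omega, Or.inr ⟨c2, h1⟩⟩
      · rintro ⟨h1, -, -, -, h2 | h2⟩
        · omega
        · exact h2.2
    · have e1 : (P.vs s h).filter (fun u => P.G2.A (κ, e, r) u = true) =
          {(κ, e, r - 1), (0, 4 + (P.side κ).toNat, 0)} := by
        ext ⟨a, b, c⟩
        rw [key, mem_insert, mem_singleton, Prod.mk.injEq, Prod.mk.injEq, Prod.mk.injEq,
          Prod.mk.injEq]
        constructor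
        · rintro (h1 | h1 | h1 | h1)
          · omega
          · exact Or.inl h1.2
          · exact Or.inr h1.2
          · exact absurd h1.2.1 c2
        · rintro (h1 | h1)
          · exact Or.inr (Or.inl ⟨by omega, h1⟩)
          · exact Or.inr (Or.inr (Or.inl ⟨Or.inr c1, h1⟩))
      rw [e1, card_pair (by rw [Ne, Prod.mk.injEq, Prod.mk.injEq]; omega)]
      constructor
      · intro h1
        exact absurd h1 (by decide)
      · rintro ⟨h1, -, -, -, h2 | h2⟩
        · omega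
        · exact absurd h2.1 c2
  · obtain ⟨x, hx1, hx⟩ : ∃ x : ℕ × ℕ × ℕ, x.2.2 < r ∧ ∀ a b c : ℕ,
        (a, b, c) ∈ (P.vs s h).filter (fun u => P.G2.A (κ, e, r) u = true) ↔
          (r + 1 ≤ h κ e ∧ a = κ ∧ b = e ∧ c = r + 1) ∨ (a, b, c) = x := by
      by_cases c2 : r = 1
      · refine ⟨(0, 4 + (P.side κ).toNat, 0), hr, fun a b c => ?_⟩
        rw [key, Prod.mk.injEq, Prod.mk.injEq]
        constructor
        · rintro (h1 | h1 | h1 | h1)
          · exact Or.inl h1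
          · omega
          · exact Or.inr h1.2
          · omega
        · rintro (h1 | h1)
          · exact Or.inl h1
          · exact Or.inr (Or.inr (Or.inl ⟨Or.inl c2, h1⟩))
      · refine ⟨(κ, e, r - 1), Nat.sub_lt hr one_pos, fun a b c => ?_⟩
        rw [key, Prod.mk.injEq, Prod.mk.injEq]
        constructor
        · rintro (h1 | h1 | h1 | h1)
          · exact Or.inl h1
          · exact Or.inr h1.2
          · omega
          · omega
        · rintro (h1 | h1)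
          · exact Or.inl h1
          · exact Or.inr (Or.inl ⟨by omega, h1⟩)
    by_cases c3 : r = h κ e
    · have e1 : (P.vs s h).filter (fun u => P.G2.A (κ, e, r) u = true) = {x} := by
        ext ⟨a, b, c⟩
        rw [hx, mem_singleton]
        exact ⟨fun h1 => h1.resolve_left (by omega), Or.inr⟩
      rw [e1, card_singleton]
      exact ⟨fun _ => ⟨c3, hκ, he, by omega, Or.inl (by omega)⟩, fun _ => odd_one⟩
    · have e1 : (P.vs s h).filter (fun u => P.G2.A (κ, e, r) u = true) = {(κ, e, r + 1), x} := by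
        ext ⟨a, b, c⟩
        rw [hx, mem_insert, mem_singleton, Prod.mk.injEq a (b, c) κ, Prod.mk.injEq b c e]
        exact ⟨fun h1 => h1.imp_left fun h2 => h2.2, fun h1 => h1.imp_left fun h2 => ⟨by omega, h2⟩⟩
      have n1 : (κ, e, r + 1) ≠ x := by
        rintro rfl
        dsimp only at hx1
        omega
      rw [e1, card_pair n1]
      exact ⟨fun h1 => absurd h1 (by decide), fun h1 => absurd h1.1 c3⟩

lemma grDeg_w (hv : T_vs) {P : Mg} (hP : P.toMach.Ok) {s : Finset (ℕ × ℕ)} {h : ℕ → ℕ → ℕ}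
    (hs : P.In2 s) (hh : ∀ κ e, h κ e ≤ tau κ e + 1) : P.G2.deg (P.vs s h) (0, 6, 0) = 2 := by
  have hm := (hv P hP s h hs hh).2.1
  have e1 : (P.vs s h).filter (fun u => P.G2.A (0, 6, 0) u = true) = {(0, 4, 0), (0, 5, 0)} := by
    ext ⟨a, b, c⟩
    rw [mem_filter, hm, grDeg_A_w, mem_insert, mem_singleton, Prod.mk.injEq, Prod.mk.injEq,
      Prod.mk.injEq, Prod.mk.injEq]
    dsimp only
    constructor
    · rintro ⟨-, h1⟩
      omega
    · intro h1
      exact ⟨Or.inr (Or.inr (by omega)), by omega⟩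
  unfold Apex.deg
  rw [e1]
  rfl

theorem t_deg (hv : T_vs) : T_deg := by
  intro P hP s h hs hh
  refine ⟨fun u hu => ?_, fun κ hκ e he r hr hrh => grDeg_cyc hv hP hs hh hκ he hr hrh, ?_⟩
  · rw [grDeg_mach hv hP hs (κ := u.1) (b := u.2) hu]
    rfl
  · show Even (P.G2.deg (P.vs s h) (0, 6, 0))
    rw [grDeg_w hv hP hs hh]
    exact even_two

end Pool.Agent.Chomp.GR
end

-- merged part: Pool.Agent.Work.MP_ff0f6a_lc.GR.Dev
section
/-!
Moves off the main line, the start and the end of the main line.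
-/

namespace Pool.Agent.Chomp.GR

open Finset Function Pool.Agent.Chomp.SC

theorem grDev_adj (F : Q3) (u v : ℕ × ℕ) :
    F.mach.adj u v = true ↔ F.arc u v = true ∨ F.arc v u = true := by
  show (F.arc u v || F.arc v u) = true ↔ _
  rw [Bool.or_eq_true]

theorem grDev_lb (F : Q3) (κ : ℕ) :
    F.mach.lb κ = true ↔ κ % 8 = 3 ∨ κ % 8 = 4 ∨ κ % 8 = 7 := by
  show decide _ = true ↔ _
  rw [decide_eq_true_eq]

theorem grDev_adjU {F : Q3} (hn : 0 < F.n) (x : ℕ × ℕ) (h : F.mach.adj (1, 1) x = true) :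
    x = (9, 1) := by
  obtain ⟨a, b⟩ := x
  rw [grDev_adj] at h
  simp only [Q3.arc, decide_eq_true_eq] at h
  rw [Prod.mk.injEq]
  omega

theorem grDev_adjV {F : Q3} (x : ℕ × ℕ) (h : F.mach.adj (9, 1) x = true) : x = (1, 1) := by
  obtain ⟨a, b⟩ := x
  rw [grDev_adj] at h
  simp only [Q3.arc, decide_eq_true_eq] at h
  rw [Prod.mk.injEq]
  omega

theorem grDev_adj6 {F : Q3} {e : ℕ × ℕ} (h6 : e.1 % 8 = 6) (x : ℕ × ℕ)
    (h : F.mach.adj e x = true) : e.1 = x.1 + 1 ∧ e.2 = x.2 / 2 := by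
  rw [grDev_adj] at h
  simp only [Q3.arc, decide_eq_true_eq] at h
  omega

theorem grDev_adj5 {F : Q3} {w : ℕ × ℕ} (h5 : w.1 % 8 = 5) (x : ℕ × ℕ) :
    F.mach.adj w x = true ↔
    (x.1 % 8 = 4 ∧ x.2 = w.2 / 2 * 2 ∧ (x.1 + 1 = w.1 ∨
      (x.1 + 9 = w.1 ∧ w.2 < 2 ∧ w.1 / 8 % 3 = 2 ∧ F.q (w.1 / 8 / 3) = true))) ∨
    (x.1 = w.1 + 1 ∧ x.2 = w.2 / 2) ∨
    (x.1 % 8 = 7 ∧ w.2 % 2 = 0 ∧
      ((w.1 / 8 = F.lc (x.1 / 8) 0 ∧ x.2 % 2 = 1) ∨ (w.1 / 8 = F.lc (x.1 / 8) 1 ∧ x.2 / 2 % 2 = 1) ∨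
      (w.1 / 8 = F.lc (x.1 / 8) 2 ∧ x.2 / 4 % 2 = 1))) := by
  rw [grDev_adj]
  simp only [Q3.arc, decide_eq_true_eq]
  constructor
  · rintro (h | h)
    · rcases h with h | h | h | h | h | h | h | h | h | h
      iterate 7 exact absurd h.1 (by omega)
      exacts [Or.inl h.2, Or.inr (Or.inl h.2), Or.inr (Or.inr h.2)]
    · exfalso
      rcases h with ⟨a, b, -⟩ | ⟨a, b, -⟩ | ⟨a, b, -⟩ | ⟨a, b, -⟩ | ⟨a, b, -⟩ | ⟨a, b, -⟩ |
        ⟨a, b, -⟩ | ⟨a, b, -⟩ | ⟨a, b, -⟩ | ⟨a, b, -⟩ <;> omega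
  · rintro (h | h | h)
    · exact Or.inl (by iterate 7 right
                       exact Or.inl ⟨h5, h⟩)
    · exact Or.inl (by iterate 8 right
                       exact Or.inl ⟨h5, h⟩)
    · exact Or.inl (by iterate 9 right
                       exact ⟨h5, h⟩)

theorem grDev_size1 (F : Q3) {κ : ℕ} (h : κ % 8 = 1 ∨ κ % 8 = 2) (h2 : κ / 8 ≤ 2 * F.n) :
    F.size κ = 2 := by
  unfold Q3.size
  rw [if_neg (by omega), if_neg (by omega), if_pos (Or.inl ⟨h, h2⟩)]

theorem grDev_size5 {F : Q3} {κ b : ℕ} (h : κ % 8 = 5) (h2 : b < F.size κ) :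
    b < 4 ∧ F.size (κ + 1) = 2 := by
  have h3 : κ / 8 / 3 < F.n ∧ κ / 8 % 3 ≠ 0 := by
    by_contra q
    unfold Q3.size at h2
    rw [if_neg (by omega), if_neg (by omega), if_neg (by omega)] at h2
    omega
  unfold Q3.size at h2 ⊢
  rw [if_neg (by omega), if_pos (Or.inr (Or.inr ⟨h, h3⟩))] at h2
  rw [if_neg (by omega), if_neg (by omega), if_pos (Or.inr (by omega))]
  exact ⟨h2, rfl⟩

theorem grDev_size4 {F : Q3} {κ b : ℕ} (h : κ % 8 = 4) (h2 : b < F.size κ) :
    b < 4 ∧ ¬ F.neg (κ / 8) := by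
  unfold Q3.size at h2
  rw [if_neg (by omega)] at h2
  split_ifs at h2 with c1 c2
  · refine ⟨h2, fun q => ?_⟩
    obtain ⟨q1, q2⟩ := q
    rcases c1 with c | ⟨-, -, c | c⟩ | c
    · omega
    · omega
    · rw [c.2] at q2
      exact absurd q2 (by decide)
    · omega
  · omega
  · omega

/-- the pairing after the kill -/
theorem grDev_pm (hk : T_mask) (k0 : T_kill 0) (k1 : T_kill 1) (k2 : T_kill 2) (k3 : T_kill 3)
    {F : Q3} (hF : F.Ok) {t : ℕ} {R : ℕ → Finset ℕ} (φ : ℕ → Bool) (hR : Q3.Wf R)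
    (ht : t ≤ 2 * F.n) {x : ℕ × ℕ} (hx : x = (1, 1) ∨ x = (9, 1)) :
    ∃ ω, F.mach.Pm (F.pk t ω) (F.Kl t R φ x) := by
  obtain ⟨ω, hω, -⟩ := hk.1 R hR (fun _ => 0) fun i => ⟨by simp, by norm_num⟩
  have a0 := fun v hv => (k0 F hF t R φ ω x hR hω ht hx v hv).1 rfl
  have a1 := fun v hv => (k1 F hF t R φ ω x hR hω ht hx v hv).2.1 rfl
  have a2 := fun v hv => (k2 F hF t R φ ω x hR hω ht hx v hv).2.2.1 rfl
  have a3 := fun v hv => (k3 F hF t R φ ω x hR hω ht hx v hv).2.2.2 rfl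
  exact ⟨ω, fun v hv => (a0 v hv).1, fun v hv => (a0 v hv).2.1, fun v hv => (a0 v hv).2.2.1,
    fun v hv => (a0 v hv).2.2.2, fun v hv => (a1 v hv).1,
    fun v hv h => ⟨(a1 v hv).2 h, a2 v hv h⟩, fun u hu v hv => a3 v hv u hu⟩

theorem grDev_mem (hm : T_mok) (ht : T_tableS) {F : Q3} (hF : F.Ok) {t : ℕ} {R : ℕ → Finset ℕ}
    (φ : ℕ → Bool) (hR : Q3.Wf R) (h : t ≤ 2 * F.n) {x : ℕ × ℕ}
    (hx : x = (8 * t + 2, 0) ∨ x = (1, 1) ∨ x = (9, 1) ∨ x = (8 * t + 1, 0)) :
    x ∈ F.St t R φ ∧ F.mach.od2 (F.St t R φ) x := by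
  have hn := hF.hn
  have h1 : x ∈ F.St t R φ := by
    rw [(hm F).2.2.1]
    unfold Q3.alive
    rw [grDev_size1 F (by rcases hx with rfl | rfl | rfl | rfl <;> omega)
      (by rcases hx with rfl | rfl | rfl | rfl <;> omega)]
    rcases hx with rfl | rfl | rfl | rfl <;>
      exact ⟨by omega, by omega, by omega, by omega, by omega⟩
  refine ⟨h1, (ht F hF t R φ hR h x h1).2 ?_⟩
  rcases hx with q | q | q | q
  · exact Or.inr (Or.inl q)
  · exact Or.inr (Or.inr (Or.inl q))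
  · exact Or.inr (Or.inr (Or.inr (Or.inl q)))
  · exact Or.inl (Or.inl (by rw [q]; omega))

theorem grDev_od (he : T_elem) {P : Mg} {s : Finset (ℕ × ℕ)} {u v : ℕ × ℕ} (hu : u ∈ s)
    (hv : P.od2 s v) (h : ¬ P.adj v u = true) : P.od2 (s.erase u) v :=
  ((he P s u hu).1 v).2 (iff_of_true hv (Bool.eq_false_iff.2 h))

theorem grDev_nadj {F : Q3} (hn : 0 < F.n) {x y : ℕ × ℕ} (hx : x = (1, 1) ∨ x = (9, 1))
    (hy : y.2 = 0) : ¬ F.mach.adj x y = true := by
  rcases hx with rfl | rfl <;> intro h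
  · rw [grDev_adjU hn y h] at hy
    omega
  · rw [grDev_adjV y h] at hy
    omega

theorem grDev_sym {F : Q3} {t : ℕ} {R : ℕ → Finset ℕ} {φ : ℕ → Bool} (ω : ℕ → ℕ) {w x : ℕ × ℕ}
    (h5 : w.1 % 8 = 5) (hj : F.junk t φ w) (hx : F.alive t R φ x) :
    F.mach.adj w (F.pk t ω x) = F.mach.adj w x := by
  rw [Bool.eq_iff_iff, grDev_adj5 h5, grDev_adj5 h5]
  unfold Q3.pk
  split_ifs with c1 c2 c3 c4 c5 c6
  · exact iff_of_false (by dsimp only; omega) (by omega)
  · exact iff_of_false (by dsimp only; omega) (by omega)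
  · exact iff_of_false (by dsimp only; omega) (by omega)
  · exact iff_of_false (by dsimp only; omega) (by omega)
  · rcases c5 with c5 | c5
    swap
    · exact iff_of_false (by dsimp only; omega) (by omega)
    obtain ⟨b4, hneg⟩ := grDev_size4 c5 hx.1
    have key : ∀ b, (2 ≤ x.2 → 2 ≤ b) → ¬ (b = w.2 / 2 * 2 ∧ (x.1 + 1 = w.1 ∨
        (x.1 + 9 = w.1 ∧ w.2 < 2 ∧ w.1 / 8 % 3 = 2 ∧ F.q (w.1 / 8 / 3) = true))) := by
      rintro b hb ⟨e1, e2⟩
      have hφ := hx.2.2.2.2 c5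
      have hj' : (w.2 < 2 ∧ φ (F.host (w.1 / 8)) = true) ∨ (2 ≤ w.2 ∧ F.neg (w.1 / 8)) := by
        rcases hj with q | q | q | q
        · omega
        · omega
        · exact q.2
        · omega
      rcases e2 with e2 | ⟨e2, e3, e4⟩
      · have e5 : w.1 / 8 = x.1 / 8 := by omega
        rw [e5, Q3.host, if_neg hneg] at hj'
        rcases hj' with q | q
        · have := hb (hφ q.2)
          omega
        · exact hneg q.2
      · have e5 : w.1 / 8 - 1 = x.1 / 8 := by omega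
        rw [Q3.host, if_pos (show F.neg (w.1 / 8) from e4), e5] at hj'
        rcases hj' with q | q
        · have := hb (hφ q.2)
          omega
        · omega
    refine iff_of_false ?_ ?_
    · rintro (q | q | q)
      · refine key (x.2 ^^^ 1) (fun h2 => ?_) q.2
        have : x.2 = 2 ∨ x.2 = 3 := by omega
        rcases this with r | r <;> rw [r] <;> decide
      · dsimp only at q
        omega
      · dsimp only at q
        omega
    · rintro (q | q | q)
      · exact key x.2 id q.2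
      · omega
      · omega
  · have b16 : x.2 < 16 := by
      have := hx.1
      unfold Q3.size at this
      split_ifs at this <;> omega
    have : ∀ b < 16, (b ^^^ 8) % 2 = b % 2 ∧ (b ^^^ 8) / 2 % 2 = b / 2 % 2 ∧
        (b ^^^ 8) / 4 % 2 = b / 4 % 2 := by decide
    obtain ⟨e1, e2, e3⟩ := this x.2 b16
    dsimp only
    rw [e1, e2, e3]
    refine or_congr (iff_of_false (by omega) (by omega))
      (or_congr (iff_of_false (by omega) (by omega)) Iff.rfl)
  · rfl

theorem t_dev (hm : T_mok) (he : T_elem) (hr : T_round) (hp : T_pm) (hs : T_swap) (ht : T_tableS)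
    (hk : T_mask) (k0 : T_kill 0) (k1 : T_kill 1) (k2 : T_kill 2) (k3 : T_kill 3) : T_dev := by
  intro F hF t R φ hR h hG u hu hc
  have ok := (hm F).1
  have hn := hF.hn
  obtain ⟨mK, oK⟩ := grDev_mem hm ht hF φ hR h (Or.inl rfl)
  have mx : ∀ x : ℕ × ℕ, x = (1, 1) ∨ x = (9, 1) →
      x ∈ F.St t R φ ∧ F.mach.od2 (F.St t R φ) x ∧ x ≠ (8 * t + 2, 0) := fun x hx => by
    obtain ⟨a, b⟩ := grDev_mem hm ht hF φ hR h (x := x)
      (Or.inr (hx.elim Or.inl fun q => Or.inr (Or.inl q)))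
    exact ⟨a, b, by rcases hx with rfl | rfl <;> simp⟩
  have kl : ∀ x : ℕ × ℕ, x = (1, 1) ∨ x = (9, 1) → F.mach.L (F.Kl t R φ x) := fun x hx => by
    obtain ⟨ω, hω⟩ := grDev_pm hk k0 k1 k2 k3 hF φ hR h hx
    obtain ⟨a, b, c⟩ := mx x hx
    have hg : F.mach.Good (F.Kl t R φ x) := (hr _ ok).1 _ _ x hG mK oK (mem_erase.2 ⟨c, a⟩)
      (grDev_od he mK b (grDev_nadj hn hx rfl)) fun q => by
        rw [grDev_lb, grDev_lb] at q
        rcases hx with rfl | rfl <;> omega
    exact (hp _ ok _ _ hg.1 hω).2 hg.2.1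
  have k2' : ∀ x : ℕ × ℕ, x = (1, 1) ∨ x = (9, 1) → ∃ v ∈ (F.St t R φ).erase x,
      F.mach.L (((F.St t R φ).erase x).erase v) := fun x hx =>
    ⟨(8 * t + 2, 0), mem_erase.2 ⟨(mx x hx).2.2.symm, mK⟩, by
      rw [erase_right_comm]
      exact kl x hx⟩
  rcases hc with rfl | hc | hc | ⟨h5, hj⟩
  · exact ⟨(1, 1), mem_erase.2 ⟨(mx _ (Or.inl rfl)).2.2, (mx _ (Or.inl rfl)).1⟩, kl _ (Or.inl rfl)⟩
  · exact k2' u (Or.inl hc)
  · exact k2' u (Or.inr hc)
  have al := (hm F).2.2.1 t R φ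
  have ou : F.mach.od2 (F.St t R φ) u :=
    (ht F hF t R φ hR h u hu).2 (Or.inr (Or.inr (Or.inr (Or.inr ⟨h5, hj⟩))))
  have n1 : ∀ y : ℕ × ℕ, y.1 % 8 = 1 ∨ y.1 % 8 = 2 → ¬ F.mach.adj u y = true := fun y hy q => by
    rw [grDev_adj5 h5] at q
    omega
  have ne : ∀ y : ℕ × ℕ, y.1 % 8 = 1 ∨ y.1 % 8 = 2 → u ≠ y := fun y hy q => by
    rw [← q] at hy
    omega
  have uK := ne (8 * t + 2, 0) (by omega)
  have uU := ne (1, 1) (by omega)
  have mK' := mem_erase.2 ⟨uK.symm, mK⟩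
  have hg := (hr _ ok).1 _ u _ hG hu ou mK' (grDev_od he hu oK (by
    rw [ok.symm]
    exact n1 _ (by omega))) fun q => by
      rw [grDev_lb, grDev_lb] at q
      omega
  obtain ⟨ω, hω⟩ := grDev_pm hk k0 k1 k2 k3 hF φ hR h (x := (1, 1)) (Or.inl rfl)
  obtain ⟨mU, -, UK⟩ := mx _ (Or.inl rfl)
  obtain ⟨mV, -, VK⟩ := mx _ (Or.inr rfl)
  obtain ⟨b4, s6⟩ := grDev_size5 h5 ((al u).1 hu).1
  have sub : ∀ x ∈ F.Kl t R φ (1, 1), x ≠ (1, 1) ∧ F.alive t R φ x := fun x hx =>
    ⟨(mem_erase.1 hx).1, (al x).1 (mem_of_mem_erase (mem_of_mem_erase hx))⟩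
  have pu : F.pk t ω u = (u.1, u.2 ^^^ 1) := by
    unfold Q3.pk
    rw [if_neg (by omega), if_neg (by omega), if_neg (by omega), if_neg (by omega),
      if_pos (Or.inr h5)]
  obtain ⟨π', hπ⟩ := hs _ ok _ _ u (u.1 + 1, u.2 / 2) (1, 1) (9, 1) hω
    (mem_erase.2 ⟨uU, mem_erase.2 ⟨uK, hu⟩⟩)
    (mem_erase.2 ⟨by simp only [ne_eq, Prod.mk.injEq]; omega, mem_erase.2
      ⟨by simp only [ne_eq, Prod.mk.injEq]; omega, (al _).2
        ⟨by dsimp only; omega, by dsimp only; omega, by dsimp only; omega, by dsimp only; omega,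
          by dsimp only; omega⟩⟩⟩)
    (mem_erase.2 ⟨by decide, mem_erase.2 ⟨VK, mV⟩⟩) (notMem_erase _ _)
    (grDev_od he (mem_erase.2 ⟨UK, mU⟩) (grDev_od he mK ou (n1 _ (by omega))) (n1 _ (by omega)))
    (by
      unfold Q3.pk
      dsimp only
      rw [if_neg (by omega), if_neg (by omega), if_neg (by omega), if_neg (by omega),
        if_neg (by omega), if_neg (by omega)])
    (by
      unfold Q3.pk
      dsimp only
      rw [if_neg (by omega), if_neg (by omega), if_neg (by omega), if_neg (by omega),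
        if_neg (by omega), if_neg (by omega)])
    (Bool.eq_false_iff.2 fun q => by rw [grDev_lb] at q; omega)
    (Bool.eq_false_iff.2 fun q => by rw [grDev_lb] at q; omega)
    (by
      simp only [Q3.mach]
      exact decide_eq_decide.2 (iff_of_false (by omega) (by omega)))
    ((grDev_adj5 h5 _).2 (Or.inr (Or.inl ⟨rfl, rfl⟩)))
    (by
      rw [grDev_adj]
      simp only [Q3.arc, decide_eq_true_eq]
      exact Or.inl (Or.inl (by decide)))
    (fun x _ q => grDev_adjU hn x q)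
    (fun x hx => Bool.eq_false_iff.2 fun q => (sub x hx).1 (grDev_adjV x q))
    (fun x _ q => by
      obtain ⟨e1, e2⟩ := grDev_adj6 (e := (u.1 + 1, u.2 / 2)) (by dsimp only; omega) x q
      dsimp only at e1 e2
      have : ∀ a < 4, ∀ b < 4, a / 2 = b / 2 → b = a ∨ b = a ^^^ 1 := by decide
      rw [pu]
      exact (this u.2 b4 x.2 (by omega) e2).imp (fun r => Prod.ext (by omega) r)
        fun r => Prod.ext (by dsimp only; omega) r)
    (fun x hx => grDev_sym ω h5 hj (sub x hx).2)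
    (fun x hx e q => by
      have hl : ¬ F.mach.lb x.1 = true := fun r => (hω.cls x hx r).2 e
      rw [grDev_lb] at hl
      rw [grDev_adj5 h5] at q
      exact Prod.ext (by dsimp only; omega) (by dsimp only; omega))
  have e : insert (1, 1) ((F.Kl t R φ (1, 1)).erase u) =
      ((F.St t R φ).erase u).erase (8 * t + 2, 0) := by
    rw [Q3.Kl, erase_right_comm, insert_erase (mem_erase.2 ⟨uU.symm, mem_erase.2 ⟨UK, mU⟩⟩),
      erase_right_comm]
  rw [e] at hπ
  exact ⟨_, mK', (hp _ ok _ _ hg.1 hπ).2 hg.2.1⟩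

theorem t_start (hm : T_mok) (he : T_elem) (hr : T_rule) (hp : T_pm) (ht : T_tableS)
    (hk : T_mask) (k0 : T_kill 0) (k1 : T_kill 1) (k2 : T_kill 2) (k3 : T_kill 3) : T_start := by
  intro F hF
  obtain ⟨ok, -, -, hin, -, ev, ec⟩ := hm F
  have hR : Q3.Wf fun _ => ∅ := fun i => ⟨by simp, by simp⟩
  obtain ⟨mK, oK⟩ := grDev_mem hm ht hF (fun _ => false) hR (Nat.zero_le _) (Or.inl rfl)
  obtain ⟨mU, oU⟩ := grDev_mem hm ht hF (fun _ => false) hR (Nat.zero_le _) (Or.inr (Or.inl rfl))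
  obtain ⟨ω, hω⟩ := grDev_pm hk k0 k1 k2 k3 hF (fun _ => false) hR (Nat.zero_le _)
    (x := (1, 1)) (Or.inl rfl)
  have i0 := hin 0 (fun _ => ∅) fun _ => false
  have i1 : F.mach.In2 ((F.St 0 (fun _ => ∅) fun _ => false).erase (8 * 0 + 2, 0)) :=
    fun u hu => i0 u (mem_of_mem_erase hu)
  have mU' : (1, 1) ∈ (F.St 0 (fun _ => ∅) fun _ => false).erase (8 * 0 + 2, 0) :=
    mem_erase.2 ⟨by decide, mU⟩
  have c2 : F.mach.CO2 (F.Kl 0 (fun _ => ∅) (fun _ => false) (1, 1)) := by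
    refine (hp _ ok _ _ (fun u hu => i1 u (mem_of_mem_erase hu)) hω).1 ?_
    have e1 := card_erase_add_one mK
    have e2 := card_erase_add_one mU'
    rw [← e1, ← e2, add_assoc, Nat.even_add] at ev
    exact ev.2 (by decide)
  have c1 := (((hr _ ok _ i1).2.2 _ mU').2 (grDev_od he mK oU
    (grDev_nadj hF.hn (Or.inl rfl) rfl))).1.2 c2
  exact ⟨i0, (((hr _ ok _ i0).2.2 _ mK).2 oK).2.2 c1, fun κ _ => ec κ⟩

theorem t_end0 (hm : T_mok) (he : T_elem) (hr : T_round) (hp : T_pm) (ht : T_tableS)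
    (hk : T_mask) (k0 : T_fin 0) (k1 : T_fin 1) (k2 : T_fin 2) (k3 : T_fin 3) : T_end0 := by
  intro F hF R φ a hR hG hI hM
  have ok := (hm F).1
  obtain ⟨mg, og⟩ := grDev_mem hm ht hF φ hR le_rfl (Or.inr (Or.inr (Or.inr rfl)))
  obtain ⟨mU, oU⟩ := grDev_mem hm ht hF φ hR le_rfl (Or.inr (Or.inl rfl))
  have mU' : (1, 1) ∈ (F.St (2 * F.n) R φ).erase (8 * (2 * F.n) + 1, 0) :=
    mem_erase.2 ⟨by simp, mU⟩
  have hg : F.mach.Good (F.Fn R φ) := (hr _ ok).1 _ _ _ hG mg og mU'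
    (grDev_od he mg oU (grDev_nadj hF.hn (Or.inl rfl) rfl)) fun q => by
      rw [grDev_lb, grDev_lb] at q
      omega
  obtain ⟨ω, hω, h0⟩ := hk.1 R hR
    (fun i => if i < F.n ∧ F.q i = false then (if a i = true then 1 else 2) else 0) fun i => by
      refine ⟨?_, by split_ifs <;> omega⟩
      split_ifs with c1 c2
      · have := (hI (3 * i + 1) (by omega) (Or.inl ⟨by omega, by
          rwa [show (3 * i + 1) / 3 = i by omega]⟩)).2
        rw [show (3 * i + 1) / 3 = i by omega, show (3 * i + 1) % 3 = 1 by omega] at this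
        exact this c1.2
      · have := (hI (3 * i + 2) (by omega) (Or.inr ⟨by omega, by
          rw [show (3 * i + 2) / 3 = i by omega]
          exact Bool.eq_false_iff.2 c2⟩)).2
        rw [show (3 * i + 2) / 3 = i by omega, show (3 * i + 2) % 3 = 2 by omega] at this
        exact this c1.2
      · simp
  have h1 : ∀ c, c / 3 < F.n → tr a c → F.q (c / 3) = false → ω (c / 3) / (c % 3) % 2 = 0 := by
    intro c c1 c2 c3
    have := h0 (c / 3)
    rw [if_pos ⟨c1, c3⟩] at this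
    rcases c2 with ⟨e1, e2⟩ | ⟨e1, e2⟩
    · rw [if_pos e2] at this
      rwa [e1]
    · rw [if_neg (Bool.eq_false_iff.1 e2)] at this
      rwa [e1]
  choose! p hp1 hp2 using hM
  have hq : ∀ j < F.m, p j < 3 ∧ tr a (F.lc j (p j)) := fun j hj => ⟨hp1 j hj, hp2 j hj⟩
  have a0 := fun v hv => (k0 F hF R φ ω p a hR hω hI h1 hq v hv).1 rfl
  have a1 := fun v hv => (k1 F hF R φ ω p a hR hω hI h1 hq v hv).2.1 rfl
  have a2 := fun v hv => (k2 F hF R φ ω p a hR hω hI h1 hq v hv).2.2.1 rfl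
  have a3 := fun v hv => (k3 F hF R φ ω p a hR hω hI h1 hq v hv).2.2.2 rfl
  exact ⟨mU', (hp _ ok (Q3.pf a ω p) _ hg.1 ⟨fun v hv => (a0 v hv).1, fun v hv => (a0 v hv).2.1,
    fun v hv => (a0 v hv).2.2.1, fun v hv => (a0 v hv).2.2.2, fun v hv => (a1 v hv).1,
    fun v hv h => ⟨(a1 v hv).2 h, a2 v hv h⟩, fun u hu v hv => a3 v hv u hu⟩).2 hg.2.1⟩

end Pool.Agent.Chomp.GR
end

-- merged part: Pool.Agent.Work.MP_ff0f6a_lc.GR.Fin3
section
/-!
Chomp on graphs: the block condition of the pairing at the end.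
-/

namespace Pool.Agent.Chomp.GR

open Finset Function Pool.Agent.Chomp.SC

theorem grFin3_fst (a : ℕ → Bool) (ω p : ℕ → ℕ) (u : ℕ × ℕ) : (Q3.pf a ω p u).1 = u.1 := by
  unfold Q3.pf
  split_ifs <;> rfl

theorem grFin3_none (F : Q3) (u v : ℕ × ℕ) (hu : 3 ≤ u.1 % 8) (hv : 3 ≤ v.1 % 8)
    (h : u.1 % 8 = 4 ∨ u.1 % 8 = 6 ∨ u.1 % 8 = 7 ∨ v.1 % 8 = 3 ∨ v.1 % 8 = 5 ∨
      (u.1 % 8 = 3 ∧ v.1 % 8 ≠ 4)) : F.arc u v = false := by
  unfold Q3.arc
  rw [decide_eq_false_iff_not]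
  rintro (h | h | h | h | h | h | h | h | h | h) <;> omega

theorem grFin3_a34 (F : Q3) {κ l : ℕ} (b c : ℕ) (hu : κ % 8 = 3) (hv : l % 8 = 4) :
    F.arc (κ, b) (l, c) = decide (l / 8 / 3 = κ / 8 ∧ c < 2 ∧ b / (l / 8 % 3) % 2 = 1) := by
  unfold Q3.arc
  rw [decide_eq_decide]
  constructor
  · rintro (h | h | h | h | h | h | h | h | h | h)
    all_goals first | exact h.2.2 | (exfalso; omega)
  · intro h
    exact Or.inr (Or.inr (Or.inr (Or.inr (Or.inr (Or.inr (Or.inl ⟨hu, hv, h⟩))))))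

theorem grFin3_a54 (F : Q3) {κ l : ℕ} (b c : ℕ) (hu : κ % 8 = 5) (hv : l % 8 = 4) :
    F.arc (κ, b) (l, c) = decide (c = b / 2 * 2 ∧ (l + 1 = κ ∨
      (l + 9 = κ ∧ b < 2 ∧ κ / 8 % 3 = 2 ∧ F.q (κ / 8 / 3) = true))) := by
  unfold Q3.arc
  rw [decide_eq_decide]
  constructor
  · rintro (h | h | h | h | h | h | h | h | h | h)
    all_goals first | exact h.2.2 | (exfalso; omega)
  · intro h
    exact Or.inr (Or.inr (Or.inr (Or.inr (Or.inr (Or.inr (Or.inr (Or.inl ⟨hu, hv, h⟩)))))))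

theorem grFin3_a56 (F : Q3) {κ l : ℕ} (b c : ℕ) (hu : κ % 8 = 5) (hv : l % 8 = 6) :
    F.arc (κ, b) (l, c) = decide (l = κ + 1 ∧ c = b / 2) := by
  unfold Q3.arc
  rw [decide_eq_decide]
  constructor
  · rintro (h | h | h | h | h | h | h | h | h | h)
    all_goals first | exact h.2 | (exfalso; omega)
  · intro h
    exact Or.inr (Or.inr (Or.inr (Or.inr (Or.inr (Or.inr (Or.inr (Or.inr (Or.inl ⟨hu, h⟩))))))))

theorem grFin3_a57 (F : Q3) {κ l : ℕ} (b c : ℕ) (hu : κ % 8 = 5) (hv : l % 8 = 7) :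
    F.arc (κ, b) (l, c) = decide (b % 2 = 0 ∧
      ((κ / 8 = F.lc (l / 8) 0 ∧ c % 2 = 1) ∨ (κ / 8 = F.lc (l / 8) 1 ∧ c / 2 % 2 = 1) ∨
        (κ / 8 = F.lc (l / 8) 2 ∧ c / 4 % 2 = 1))) := by
  unfold Q3.arc
  rw [decide_eq_decide]
  constructor
  · rintro (h | h | h | h | h | h | h | h | h | h)
    all_goals first | exact h.2.2 | (exfalso; omega)
  · intro h
    exact Or.inr (Or.inr (Or.inr (Or.inr (Or.inr (Or.inr (Or.inr (Or.inr (Or.inr
      ⟨hu, hv, h⟩))))))))

theorem grFin3_x1 : ∀ b < 4, (b ^^^ 1) / 2 = b / 2 ∧ ((b ^^^ 1) < 2 ↔ b < 2) := by decide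

theorem grFin3_x2 : ∀ b < 4, (b ^^^ 2) % 2 = b % 2 := by decide

theorem grFin3_x3 : ∀ b < 4, ∀ o < 4, ∀ s < 3, o / s % 2 = 0 → (b ^^^ o) / s % 2 = b / s % 2 := by
  decide

theorem grFin3_x4 : ∀ b < 4, ∀ c < 4, (decide (c = b / 2 * 2) ^^ decide (c ^^^ 2 = b / 2 * 2)) =
    (decide (c = (b ^^^ 2) / 2 * 2) ^^ decide (c ^^^ 2 = (b ^^^ 2) / 2 * 2)) := by decide

theorem grFin3_x5 : ∀ b < 4, ∀ c < 2, (decide (c = b / 2) ^^ decide (c ^^^ 1 = b / 2)) =
    (decide (c = (b ^^^ 2) / 2) ^^ decide (c ^^^ 1 = (b ^^^ 2) / 2)) := by decide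

theorem grFin3_x6 : ∀ c < 16, ((c ^^^ 1) / 2 % 2 = c / 2 % 2 ∧ (c ^^^ 1) / 4 % 2 = c / 4 % 2) ∧
    ((c ^^^ 2) % 2 = c % 2 ∧ (c ^^^ 2) / 4 % 2 = c / 4 % 2) ∧
    ((c ^^^ 4) % 2 = c % 2 ∧ (c ^^^ 4) / 2 % 2 = c / 2 % 2) := by decide

theorem grFin3_size (F : Q3) {κ b : ℕ} (h : b < F.size κ) :
    (κ % 8 = 7 → κ / 8 < F.m ∧ b < 16) ∧
    (κ % 8 = 3 → b < 4 ∧ κ / 8 < F.n ∧ F.q (κ / 8) = false) ∧
    (κ % 8 = 4 ∨ κ % 8 = 5 → b < 4 ∧ κ / 8 / 3 < F.n) ∧ (κ % 8 = 6 → b < 2) := by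
  unfold Q3.size at h
  split_ifs at h with h1 h2 h3
  · exact ⟨fun _ => ⟨h1.2, h⟩, fun _ => by omega, fun _ => by omega, fun _ => by omega⟩
  · refine ⟨fun _ => by omega, fun e => ?_, fun _ => by omega, fun _ => by omega⟩
    rcases h2 with h2 | h2 | h2
    · exact ⟨h, h2.2⟩
    · omega
    · omega
  · exact ⟨fun _ => by omega, fun _ => by omega, fun _ => by omega, fun _ => h⟩
  · omega

theorem grFin3_p3 (a : ℕ → Bool) (ω p : ℕ → ℕ) {κ : ℕ} (b : ℕ) (k : κ % 8 = 3) :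
    Q3.pf a ω p (κ, b) = (κ, b ^^^ ω (κ / 8)) := if_pos k

theorem grFin3_p45 (a : ℕ → Bool) (ω p : ℕ → ℕ) {κ : ℕ} (b : ℕ) (k : κ % 8 = 4 ∨ κ % 8 = 5) :
    Q3.pf a ω p (κ, b) = (κ, b ^^^ if tr a (κ / 8) then 2 else 1) :=
  (if_neg (show ¬ κ % 8 = 3 by omega)).trans (if_pos k)

theorem grFin3_p6 (a : ℕ → Bool) (ω p : ℕ → ℕ) {κ : ℕ} (b : ℕ) (k : κ % 8 = 6) :
    Q3.pf a ω p (κ, b) = if tr a (κ / 8) then (κ, b ^^^ 1) else (κ, b) := by
  refine (if_neg (show ¬ κ % 8 = 3 by omega)).trans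
    ((if_neg (show ¬ (κ % 8 = 4 ∨ κ % 8 = 5) by omega)).trans ?_)
  by_cases t : tr a (κ / 8)
  · rw [if_pos t]
    exact if_pos ⟨k, t⟩
  · rw [if_neg t]
    exact (if_neg fun x => t x.2).trans (if_neg (show ¬ κ % 8 = 7 by omega))

theorem grFin3_p7 (a : ℕ → Bool) (ω p : ℕ → ℕ) {κ : ℕ} (b : ℕ) (k : κ % 8 = 7) :
    Q3.pf a ω p (κ, b) = (κ, b ^^^ 2 ^ p (κ / 8)) :=
  (if_neg (show ¬ κ % 8 = 3 by omega)).trans
    ((if_neg (show ¬ (κ % 8 = 4 ∨ κ % 8 = 5) by omega)).trans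
      ((if_neg fun x => absurd (k.symm.trans x.1) (by decide)).trans (if_pos k)))

theorem grFin3_k34 (F : Q3) {a : ℕ → Bool} {κ b l c o : ℕ} (k : κ % 8 = 3) (m : l % 8 = 4)
    (b4 : b < 4) (c4 : c < 4) (o4 : o < 4)
    (hω : l / 8 / 3 = κ / 8 → tr a (l / 8) → o / (l / 8 % 3) % 2 = 0) :
    (F.arc (κ, b) (l, c) ^^ F.arc (κ, b) (l, c ^^^ if tr a (l / 8) then 2 else 1)) =
      (F.arc (κ, b ^^^ o) (l, c) ^^
        F.arc (κ, b ^^^ o) (l, c ^^^ if tr a (l / 8) then 2 else 1)) := by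
  simp only [grFin3_a34 F _ _ k m]
  by_cases e : l / 8 / 3 = κ / 8
  · by_cases t : tr a (l / 8)
    · rw [grFin3_x3 b b4 o o4 _ (Nat.mod_lt _ (by norm_num)) (hω e t)]
    · simp only [if_neg t, (grFin3_x1 c c4).2, Bool.xor_self]
  · simp only [eq_false e, false_and]

theorem grFin3_z1 {l κ x y : ℕ} {Q : Prop} (e : ¬ l + 1 = κ) (hy : ¬ y < 2) :
    ¬ (y = x / 2 * 2 ∧ (l + 1 = κ ∨ (l + 9 = κ ∧ x < 2 ∧ Q))) := fun hh => by
  have h1 := hh.1
  have h2 := (hh.2.resolve_left e).2.1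
  omega

theorem grFin3_k54 (F : Q3) {a : ℕ → Bool} {κ b l c : ℕ} (k : κ % 8 = 5) (m : l % 8 = 4)
    (b4 : b < 4) (c4 : c < 4)
    (hI : tr a (κ / 8) → l + 9 = κ → κ / 8 % 3 = 2 → F.q (κ / 8 / 3) = true → 2 ≤ c) :
    (F.arc (κ, b) (l, c) ^^ F.arc (κ, b) (l, c ^^^ if tr a (l / 8) then 2 else 1)) =
      (F.arc (κ, b ^^^ if tr a (κ / 8) then 2 else 1) (l, c) ^^
        F.arc (κ, b ^^^ if tr a (κ / 8) then 2 else 1)
          (l, c ^^^ if tr a (l / 8) then 2 else 1)) := by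
  simp only [grFin3_a54 F _ _ k m]
  by_cases t : tr a (κ / 8)
  · by_cases e : l + 1 = κ
    · have e' : l / 8 = κ / 8 := by omega
      simp only [e', if_pos t, eq_true e, true_or, and_true]
      exact grFin3_x4 b b4 c c4
    · by_cases g : l + 9 = κ ∧ κ / 8 % 3 = 2 ∧ F.q (κ / 8 / 3) = true
      · have h6 : ¬ c < 2 := not_lt.2 (hI t g.1 g.2.1 g.2.2)
        have g1 := g.1
        have g2 := g.2.1
        have t' : ¬ tr a (l / 8) := by
          have e1 : l / 8 % 3 = 1 := by omega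
          have e2 : l / 8 / 3 = κ / 8 / 3 := by omega
          unfold tr lit at t ⊢
          rw [g2] at t
          rw [e1, e2]
          rcases t with t | t
          · exact absurd t.1 (by decide)
          · simp [t.2]
        have h7 : ¬ (c ^^^ 1) < 2 := fun x => h6 ((grFin3_x1 c c4).2.1 x)
        rw [if_neg t', decide_eq_false (grFin3_z1 e h6), decide_eq_false (grFin3_z1 e h7),
          decide_eq_false (grFin3_z1 e h6), decide_eq_false (grFin3_z1 e h7)]
      · have z : ∀ x y, ¬ (y = x / 2 * 2 ∧ (l + 1 = κ ∨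
            (l + 9 = κ ∧ x < 2 ∧ κ / 8 % 3 = 2 ∧ F.q (κ / 8 / 3) = true))) := fun x y hh =>
          hh.2.elim e fun w => g ⟨w.1, w.2.2⟩
        rw [decide_eq_false (z _ _), decide_eq_false (z _ _), decide_eq_false (z _ _),
          decide_eq_false (z _ _)]
  · simp only [if_neg t, (grFin3_x1 b b4).1, (grFin3_x1 b b4).2]

theorem grFin3_k56 (F : Q3) {a : ℕ → Bool} {κ b l c : ℕ} (k : κ % 8 = 5) (m : l % 8 = 6)
    (b4 : b < 4) (c2 : c < 2) (t : tr a (l / 8)) :
    (F.arc (κ, b) (l, c) ^^ F.arc (κ, b) (l, c ^^^ 1)) =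
      (F.arc (κ, b ^^^ if tr a (κ / 8) then 2 else 1) (l, c) ^^
        F.arc (κ, b ^^^ if tr a (κ / 8) then 2 else 1) (l, c ^^^ 1)) := by
  simp only [grFin3_a56 F _ _ k m]
  by_cases e : l = κ + 1
  · have e' : κ / 8 = l / 8 := by omega
    simp only [e', if_pos t, eq_true e, true_and]
    exact grFin3_x5 b b4 c c2
  · simp only [eq_false e, false_and]

theorem grFin3_k57 (F : Q3) {a : ℕ → Bool} {κ b l c r : ℕ} (k : κ % 8 = 5) (m : l % 8 = 7)
    (b4 : b < 4) (c16 : c < 16) (p3 : r < 3) (pt : tr a (F.lc (l / 8) r)) :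
    (F.arc (κ, b) (l, c) ^^ F.arc (κ, b) (l, c ^^^ 2 ^ r)) =
      (F.arc (κ, b ^^^ if tr a (κ / 8) then 2 else 1) (l, c) ^^
        F.arc (κ, b ^^^ if tr a (κ / 8) then 2 else 1) (l, c ^^^ 2 ^ r)) := by
  simp only [grFin3_a57 F _ _ k m]
  by_cases t : tr a (κ / 8)
  · simp only [if_pos t, grFin3_x2 b b4]
  · have ne : κ / 8 ≠ F.lc (l / 8) r := fun e => t (by rw [e]; exact pt)
    obtain ⟨x0, x1, x2⟩ := grFin3_x6 c c16
    have hq : r = 0 ∨ r = 1 ∨ r = 2 := by omega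
    rcases hq with rfl | rfl | rfl
    · simp only [pow_zero, x0.1, x0.2, eq_false ne, false_and, Bool.xor_self]
    · simp only [pow_one, x1.1, x1.2, eq_false ne, false_and, Bool.xor_self]
    · simp only [show 2 ^ 2 = 4 from rfl, x2.1, x2.2, eq_false ne, false_and, Bool.xor_self]

theorem grFin3_cases {x y : ℕ} (h3 : 3 ≤ x % 8) (h4 : 3 ≤ y % 8)
    (hn : ¬ (x % 8 = 4 ∨ x % 8 = 6 ∨ x % 8 = 7 ∨ y % 8 = 3 ∨ y % 8 = 5 ∨
      (x % 8 = 3 ∧ y % 8 ≠ 4))) : (x % 8 = 3 ∧ y % 8 = 4) ∨ (x % 8 = 5 ∧ y % 8 = 4) ∨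
      (x % 8 = 5 ∧ y % 8 = 6) ∨ (x % 8 = 5 ∧ y % 8 = 7) := by omega

theorem grFin3_host (F : Q3) {l κ : ℕ} (m : l % 8 = 4) (g : l + 9 = κ) (ng : F.neg (κ / 8)) :
    F.host (κ / 8) = l / 8 := (if_pos ng).trans (by omega)

theorem grFin3_key (F : Q3) {R : ℕ → Finset ℕ} {φ : ℕ → Bool} {ω p : ℕ → ℕ} {a : ℕ → Bool}
    (hA : Q3.Adm ω R) (hI : F.Idle R φ a F.n)
    (hω : ∀ c, c / 3 < F.n → tr a c → F.q (c / 3) = false → ω (c / 3) / (c % 3) % 2 = 0)
    (hp : ∀ j < F.m, p j < 3 ∧ tr a (F.lc j (p j))) {u v : ℕ × ℕ}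
    (hu : F.alive (2 * F.n) R φ u) (hv : F.alive (2 * F.n) R φ v) (h3 : 3 ≤ u.1 % 8)
    (h4 : 3 ≤ v.1 % 8) :
    (F.arc u v ^^ F.arc u (Q3.pf a ω p v)) =
      (F.arc (Q3.pf a ω p u) v ^^ F.arc (Q3.pf a ω p u) (Q3.pf a ω p v)) := by
  by_cases hn : u.1 % 8 = 4 ∨ u.1 % 8 = 6 ∨ u.1 % 8 = 7 ∨ v.1 % 8 = 3 ∨ v.1 % 8 = 5 ∨
      (u.1 % 8 = 3 ∧ v.1 % 8 ≠ 4)
  · have e1 := grFin3_fst a ω p u
    have e2 := grFin3_fst a ω p v
    generalize Q3.pf a ω p u = u' at e1 ⊢
    generalize Q3.pf a ω p v = v' at e2 ⊢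
    rw [grFin3_none F u v h3 h4 hn, grFin3_none F u v' h3 (by omega) (by omega),
      grFin3_none F u' v (by omega) h4 (by omega),
      grFin3_none F u' v' (by omega) (by omega) (by omega)]
  have hc := grFin3_cases h3 h4 hn
  obtain ⟨κ, b⟩ := u
  obtain ⟨l, c⟩ := v
  have su := grFin3_size F (κ := κ) (b := b) hu.1
  have sv := grFin3_size F (κ := l) (b := c) hv.1
  have a4 : l % 8 = 4 → φ (l / 8) = true → 2 ≤ c := hv.2.2.2.2
  rcases hc with ⟨k, m⟩ | ⟨k, m⟩ | ⟨k, m⟩ | ⟨k, m⟩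
  · rw [grFin3_p3 a ω p b k, grFin3_p45 a ω p c (Or.inl m)]
    obtain ⟨b4, -, hq⟩ := su.2.1 k
    obtain ⟨c4, hl⟩ := sv.2.2.1 (Or.inl m)
    refine grFin3_k34 F k m b4 c4 (hA _).2.1 fun e t => ?_
    have h1 := hω _ hl t (by rw [e]; exact hq)
    rwa [e] at h1
  · rw [grFin3_p45 a ω p b (Or.inr k), grFin3_p45 a ω p c (Or.inl m)]
    obtain ⟨b4, hk⟩ := su.2.2.1 (Or.inr k)
    obtain ⟨c4, hl⟩ := sv.2.2.1 (Or.inl m)
    refine grFin3_k54 F k m b4 c4 fun t g1 g2 g3 => a4 m ?_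
    have ng : F.neg (κ / 8) := ⟨g2, g3⟩
    have h2 := grFin3_host F m g1 ng
    by_contra hf
    exact (hI _ hk t).1 ⟨fun x => absurd (h2.symm ▸ x) hf, fun x => absurd ng x⟩
  · rw [grFin3_p45 a ω p b (Or.inr k), grFin3_p6 a ω p c m]
    by_cases t : tr a (l / 8)
    · rw [if_pos t]
      exact grFin3_k56 F k m (su.2.2.1 (Or.inr k)).1 (sv.2.2.2 m) t
    · rw [if_neg t, Bool.xor_self, Bool.xor_self]
  · rw [grFin3_p45 a ω p b (Or.inr k), grFin3_p7 a ω p c m]
    obtain ⟨hl, c16⟩ := sv.1 m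
    exact grFin3_k57 F k m (su.2.2.1 (Or.inr k)).1 c16 (hp _ hl).1 (hp _ hl).2

theorem grFin3_fix (a : ℕ → Bool) (ω p : ℕ → ℕ) {u : ℕ × ℕ} (h : ¬ 3 ≤ u.1 % 8) :
    Q3.pf a ω p u = u := by
  unfold Q3.pf
  rw [if_neg (by omega), if_neg (by omega), if_neg (fun x => by omega), if_neg (by omega)]

theorem t_fin3 (hm : T_mok) : T_fin 3 := by
  intro F _ R φ ω p a _ hA hI hω hp v hv
  refine ⟨fun h => by omega, fun h => by omega, fun h => by omega, fun _ u hu => ?_⟩
  have al : ∀ x ∈ F.Fn R φ, F.alive (2 * F.n) R φ x := fun x hx =>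
    ((hm F).2.2.1 _ _ _ _).1 (mem_of_mem_erase (mem_of_mem_erase hx))
  by_cases h3 : 3 ≤ u.1 % 8
  swap
  · rw [grFin3_fix a ω p h3]
  by_cases h4 : 3 ≤ v.1 % 8
  swap
  · rw [grFin3_fix a ω p h4, Bool.xor_self, Bool.xor_self]
  have k1 := grFin3_key F hA hI hω hp (al u hu) (al v hv) h3 h4
  have k2 := grFin3_key F hA hI hω hp (al v hv) (al u hu) h4 h3
  have e1 := grFin3_fst a ω p u
  have e2 := grFin3_fst a ω p v
  generalize Q3.pf a ω p u = u' at k1 k2 e1 ⊢
  generalize Q3.pf a ω p v = v' at k1 k2 e2 ⊢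
  show ((F.arc u v || F.arc v u) ^^ (F.arc u v' || F.arc v' u)) =
    ((F.arc u' v || F.arc v u') ^^ (F.arc u' v' || F.arc v' u'))
  by_cases c : u.1 % 8 = 3 ∨ u.1 % 8 = 5
  · rw [grFin3_none F v u h4 h3 (by omega), grFin3_none F v' u (by omega) h3 (by omega),
      grFin3_none F v u' h4 (by omega) (by omega),
      grFin3_none F v' u' (by omega) (by omega) (by omega)]
    simpa only [Bool.or_false] using k1
  · rw [grFin3_none F u v h3 h4 (by omega), grFin3_none F u v' h3 (by omega) (by omega),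
      grFin3_none F u' v (by omega) h4 (by omega),
      grFin3_none F u' v' (by omega) (by omega) (by omega)]
    revert k2
    generalize F.arc v u = x1
    generalize F.arc v u' = x2
    generalize F.arc v' u = x3
    generalize F.arc v' u' = x4
    revert x1 x2 x3 x4
    decide

end Pool.Agent.Chomp.GR
end

-- merged part: Pool.Agent.Work.MP_ff0f6a_lc.GR.Round
section
/-!
Chomp on graphs: one round of the play.
-/

namespace Pool.Agent.Chomp.GR

open Finset Function Pool.Agent.Chomp.SC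

theorem grRound_in {P : Mg} {s : Finset (ℕ × ℕ)} (h : P.In2 s) (u : ℕ × ℕ) :
    P.In2 (s.erase u) := fun v hv => h v (mem_of_mem_erase hv)

theorem grRound_cnt (he : T_elem) (P : Mg) {s : Finset (ℕ × ℕ)} {u v : ℕ × ℕ} (hu : u ∈ s)
    (hv : v ∈ s.erase u) {κ : ℕ} (h : Even (cnt s κ)) :
    Odd (cnt ((s.erase u).erase v) κ) ↔ ¬ (u.1 = κ ↔ v.1 = κ) := by
  have h1 := (he P s u hu).2 κ
  have h2 := (he P _ v hv).2 κ
  have h3 := Nat.not_odd_iff_even.2 h
  rw [h2, h1]
  tauto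

theorem t_round (he : T_elem) (hr : T_rule) : T_round := by
  intro P hP
  have hco : ∀ s u v, P.Good s → u ∈ s → P.od2 s u → v ∈ s.erase u → P.od2 (s.erase u) v →
      P.CO2 ((s.erase u).erase v) := fun s u v hs hu ho hv ho' =>
    (((hr P hP _ (grRound_in hs.1 u)).2.2 v hv).2 ho').1.1
      ((((hr P hP s hs.1).2.2 u hu).2 ho).2.1 hs.2.1)
  refine ⟨?_, ?_, ?_⟩
  · intro s u v hs hu ho hv ho' hsm
    refine ⟨grRound_in (grRound_in hs.1 u) v, hco s u v hs hu ho hv ho', fun κ hκ => ?_⟩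
    rw [← Nat.not_odd_iff_even, grRound_cnt he P hu hv (hs.2.2 κ hκ), not_not]
    constructor
    · intro h
      rw [hsm (Or.inl (h ▸ hκ)), h]
    · intro h
      rw [← hsm (Or.inr (h ▸ hκ)), h]
  · intro s u hs hu ho hw
    have hE := (((hr P hP s hs.1).2.2 u hu).2 ho).2.1 hs.2.1
    refine ((hr P hP s hs.1).2.2 u hu).1 ((hr P hP _ (grRound_in hs.1 u)).2.1 (Or.inl hE) ?_)
    intro v hv ho'
    by_cases hsm : P.Same u v
    · exact hw v hv ho' hsm
    · have hO := hco s u v hs hu ho hv ho'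
      have hI := grRound_in (grRound_in hs.1 u) v
      obtain ⟨hl, hne⟩ := Classical.not_imp.1 hsm
      rcases hl with hl | hl
      · refine (hr P hP _ hI).1 u.1 hO hl ?_
        rw [grRound_cnt he P hu hv (hs.2.2 _ hl)]
        exact fun h => hne (h.1 rfl)
      · refine (hr P hP _ hI).1 v.1 hO hl ?_
        rw [grRound_cnt he P hu hv (hs.2.2 _ hl)]
        exact fun h => hne (h.2 rfl).symm
  · intro I hI s
    induction s using Finset.strongInduction with
    | H s ih =>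
      intro hs
      obtain ⟨hg, hm⟩ := hI s hs
      refine (hr P hP s hg.1).2.1 (Or.inr hg) fun u hu ho => ?_
      obtain ⟨v, hv, h⟩ := hm u hu ho
      refine ((hr P hP _ (grRound_in hg.1 u)).2.2 v hv).1 ?_
      rcases h with h | h
      · exact ih _ (lt_of_le_of_lt (erase_subset v _) (erase_ssubset hu)) h
      · exact h

end Pool.Agent.Chomp.GR
end

-- merged part: Pool.Agent.Work.MP_ff0f6a_lc.GR.Step
section
/-!
The three kinds of steps of the first player.
-/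

namespace Pool.Agent.Chomp.GR

open Finset Function Pool.Agent.Chomp.SC

lemma grStep_round (hr : T_round) {P : Mg} (hP : P.toMach.Ok) {s : Finset (ℕ × ℕ)} {u : ℕ × ℕ}
    (hg : P.Good s) (hu : u ∈ s) (ho : P.od2 s u)
    (h : ∀ v ∈ s.erase u, P.od2 (s.erase u) v → P.Same u v →
      ((s.erase u).erase v).card < s.card → P.Good ((s.erase u).erase v) →
      P.W ((s.erase u).erase v)) : P.W s := by
  refine (hr P hP).2.1 s u hg hu ho fun v hv hov hs => h v hv hov hs ?_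
    ((hr P hP).1 s u v hg hu ho hv hov hs)
  exact lt_of_le_of_lt card_erase_le (card_erase_lt_of_mem hu)

lemma grStep_nadj {P : Mg} (hP : P.toMach.Ok) {u v : ℕ × ℕ} (h : v.1 = u.1) :
    P.adj v u = false := by
  by_contra q
  exact hP.sd v u (by simpa using q) (by rw [h])

lemma grStep_size1 (F : Q3) (t : ℕ) : 0 < F.size (8 * t + 1) ↔ t ≤ 2 * F.n := by
  have a1 : (8 * t + 1) % 8 = 1 := by omega
  have a2 : (8 * t + 1) / 8 = t := by omega
  unfold Q3.size
  rw [a1, a2]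
  by_cases h : t ≤ 2 * F.n <;> simp [h]

lemma grStep_size3 (F : Q3) {i : ℕ} (hi : i < F.n) (hq : F.q i = false) :
    F.size (8 * i + 3) = 4 := by
  have a1 : (8 * i + 3) % 8 = 3 := by omega
  have a2 : (8 * i + 3) / 8 = i := by omega
  unfold Q3.size
  rw [a1, a2]
  simp [hi, hq]

lemma grStep_lb (F : Q3) (κ : ℕ) : F.mach.lb κ = true ↔ κ % 8 = 3 ∨ κ % 8 = 4 ∨ κ % 8 = 7 := by
  simp only [Q3.mach, decide_eq_true_eq]

lemma grStep_adj (F : Q3) (t : ℕ) (v : ℕ × ℕ) (h : F.mach.adj v (8 * t + 1, 0) = true) :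
    (v.1 = 8 * (t + 1) + 1 ∧ v.2 = 0) ∨ v.1 = 8 * t + 2 ∨ (v.1 + 8 = 8 * t + 1 ∧ v.2 = 0) ∨
      v.1 % 8 = 3 ∨ v.1 % 8 = 4 ∨ v.1 % 8 = 7 := by
  simp only [Q3.mach, Q3.arc, Bool.or_eq_true, decide_eq_true_eq] at h
  rcases h with (h | h | h | h | h | h | h | h | h | h) | (h | h | h | h | h | h | h | h | h | h)
  all_goals
    obtain ⟨h1, h2, h3⟩ := h
    omega

theorem t_step (hm : T_mok) (he : T_elem) (hr : T_round) (ht : T_table) (hs : T_trans) :
    T_step := by
  intro F hF s t R φ hg hI htn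
  have hP := (hm F).1
  have htab := ht F hF s t R φ hI htn
  have htr := (hs F t R φ).2.2.2
  refine ⟨fun c hc hφ hen h => ?_, fun i hi hq hR hit h => ?_, fun htn' h => ?_⟩
  · have a1 : (8 * c + 4) % 8 = 4 := by omega
    have a2 : (8 * c + 4) / 8 = c := by omega
    have nj : ∀ b, ¬ F.junk t φ (8 * c + 4, b) := by
      intro b q
      unfold Q3.junk at q
      simp only [a1] at q
      omega
    have ne : ∀ b, ((8 * c + 4, b) : ℕ × ℕ) ≠ (8 * t + 2, 0) := by
      intro b q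
      have := congrArg Prod.fst q
      simp only at this
      omega
    have hu : ((8 * c + 4, 0) : ℕ × ℕ) ∈ s := by
      refine (hI.2.2 _ (nj 0)).2 ⟨hc, ?_, ?_, ?_, ?_⟩ <;> simp only [a1, a2]
      · omega
      · omega
      · omega
      · intro _ q
        rw [hφ] at q
        exact absurd q (by simp)
    have ho : F.mach.od2 s (8 * c + 4, 0) := by
      refine (htab _ hu (by simp only [a1]; omega) (nj 0) (ne 0)).2 (Or.inr (Or.inr ?_))
      simp only [a1, a2]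
      exact ⟨trivial, by omega, hen⟩
    refine grStep_round hr hP hg hu ho fun v hv hov hsm hc' hg' => ?_
    have v1 : v.1 = 8 * c + 4 := hsm (Or.inl ((grStep_lb F _).2 (Or.inr (Or.inl a1))))
    obtain ⟨κ, b⟩ := v
    simp only at v1
    subst v1
    obtain ⟨hne, hvs⟩ := mem_erase.1 hv
    have o1 : F.mach.od2 s (8 * c + 4, b) :=
      (((he F.mach s _ hu).1 _).1 hov).2 (grStep_nadj hP rfl)
    have o2 := (htab _ hvs (by simp only [a1]; omega) (nj b) (ne b)).1 o1
    have b1 : b = 1 := by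
      have b0 : b ≠ 0 := fun q => hne (by rw [q])
      unfold Q3.tab at o2
      simp only [a1] at o2
      rcases o2 with o2 | o2 | o2
      · omega
      · omega
      · have := o2.2.1
        omega
    subst b1
    exact h _ hc' hg' ((htr.2 s hI).2.1 c)
  · have a1 : (8 * i + 3) % 8 = 3 := by omega
    have a2 : (8 * i + 3) / 8 = i := by omega
    have nj : ∀ b, ¬ F.junk t φ (8 * i + 3, b) := by
      intro b q
      unfold Q3.junk at q
      simp only [a1] at q
      omega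
    have ne : ∀ b, ((8 * i + 3, b) : ℕ × ℕ) ≠ (8 * t + 2, 0) := by
      intro b q
      have := congrArg Prod.fst q
      simp only at this
      omega
    have hsz := grStep_size3 F hi hq
    have hu : ((8 * i + 3, 0) : ℕ × ℕ) ∈ s := by
      refine (hI.2.2 _ (nj 0)).2 ⟨?_, ?_, ?_, ?_, ?_⟩ <;> simp only [a1, a2, hsz]
      · omega
      · omega
      · omega
      · intro _
        rw [hR]
        exact notMem_empty _
      · omega
    have ho : F.mach.od2 s (8 * i + 3, 0) := by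
      refine (htab _ hu (by simp only [a1]; omega) (nj 0) (ne 0)).2 (Or.inr (Or.inl ?_))
      simp only [a1, a2]
      exact ⟨trivial, hit⟩
    refine grStep_round hr hP hg hu ho fun v hv hov hsm hc' hg' => ?_
    have v1 : v.1 = 8 * i + 3 := hsm (Or.inl ((grStep_lb F _).2 (Or.inl a1)))
    obtain ⟨κ, b⟩ := v
    simp only at v1
    subst v1
    obtain ⟨hne, hvs⟩ := mem_erase.1 hv
    have b0 : b ≠ 0 := fun q => hne (by rw [q])
    have b4 : b < 4 := by
      have := hI.2.1 _ hvs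
      simp only [hsz] at this
      exact this
    have hw := htr.1 i 0 b hI.1 (by omega) b4 b0.symm (by rw [hR]; exact notMem_empty _)
      (by rw [hR]; exact notMem_empty _)
    exact h _ b b4 b0 hc' hg' ((htr.2 s hI).1 i 0 b hw)
  · have a1 : (8 * t + 1) % 8 = 1 := by omega
    have a2 : (8 * t + 1) / 8 = t := by omega
    have nj : ¬ F.junk t φ (8 * t + 1, 0) := by
      intro q
      unfold Q3.junk at q
      simp only [a1] at q
      omega
    have ne : ((8 * t + 1, 0) : ℕ × ℕ) ≠ (8 * t + 2, 0) := by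
      intro q
      have := congrArg Prod.fst q
      simp only at this
      omega
    have hu : ((8 * t + 1, 0) : ℕ × ℕ) ∈ s := by
      refine (hI.2.2 _ nj).2 ⟨(grStep_size1 F t).2 htn', ?_, ?_, ?_, ?_⟩ <;> simp only [a1, a2]
      all_goals omega
    have ho : F.mach.od2 s (8 * t + 1, 0) := by
      refine (htab _ hu (by simp only [a1]; omega) nj ne).2 (Or.inl ?_)
      simp only [a1, a2]
      exact ⟨trivial, trivial, trivial⟩
    refine grStep_round hr hP hg hu ho fun v hv hov hsm hc' hg' => ?_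
    obtain ⟨hne, hvs⟩ := mem_erase.1 hv
    have hl : ¬ (v.1 % 8 = 3 ∨ v.1 % 8 = 4 ∨ v.1 % 8 = 7) := by
      intro q
      have := hsm (Or.inr ((grStep_lb F _).2 q))
      simp only at this
      omega
    by_cases hj : F.junk (t + 1) φ v
    · exact h _ (t + 1) hc' (by omega) (by omega) (by omega) hg' ((htr.2 s hI).2.2.1 v hj)
    have hj2 : ¬ (v.1 % 8 = 2 ∧ v.1 / 8 < t + 1) := fun q => hj (Or.inr (Or.inl q))
    have hj' : ¬ F.junk t φ v := by
      rintro (q | q | q | q)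
      · exact hj (Or.inl q)
      · exact hj2 ⟨q.1, by omega⟩
      · exact hj (Or.inr (Or.inr (Or.inl q)))
      · exact hj (Or.inr (Or.inr (Or.inr q)))
    have vne : v ≠ (8 * t + 2, 0) := by
      rintro rfl
      exact hj2 ⟨by simp only; omega, by simp only; omega⟩
    have o1 : ¬ F.mach.od2 s v := by
      intro q
      rcases (htab v hvs (by omega) hj' vne).1 q with o | o | o
      · exact hne (Prod.ext (by simp only; omega) o.2.1)
      · exact hl (Or.inl o.1)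
      · exact hl (Or.inr (Or.inl o.1))
    have o2 : F.mach.adj v (8 * t + 1, 0) = true := by
      by_contra q
      exact o1 ((((he F.mach s _ hu).1 _).1 hov).2 (by simpa using q))
    rcases grStep_adj F t v o2 with o | o | o | o
    · obtain rfl : v = (8 * (t + 1) + 1, 0) := Prod.ext o.1 o.2
      have := (grStep_size1 F (t + 1)).1 (hI.2.1 _ hvs)
      exact h _ (t + 2) hc' (by omega) (by omega) (by omega) hg' (htr.2 s hI).2.2.2
    · exact absurd ⟨by omega, by omega⟩ hj2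
    · have := ((hI.2.2 v hj').1 hvs).2.1 (by omega) o.2
      omega
    · exact absurd o hl

end Pool.Agent.Chomp.GR
end

-- merged part: Pool.Agent.Work.MP_ff0f6a_lc.GR.Swap
section
/-!
Chomp on graphs: changing a pairing after a sensor vertex is exchanged for an end of the spare edge.
-/

namespace Pool.Agent.Chomp.GR

open Finset Function Pool.Agent.Chomp.SC

theorem t_swap (he : T_elem) : T_swap := by
  intro P hP π s w e U V hπ hw hes hV hU how hπe hπV hlw hlU hsU hwe hUV hUx hVx hex hwx hfx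
  have sy : ∀ u v, P.adj u v = P.adj v u := hP.symm
  have ss : ∀ u v : ℕ × ℕ, P.side u.1 = P.side v.1 → P.adj u v = false := by
    intro u v h
    cases hh : P.adj u v with
    | false => rfl
    | true => exact absurd h (hP.sd u v hh)
  obtain ⟨d, hd⟩ : ∃ d, d = π w := ⟨_, rfl⟩
  have hds : d ∈ s := hd ▸ hπ.mem w hw
  have hπd : π d = w := hd ▸ hπ.inv w hw
  have hdw : d ≠ w := fun h => (hπ.ev w hw (hd ▸ h)).1 how
  have hsd : P.side d.1 = P.side w.1 := hd ▸ hπ.col w hw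
  have hod : P.od2 s d := hd ▸ (hπ.par w hw).2 how
  have hld : P.lb d.1 = false := by
    cases hh : P.lb d.1 with
    | false => rfl
    | true =>
      have h1 := (hπ.cls d hds hh).1
      rw [hπd] at h1
      rw [h1, hh] at hlw
      exact absurd hlw (by decide)
  have hle : P.lb e.1 = false := by
    cases hh : P.lb e.1 with
    | false => rfl
    | true => exact absurd hπe (hπ.cls e hes hh).2
  have hlV : P.lb V.1 = false := by
    cases hh : P.lb V.1 with
    | false => rfl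
    | true => exact absurd hπV (hπ.cls V hV hh).2
  have hoe : ¬ P.od2 s e := (hπ.ev e hes hπe).1
  have hoV : ¬ P.od2 s V := (hπ.ev V hV hπV).1
  have hde : P.adj d e = true := by rw [hd, (hπ.ev e hes hπe).2 w hw, hwe]
  have hed : P.adj e d = true := by rw [sy, hde]
  have hew : P.adj e w = true := by rw [sy, hwe]
  have hVU : P.adj V U = true := by rw [sy, hUV]
  have hswe : P.side w.1 ≠ P.side e.1 := hP.sd w e hwe
  have hsUV : P.side U.1 ≠ P.side V.1 := hP.sd U V hUV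
  have hsV : P.side V.1 = P.side e.1 := by
    rw [hsU] at hsUV
    revert hswe hsUV
    cases P.side w.1 <;> cases P.side e.1 <;> cases P.side V.1 <;> decide
  have heV : e ≠ V := by
    intro h
    rw [h, hVx w hw] at hew
    exact absurd hew (by decide)
  have hew' : e ≠ w := fun h => hswe (by rw [h])
  have hed' : e ≠ d := fun h => hswe (by rw [h, hsd])
  have hVw : V ≠ w := fun h => hswe (by rw [← hsV, h])
  have hVd : V ≠ d := fun h => hswe (by rw [← hsV, h, hsd])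
  have hdU : d ≠ U := fun h => hU (h ▸ hds)
  have heU : e ≠ U := fun h => hU (h ▸ hes)
  have hVU' : V ≠ U := fun h => hU (h ▸ hV)
  have hUf : ∀ x ∈ s, x ≠ V → P.adj U x = false := by
    intro x hx hxV
    cases hh : P.adj U x with
    | false => rfl
    | true => exact absurd (hUx x hx hh) hxV
  have hef : ∀ x ∈ s, x ≠ w → x ≠ d → P.adj e x = false := by
    intro x hx h1 h2
    cases hh : P.adj e x with
    | false => rfl
    | true =>
      rcases hex x hx hh with h | h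
      · exact absurd h h1
      · exact absurd (h.trans hd.symm) h2
  have hUe : P.adj U e = false := hUf e hes heV
  have heU' : P.adj e U = false := by rw [sy, hUe]
  have hVd' : P.adj V d = false := hVx d hds
  have hdV : P.adj d V = false := by rw [sy, hVd']
  have hdd : P.adj d d = false := ss d d rfl
  have hUU : P.adj U U = false := ss U U rfl
  have hdU' : P.adj d U = false := ss d U (by rw [hsd, hsU])
  have hUd : P.adj U d = false := ss U d (by rw [hsd, hsU])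
  have hee : P.adj e e = false := ss e e rfl
  have hVV : P.adj V V = false := ss V V rfl
  have heV' : P.adj e V = false := ss e V hsV.symm
  have hVe : P.adj V e = false := ss V e hsV
  have hoU : P.od2 s U := by
    have h1 : (s.filter fun v => P.adj U v = true) = {V} := by
      ext x
      simp only [mem_filter, mem_singleton]
      exact ⟨fun h => hUx x h.1 h.2, fun h => by rw [h]; exact ⟨hV, hUV⟩⟩
    unfold Mg.od2
    rw [h1, hlU]
    simp
  have hU' : U ∉ s.erase w := fun h => hU (mem_of_mem_erase h)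
  have hod2 : ∀ v, (P.od2 (insert U (s.erase w)) v ↔
      ((P.od2 s v ↔ P.adj v w = false) ↔ P.adj v U = false)) := by
    intro v
    have h1 := (he P (insert U (s.erase w)) U (mem_insert_self _ _)).1 v
    rw [erase_insert hU'] at h1
    have h2 := (he P s w hw).1 v
    rw [← h2, h1]
    tauto
  obtain ⟨π', hπ'⟩ : ∃ π' : ℕ × ℕ → ℕ × ℕ, ∀ v, π' v =
      if v = d then U else if v = U then d else if v = e then V else if v = V then e else π v :=
    ⟨_, fun _ => rfl⟩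
  have pd : π' d = U := by rw [hπ', if_pos rfl]
  have pU : π' U = d := by rw [hπ', if_neg hdU.symm, if_pos rfl]
  have pe : π' e = V := by rw [hπ', if_neg hed', if_neg heU, if_pos rfl]
  have pV : π' V = e := by rw [hπ', if_neg hVd, if_neg hVU', if_neg heV.symm, if_pos rfl]
  -- the other vertices
  obtain ⟨O, hO⟩ : ∃ O : ℕ × ℕ → Prop, ∀ x, O x ↔ x ∈ s ∧ x ≠ w ∧ x ≠ d ∧ x ≠ e ∧ x ≠ V :=
    ⟨_, fun _ => Iff.rfl⟩
  have pO : ∀ x, O x → π' x = π x := by
    intro x hx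
    obtain ⟨h1, -, h3, h4, h5⟩ := (hO x).1 hx
    have h6 : x ≠ U := fun h => hU (h ▸ h1)
    rw [hπ', if_neg h3, if_neg h6, if_neg h4, if_neg h5]
  have Oπ : ∀ x, O x → O (π x) := by
    intro x hx
    obtain ⟨h1, h2, h3, h4, h5⟩ := (hO x).1 hx
    have h6 := hπ.inv x h1
    refine (hO _).2 ⟨hπ.mem x h1, fun h => h3 ?_, fun h => h2 ?_, fun h => h4 ?_, fun h => h5 ?_⟩
    · rw [← h6, h, hd]
    · rw [← h6, h, hπd]
    · rw [← h6, h, hπe]
    · rw [← h6, h, hπV]
  have Os : ∀ x, O x → x ∈ s := fun x hx => ((hO x).1 hx).1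
  have Om : ∀ x, O x → x ∈ insert U (s.erase w) := fun x hx =>
    mem_insert_of_mem (mem_erase.2 ⟨((hO x).1 hx).2.1, Os x hx⟩)
  have cs : ∀ x ∈ insert U (s.erase w), x = d ∨ x = U ∨ x = e ∨ x = V ∨ O x := by
    intro x hx
    rcases mem_insert.1 hx with h | h
    · exact Or.inr (Or.inl h)
    · obtain ⟨h1, h2⟩ := mem_erase.1 h
      by_cases h3 : x = d
      · exact Or.inl h3
      by_cases h4 : x = e
      · exact Or.inr (Or.inr (Or.inl h4))
      by_cases h5 : x = V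
      · exact Or.inr (Or.inr (Or.inr (Or.inl h5)))
      exact Or.inr (Or.inr (Or.inr (Or.inr ((hO x).2 ⟨h2, h1, h3, h4, h5⟩))))
  have OU : ∀ x, O x → P.adj U x = false := fun x hx => hUf x (Os x hx) ((hO x).1 hx).2.2.2.2
  have OU' : ∀ x, O x → P.adj x U = false := fun x hx => by rw [sy, OU x hx]
  have Oe : ∀ x, O x → P.adj e x = false := fun x hx =>
    hef x (Os x hx) ((hO x).1 hx).2.1 ((hO x).1 hx).2.2.1
  have Oe' : ∀ x, O x → P.adj x e = false := fun x hx => by rw [sy, Oe x hx]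
  have OV : ∀ x, O x → P.adj V x = false := fun x hx => hVx x (Os x hx)
  have OV' : ∀ x, O x → P.adj x V = false := fun x hx => by rw [sy, OV x hx]
  have Ow : ∀ x, O x → P.adj (π x) w = P.adj x w := fun x hx => by
    rw [sy, hwx x (Os x hx), sy]
  have Od : ∀ x, O x → P.adj (π x) d = P.adj x d := by
    intro x hx
    have h1 := hπ.blk x (Os x hx) w hw
    rw [← hd, Ow x hx] at h1
    revert h1
    cases P.adj x w <;> cases P.adj x d <;> cases P.adj (π x) d <;> decide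
  have Od' : ∀ x, O x → P.adj d (π x) = P.adj d x := fun x hx => by rw [sy, Od x hx, sy]
  have od : P.od2 (insert U (s.erase w)) d := by
    rw [hod2, ss d w hsd, hdU']
    simp [hod]
  have oU : P.od2 (insert U (s.erase w)) U := by
    rw [hod2, ss U w hsU, hUU]
    simp [hoU]
  have oe : P.od2 (insert U (s.erase w)) e := by
    rw [hod2, hew, heU']
    simp [hoe]
  have oV : P.od2 (insert U (s.erase w)) V := by
    rw [hod2, hVx w hw, hVU]
    simp [hoV]
  refine ⟨π', ?_, ?_, ?_, ?_, ?_, ?_, ?_⟩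
  · intro v hv
    rcases cs v hv with h | h | h | h | h
    · rw [h, pd]; exact mem_insert_self _ _
    · rw [h, pU]; exact mem_insert_of_mem (mem_erase.2 ⟨hdw, hds⟩)
    · rw [h, pe]; exact mem_insert_of_mem (mem_erase.2 ⟨hVw, hV⟩)
    · rw [h, pV]; exact mem_insert_of_mem (mem_erase.2 ⟨hew', hes⟩)
    · rw [pO v h]; exact Om _ (Oπ v h)
  · intro v hv
    rcases cs v hv with h | h | h | h | h
    · rw [h, pd, pU]
    · rw [h, pU, pd]
    · rw [h, pe, pV]
    · rw [h, pV, pe]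
    · rw [pO v h, pO _ (Oπ v h), hπ.inv v (Os v h)]
  · intro v hv
    rcases cs v hv with h | h | h | h | h
    · rw [h, pd, hsU, hsd]
    · rw [h, pU, hsU, hsd]
    · rw [h, pe, hsV]
    · rw [h, pV, hsV]
    · rw [pO v h, hπ.col v (Os v h)]
  · intro v hv hl
    rcases cs v hv with h | h | h | h | h
    · rw [h, hld] at hl; exact absurd hl (by decide)
    · rw [h, hlU] at hl; exact absurd hl (by decide)
    · rw [h, hle] at hl; exact absurd hl (by decide)
    · rw [h, hlV] at hl; exact absurd hl (by decide)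
    · rw [pO v h]; exact hπ.cls v (Os v h) hl
  · intro v hv
    rcases cs v hv with h | h | h | h | h
    · rw [h, pd]; exact iff_of_true oU od
    · rw [h, pU]; exact iff_of_true od oU
    · rw [h, pe]; exact iff_of_true oV oe
    · rw [h, pV]; exact iff_of_true oe oV
    · rw [pO v h, hod2, hod2, hπ.par v (Os v h), Ow v h, OU' v h, OU' _ (Oπ v h)]
  · intro v hv hf
    rcases cs v hv with h | h | h | h | h
    · rw [h, pd] at hf; exact absurd hf.symm hdU
    · rw [h, pU] at hf; exact absurd hf hdU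
    · rw [h, pe] at hf; exact absurd hf.symm heV
    · rw [h, pV] at hf; exact absurd hf heV
    · rw [pO v h] at hf
      obtain ⟨h1, h2⟩ := hπ.ev v (Os v h) hf
      have h3 : P.adj w v = false := by
        cases hh : P.adj w v with
        | false => rfl
        | true => exact absurd (hfx v (Os v h) hf hh) ((hO v).1 h).2.2.2.1
      have h4 : P.adj d v = false := by rw [hd, h2 w hw, h3]
      refine ⟨?_, fun u hu => ?_⟩
      · rw [hod2, sy v w, h3, OU' v h]
        simp [h1]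
      · rcases cs u hu with g | g | g | g | g
        · rw [g, pd, OU v h, h4]
        · rw [g, pU, OU v h, h4]
        · rw [g, pe, OV v h, Oe v h]
        · rw [g, pV, OV v h, Oe v h]
        · rw [pO u g, h2 u (Os u g)]
  · intro u hu v hv
    rcases cs u hu with g | g | g | g | g <;> rcases cs v hv with h | h | h | h | h
    all_goals first
      | (rw [pO u g, pO v h]; exact hπ.blk u (Os u g) v (Os v h))
      | (rw [pO v h, g]
         simp only [pd, pU, pe, pV, OU v h, OU _ (Oπ v h), Oe v h, Oe _ (Oπ v h), OV v h,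
           OV _ (Oπ v h), Od' v h, Bool.xor_self])
      | (rw [pO u g, h]
         simp only [pd, pU, pe, pV, OU' u g, OU' _ (Oπ u g), Oe' u g, Oe' _ (Oπ u g), OV' u g,
           OV' _ (Oπ u g), Od u g])
      | (rw [g, h]
         simp only [pd, pU, pe, pV, hde, hed, hUV, hVU, hUe, heU', hVd', hdV, hdd, hUU, hdU', hUd,
           hee, hVV, heV', hVe]
         try decide)

end Pool.Agent.Chomp.GR
end

-- merged part: Pool.Agent.Work.MP_ff0f6a_lc.GR.TabJ
section
/-!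
Parities of the junk vertices.
-/

namespace Pool.Agent.Chomp.GR

open Finset Function Pool.Agent.Chomp.SC

theorem grTabJ_od (F : Q3) (s : Finset (ℕ × ℕ)) {u : ℕ × ℕ}
    (h : ¬ (u.1 % 8 = 3 ∨ u.1 % 8 = 4 ∨ u.1 % 8 = 7)) :
    F.mach.od2 s u ↔ Odd (s.filter fun v => F.mach.adj u v = true).card := by
  have e : F.mach.lb u.1 = false := decide_eq_false h
  unfold Mg.od2
  rw [e, if_neg (by simp), add_zero]

theorem grTabJ_adj (F : Q3) (u v : ℕ × ℕ) :
    F.mach.adj u v = true ↔ F.arc u v = true ∨ F.arc v u = true :=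
  Bool.or_eq_true_iff

theorem grTabJ_s12 (F : Q3) {κ : ℕ} (h : κ % 8 = 1 ∨ κ % 8 = 2) :
    F.size κ = if κ / 8 ≤ 2 * F.n then 2 else 0 := by
  unfold Q3.size
  rw [if_neg (by omega), if_neg (by rintro (h | h | h) <;> omega)]
  exact if_congr (by omega) rfl rfl

theorem grTabJ_s5 (F : Q3) {κ : ℕ} (h : κ % 8 = 5) :
    F.size κ = if κ / 8 / 3 < F.n ∧ κ / 8 % 3 ≠ 0 then 4 else 0 := by
  unfold Q3.size
  rw [if_neg (by omega)]
  by_cases c : κ / 8 / 3 < F.n ∧ κ / 8 % 3 ≠ 0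
  · rw [if_pos c, if_pos (Or.inr (Or.inr ⟨h, c⟩))]
  · rw [if_neg c, if_neg (by rintro (h | h | h) <;> omega), if_neg (by omega)]

theorem grTabJ_s6 (F : Q3) {κ : ℕ} (h : κ % 8 = 6) :
    F.size κ = if κ / 8 / 3 < F.n ∧ κ / 8 % 3 ≠ 0 then 2 else 0 := by
  unfold Q3.size
  rw [if_neg (by omega), if_neg (by rintro (h | h | h) <;> omega)]
  exact if_congr (by omega) rfl rfl

theorem grTabJ_s4 (F : Q3) {κ : ℕ} (h : κ % 8 = 4) (hn : F.neg (κ / 8)) : F.size κ = 0 := by
  obtain ⟨h1, h2⟩ := hn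
  unfold Q3.size
  rw [if_neg (by omega), if_neg, if_neg (by omega)]
  rintro (c | ⟨-, -, c | ⟨-, c⟩⟩ | c)
  · omega
  · omega
  · rw [h2] at c; exact absurd c (by simp)
  · omega

theorem grTabJ_a1 (F : Q3) {u v : ℕ × ℕ} (h1 : u.1 % 8 = 1) (h2 : u.2 = 1)
    (h3 : u.1 / 8 < 2 * F.n) : F.mach.adj u v = true ↔
      (u.1 = 1 ∧ v.1 = 9 ∧ v.2 = 1) ∨ (u.1 = 9 ∧ v.1 = 1 ∧ v.2 = 1) := by
  rw [grTabJ_adj]
  unfold Q3.arc
  rw [decide_eq_true_iff, decide_eq_true_iff]
  constructor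
  · rintro ((h | h | h | h | h | h | h | h | h | h) | (h | h | h | h | h | h | h | h | h | h)) <;>
      omega
  · rintro (h | h)
    · exact Or.inl (Or.inl (by omega))
    · exact Or.inr (Or.inl (by omega))

theorem grTabJ_a2 (F : Q3) {u v : ℕ × ℕ} (h1 : u.1 % 8 = 2) (h2 : u.2 = 0) :
    F.mach.adj u v = true ↔ (v.1 + 1 = u.1 ∧ v.2 = 0) ∨ (v.1 + 8 = u.1 ∧ v.2 = 1) := by
  rw [grTabJ_adj]
  unfold Q3.arc
  rw [decide_eq_true_iff, decide_eq_true_iff]
  constructor
  · rintro ((h | h | h | h | h | h | h | h | h | h) | (h | h | h | h | h | h | h | h | h | h)) <;>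
      omega
  · rintro (h | h)
    · exact Or.inr (Or.inr (Or.inl (by omega)))
    · exact Or.inr (Or.inr (Or.inr (Or.inl (by omega))))

theorem grTabJ_a6 (F : Q3) {u v : ℕ × ℕ} (h1 : u.1 % 8 = 6) :
    F.mach.adj u v = true ↔ v.1 + 1 = u.1 ∧ v.2 / 2 = u.2 := by
  rw [grTabJ_adj]
  unfold Q3.arc
  rw [decide_eq_true_iff, decide_eq_true_iff]
  constructor
  · rintro ((h | h | h | h | h | h | h | h | h | h) | (h | h | h | h | h | h | h | h | h | h)) <;>
      omega
  · intro h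
    iterate 9 refine Or.inr ?_
    exact Or.inl (by omega)

theorem grTabJ_a5 (F : Q3) {u v : ℕ × ℕ} (h1 : u.1 % 8 = 5) (h7 : v.1 % 8 ≠ 7) :
    F.mach.adj u v = true ↔ (v.1 = u.1 + 1 ∧ v.2 = u.2 / 2) ∨ (v.1 % 8 = 4 ∧ v.2 = u.2 / 2 * 2 ∧
      (v.1 + 1 = u.1 ∨ (v.1 + 9 = u.1 ∧ u.2 < 2 ∧ F.neg (u.1 / 8)))) := by
  rw [grTabJ_adj]
  unfold Q3.arc
  rw [decide_eq_true_iff, decide_eq_true_iff]
  constructor
  · rintro ((h | h | h | h | h | h | h | h | h | h) | (h | h | h | h | h | h | h | h | h | h))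
    any_goals omega
    exact Or.inr h.2
  · rintro (h | h)
    · refine Or.inl ?_
      iterate 8 refine Or.inr ?_
      exact Or.inl ⟨h1, h⟩
    · refine Or.inl ?_
      iterate 7 refine Or.inr ?_
      exact Or.inl ⟨h1, h⟩

theorem t_tabJ1 (hm : T_mok) : T_tabJ 1 := by
  intro F hF t R φ _ ht u hu h1 hj
  obtain ⟨-, -, hS, -⟩ := hm F
  have hn := hF.hn
  obtain ⟨a, b⟩ := u
  have h2 : b = 1 ∧ a / 8 < 2 * F.n := by
    rcases hj with h | (h | h | h | h) | h
    · omega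
    · exact h.2
    · have := h.1; omega
    · have := h.1; omega
    · have := h.1; omega
    · have := (Prod.mk.inj h).1; omega
  obtain ⟨rfl, h3⟩ := h2
  dsimp only at h1
  have al : ∀ κ, κ = 1 ∨ κ = 9 → (κ, 1) ∈ F.St t R φ := fun κ hκ => by
    rw [hS]
    unfold Q3.alive
    dsimp only
    rw [grTabJ_s12 F (by omega), if_pos (by omega)]
    refine ⟨?_, ?_, ?_, ?_, ?_⟩ <;> omega
  have tb : F.tabS t R φ (a, 1) ↔ a = 1 ∨ a = 9 := by
    unfold Q3.tabS Q3.tab
    simp only [Prod.mk.injEq]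
    constructor
    · rintro ((h | h | h) | h | h | h | h) <;> omega
    · rintro (h | h)
      · exact Or.inr (Or.inr (Or.inl ⟨h, trivial⟩))
      · exact Or.inr (Or.inr (Or.inr (Or.inl ⟨h, trivial⟩)))
  rw [grTabJ_od F _ (by dsimp only; omega), tb]
  by_cases c : a = 1 ∨ a = 9
  · have e : ((F.St t R φ).filter fun v => F.mach.adj (a, 1) v = true) = {(10 - a, 1)} := by
      ext ⟨x, y⟩
      rw [mem_filter, grTabJ_a1 F h1 rfl h3, mem_singleton, Prod.mk.injEq]
      dsimp only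
      refine ⟨fun h => by omega, fun h => ⟨?_, by omega⟩⟩
      rw [h.1, h.2]
      exact al _ (by omega)
    rw [e, card_singleton]
    exact iff_of_true odd_one c
  · have e : ((F.St t R φ).filter fun v => F.mach.adj (a, 1) v = true) = ∅ := by
      refine filter_eq_empty_iff.2 fun v _ h => ?_
      rw [grTabJ_a1 F h1 rfl h3] at h
      dsimp only at h
      omega
    rw [e, card_empty]
    exact iff_of_false (by decide) c

theorem t_tabJ2 (hm : T_mok) : T_tabJ 2 := by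
  intro F hF t R φ _ ht u hu h1 hj
  obtain ⟨-, -, hS, -⟩ := hm F
  obtain ⟨a, b⟩ := u
  obtain ⟨l1, -, l2, -⟩ := (hS _ _ _ _).1 hu
  dsimp only at h1 l1 l2
  rw [grTabJ_s12 F (Or.inr h1)] at l1
  have h2 : b = 0 ∧ a / 8 ≤ t := by
    rcases hj with h | (h | h | h | h) | h
    · omega
    · have := h.1; omega
    · have := h.2
      dsimp only at this
      split_ifs at l1 <;> omega
    · have := h.1; omega
    · have := h.1; omega
    · have := Prod.mk.inj h; omega
  obtain ⟨rfl, h3⟩ := h2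
  have tb : F.tabS t R φ (a, 0) ↔ a / 8 = t := by
    unfold Q3.tabS Q3.tab
    simp only [Prod.mk.injEq]
    constructor
    · rintro ((h | h | h) | h | h | h | h) <;> omega
    · intro h
      exact Or.inr (Or.inl ⟨by omega, trivial⟩)
  have key : ∀ x y, (x, y) ∈ F.St t R φ → F.mach.adj (a, 0) (x, y) = true →
      a / 8 = t ∧ x = a - 1 ∧ y = 0 := fun x y h h' => by
    obtain ⟨-, k1, k2, -⟩ := (hS _ _ _ _).1 h
    rw [grTabJ_a2 F h1 rfl] at h'
    dsimp only at k1 k2 h'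
    omega
  rw [grTabJ_od F _ (by dsimp only; omega), tb]
  by_cases c : a / 8 = t
  · have e : ((F.St t R φ).filter fun v => F.mach.adj (a, 0) v = true) = {(a - 1, 0)} := by
      ext ⟨x, y⟩
      rw [mem_filter, mem_singleton, Prod.mk.injEq]
      refine ⟨fun h => (key x y h.1 h.2).2, ?_⟩
      rintro ⟨rfl, rfl⟩
      rw [hS, grTabJ_a2 F h1 rfl]
      unfold Q3.alive
      dsimp only
      rw [grTabJ_s12 F (by omega), if_pos (by omega)]
      refine ⟨⟨?_, ?_, ?_, ?_, ?_⟩, ?_⟩ <;> omega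
    rw [e, card_singleton]
    exact iff_of_true odd_one c
  · have e : ((F.St t R φ).filter fun v => F.mach.adj (a, 0) v = true) = ∅ :=
      filter_eq_empty_iff.2 fun v hv h => c (key v.1 v.2 hv h).1
    rw [e, card_empty]
    exact iff_of_false (by decide) c

theorem t_tabJ6 (hm : T_mok) : T_tabJ 6 := by
  intro F hF t R φ _ ht u hu h1 _
  obtain ⟨-, -, hS, -⟩ := hm F
  obtain ⟨a, b⟩ := u
  obtain ⟨l1, -⟩ := (hS _ _ _ _).1 hu
  dsimp only at h1 l1
  rw [grTabJ_s6 F h1] at l1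
  have h2 : b < 2 ∧ a / 8 / 3 < F.n ∧ a / 8 % 3 ≠ 0 := by split_ifs at l1 <;> omega
  have tb : ¬ F.tabS t R φ (a, b) := by
    unfold Q3.tabS Q3.tab
    simp only [Prod.mk.injEq]
    rintro ((h | h | h) | h | h | h | h) <;> omega
  have e : ((F.St t R φ).filter fun v => F.mach.adj (a, b) v = true) =
      {(a - 1, 2 * b), (a - 1, 2 * b + 1)} := by
    ext ⟨x, y⟩
    rw [mem_filter, grTabJ_a6 F h1, mem_insert, mem_singleton, Prod.mk.injEq, Prod.mk.injEq]
    dsimp only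
    refine ⟨fun h => by omega, fun h => ⟨?_, by omega⟩⟩
    rw [hS]
    unfold Q3.alive
    dsimp only
    rw [grTabJ_s5 F (by omega), if_pos (by omega)]
    refine ⟨?_, ?_, ?_, ?_, ?_⟩ <;> omega
  rw [grTabJ_od F _ (by dsimp only; omega), e, card_pair (by simp)]
  exact iff_of_false (by decide) tb

theorem t_tabJ5 (hm : T_mok) (hg : T_gate) : T_tabJ 5 := by
  intro F hF t R φ _ ht u hu h1 hj
  obtain ⟨-, -, hS, -⟩ := hm F
  obtain ⟨a, b⟩ := u
  obtain ⟨l1, -⟩ := (hS _ _ _ _).1 hu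
  dsimp only at h1 l1
  rw [grTabJ_s5 F h1] at l1
  have h2 : b < 4 ∧ a / 8 / 3 < F.n ∧ a / 8 % 3 ≠ 0 := by split_ifs at l1 <;> omega
  have hj' : F.junk t φ (a, b) := by
    rcases hj with h | h | h
    · omega
    · exact h
    · have := (Prod.mk.inj h).1; omega
  have h3 : (b < 2 ∧ φ (F.host (a / 8)) = true) ∨ (2 ≤ b ∧ F.neg (a / 8)) := by
    rcases hj' with h | h | h | h
    · have := h.1; omega
    · have := h.1; omega
    · exact h.2
    · have := h.1; omega
  have g := hg F (F.St t R φ) (a, b) (by dsimp only; omega) fun v hv => by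
    rw [hS]
    refine ⟨fun h => h.1, fun h => ⟨h, ?_, ?_, ?_, ?_⟩⟩ <;> omega
  have e : ((F.St t R φ).filter fun v => F.mach.adj (a, b) v = true) = insert (a + 1, b / 2)
      ((F.St t R φ).filter fun v => v.1 % 8 = 7 ∧ F.mach.adj (a, b) v = true) := by
    ext ⟨x, y⟩
    rw [mem_filter, mem_insert, mem_filter, Prod.mk.injEq]
    constructor
    · rintro ⟨k1, k2⟩
      by_cases c : x % 8 = 7
      · exact Or.inr ⟨k1, c, k2⟩
      rcases (grTabJ_a5 F h1 c).1 k2 with k | ⟨k3, k4, k5⟩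
      · exact Or.inl k
      exfalso
      obtain ⟨m1, -, -, -, m2⟩ := (hS _ _ _ _).1 k1
      dsimp only at k3 k4 k5 m1 m2
      by_cases hn : F.neg (a / 8)
      · rcases k5 with k5 | ⟨k5, k6, -⟩
        · rw [grTabJ_s4 F k3 (by rwa [show x / 8 = a / 8 by omega])] at m1
          omega
        · rcases h3 with ⟨-, h3⟩ | h3
          · unfold Q3.host at h3
            rw [if_pos hn, show a / 8 - 1 = x / 8 by omega] at h3
            have := m2 k3 h3
            omega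
          · omega
      · rcases h3 with ⟨h4, h3⟩ | h3
        · rcases k5 with k5 | k5
          · unfold Q3.host at h3
            rw [if_neg hn, show a / 8 = x / 8 by omega] at h3
            have := m2 k3 h3
            omega
          · exact hn k5.2.2
        · exact hn h3.2
    · rintro (⟨rfl, rfl⟩ | ⟨k1, -, k2⟩)
      · refine ⟨?_, (grTabJ_a5 F h1 (by dsimp only; omega)).2 (Or.inl ⟨rfl, rfl⟩)⟩
        rw [hS]
        unfold Q3.alive
        dsimp only
        rw [grTabJ_s6 F (by omega), if_pos (by omega)]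
        refine ⟨?_, ?_, ?_, ?_, ?_⟩ <;> omega
      · exact ⟨k1, k2⟩
  rw [grTabJ_od F _ (by dsimp only; omega), e, card_insert_of_notMem (fun h => by
    have := (mem_filter.1 h).2.1
    dsimp only at this
    omega)]
  exact iff_of_true g.add_one (Or.inr (Or.inr (Or.inr (Or.inr ⟨h1, hj'⟩))))

end Pool.Agent.Chomp.GR
end

-- merged part: Pool.Agent.Work.MP_ff0f6a_lc.GR.Trans
section
/-!
Chomp on graphs: the transitions between the states of the machine.
-/

namespace Pool.Agent.Chomp.GR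

open Finset Function Pool.Agent.Chomp.SC

variable (F : Q3) (t : ℕ) (R : ℕ → Finset ℕ) (φ : ℕ → Bool) (u : ℕ × ℕ)

theorem grTrans_t : F.alive (t + 1) R φ u ↔
    u ≠ (8 * t + 2, 1) ∧ u ≠ (8 * t + 1, 0) ∧ F.alive t R φ u := by
  obtain ⟨x, y⟩ := u
  unfold Q3.alive
  simp only [ne_eq, Prod.mk.injEq]
  constructor
  · rintro ⟨h1, h2, h3, h4, h5⟩
    exact ⟨by omega, by omega, h1, by omega, by omega, h4, h5⟩
  · rintro ⟨a, b, h1, h2, h3, h4, h5⟩
    exact ⟨h1, by omega, by omega, h4, h5⟩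

theorem grTrans_R (i b b' : ℕ) : F.alive t (update R i (insert b (insert b' (R i)))) φ u ↔
    u ≠ (8 * i + 3, b') ∧ u ≠ (8 * i + 3, b) ∧ F.alive t R φ u := by
  obtain ⟨x, y⟩ := u
  unfold Q3.alive
  simp only [ne_eq, Prod.mk.injEq]
  by_cases c : x / 8 = i
  · rw [c, update_self]
    simp only [mem_insert, not_or]
    constructor
    · rintro ⟨h1, h2, h3, h4, h5⟩
      exact ⟨fun h => (h4 (by omega)).2.1 h.2, fun h => (h4 (by omega)).1 h.2, h1, h2, h3,
        fun h => (h4 h).2.2, h5⟩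
    · rintro ⟨a, a', h1, h2, h3, h4, h5⟩
      exact ⟨h1, h2, h3, fun h => ⟨by omega, by omega, h4 h⟩, h5⟩
  · rw [update_of_ne c]
    exact ⟨fun h => ⟨by omega, by omega, h⟩, fun h => h.2.2⟩

theorem grTrans_φ (c : ℕ) : F.alive t R (update φ c true) u ↔
    u ≠ (8 * c + 4, 1) ∧ u ≠ (8 * c + 4, 0) ∧ F.alive t R φ u := by
  obtain ⟨x, y⟩ := u
  unfold Q3.alive
  simp only [ne_eq, Prod.mk.injEq]
  by_cases e : x / 8 = c
  · rw [e, update_self]
    constructor
    · rintro ⟨h1, h2, h3, h4, h5⟩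
      have := fun h => h5 h rfl
      exact ⟨by omega, by omega, h1, h2, h3, h4, fun h _ => this h⟩
    · rintro ⟨a, a', h1, h2, h3, h4, h5⟩
      exact ⟨h1, h2, h3, h4, fun h _ => by omega⟩
  · rw [update_of_ne e]
    exact ⟨fun h => ⟨by omega, by omega, h⟩, fun h => h.2.2⟩

theorem grTrans_jt (h : F.junk t φ u) : F.junk (t + 1) φ u := by
  unfold Q3.junk at h ⊢
  rcases h with h | h | h
  exacts [Or.inl h, Or.inr (Or.inl ⟨h.1, Nat.lt_succ_of_lt h.2⟩), Or.inr (Or.inr h)]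

theorem grTrans_jφ (c : ℕ) (h : F.junk t φ u) : F.junk t (update φ c true) u := by
  have k : ∀ x, φ x = true → update φ c true x = true := fun x hx => by
    by_cases e : x = c
    · rw [e, update_self]
    · rw [update_of_ne e, hx]
  unfold Q3.junk at h ⊢
  rcases h with h | h | ⟨h, ⟨a, b⟩ | a⟩ | ⟨h, ⟨a, b⟩ | a⟩
  exacts [Or.inl h, Or.inr (Or.inl h), Or.inr (Or.inr (Or.inl ⟨h, Or.inl ⟨a, k _ b⟩⟩)),
    Or.inr (Or.inr (Or.inl ⟨h, Or.inr a⟩)), Or.inr (Or.inr (Or.inr ⟨h, Or.inl ⟨a, k _ b⟩⟩)),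
    Or.inr (Or.inr (Or.inr ⟨h, Or.inr a⟩))]

theorem grTrans_ne (h : ¬ F.junk (t + 1) φ u) : u ≠ (8 * t + 2, 1) := by
  rintro rfl
  exact h (Or.inr (Or.inl ⟨by show (8 * t + 2) % 8 = 2; omega,
    by show (8 * t + 2) / 8 < t + 1; omega⟩))

theorem t_trans (hm : T_mok) : T_trans := by
  intro F t R φ
  have hS := (hm F).2.2.1
  refine ⟨fun _ => ?_, fun i b b' => ?_, fun c b hb => ?_, fun i b b' hw h1 h2 h3 h4 h5 j => ?_,
    fun s ⟨hw, hs, hi⟩ => ⟨fun i b b' hw' => ⟨hw', fun u hu => hs u ?_, fun u hu => ?_⟩,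
      fun c => ⟨hw, fun u hu => hs u ?_, fun u hu => ?_⟩,
      fun v hv => ⟨hw, fun u hu => hs u ?_, fun u hu => ?_⟩, hw, fun u hu => hs u ?_,
      fun u hu => ?_⟩⟩
  · ext u
    rw [mem_erase, mem_erase, hS, hS, grTrans_t]
  · ext u
    rw [mem_erase, mem_erase, hS, hS, grTrans_R]
  · ext u
    rw [mem_erase, mem_erase, hS, hS, grTrans_φ]
    obtain rfl | rfl : b = 0 ∨ b = 1 := by omega
    · rfl
    · exact and_left_comm
  · by_cases e : j = i
    · rw [e, update_self]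
      refine ⟨fun x hx => ?_, ?_⟩
      · simp only [mem_insert] at hx
        rcases hx with rfl | rfl | hx
        exacts [h1, h2, (hw i).1 x hx]
      · rw [card_insert_of_notMem (by simp [h3, h4]), card_insert_of_notMem h5]
        exact (hw i).2.add even_two
    · rw [update_of_ne e]
      exact hw j
  · exact mem_of_mem_erase (mem_of_mem_erase hu)
  · rw [mem_erase, mem_erase, hi u hu, grTrans_R]
  · exact mem_of_mem_erase (mem_of_mem_erase hu)
  · rw [mem_erase, mem_erase, hi u fun h => hu (grTrans_jφ F t φ u c h), grTrans_φ]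
  · exact mem_of_mem_erase (mem_of_mem_erase hu)
  · rw [mem_erase, mem_erase, hi u fun h => hu (grTrans_jt F t φ u h), grTrans_t]
    exact ⟨fun h => ⟨grTrans_ne F t φ u hu, h.2⟩, fun h => ⟨fun e => hu (e ▸ hv), h.2⟩⟩
  · exact mem_of_mem_erase (mem_of_mem_erase hu)
  · have hu' : ¬ F.junk (t + 1) φ u := fun h => hu (grTrans_jt F (t + 1) φ u h)
    rw [mem_erase, mem_erase, hi u fun h => hu' (grTrans_jt F t φ u h), grTrans_t F (t + 1),
      grTrans_t F t]
    exact ⟨fun h => ⟨grTrans_ne F (t + 1) φ u hu, h.1, grTrans_ne F t φ u hu', h.2⟩,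
      fun h => ⟨h.2.1, h.2.2.2⟩⟩

end Pool.Agent.Chomp.GR
end

-- merged part: Pool.Agent.Work.MP_ff0f6a_lc.GR.Zero
section
/-!
True formula: the second player wins.
-/

namespace Pool.Agent.Chomp.GR

open Finset Function Pool.Agent.Chomp.SC

/-- the invariant of the second player -/
structure grZero_J (F : Q3) (t o : ℕ) (R : ℕ → Finset ℕ) (φ : ℕ → Bool) (a : ℕ → Bool) : Prop where
  gd : F.mach.Good (F.St t R φ)
  wf : Q3.Wf R
  le : t ≤ 2 * F.n
  ho : o = (t + 1) / 2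
  qv : QV F.q F.Mat (F.n - o) o a
  idle : F.Idle R φ a o
  alt : ∀ i, o = i + 1 → F.q i = true → φ (3 * i + 1) = false →
    QV F.q F.Mat (F.n - o) o (update a i false)
  futR : ∀ i, o ≤ i → R i = ∅
  futφ : ∀ c, o ≤ c / 3 → φ c = false

theorem grZero_host (F : Q3) (c : ℕ) : F.host c / 3 = c / 3 := by
  unfold Q3.host
  split_ifs with h
  · have := h.1
    omega
  · rfl

theorem grZero_tr {a : ℕ → Bool} {i c : ℕ} {b : Bool} (h : c / 3 ≠ i) (k : tr (update a i b) c) :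
    tr a c := by
  unfold tr at k ⊢
  rwa [update_of_ne h] at k

theorem grZero_act (F : Q3) {φ : ℕ → Bool} {c c' : ℕ} (h : F.host c' ≠ c) (k : ¬ F.act φ c') :
    ¬ F.act (update φ c true) c' := by
  unfold Q3.act at k ⊢
  rwa [update_of_ne h]

/-- an answer in the same class keeps the position good -/
theorem grZero_good (hm : T_mok) (he : T_elem) (hr : T_round) {F : Q3} {s : Finset (ℕ × ℕ)}
    (hg : F.mach.Good s) {κ b b' : ℕ} (hu : (κ, b) ∈ s) (ho : F.mach.od2 s (κ, b))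
    (hv : (κ, b') ∈ s.erase (κ, b)) (ho' : F.mach.od2 s (κ, b')) :
    F.mach.Good ((s.erase (κ, b)).erase (κ, b')) := by
  refine (hr _ (hm F).1).1 s _ _ hg hu ho hv (((he _ s _ hu).1 _).2 (iff_of_true ho' ?_)) fun _ => rfl
  exact Bool.eq_false_iff.2 fun h => (hm F).1.sd _ _ h rfl

section

variable {F : Q3} {t o : ℕ} {R : ℕ → Finset ℕ} {φ a : ℕ → Bool}

theorem grZero_next (h : grZero_J F t o R φ a) (ht : t < 2 * F.n)
    (hg : F.mach.Good (F.St (t + 1) R φ)) : ∃ o' a', grZero_J F (t + 1) o' R φ a' := by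
  have ho := h.ho
  by_cases e : t % 2 = 1
  · exact ⟨o, a, hg, h.wf, ht, by omega, h.qv, h.idle, h.alt, h.futR, h.futφ⟩
  have k := h.qv
  rw [show F.n - o = F.n - (o + 1) + 1 by omega, QV.eq_2] at k
  obtain ⟨b, k1, k2, k3⟩ : ∃ b, QV F.q F.Mat (F.n - (o + 1)) (o + 1) (update a o b) ∧
      (F.q o = true → b = true) ∧
      (F.q o = true → QV F.q F.Mat (F.n - (o + 1)) (o + 1) (update a o false)) := by
    by_cases hq : F.q o = true
    · rw [if_pos hq] at k
      exact ⟨true, k true, fun _ => rfl, fun _ => k false⟩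
    · rw [if_neg hq] at k
      obtain ⟨b, k⟩ := k
      exact ⟨b, k, fun x => absurd x hq, fun x => absurd x hq⟩
  refine ⟨o + 1, update a o b, hg, h.wf, ht, by omega, k1, fun c c1 c2 => ?_, fun i i1 i2 _ => ?_,
    fun i hi => h.futR i (by omega), fun c hc => h.futφ c (by omega)⟩
  · by_cases c3 : c / 3 = o
    · refine ⟨fun x => ?_, fun _ => ?_⟩
      · have y := h.futφ (F.host c) (by rw [grZero_host, c3])
        refine Bool.false_ne_true (y.symm.trans (x.2 fun z => ?_))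
        have z2 := z.2
        rw [c3] at z2
        unfold tr lit at c2
        rw [c3, update_self, k2 z2, z.1] at c2
        simp at c2
      · rw [h.futR _ c3.ge]
        simp
    · exact h.idle c (by omega) (grZero_tr c3 c2)
  · obtain rfl : o = i := by omega
    rw [update_idem]
    exact k3 i2

theorem grZero_X (h : grZero_J F t o R φ a) {i : ℕ} (hi : i < o) {r : Finset ℕ}
    (hw : Q3.Wf (update R i r)) (hg : F.mach.Good (F.St t (update R i r) φ))
    (hr : Even (r.filter fun x => x / (if a i = true then 1 else 2) % 2 = 1).card) :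
    grZero_J F t o (update R i r) φ a := by
  refine ⟨hg, hw, h.le, h.ho, h.qv, fun c c1 c2 => ⟨(h.idle c c1 c2).1, fun c3 => ?_⟩, h.alt,
    fun j hj => ?_, h.futφ⟩
  · by_cases e : c / 3 = i
    · rw [e, update_self]
      unfold tr lit at c2
      rw [e] at c2
      rcases c2 with ⟨x, y⟩ | ⟨x, y⟩ <;> simpa [x, y] using hr
    · rw [update_of_ne e]
      exact (h.idle c c1 c2).2 c3
  · rw [update_of_ne (by omega)]
    exact h.futR j hj

theorem grZero_Y (h : grZero_J F t o R φ a) {c : ℕ} (hc : F.en t R c) (hφ : φ c = false)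
    (h3 : F.q (c / 3) = true → c % 3 = 1) (hg : F.mach.Good (F.St t R (update φ c true))) :
    ∃ a', grZero_J F t o R (update φ c true) a' := by
  have ho := h.ho
  have fut : c / 3 < o → ∀ c', o ≤ c' / 3 → update φ c true c' = false := fun x c' y => by
    rw [update_of_ne (by rintro rfl; omega)]
    exact h.futφ c' y
  rcases hc with ⟨q1, q2, q3⟩ | ⟨q1, q2⟩
  · have e := h3 q1
    have e1 : 3 * (c / 3) + 1 = c := by omega
    refine ⟨update a (c / 3) false, hg, h.wf, h.le, ho,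
      h.alt _ (by omega) q1 (e1.symm ▸ hφ), fun c' c1 c2 => ?_, fun i i1 _ i3 => ?_, h.futR,
      fut (by omega)⟩
    · by_cases x : c' / 3 = c / 3
      · unfold tr lit at c2
        rw [x, update_self] at c2
        have y : c' % 3 = 2 := by simpa using c2
        have z : F.neg c' := ⟨y, x ▸ q1⟩
        refine ⟨fun w => w.1 ?_ z, fun w => absurd (z.2.symm.trans w) (by simp)⟩
        rw [Q3.host, if_pos z, show c' - 1 = c by omega, update_self]
      · have y := h.idle c' c1 (grZero_tr x c2)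
        exact ⟨grZero_act F (fun w => x (by rw [← w, grZero_host])) y.1, y.2⟩
    · rw [show 3 * i + 1 = c by omega, update_self] at i3
      exact absurd i3 (by simp)
  · have x : c / 3 < o := not_le.1 fun x => by
      rw [h.futR _ x] at q2
      simp at q2
    refine ⟨a, hg, h.wf, h.le, ho, h.qv, fun c' c1 c2 => ?_, fun i i1 i2 i3 => h.alt i i1 i2 ?_,
      h.futR, fut x⟩
    · have y := h.idle c' c1 c2
      refine ⟨grZero_act F (fun w => ?_) y.1, y.2⟩
      by_cases z : F.neg c'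
      · have z2 := z.2
        rw [← grZero_host, w, q1] at z2
        exact absurd z2 (by simp)
      · rw [Q3.host, if_neg z] at w
        subst w
        exact Nat.not_even_iff_odd.2 q2 (y.2 q1)
    · rw [update_of_ne (by rintro rfl; rw [show (3 * i + 1) / 3 = i by omega, i2] at q1; simp at q1)]
        at i3
      exact i3

end

theorem t_zero (hm : T_mok) (he : T_elem) (hr : T_round) (ht : T_tableS) (hk : T_mask)
    (hs : T_trans) (hd : T_dev) (h0 : T_end0) (hb : T_start) : T_zero := by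
  intro F hF a ha
  obtain ⟨m1, m2, m3, -⟩ := hm F
  refine (hr _ m1).2.2 (fun s => ∃ t o R φ a, s = F.St t R φ ∧ grZero_J F t o R φ a) ?_ _
    ⟨0, 0, _, _, a, rfl, hb F hF, fun i => by simp, Nat.zero_le _, rfl, ha,
      fun c hc => absurd hc (Nat.not_lt_zero _), fun i hi => absurd hi (by omega), fun _ _ => rfl,
      fun _ _ => rfl⟩
  rintro _ ⟨t, o, R, φ, a, rfl, h⟩
  refine ⟨h.gd, fun u hu ho => ?_⟩
  have tb := ht F hF t R φ h.wf h.le
  obtain ⟨s1, s2, s3, s4, -⟩ := hs F t R φ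
  have hal := (m3 _ _ _ _).1 hu
  have hoo := h.ho
  have hle := h.le
  rcases (tb u hu).1 ho with k | k
  swap
  · obtain ⟨v, hv, hl⟩ := hd F hF t R φ h.wf h.le h.gd u hu k
    exact ⟨v, hv, Or.inr hl⟩
  obtain ⟨κ, b⟩ := u
  rcases k with ⟨k1, k2, k3⟩ | ⟨k1, k2⟩ | ⟨k1, k2, k3⟩
  · obtain rfl : κ = 8 * t + 1 := by
      simp only at k1 k3
      omega
    obtain rfl : b = 0 := k2
    rcases h.le.lt_or_eq with e | rfl
    · have e1 : (8 * t + 2) % 8 = 2 := by omega
      have e2 : (8 * t + 2) / 8 = t := by omega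
      have e3 : (8 * t + 1) % 8 = 1 := by omega
      have e4 : (8 * t + 1) / 8 = t := by omega
      have v1 : (8 * t + 2, 1) ∈ F.St t R φ :=
        (m3 _ _ _ _).2 (by simp [Q3.alive, Q3.size, e1, e2, e.le])
      have v2 : (8 * t + 2, 1) ∈ (F.St t R φ).erase (8 * t + 1, 0) := mem_erase.2 ⟨by simp, v1⟩
      have v3 : ¬ F.mach.od2 (F.St t R φ) (8 * t + 2, 1) := fun x => by
        have y := (tb _ v1).1 x
        simp [Q3.tabS, Q3.tab, e1] at y
        omega
      have v4 : F.mach.adj (8 * t + 2, 1) (8 * t + 1, 0) = true := by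
        simp [Q3.mach, Q3.arc, e3, e4, e]
      have g := (hr _ m1).1 _ _ _ h.gd hu ho v2
        (((he _ _ _ hu).1 _).2 (iff_of_false v3 (by simp [v4])))
        (by simp [Mg.Same, Q3.mach, e1, e3])
      rw [s1 e] at g
      obtain ⟨o', a', h'⟩ := grZero_next h e g
      exact ⟨_, v2, Or.inl ⟨_, o', R, φ, a', s1 e, h'⟩⟩
    · obtain rfl : o = F.n := by omega
      have q := h.qv
      rw [Nat.sub_self] at q
      obtain ⟨v, hl⟩ := h0 F hF R φ a h.wf h.gd h.idle q
      exact ⟨_, v, Or.inr hl⟩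
  · obtain ⟨i, rfl⟩ : ∃ i, κ = 8 * i + 3 := ⟨κ / 8, by simp only at k1; omega⟩
    have e1 : (8 * i + 3) % 8 = 3 := by omega
    have e2 : (8 * i + 3) / 8 = i := by omega
    simp only [e2] at k2
    have x : (i < F.n ∧ F.q i = false) ∧ b < 4 ∧ b ∉ R i := by
      have y := hal.1
      have z := hal.2.2.2.1 e1
      simp only [Q3.size, e1, e2] at y z
      split_ifs at y with y1 y2 y3
      · simp at y1
      · exact ⟨by simpa using y2, y, z⟩
      · simp at y3
      · simp at y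
    have i1 : i < o := by omega
    have sg : (if a i = true then 1 else 2) < 3 := by split_ifs <;> omega
    have ev := (h.idle (3 * i + if a i = true then 1 else 2) (by omega) (by
      unfold tr lit
      rw [show (3 * i + if a i = true then 1 else 2) / 3 = i by omega]
      cases a i <;> simp)).2
    rw [show (3 * i + if a i = true then 1 else 2) / 3 = i by omega,
      show (3 * i + if a i = true then 1 else 2) % 3 = if a i = true then 1 else 2 by omega] at ev
    obtain ⟨b', b1, b2, b3, b4⟩ := hk.2.1 (R i) _ b (h.wf i).1 (h.wf i).2 x.2.1 x.2.2 sg (ev x.1.2)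
    have v1 : (8 * i + 3, b') ∈ F.St t R φ :=
      (m3 _ _ _ _).2 (by simp [Q3.alive, Q3.size, e1, e2, x.1.1, x.1.2, b1, b3])
    have v2 : (8 * i + 3, b') ∈ (F.St t R φ).erase (8 * i + 3, b) :=
      mem_erase.2 ⟨by simpa using b2, v1⟩
    have g := grZero_good hm he hr h.gd hu ho v2
      ((tb _ v1).2 (Or.inl (Or.inr (Or.inl ⟨e1, by simpa only [e2] using k2⟩))))
    rw [s2] at g
    exact ⟨_, v2, Or.inl ⟨t, o, _, φ, a, s2 i b b',
      grZero_X h i1 (s4 i b b' h.wf x.2.1 b1 b2.symm x.2.2 b3) g b4⟩⟩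
  · obtain ⟨c, rfl⟩ : ∃ c, κ = 8 * c + 4 := ⟨κ / 8, by simp only at k1; omega⟩
    have e1 : (8 * c + 4) % 8 = 4 := by omega
    have e2 : (8 * c + 4) / 8 = c := by omega
    simp only [e2] at k2 k3
    have x1 : φ c = false := Bool.eq_false_iff.2 fun x => by
      have y := hal.2.2.2.2 e1 (e2.symm ▸ x)
      simp only at y
      omega
    have x2 : F.size (8 * c + 4) = 4 ∧ (F.q (c / 3) = true → c % 3 = 1) := by
      have y := hal.1
      simp only [Q3.size, e1, e2] at y ⊢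
      split_ifs at y ⊢ with y1 y2 y3
      · simp at y1
      · refine ⟨rfl, fun z => ?_⟩
        simp [z] at y2
        exact y2.2
      · simp at y3
      · simp at y
    have v1 : (8 * c + 4, 1 - b) ∈ F.St t R φ :=
      (m3 _ _ _ _).2 (by simp [Q3.alive, x2.1, e1, e2, x1]; omega)
    have v2 : (8 * c + 4, 1 - b) ∈ (F.St t R φ).erase (8 * c + 4, b) :=
      mem_erase.2 ⟨by simp; omega, v1⟩
    have g := grZero_good hm he hr h.gd hu ho v2
      ((tb _ v1).2 (Or.inl (Or.inr (Or.inr ⟨e1, by simp only; omega, by simpa only [e2] using k3⟩))))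
    rw [s3 c b k2] at g
    obtain ⟨a', h'⟩ := grZero_Y h k3 x1 x2.2 g
    exact ⟨_, v2, Or.inl ⟨t, o, R, _, a', s3 c b k2, h'⟩⟩

end Pool.Agent.Chomp.GR
end

-- merged part: Pool.Agent.Work.MP_ff0f6a_lc.GR.Main
section
/-!
Assembly.
-/

namespace Pool.Agent.Chomp.GR

open Pool.Agent.Chomp.SC

theorem c_kill : S_kill := p_kill p_bip p_cx
theorem c_lose : S_lose := p_lose p_cx c_kill
theorem c_deg : T_deg := t_deg t_vs
theorem c_goal : T_goal := t_goal t_vs
theorem c_attack : T_attack := t_attack t_Gok t_vs c_deg c_goal (p_step p_fr) c_kill c_lose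
theorem c_rule : T_rule := t_rule t_Gok t_vs c_deg c_goal p_fr c_attack c_lose
theorem c_round : T_round := t_round t_elem c_rule
theorem c_pm : T_pm := t_pm t_Gok t_vs c_deg c_goal p_fr (p_pairO p_cx) (p_pair p_cx c_lose)
theorem c_table : T_table := t_table fun ty h => by
  interval_cases ty
  exacts [t_tab0 t_mok, t_tab1 t_mok t_gate, t_tab2 t_mok, t_tab3 t_mok, t_tab4 t_mok,
    t_tab5 t_mok t_gate, t_tab6 t_mok]
theorem c_tableS : T_tableS :=
  t_tableS t_mok c_table (t_tabJ1 t_mok) (t_tabJ2 t_mok) (t_tabJ5 t_mok t_gate) (t_tabJ6 t_mok)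
    (t_tabJ7 t_mok)
theorem c_kill1 : T_kill 1 := b_kill1 t_mok t_elem c_tableS (b_kill0 t_mok)
theorem c_fin1 : T_fin 1 := t_fin1 t_mok t_elem c_tableS (t_fin0 t_mok)
theorem c_start : T_start :=
  t_start t_mok t_elem c_rule c_pm c_tableS t_mask (b_kill0 t_mok) c_kill1 (b_kill2 t_mok)
    (t_kill3 t_mok)
theorem c_zero : T_zero :=
  t_zero t_mok t_elem c_round c_tableS t_mask (t_trans t_mok)
    (t_dev t_mok t_elem c_round c_pm (t_swap t_elem) c_tableS t_mask (b_kill0 t_mok) c_kill1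
      (b_kill2 t_mok) (t_kill3 t_mok))
    (t_end0 t_mok t_elem c_round c_pm c_tableS t_mask (t_fin0 t_mok) c_fin1 (t_fin2 t_mok)
      (t_fin3 t_mok)) c_start
theorem c_one : T_one :=
  t_one t_mok t_mask (t_step t_mok t_elem c_round c_table (t_trans t_mok))
    (t_end1 t_mok t_elem c_round c_table (t_half t_mok)) c_start

end Pool.Agent.Chomp.GR
end
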