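import Pool.Agent.Work.MP_ff0f6a_lc.SC.Defs
import Pool.Agent.Work.MP_ff0f6a_lc.PS.Red
import Pool.Agent.Work.MP_ff0f6a_lc.GR.Defs

-- merged part: Pool.Agent.Work.MP_ff0f6a_lc.SC.Stmt
section
/-!
Auxiliary definitions and the statements of the steps of the proof.
-/

namespace Pool.Agent.Chomp.SC

open Finset Function

section A

variable {α : Type} [DecidableEq α]

/-- number of vertices -/
def nV (S : Finset (Finset α)) : ℕ := (S.filter fun σ => σ.card = 1).card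
/-- number of edges -/
def nE (S : Finset (Finset α)) : ℕ := (S.filter fun σ => σ.card = 2).card

/-- a properly two-coloured graph -/
def Gr (col : α → Bool) (S : Finset (Finset α)) : Prop :=
  ∀ σ ∈ S, (∃ v, σ = {v}) ∨ ∃ u v, col u ≠ col v ∧ σ = {u, v} ∧ {u} ∈ S ∧ {v} ∈ S

/-- a bipartite graph with an edge `c z` and one more vertex `w` joined to `c` and `z` -/
structure Apex (α : Type) where
  A : α → α → Bool
  col : α → Bool
  c : α
  z : α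
  w : α

namespace Apex

variable (G : Apex α)

structure Ok : Prop where
  symm : ∀ u v, G.A u v = G.A v u
  prop : ∀ u v, G.A u v = true → u ≠ G.w → v ≠ G.w → G.col u ≠ G.col v
  apex : ∀ v, G.A G.w v = true ↔ v = G.c ∨ v = G.z
  cz : G.A G.c G.z = true
  cw : G.c ≠ G.w
  zw : G.z ≠ G.w

/-- the induced graph, with the triangle filled if `b` -/
def cx (s : Finset α) (b : Bool) : Finset (Finset α) :=
  s.image (fun v => {v}) ∪ ((s ×ˢ s).filter fun p => G.A p.1 p.2 = true).image (fun p => {p.1, p.2}) ∪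
    if b = true ∧ G.c ∈ s ∧ G.z ∈ s ∧ G.w ∈ s then {{G.c, G.z, G.w}} else ∅

def deg (s : Finset α) (v : α) : ℕ := (s.filter fun u => G.A v u = true).card
def Tri (s : Finset α) : Prop := G.c ∈ s ∧ G.z ∈ s ∧ G.w ∈ s
def ClE (s : Finset α) : Prop := Even s.card ∧ Even (nE (G.cx s false))
def ClO (s : Finset α) : Prop := Odd s.card ∧ Odd (nE (G.cx s false))

/-- subcomplexes -/
def Sub (S : Finset (Finset α)) : Prop :=
  ∀ σ ∈ S, (∃ v, σ = {v}) ∨ (∃ u v, G.A u v = true ∧ σ = {u, v} ∧ {u} ∈ S ∧ {v} ∈ S) ∨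
    (σ = {G.c, G.z, G.w} ∧ {G.c, G.w} ∈ S ∧ {G.z, G.w} ∈ S)

/-- a pairing of the vertices -/
structure Pd (π : α → α) (s : Finset α) : Prop where
  tri : G.Tri s
  fx : π G.c = G.c ∧ π G.z = G.z ∧ π G.w = G.w
  mem : ∀ v ∈ s, π v ∈ s
  inv : ∀ v ∈ s, π (π v) = v
  col : ∀ v ∈ s, G.col (π v) = G.col v
  par : ∀ v ∈ s, (Odd (G.deg s (π v)) ↔ Odd (G.deg s v))
  ev : ∀ v ∈ s, π v = v → Even (G.deg s v) ∧ ∀ u ∈ s, G.A (π u) v = G.A u v
  blk : ∀ u ∈ s, ∀ v ∈ s, (G.A u v ^^ G.A u (π v)) = (G.A (π u) v ^^ G.A (π u) (π v))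

end Apex

end A

def S_not_both : Prop := ∀ (α : Type) [DecidableEq α] (S : Finset (Finset α)),
  Res true S → Res false S → False

def S_map : Prop := ∀ (α β : Type) [DecidableEq α] [DecidableEq β] (f : α → β) (t : Finset α),
  Set.InjOn f t → ∀ (o : Bool) (S : Finset (Finset α)), (∀ σ ∈ S, σ ⊆ t) → Res o S →
    Res o (S.image (Finset.image f))

def S_bip : Prop := ∀ (α : Type) [DecidableEq α] (col : α → Bool) (S : Finset (Finset α)),
  Gr col S → (Even (nV S) → Even (nE S) → Res false S) ∧ (Odd (nV S) ∨ Odd (nE S) → Res true S)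

def S_cx : Prop := ∀ (α : Type) [DecidableEq α] (G : Apex α), G.Ok → ∀ (s : Finset α) (b : Bool),
  G.Sub (G.cx s b) ∧ nV (G.cx s b) = s.card ∧ nE (G.cx s b) = nE (G.cx s false) ∧
  (∀ v, ({v} : Finset α) ∈ G.cx s b ↔ v ∈ s) ∧
  (∀ v, cut (G.cx s b) {v} = G.cx (s.erase v) b) ∧
  (∀ v ∈ s, nE (G.cx (s.erase v) false) + G.deg s v = nE (G.cx s false)) ∧
  (G.Tri s → {G.c, G.z, G.w} ∈ G.cx s true ∧ cut (G.cx s true) {G.c, G.z, G.w} = G.cx s false) ∧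
  (∀ σ ∈ G.cx s b, (∃ v ∈ s, σ = {v}) ∨ (b = true ∧ G.Tri s ∧ σ = {G.c, G.z, G.w}) ∨
    (G.Sub (cut (G.cx s b) σ) ∧ nV (cut (G.cx s b) σ) = s.card ∧
      nE (cut (G.cx s b) σ) + 1 = nE (G.cx s false)))

def S_kill : Prop := ∀ (α : Type) [DecidableEq α] (G : Apex α), G.Ok →
  (∀ S, G.Sub S → (Even (nV S) ↔ Odd (nE S)) → Res true S) ∧
  ∀ (s : Finset α) (b : Bool) (v : α), v = G.c ∨ v = G.z → v ∈ s → Odd (G.deg s v) →
    (G.ClO s → Res true (G.cx s b)) ∧ (G.ClE s → Res true (G.cx (s.erase v) b))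

def S_lose : Prop := ∀ (α : Type) [DecidableEq α] (G : Apex α), G.Ok → ∀ (s : Finset α) (b : Bool),
  (∀ v ∈ s, Odd (G.deg s v) → ((G.ClE s ↔ G.ClO (s.erase v)) ∧ (G.ClO s ↔ G.ClE (s.erase v)))) ∧
  (∀ v ∈ s, Res false (G.cx (s.erase v) b) → Res true (G.cx s b)) ∧
  (G.Tri s → Res false (G.cx s false) → Res true (G.cx s true)) ∧
  (G.Tri s → G.ClE s ∨ (G.ClO s ∧ Even (G.deg s G.c) ∧ Even (G.deg s G.z)) →
    (∀ v ∈ s, Odd (G.deg s v) → v ≠ G.c → v ≠ G.z → Res true (G.cx (s.erase v) b)) →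
    (b = true → Res true (G.cx s false)) → Res false (G.cx s b))

def S_pairO : Prop := ∀ (α : Type) [DecidableEq α] (G : Apex α), G.Ok → ∀ (π : α → α)
  (s : Finset α), G.Pd π s → Odd (nE (G.cx s false))

def S_pair : Prop := ∀ (α : Type) [DecidableEq α] (G : Apex α), G.Ok → ∀ (π : α → α)
  (s : Finset α), G.Pd π s → G.ClO s → Res false (G.cx s false)

def S_triple : Prop := ∀ (α : Type) [DecidableEq α] (G : Apex α), G.Ok → ∀ s : Finset α, G.Tri s →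
  (∀ σ ∈ G.cx s true, σ.Nonempty ∧ σ ⊆ s ∧ σ.card ≤ 3 ∧ (σ.card = 3 → σ = {G.c, G.z, G.w}) ∧
    ∀ ρ ⊆ σ, ρ.Nonempty → ρ ∈ G.cx s true) ∧ ({G.c, G.z, G.w} : Finset α).card = 3 ∧
  ∀ a b c : α, ({a, b, c} : Finset α) ∈ G.cx s true ↔ a ∈ s ∧ b ∈ s ∧ c ∈ s ∧
    (a = b ∨ G.A a b = true) ∧ (a = c ∨ G.A a c = true) ∧ (b = c ∨ G.A b c = true)

/-! ### Labels -/

/-- a bipartite graph on vertices `(class, member)` -/
structure Mach where
  K : ℕ
  adj : ℕ × ℕ → ℕ × ℕ → Bool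
  side : ℕ → Bool
  fix : ℕ → Bool

def tau (κ e : ℕ) : ℕ := 4 * κ + 2 * e + 4
def goal (σ : Bool) : ℕ × ℕ × ℕ := (0, 4 + σ.toNat, 0)
def pm (ω : ℕ → ℕ) (u : ℕ × ℕ) : ℕ × ℕ := (u.1, u.2 ^^^ ω u.1)
def cnt (s : Finset (ℕ × ℕ)) (κ : ℕ) : ℕ := (s.filter fun u => u.1 = κ).card
def full (κ e : ℕ) : ℕ := tau κ e + 1

namespace Mach

variable (P : Mach)

structure Ok : Prop where
  symm : ∀ u v, P.adj u v = P.adj v u
  sd : ∀ u v, P.adj u v = true → P.side u.1 ≠ P.side v.1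

def arc (u v : ℕ × ℕ × ℕ) : Bool := decide (
  (u.2.2 = 0 ∧ v.2.2 = 0 ∧ u.2.1 < 4 ∧ v.2.1 < 4 ∧ P.adj (u.1, u.2.1) (v.1, v.2.1) = true) ∨
  (u.2.2 = 0 ∧ u.2.1 < 4 ∧ v.1 = u.1 ∧ v.2.2 = tau v.1 v.2.1 + 1 ∧
    (v.2.1 = 0 ∨ P.fix u.1 = true)) ∨
  (1 ≤ u.2.2 ∧ v.1 = u.1 ∧ v.2.1 = u.2.1 ∧ v.2.2 = u.2.2 + 1) ∨
  (u.1 = 0 ∧ u.2.1 = 4 + (P.side v.1).toNat ∧ u.2.2 = 0 ∧
    (v.2.2 = 1 ∨ v.2.2 = tau v.1 v.2.1 + 1)) ∨
  (u.1 = 0 ∧ u.2.2 = 0 ∧ v.1 = 0 ∧ v.2.2 = 0 ∧ 4 ≤ u.2.1 ∧ u.2.1 < v.2.1 ∧ v.2.1 ≤ 6))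

/-- the whole graph -/
def G : Apex (ℕ × ℕ × ℕ) where
  A u v := P.arc u v || P.arc v u
  col v := if v.2.2 = 0 then (if v.2.1 < 4 then P.side v.1 else decide (v.2.1 = 5))
    else (P.side v.1 ^^ decide (v.2.2 % 2 = 1))
  c := goal false
  z := goal true
  w := (0, 6, 0)

/-- the vertices left: machine vertices `s`, the cycle of the label `(κ, e)` up to height `h κ e` -/
def vs (s : Finset (ℕ × ℕ)) (h : ℕ → ℕ → ℕ) : Finset (ℕ × ℕ × ℕ) :=
  s.image (fun u => (u.1, u.2, 0)) ∪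
    (range P.K ×ˢ range 2).biUnion (fun p => (Icc 1 (h p.1 p.2)).image fun r => (p.1, p.2, r)) ∪
    {(0, 4, 0), (0, 5, 0), (0, 6, 0)}

def In (s : Finset (ℕ × ℕ)) : Prop := ∀ u ∈ s, u.1 < P.K ∧ u.2 < 4
def pos (s : Finset (ℕ × ℕ)) (b : Bool) : Finset (Finset (ℕ × ℕ × ℕ)) := P.G.cx (P.vs s full) b
def od (s : Finset (ℕ × ℕ)) (u : ℕ × ℕ) : Prop :=
  Odd ((s.filter fun v => P.adj u v = true).card + 1 + (P.fix u.1).toNat)
def CE (s : Finset (ℕ × ℕ)) : Prop := P.G.ClE (P.vs s full)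
def CO (s : Finset (ℕ × ℕ)) : Prop := P.G.ClO (P.vs s full)

/-- the label `(κ, e)`, if still there, has odd degree -/
def lab (s : Finset (ℕ × ℕ)) (κ e : ℕ) : Prop := (e = 0 ∨ P.fix κ = true) ∧ Odd (cnt s κ)

/-- number of fronts at level `r` of the goal `σ`; for `r = 0` the parity of the goal -/
def fr (h : ℕ → ℕ → ℕ) (σ : Bool) (r : ℕ) : ℕ :=
  ((range P.K ×ˢ range 2).filter fun p => P.side p.1 = σ ∧ h p.1 p.2 = r ∧ r ≤ tau p.1 p.2).card +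
    if r = 0 then ((range P.K ×ˢ range 2).filter fun p =>
      P.side p.1 = σ ∧ h p.1 p.2 ≤ tau p.1 p.2).card else 0

def Bal (s : Finset (ℕ × ℕ)) (h : ℕ → ℕ → ℕ) : Prop :=
  (∀ κ < P.K, ∀ e < 2, h κ e = tau κ e + 1 → ¬ P.lab s κ e) ∧ ∀ σ r, Even (P.fr h σ r)

/-- lower one height -/
def low (h : ℕ → ℕ → ℕ) (κ e : ℕ) (κ' e' : ℕ) : ℕ :=
  if κ' = κ ∧ e' = e then h κ e - 1 else h κ' e'

/-- the front of the cycle `(κ, e)` can be deleted -/
def Fr (s : Finset (ℕ × ℕ)) (h : ℕ → ℕ → ℕ) (κ e : ℕ) : Prop :=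
  κ < P.K ∧ e < 2 ∧ 1 ≤ h κ e ∧ (h κ e ≤ tau κ e ∨ P.lab s κ e)

structure Paired (ω : ℕ → ℕ) (s : Finset (ℕ × ℕ)) : Prop where
  mem : ∀ u ∈ s, pm ω u ∈ s
  nz : ∀ u ∈ s, ω u.1 ≠ 0
  par : ∀ u ∈ s, (P.od s (pm ω u) ↔ P.od s u)
  blk : ∀ u ∈ s, ∀ v ∈ s,
    (P.adj u v ^^ P.adj u (pm ω v)) = (P.adj (pm ω u) v ^^ P.adj (pm ω u) (pm ω v))

/-- paired apart from one odd vertex -/
def Hot (ω : ℕ → ℕ) (s : Finset (ℕ × ℕ)) (d : ℕ × ℕ) : Prop :=
  P.In s ∧ d ∈ s ∧ P.od s d ∧ P.Paired ω (s.erase d)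

def Sym (ω : ℕ → ℕ) (a u : ℕ × ℕ) : Prop := P.adj a (pm ω u) = P.adj a u

end Mach

def S_Gok : Prop := ∀ P : Mach, P.Ok → P.G.Ok

/-- vertices, degrees and moves of the states -/
def S_vs : Prop := ∀ P : Mach, P.Ok → ∀ (s : Finset (ℕ × ℕ)) (h : ℕ → ℕ → ℕ), P.In s →
  (∀ κ e, h κ e ≤ tau κ e + 1) →
  P.G.Tri (P.vs s h) ∧
  (∀ v : ℕ × ℕ × ℕ, v ∈ P.vs s h ↔ (v.2.2 = 0 ∧ (v.1, v.2.1) ∈ s) ∨
    (v.1 < P.K ∧ v.2.1 < 2 ∧ 1 ≤ v.2.2 ∧ v.2.2 ≤ h v.1 v.2.1) ∨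
    (v.1 = 0 ∧ v.2.2 = 0 ∧ 4 ≤ v.2.1 ∧ v.2.1 ≤ 6)) ∧
  (∀ u ∈ s, (P.vs s h).erase (u.1, u.2, 0) = P.vs (s.erase u) h) ∧
  (∀ κ < P.K, ∀ e < 2, 1 ≤ h κ e → (P.vs s h).erase (κ, e, h κ e) = P.vs s (Mach.low h κ e)) ∧
  (Odd (P.vs s full).card ↔ Even s.card)

def S_deg : Prop := ∀ P : Mach, P.Ok → ∀ (s : Finset (ℕ × ℕ)) (h : ℕ → ℕ → ℕ), P.In s →
  (∀ κ e, h κ e ≤ tau κ e + 1) →
  (∀ u ∈ s, (Odd (P.G.deg (P.vs s full) (u.1, u.2, 0)) ↔ P.od s u)) ∧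
  (∀ κ < P.K, ∀ e < 2, ∀ r, 1 ≤ r → r ≤ h κ e →
    (Odd (P.G.deg (P.vs s h) (κ, e, r)) ↔ r = h κ e ∧ P.Fr s h κ e)) ∧
  Even (P.G.deg (P.vs s h) P.G.w)

def S_goal : Prop := ∀ P : Mach, P.Ok → ∀ (s : Finset (ℕ × ℕ)) (h : ℕ → ℕ → ℕ), P.In s →
  (∀ κ e, h κ e ≤ tau κ e + 1) → ∀ σ, (Odd (P.G.deg (P.vs s h) (goal σ)) ↔ Odd (P.fr h σ 0))

/-- the effect of a move on the counts of fronts -/
def S_fr : Prop := ∀ (P : Mach) (h : ℕ → ℕ → ℕ), (∀ κ e, h κ e ≤ tau κ e + 1) →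
  (∀ σ r, P.fr full σ r = 0) ∧
  (∀ σ r, 1 ≤ r → Odd (P.fr h σ r) → ∃ κ < P.K, ∃ e < 2, P.side κ = σ ∧ h κ e = r ∧ r ≤ tau κ e) ∧
  ∀ κ < P.K, ∀ e < 2, 1 ≤ h κ e → ∀ σ r, (Even (P.fr (Mach.low h κ e) σ r) ↔
    (Even (P.fr h σ r) ↔ ¬ (σ = P.side κ ∧ (r = h κ e - 1 ∨ r = h κ e % (tau κ e + 1)))))

/-- the attacker keeps the state unbalanced -/
def S_step : Prop := ∀ (P : Mach) (s : Finset (ℕ × ℕ)) (h : ℕ → ℕ → ℕ),
  (∀ κ e, h κ e ≤ tau κ e + 1) → ¬ P.Bal s h → (∀ σ, Even (P.fr h σ 0)) →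
  ∃ κ e, P.Fr s h κ e ∧ (∀ s', ¬ P.Bal s' (Mach.low h κ e)) ∧
    ∀ κ' e', P.Fr s (Mach.low h κ e) κ' e' → ¬ P.Bal s (Mach.low (Mach.low h κ e) κ' e')

def S_attack : Prop := ∀ P : Mach, P.Ok → ∀ (s : Finset (ℕ × ℕ)) (h : ℕ → ℕ → ℕ), P.In s →
  (∀ κ e, h κ e ≤ tau κ e + 1) →
  (P.G.ClO (P.vs s h) → ¬ P.Bal s h → Res true (P.G.cx (P.vs s h) false)) ∧
  (P.G.ClE (P.vs s h) →
    (∀ u ∈ s, Odd (P.G.deg (P.vs s h) (u.1, u.2, 0)) → ¬ P.Bal (s.erase u) h) →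
    (∀ κ e, P.Fr s h κ e → ¬ P.Bal s (Mach.low h κ e)) → Res false (P.G.cx (P.vs s h) false))

/-- elementary facts on the machine level -/
def S_elem : Prop := ∀ P : Mach, P.Ok → ∀ (s : Finset (ℕ × ℕ)) (ω : ℕ → ℕ),
  (∀ u ∈ s, ∀ v, (P.od (s.erase u) v ↔ (P.od s v ↔ P.adj v u = false))) ∧
  (∀ u ∈ s, ∀ κ, (Odd (cnt (s.erase u) κ) ↔ (Odd (cnt s κ) ↔ u.1 ≠ κ))) ∧
  (∀ u, pm ω (pm ω u) = u ∧ P.adj u (pm ω u) = false ∧ (ω u.1 ≠ 0 → pm ω u ≠ u)) ∧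
  (P.Paired ω s → Even s.card ∧ (∀ κ, Even (cnt s κ)) ∧
    ∀ u ∈ s, P.Paired ω ((s.erase u).erase (pm ω u)))

def S_paired : Prop := ∀ P : Mach, P.Ok → ∀ (s : Finset (ℕ × ℕ)) (ω : ℕ → ℕ), P.In s →
  P.Paired ω s → P.CO s ∧ Res false (P.pos s false) ∧ Res true (P.pos s true)

def S_move : Prop := ∀ P : Mach, P.Ok → ∀ s : Finset (ℕ × ℕ), P.In s → ∀ u ∈ s,
  (∀ b, Res false (P.pos (s.erase u) b) → Res true (P.pos s b)) ∧
  (P.od s u → (P.CE s ↔ P.CO (s.erase u)) ∧ (P.CO s ↔ P.CE (s.erase u)))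

def S_forced : Prop := ∀ P : Mach, P.Ok → ∀ (s : Finset (ℕ × ℕ)) (κ₁ κ₂ : ℕ), P.In s → P.CO s →
  κ₁ ≠ κ₂ → Odd (cnt s κ₁) → Odd (cnt s κ₂) →
  (∀ v ∈ s, P.od s v → v.1 = κ₁ ∨ v.1 = κ₂ → Res true (P.pos (s.erase v) true)) →
  Res false (P.pos s true)

def S_zl : Prop := ∀ P : Mach, P.Ok → ∀ I : Finset (ℕ × ℕ) → Prop,
  (∀ s, I s → ∃ ω d, P.Hot ω s d ∧ ∀ u ∈ s, u ≠ d → P.od s u → ∃ v ∈ s.erase u,
    I ((s.erase u).erase v) ∨ Res false (P.pos ((s.erase u).erase v) true)) →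
  ∀ s, I s → Res false (P.pos s true)

/-- mirrored moves, and moves of the token -/
def S_mirror : Prop := ∀ P : Mach, P.Ok → ∀ (ω : ℕ → ℕ) (s : Finset (ℕ × ℕ)) (d : ℕ × ℕ),
  P.Hot ω s d → P.CE s ∧ (∀ κ, Odd (cnt s κ) ↔ κ = d.1) ∧ ∀ u ∈ s, u ≠ d →
    pm ω u ∈ s.erase u ∧ pm ω u ≠ d ∧
    (P.Sym ω d u → P.Hot ω ((s.erase u).erase (pm ω u)) d) ∧
    (∀ a, P.Sym ω a u → (P.od ((s.erase u).erase (pm ω u)) a ↔ P.od s a)) ∧
    (P.od s u → P.adj d u = false → P.Hot ω ((s.erase u).erase d) (pm ω u))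

def S_haven : Prop := ∀ P : Mach, P.Ok → ∀ (ω : ℕ → ℕ) (s : Finset (ℕ × ℕ)) (d : ℕ × ℕ),
  P.Hot ω s d →
  ((∀ u ∈ s, u ≠ d → P.Sym ω d u) → Res false (P.pos s true)) ∧
  ∀ x, P.adj d x = true → P.adj d (pm ω x) = false → ¬ P.od s x →
    (∀ u ∈ s, u ≠ d → u ≠ x → u ≠ pm ω x → P.Sym ω d u ∧ P.Sym ω x u) → Res false (P.pos s true)

/-! ### The machine of a quantified formula -/

structure Qb where
  n : ℕ
  m : ℕ
  q : ℕ → Bool
  sg : ℕ → ℕ → ℕ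

def lit (s : ℕ) (b : Bool) : Prop := (s = 1 ∧ b = true) ∨ (s = 2 ∧ b = false)

namespace Qb

variable (F : Qb)

structure Ok : Prop where
  hn : 0 < F.n
  hm : 0 < F.m
  hs : ∀ j i, F.sg j i < 3

def Mat (a : ℕ → Bool) : Prop := ∀ j < F.m, ∃ i < F.n, lit (F.sg j i) (a i)

/-- `Val k i a`: truth of the formula with the `k` variables from `i` on quantified -/
def Val : ℕ → ℕ → (ℕ → Bool) → Prop
  | 0, _, a => F.Mat a
  | k + 1, i, a => if F.q i = true then ∀ b, Val k (i + 1) (update a i b)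
      else ∃ b, Val k (i + 1) (update a i b)

/-- number of members of the class `8 * i + ty`; `ty` = 0 : U, 1 : X, 2 : Q, 3 : E, 4 : D,
5 : Q star, 6 : B -/
def size (κ : ℕ) : ℕ :=
  if (κ % 8 = 1 ∧ κ / 8 < F.n ∧ F.q (κ / 8) = true) ∨ (κ % 8 = 4 ∧ κ / 8 + 1 = F.m) then 4
  else if (κ % 8 = 0 ∧ κ / 8 ≤ 2 * F.n) ∨ (κ % 8 = 1 ∧ κ / 8 < F.n) ∨ (κ % 8 = 2 ∧ κ / 8 < 3 * F.n) ∨
    ((κ % 8 = 3 ∨ κ % 8 = 4) ∧ κ / 8 < F.m) ∨ (κ % 8 = 5 ∧ κ / 8 < 2) ∨ κ = 6 then 2 else 0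

def arc (u v : ℕ × ℕ) : Bool := decide (
  (u.1 % 8 = 0 ∧ v.1 % 8 = 0 ∧ v.1 / 8 = u.1 / 8 + 1 ∧ u.2 = v.2) ∨
  (u.1 % 8 = 0 ∧ v.1 % 8 = 1 ∧ u.1 / 8 = 2 * (v.1 / 8)) ∨
  (u.1 % 8 = 1 ∧ v.1 % 8 = 2 ∧ v.1 / 8 / 3 = u.1 / 8 ∧
    ((F.q (u.1 / 8) = true ∧ u.2 / (v.1 / 8 % 3) % 2 = 1) ∨
     (F.q (u.1 / 8) = false ∧ ((v.1 / 8 % 3 = 1 ∧ u.2 = v.2) ∨ (v.1 / 8 % 3 = 2 ∧ u.2 = 1))))) ∨
  (u.1 % 8 = 2 ∧ v.1 % 8 = 3 ∧ u.2 = 0 ∧ u.1 / 8 % 3 = F.sg (v.1 / 8) (u.1 / 8 / 3)) ∨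
  (u.1 % 8 = 0 ∧ v.1 = 3 ∧ u.1 / 8 = 2 * F.n ∧ u.2 = 0) ∨
  (u.1 % 8 = 3 ∧ v.1 = u.1 + 1 ∧ u.2 = 1) ∨
  (u.1 % 8 = 4 ∧ v.1 = u.1 + 7 ∧ u.2 = 1) ∨
  (u.1 = 6 ∧ v.1 % 8 = 4 ∧ u.2 = 0) ∨
  (u.1 % 8 = 4 ∧ v.1 % 8 = 5 ∧ u.1 / 8 + 1 = F.m ∧ u.2 / (v.1 / 8 + 1) % 2 = 1) ∨
  (u.1 % 8 = 5 ∧ v.1 % 8 = 0 ∧ u.2 = 0 ∧ v.1 / 8 = 2 * F.n))

def mach : Mach where
  K := 8 * (3 * F.n + F.m + 3)
  adj u v := F.arc u v || F.arc v u
  side κ := decide (if κ % 8 = 0 then κ / 8 % 2 = 1 else κ % 8 ≠ 2 ∧ κ % 8 ≠ 4)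
  fix κ := decide ((κ % 8 = 0 ∧ κ / 8 < 2 * F.n) ∨ (κ % 8 = 1 ∧ F.q (κ / 8) = true) ∨
    (κ % 8 = 2 ∧ κ / 8 % 3 = 1 ∧ F.q (κ / 8 / 3) = false) ∨ (κ % 8 = 3 ∧ F.n % 2 = 1) ∨
    κ % 8 = 4 ∨ κ % 8 = 6)

def alive (t : ℕ) (R : ℕ → Finset ℕ) (g : ℕ) (u : ℕ × ℕ) : Prop :=
  u.2 < F.size u.1 ∧ (u.1 % 8 = 0 → t < u.1 / 8 ∨ (u.1 / 8 = t ∧ u.2 = 1)) ∧
    (u.1 % 8 = 1 → u.2 ∉ R (u.1 / 8)) ∧ (u.1 % 8 = 3 → g ≤ 2 * (u.1 / 8)) ∧
    (u.1 % 8 = 4 → g ≤ 2 * (u.1 / 8) + 1)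

instance (t : ℕ) (R : ℕ → Finset ℕ) (g : ℕ) (u : ℕ × ℕ) : Decidable (F.alive t R g u) := by
  unfold alive; infer_instance

def St (t : ℕ) (R : ℕ → Finset ℕ) (g : ℕ) : Finset (ℕ × ℕ) :=
  (range F.mach.K ×ˢ range 4).filter (F.alive t R g)

structure Wf (t : ℕ) (R : ℕ → Finset ℕ) (g : ℕ) : Prop where
  le : t ≤ 2 * F.n
  fut : ∀ i, t < 2 * i → R i = ∅
  sub : ∀ i, ∀ b ∈ R i, b < F.size (8 * i + 1)
  ev : ∀ i, Even (R i).card
  g0 : t < 2 * F.n → g = 0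
  gm : g < 2 * F.m

/-- the literal `s` of the variable `i` is enabled -/
def en (R : ℕ → Finset ℕ) (i s : ℕ) : Prop :=
  (F.q i = true ∧ Odd ((R i).filter fun b => b / s % 2 = 1).card) ∨
    (F.q i = false ∧ ((s = 1 ∧ R i ≠ ∅) ∨ (s = 2 ∧ R i = ∅)))

/-- the odd vertices -/
def tab (t : ℕ) (R : ℕ → Finset ℕ) (g : ℕ) (u : ℕ × ℕ) : Prop :=
  (u.1 % 8 = 0 ∧ (u.1 / 8 = t ∨ (u.1 / 8 = t + 1 ∧ u.2 = 0))) ∨ (u.1 % 8 = 1 ∧ 2 * (u.1 / 8) = t) ∨
  (u.1 % 8 = 2 ∧ ¬ F.en R (u.1 / 8 / 3) (u.1 / 8 % 3)) ∨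
  (u.1 % 8 = 3 ∧ t = 2 * F.n ∧ g = 2 * (u.1 / 8)) ∨ (u.1 % 8 = 4 ∧ g = 2 * (u.1 / 8) + 1) ∨
  (u.1 % 8 = 5 ∧ (t < 2 * F.n ∨ u.2 = 1))

/-- masks that fit the sizes of the classes -/
def Msk (ω : ℕ → ℕ) : Prop := ∀ κ, ω κ ≠ 0 ∧ ω κ < 4 ∧ (F.size κ ≠ 4 → ω κ = 1)
def Adm (ω : ℕ → ℕ) (R : ℕ → Finset ℕ) : Prop :=
  F.Msk ω ∧ ∀ i, ∀ b ∈ R i, b ^^^ ω (8 * i + 1) ∈ R i
def Val' (s : Finset (ℕ × ℕ)) : Prop := ∀ u ∈ s, u.2 < F.size u.1

/-- number of decided variables -/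
def dec (t : ℕ) (R : ℕ → Finset ℕ) : ℕ := if t % 2 = 0 ∧ R (t / 2) = ∅ then t / 2 else t / 2 + 1

/-- the start -/
def s1 : Finset (ℕ × ℕ) := (F.St 0 (fun _ => ∅) 0).erase (8, 0)

end Qb

def S_mok : Prop := ∀ F : Qb, F.mach.Ok ∧ (∀ κ, F.size κ ≤ 4 ∧ (0 < F.size κ → κ < F.mach.K)) ∧
  (∀ t R g u, u ∈ F.St t R g ↔ F.alive t R g u) ∧ (∀ t R g, F.mach.In (F.St t R g)) ∧
  ∀ ω, F.Msk ω → ∀ u v : ℕ × ℕ, u.2 < F.size u.1 → pm ω u ≠ u ∧ (pm ω u).2 < F.size u.1 ∧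
    (v.2 < F.size v.1 → (F.mach.adj u v ^^ F.mach.adj u (pm ω v)) =
      (F.mach.adj (pm ω u) v ^^ F.mach.adj (pm ω u) (pm ω v)))

/-- the parity table for the classes of type `ty` -/
def S_tab (ty : ℕ) : Prop := ∀ F : Qb, F.Ok → ∀ t R g, F.Wf t R g → ∀ u ∈ F.St t R g,
  u.1 % 8 = ty → (F.mach.od (F.St t R g) u ↔ F.tab t R g u)

def S_table : Prop := ∀ F : Qb, F.Ok → ∀ t R g, F.Wf t R g → ∀ u ∈ F.St t R g,
  (F.mach.od (F.St t R g) u ↔ F.tab t R g u)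

def S_hot : Prop := ∀ F : Qb, F.Ok → ∀ t R g ω, F.Wf t R g → F.Adm ω R →
  F.mach.Hot ω (F.St t R g) (8 * t, 1)

def S_adm : Prop := ∀ F : Qb, F.Ok → ∀ t R g, F.Wf t R g → ∀ (c : ℕ → ℕ) (r : ℕ), r < 2 →
  (∀ i < F.n, c i < 3 ∧ ¬ F.en R i (c i)) → ∃ ω, F.Adm ω R ∧
    (∀ i < F.n, F.q i = true → ω (8 * i + 1) / c i % 2 = 0) ∧ ω (8 * (F.m - 1) + 4) / (r + 1) % 2 = 0

def S_trans : Prop := ∀ F : Qb, F.Ok → ∀ t R g, F.Wf t R g →
  (t < 2 * F.n → ((F.St t R g).erase (8 * (t + 1), 0)).erase (8 * t, 1) = F.St (t + 1) R g ∧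
    F.Wf (t + 1) R g) ∧
  (∀ i a b, t = 2 * i → a ≠ b → (8 * i + 1, a) ∈ F.St t R g → (8 * i + 1, b) ∈ F.St t R g →
    ((F.St t R g).erase (8 * i + 1, a)).erase (8 * i + 1, b) =
      F.St t (update R i (insert a (insert b (R i)))) g ∧
    F.Wf t (update R i (insert a (insert b (R i)))) g) ∧
  (∀ j a, t = 2 * F.n → g = 2 * j → a < 2 →
    ((F.St t R g).erase (8 * j + 3, a)).erase (8 * j + 3, a ^^^ 1) = F.St t R (g + 1) ∧
    F.Wf t R (g + 1)) ∧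
  (∀ j a, g = 2 * j + 1 → j + 1 < F.m → a < 2 →
    ((F.St t R g).erase (8 * j + 4, a)).erase (8 * j + 4, a ^^^ 1) = F.St t R (g + 1) ∧
    F.Wf t R (g + 1))

/-- the gates, true matrix -/
def S_zeroG : Prop := ∀ F : Qb, F.Ok → ∀ R g, F.Wf (2 * F.n) R g →
  (∀ j < F.m, ∃ i < F.n, F.en R i (F.sg j i)) → Res true (F.mach.pos (F.St (2 * F.n) R g) true)

def S_zero : Prop := ∀ F : Qb, F.Ok → ∀ t R (a : ℕ → Bool), F.Wf t R 0 →
  (t % 2 = 0 → R (t / 2) = ∅) → F.Val (F.n - (t + 1) / 2) ((t + 1) / 2) a →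
  (∀ i < (t + 1) / 2, ∀ s, lit s (a i) → F.en R i s) → Res true (F.mach.pos (F.St t R 0) true)

def S_qhaven : Prop := ∀ F : Qb, F.Ok → ∀ ω s i c b, F.Msk ω → F.Val' s → c < 3 →
  F.mach.Hot ω s (8 * (3 * i + c) + 2, b) → (F.q i = true → ω (8 * i + 1) / c % 2 = 0) →
  (F.q i = false → c = 2 → (8 * i + 1, 1) ∉ s) →
  (F.q i = false → c = 1 → (8 * i + 1, b) ∈ s → ¬ F.mach.od s (8 * i + 1, b)) →
  Res false (F.mach.pos s true)

def S_shaven : Prop := ∀ F : Qb, F.Ok → ∀ ω s r b, F.Msk ω → F.Val' s →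
  F.mach.Hot ω s (8 * r + 5, b) → ω (8 * (F.m - 1) + 4) / (r + 1) % 2 = 0 →
  Res false (F.mach.pos s true)

def S_ehaven : Prop := ∀ F : Qb, F.Ok → ∀ ω s j b, F.Msk ω → F.Val' s →
  F.mach.Hot ω s (8 * j + 3, b) → (∀ u ∈ s, u.1 % 8 ≠ 0 ∧ u.1 + 7 ≠ 8 * j + 3) →
  (∀ i < F.n, ¬ F.mach.od s (8 * (3 * i + F.sg j i) + 2, 0) ∧
    (F.q i = true → ω (8 * i + 1) / F.sg j i % 2 = 0) ∧
    (F.q i = false → F.sg j i = 2 → (8 * i + 1, 1) ∉ s) ∧
    (F.q i = false → F.sg j i = 1 → ∀ b', (8 * i + 1, b') ∈ s → ¬ F.mach.od s (8 * i + 1, b'))) →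
  Res false (F.mach.pos s true)

/-- an odd literal pair or final pair is fired -/
def S_switch : Prop := ∀ F : Qb, F.Ok → ∀ t R g, F.Wf t R g → ∀ u ∈ F.St t R g,
  u.1 % 8 = 2 ∨ u.1 % 8 = 5 → F.tab t R g u →
  Res false (F.mach.pos (((F.St t R g).erase u).erase (8 * t, 1)) true)

def S_oneG : Prop := ∀ F : Qb, F.Ok → ∀ R g j, F.Wf (2 * F.n) R g → j < F.m → g ≤ 2 * j →
  (∀ i < F.n, ¬ F.en R i (F.sg j i)) → Res false (F.mach.pos (F.St (2 * F.n) R g) true)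

def S_one : Prop := ∀ F : Qb, F.Ok → ∀ t R (a : ℕ → Bool), F.Wf t R 0 →
  ¬ F.Val (F.n - Qb.dec t R) (Qb.dec t R) a →
  (∀ i < Qb.dec t R, ∀ s < 3, F.en R i s → lit s (a i)) → Res false (F.mach.pos (F.St t R 0) true)

def S_main : Prop := ∀ F : Qb, F.Ok → F.q 0 = false →
  (Res true (F.mach.pos F.s1 true) ↔ ¬ F.Val (F.n - 1) 1 fun _ => false)

/-! ### The formula of a game -/

def sign (M r' r : ℕ) : ℕ := if r' < r then 1 else if r' = r ∧ r + 1 < M then 2 else 0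

def qb (P : PS.Par) : Qb where
  n := 1 + (P.T - 1) * P.M
  m := P.T * P.M * P.M
  q i := decide (1 ≤ i ∧ (i - 1) / P.M % 2 = 0)
  sg j i :=
    if 1 ≤ j / P.M / P.M ∧ (j / P.M / P.M = 1 → j / P.M = P.s0) ∧
        P.Rl (P.T * P.M + j % P.M) (j / P.M) = false then
      (if i = 0 then 0 else if (i - 1) / P.M + 2 = P.T then sign P.M ((i - 1) % P.M) (j % P.M)
        else if (i - 1) / P.M + 2 = j / P.M / P.M then sign P.M ((i - 1) % P.M) (j / P.M % P.M)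
        else 0)
    else if i = 0 then 2 else 0

def S_enc : Prop := ∀ P : PS.Par, 0 < P.M → 3 ≤ P.T → P.T % 2 = 1 →
  (qb P).Ok ∧ (qb P).q 0 = false ∧
    ((qb P).Val ((qb P).n - 1) 1 (fun _ => false) ↔ ¬ P.Q (P.T - 1) 1 fun _ => P.s0)

end Pool.Agent.Chomp.SC
end

-- merged part: Pool.Agent.Work.MP_ff0f6a_lc.SC.Eqs
section
/-!
The unfolding lemma of the recursive definition is created once, here.
-/

theorem Pool.Agent.Chomp.SC.eqs_val : type_of% @Pool.Agent.Chomp.SC.Qb.Val.eq_def :=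
  @Pool.Agent.Chomp.SC.Qb.Val.eq_def
end

-- merged part: Pool.Agent.Work.MP_ff0f6a_lc.SC.Enc
section
/-!
The quantified formula of a game.
-/

namespace Pool.Agent.Chomp.SC

open Function

/-- `r` is the value chosen by the block of `M` variables from `b` on -/
def EncCh (M : ℕ) (a : ℕ → Bool) (b r : ℕ) : Prop :=
  r < M ∧ (∀ r' < r, a (b + r') = false) ∧ (r + 1 < M → a (b + r) = true)

theorem enc_uniq {M b r r' : ℕ} {a : ℕ → Bool} (h : EncCh M a b r) (h' : EncCh M a b r') :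
    r = r' := by
  obtain ⟨a1, a2, a3⟩ := h
  obtain ⟨b1, b2, b3⟩ := h'
  rcases lt_trichotomy r r' with c | c | c
  · have := b2 r c
    rw [a3 (by omega)] at this
    exact absurd this (by simp)
  · exact c
  · have := a2 r' c
    rw [b3 (by omega)] at this
    exact absurd this (by simp)

theorem enc_ex {M : ℕ} (hM : 0 < M) (a : ℕ → Bool) (b : ℕ) : ∃ r, EncCh M a b r := by
  have h : ∃ r, a (b + r) = true ∨ M ≤ r + 1 := ⟨M, Or.inr (by omega)⟩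
  refine ⟨Nat.find h, ?_, fun r' hr => ?_, fun hr => ?_⟩
  · have := Nat.find_min' h (m := M - 1) (Or.inr (by omega))
    omega
  · have := Nat.find_min h hr
    simpa using (not_or.1 this).1
  · exact (Nat.find_spec h).resolve_right (by omega)

theorem enc_lit {M b r : ℕ} {a : ℕ → Bool} (hr : r < M) :
    (∃ r' < M, lit (sign M r' r) (a (b + r'))) ↔ ¬ EncCh M a b r := by
  constructor
  · rintro ⟨r', -, h⟩ ⟨-, a2, a3⟩
    unfold sign at h
    split_ifs at h with c1 c2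
    · simp [lit, a2 r' c1] at h
    · obtain ⟨rfl, c2⟩ := c2
      simp [lit, a3 c2] at h
    · simp [lit] at h
  · intro h
    by_cases c : ∀ r' < r, a (b + r') = false
    · have d : r + 1 < M ∧ a (b + r) = false := by
        by_contra d
        refine h ⟨hr, c, fun e => ?_⟩
        simpa [e] using d
      exact ⟨r, hr, by simp [sign, lit, d.1, d.2]⟩
    · obtain ⟨r', c⟩ := not_forall.1 c
      obtain ⟨c1, c2⟩ := Classical.not_imp.1 c
      exact ⟨r', by omega, by simpa [sign, lit, c1] using c2⟩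

theorem enc_idx {M r : ℕ} (s : ℕ) (hr : r < M) :
    (1 + s * M + r - 1) / M = s ∧ (1 + s * M + r - 1) % M = r := by
  have e : 1 + s * M + r - 1 = r + s * M := by omega
  rw [e, Nat.add_mul_div_right _ _ (by omega), Nat.add_mul_mod_self_right, Nat.div_eq_of_lt hr,
    Nat.mod_eq_of_lt hr]
  omega

theorem enc_dm {M r : ℕ} (s : ℕ) (hr : r < M) : (s * M + r) / M = s ∧ (s * M + r) % M = r := by
  have := enc_idx s hr
  rwa [show 1 + s * M + r - 1 = s * M + r by omega] at this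

/-- a block of variables with one quantifier -/
theorem enc_block (F : Qb) (k : ℕ) (c : Bool) : ∀ (M i : ℕ) (a : ℕ → Bool),
    (∀ r < M, F.q (i + r) = c) → (F.Val (k + M) i a ↔
      if c = true then ∀ a' : ℕ → Bool, (∀ j, j < i ∨ i + M ≤ j → a' j = a j) → F.Val k (i + M) a'
      else ∃ a' : ℕ → Bool, (∀ j, j < i ∨ i + M ≤ j → a' j = a j) ∧ F.Val k (i + M) a') := by
  intro M
  induction M with
  | zero =>
    intro i a _
    have e : ∀ a' : ℕ → Bool, (∀ j, j < i ∨ i + 0 ≤ j → a' j = a j) → a' = a :=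
      fun a' h => funext fun j => h j (by omega)
    split_ifs
    · exact ⟨fun h a' h' => e a' h' ▸ h, fun h => h a fun _ _ => rfl⟩
    · exact ⟨fun h => ⟨a, fun _ _ => rfl, h⟩, fun ⟨a', h', h⟩ => e a' h' ▸ h⟩
  | succ M ih =>
    intro i a hq
    have h0 : F.q i = c := hq 0 (by omega)
    have h1 := fun b => ih (i + 1) (update a i b) fun r hr => by
      rw [show i + 1 + r = i + (r + 1) by omega]
      exact hq _ (by omega)
    have e1 : ∀ (a' : ℕ → Bool) (b : Bool),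
        (∀ j, j < i + 1 ∨ i + 1 + M ≤ j → a' j = update a i b j) →
        ∀ j, j < i ∨ i + (M + 1) ≤ j → a' j = a j := fun a' b h j hj => by
      rw [h j (by omega), update_of_ne (by omega)]
    have e2 : ∀ a' : ℕ → Bool, (∀ j, j < i ∨ i + (M + 1) ≤ j → a' j = a j) →
        ∀ j, j < i + 1 ∨ i + 1 + M ≤ j → a' j = update a i (a' i) j := fun a' h j hj => by
      by_cases e : j = i
      · rw [e, update_self]
      · rw [update_of_ne e, h j (by omega)]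
    have e3 : i + 1 + M = i + (M + 1) := by omega
    rw [← add_assoc, Qb.Val, h0]
    split_ifs with hc
    · simp only [if_pos hc] at h1
      exact ⟨fun h a' h' => e3 ▸ (h1 _).1 (h _) a' (e2 a' h'),
        fun h b => (h1 b).2 fun a' h' => e3 ▸ h a' (e1 a' b h')⟩
    · simp only [if_neg hc] at h1
      constructor
      · rintro ⟨b, h⟩
        obtain ⟨a', h', h⟩ := (h1 b).1 h
        exact ⟨a', e1 a' b h', e3 ▸ h⟩
      · rintro ⟨a', h', h⟩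
        exact ⟨a' i, (h1 _).2 ⟨a', e2 a' h', e3 ▸ h⟩⟩

/-- the player who moves at the odd times wins -/
def EncA (P : PS.Par) : ℕ → ℕ → (ℕ → ℕ) → Prop
  | 0, t, v => ∀ j, 1 ≤ j → j < t → P.Rl (v t) (v j) = true
  | k + 1, t, v => if t % 2 = 1 then
        ∀ r < P.M, EncA P k (t + 1) (update v (t + 1) ((t + 1) * P.M + r))
      else ∃ r < P.M, EncA P k (t + 1) (update v (t + 1) ((t + 1) * P.M + r))

theorem enc_tm (P : PS.Par) (hM : 0 < P.M) (t : ℕ) (p : ℕ → Prop) :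
    (∃ x, P.tm x = t ∧ p x) ↔ ∃ r < P.M, p (t * P.M + r) := by
  constructor
  · rintro ⟨x, rfl, h⟩
    refine ⟨x % P.M, Nat.mod_lt _ hM, ?_⟩
    rwa [PS.Par.tm, Nat.div_add_mod']
  · rintro ⟨r, hr, h⟩
    exact ⟨_, (enc_dm t hr).1, h⟩

theorem enc_game (P : PS.Par) (hM : 0 < P.M) : ∀ (k t : ℕ) (v : ℕ → ℕ), (t + k) % 2 = 0 →
    (EncA P (k + 1) t v ↔ if t % 2 = 1 then ¬ P.Q (k + 1) t v else P.Q (k + 1) t v) := by
  intro k
  induction k with
  | zero =>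
    intro t v h
    have h' : ¬ t % 2 = 1 := by omega
    rw [EncA, if_neg h', if_neg h', PS.Par.Q, enc_tm P hM]
    refine exists_congr fun r => and_congr_right fun _ => ?_
    simp only [EncA, PS.Par.Q, update_self, not_false_eq_true, and_true, true_imp_iff]
    refine forall_congr' fun j => forall_congr' fun _ => ?_
    rw [Nat.lt_succ_iff]
    refine forall_congr' fun hj => ?_
    rw [update_of_ne (by omega)]
  | succ k ih =>
    intro t v h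
    have h1 := fun v' => ih (t + 1) v' (by omega)
    rw [EncA, PS.Par.Q, enc_tm P hM]
    by_cases c : t % 2 = 1
    · have c' : ¬ (t + 1) % 2 = 1 := by omega
      simp only [if_neg c'] at h1
      simp only [if_pos c, h1]
      simp
    · have c' : (t + 1) % 2 = 1 := by omega
      simp only [if_pos c'] at h1
      simp only [if_neg c, h1]
      simp

/-- the assignment `a` codes the history `v` up to time `t` -/
def EncRep (P : PS.Par) (a : ℕ → Bool) (t : ℕ) (v : ℕ → ℕ) : Prop :=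
  a 0 = false ∧ v 1 = P.s0 ∧
    ∀ s, s + 2 ≤ t → ∃ r, EncCh P.M a (1 + s * P.M) r ∧ v (s + 2) = (s + 2) * P.M + r

theorem enc_rep {P : PS.Par} {a a' : ℕ → Bool} {s r : ℕ} {v : ℕ → ℕ} (h : EncRep P a (s + 1) v)
    (ha : ∀ j < 1 + s * P.M, a' j = a j) (hr : EncCh P.M a' (1 + s * P.M) r) :
    EncRep P a' (s + 1 + 1) (update v (s + 1 + 1) ((s + 1 + 1) * P.M + r)) := by
  obtain ⟨h1, h2, h3⟩ := h
  refine ⟨(ha 0 (by omega)).trans h1, by rwa [update_of_ne (by omega)], fun s' hs => ?_⟩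
  by_cases e : s' = s
  · subst e
    exact ⟨r, hr, update_self ..⟩
  · obtain ⟨r', ⟨b1, b2, b3⟩, b4⟩ := h3 s' (by omega)
    have l : (s' + 1) * P.M ≤ s * P.M := Nat.mul_le_mul_right _ (by omega)
    rw [Nat.add_mul] at l
    refine ⟨r', ⟨b1, fun x hx => ?_, fun hx => ?_⟩, by rwa [update_of_ne (by omega)]⟩
    · rw [ha _ (by omega)]
      exact b2 x hx
    · rw [ha _ (by omega)]
      exact b3 hx

theorem enc_mat (P : PS.Par) (hM : 0 < P.M) (hT : 3 ≤ P.T) {a : ℕ → Bool} {v : ℕ → ℕ}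
    (h : EncRep P a P.T v) : (qb P).Mat a ↔ EncA P 0 P.T v := by
  obtain ⟨h1, h2, h3⟩ := h
  obtain ⟨T, eT⟩ : ∃ T, P.T = T + 2 := ⟨P.T - 2, by omega⟩
  obtain ⟨rx, c1, c2⟩ := h3 T eT.ge
  have s1 : P.s0 / P.M = 1 :=
    Nat.div_eq_of_lt_le (by unfold PS.Par.s0; omega) (by unfold PS.Par.s0; omega)
  have ix : ∀ i, i ≠ 0 → i = 1 + (i - 1) / P.M * P.M + (i - 1) % P.M := fun i hi => by
    have := Nat.div_add_mod' (i - 1) P.M
    omega
  have lt : ∀ s r, s ≤ T → r < P.M → 1 + s * P.M + r < 1 + (P.T - 1) * P.M := fun s r hs hr => by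
    have l : (s + 1) * P.M ≤ (P.T - 1) * P.M := Nat.mul_le_mul_right _ (by omega)
    rw [Nat.add_mul] at l
    omega
  have l0 : ∀ b, ¬ lit 0 b := fun b => by simp [lit]
  unfold Qb.Mat EncA
  simp only [qb]
  constructor
  · intro h j j1 j2
    by_contra hR
    have d : v j / P.M = j ∧ (j = 1 → v j = P.s0) ∧
        ∀ s, s + 2 = j → EncCh P.M a (1 + s * P.M) (v j % P.M) := by
      by_cases e : j = 1
      · subst e
        exact ⟨h2 ▸ s1, fun _ => h2, fun s hs => by omega⟩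
      · obtain ⟨s, rfl⟩ : ∃ s, j = s + 2 := ⟨j - 2, by omega⟩
        obtain ⟨r, b1, b2⟩ := h3 s j2.le
        have := enc_dm (s + 2) b1.1
        refine ⟨b2 ▸ this.1, fun e' => absurd e' e, fun s' hs => ?_⟩
        obtain rfl : s' = s := by omega
        rwa [b2, this.2]
    obtain ⟨d1, d2, d3⟩ := d
    obtain ⟨f1, f2⟩ := enc_dm (v j) c1.1
    have u : v j < P.T * P.M := (Nat.div_lt_iff_lt_mul hM).1 (by omega)
    obtain ⟨i, -, hi⟩ := h (v j * P.M + rx) ((Nat.div_lt_iff_lt_mul hM).1 (by rwa [f1]))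
    rw [f1, f2, d1, if_pos ⟨j1, d2, by
      rw [eT, ← c2, ← eT]
      simpa using hR⟩] at hi
    split_ifs at hi with g1 g2 g3
    · exact l0 _ hi
    · refine (enc_lit c1.1).1 ⟨(i - 1) % P.M, Nat.mod_lt _ hM, ?_⟩ c1
      obtain rfl : (i - 1) / P.M = T := by omega
      rwa [← ix i g1]
    · refine (enc_lit (Nat.mod_lt _ hM)).1 ⟨(i - 1) % P.M, Nat.mod_lt _ hM, ?_⟩ (d3 _ g3)
      rwa [← ix i g1]
    · exact l0 _ hi
  · intro h c hc
    have u : c / P.M / P.M < P.T :=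
      (Nat.div_lt_iff_lt_mul hM).2 ((Nat.div_lt_iff_lt_mul hM).2 hc)
    by_cases act : 1 ≤ c / P.M / P.M ∧ (c / P.M / P.M = 1 → c / P.M = P.s0) ∧
        P.Rl (P.T * P.M + c % P.M) (c / P.M) = false
    swap
    · exact ⟨0, by omega, by simp [if_neg act, lit, h1]⟩
    simp only [if_pos act]
    obtain ⟨a1, a2, a3⟩ := act
    by_cases g : EncCh P.M a (1 + T * P.M) (c % P.M)
    swap
    · obtain ⟨r, hr, g⟩ := (enc_lit (Nat.mod_lt c hM)).2 g
      obtain ⟨f1, f2⟩ := enc_idx T hr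
      refine ⟨1 + T * P.M + r, lt T r le_rfl hr, ?_⟩
      rwa [if_neg (by omega), f1, f2, if_pos eT.symm]
    have e : v P.T = P.T * P.M + c % P.M := by rw [eT, c2, enc_uniq g c1]
    have n : v (c / P.M / P.M) ≠ c / P.M := fun e' => by
      have := h _ a1 u
      rw [e, e', a3] at this
      exact absurd this (by simp)
    have n1 : c / P.M / P.M ≠ 1 := fun e' => n (by rw [e', h2, a2 e'])
    obtain ⟨s, hs⟩ : ∃ s, c / P.M / P.M = s + 2 := ⟨c / P.M / P.M - 2, by omega⟩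
    obtain ⟨r0, b1, b2⟩ := h3 s (by omega)
    have g' : ¬ EncCh P.M a (1 + s * P.M) (c / P.M % P.M) := fun g' => n (by
      rw [hs, b2, enc_uniq b1 g', ← hs, Nat.div_add_mod'])
    obtain ⟨r, hr, g'⟩ := (enc_lit (Nat.mod_lt _ hM)).2 g'
    obtain ⟨f1, f2⟩ := enc_idx s hr
    refine ⟨1 + s * P.M + r, lt s r (by omega) hr, ?_⟩
    rwa [if_neg (by omega), f1, f2, if_neg (by omega), if_pos hs.symm]

theorem enc_val (P : PS.Par) (hM : 0 < P.M) (hT : 3 ≤ P.T) : ∀ (k s : ℕ) (a : ℕ → Bool)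
    (v : ℕ → ℕ), s + 1 + k = P.T → EncRep P a (s + 1) v →
    ((qb P).Val (k * P.M) (1 + s * P.M) a ↔ EncA P k (s + 1) v) := by
  intro k
  induction k with
  | zero =>
    intro s a v e h
    rw [add_zero] at e
    rw [Nat.zero_mul, Qb.Val, e]
    exact enc_mat P hM hT (e ▸ h)
  | succ k ih =>
    intro s a v e h
    have e1 : 1 + s * P.M + P.M = 1 + (s + 1) * P.M := by ring
    have h1 : ∀ (a' : ℕ → Bool) (r : ℕ),
        (∀ j, j < 1 + s * P.M ∨ 1 + s * P.M + P.M ≤ j → a' j = a j) →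
        EncCh P.M a' (1 + s * P.M) r → ((qb P).Val (k * P.M) (1 + s * P.M + P.M) a' ↔
          EncA P k (s + 1 + 1) (update v (s + 1 + 1) ((s + 1 + 1) * P.M + r))) :=
      fun a' r ha hr => e1 ▸ ih (s + 1) a' _ (by omega) (enc_rep h (fun j hj => ha j (Or.inl hj)) hr)
    have h2 : ∀ r < P.M, ∃ a' : ℕ → Bool,
        (∀ j, j < 1 + s * P.M ∨ 1 + s * P.M + P.M ≤ j → a' j = a j) ∧
        EncCh P.M a' (1 + s * P.M) r := fun r hr => by
      refine ⟨fun j => if j < 1 + s * P.M ∨ 1 + s * P.M + P.M ≤ j then a j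
        else decide (j = 1 + s * P.M + r), fun j hj => if_pos hj, hr, fun x hx => ?_, fun _ => ?_⟩
      · simp only
        rw [if_neg (by omega)]
        exact decide_eq_false (by omega)
      · simp only
        rw [if_neg (by omega)]
        simp
    rw [Nat.succ_mul, enc_block (qb P) _ (decide (s % 2 = 0)) _ _ _ (fun r hr => by
      simp only [qb, (enc_idx s hr).1]
      exact decide_eq_decide.2 (by omega)), EncA]
    by_cases c : s % 2 = 0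
    · rw [if_pos (decide_eq_true c), if_pos (by omega)]
      constructor
      · intro g r hr
        obtain ⟨a', ha, hc⟩ := h2 r hr
        exact (h1 a' r ha hc).1 (g a' ha)
      · intro g a' ha
        obtain ⟨r, hc⟩ := enc_ex hM a' (1 + s * P.M)
        exact (h1 a' r ha hc).2 (g r hc.1)
    · rw [if_neg (by simpa using c), if_neg (by omega)]
      constructor
      · rintro ⟨a', ha, g⟩
        obtain ⟨r, hc⟩ := enc_ex hM a' (1 + s * P.M)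
        exact ⟨r, hc.1, (h1 a' r ha hc).1 g⟩
      · rintro ⟨r, hr, g⟩
        obtain ⟨a', ha, hc⟩ := h2 r hr
        exact ⟨a', ha, (h1 a' r ha hc).2 g⟩

theorem p_enc : S_enc := by
  intro P hM hT ho
  refine ⟨⟨by simp [qb], by simp only [qb]; positivity, fun j i => ?_⟩, by simp [qb], ?_⟩
  · simp only [qb, sign]
    split_ifs <;> omega
  · have h := enc_val P hM hT (P.T - 1) 0 (fun _ => false) (fun _ => P.s0) (by omega)
      ⟨rfl, rfl, fun s hs => by omega⟩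
    obtain ⟨k, e⟩ : ∃ k, P.T - 1 = k + 1 := ⟨P.T - 2, by omega⟩
    have g := enc_game P hM k 1 (fun _ => P.s0) (by omega)
    rw [if_pos (by omega)] at g
    have n : (qb P).n - 1 = (P.T - 1) * P.M := by simp [qb]
    rw [n, e, ← g]
    rw [e] at h
    simpa using h

end Pool.Agent.Chomp.SC
end

-- merged part: Pool.Agent.Work.MP_ff0f6a_lc.SC.Kill
section
/-!
Positions that are won at once by a move to a bipartite graph.
-/

namespace Pool.Agent.Chomp.SC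

open Finset Function

section

variable {α : Type} [DecidableEq α] {G : Apex α} {S : Finset (Finset α)}

lemma kill_cut (h : G.Sub S) (σ : Finset α) : G.Sub (cut S σ) := fun ρ hρ => by
  obtain ⟨h1, h2⟩ := mem_filter.1 hρ
  have k : ∀ τ ∈ S, τ ⊆ ρ → τ ∈ cut S σ := fun τ a b => mem_filter.2 ⟨a, fun c => h2 (c.trans b)⟩
  rcases h ρ h1 with a | ⟨u, v, a, rfl, b, c⟩ | ⟨rfl, b, c⟩
  · exact Or.inl a
  · exact Or.inr (Or.inl ⟨u, v, a, rfl, k _ b (by simp), k _ c (by simp)⟩)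
  · exact Or.inr (Or.inr ⟨rfl, k _ b (by simp [insert_subset_iff]),
      k _ c (subset_insert _ _)⟩)

omit [DecidableEq α] in
lemma kill_cz (hG : G.Ok) : G.c ≠ G.z := fun e => hG.prop _ _ hG.cz hG.cw hG.zw (by rw [e])

lemma kill_gr (hG : G.Ok) (h : G.Sub S) {x : α} (hx : x = G.c ∨ x = G.z) (hS : {x, G.w} ∉ S) :
    ∃ col, Gr col S := by
  obtain ⟨y, hy, hy'⟩ : ∃ y, y ≠ G.w ∧ ∀ v, G.A G.w v = true → v = x ∨ v = y := by
    rcases hx with rfl | rfl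
    · exact ⟨G.z, hG.zw, fun v hv => (hG.apex v).1 hv⟩
    · exact ⟨G.c, hG.cw, fun v hv => ((hG.apex v).1 hv).symm⟩
  have k : ∀ v, G.A G.w v = true → {v, G.w} ∈ S →
      update G.col G.w (!G.col y) G.w ≠ update G.col G.w (!G.col y) v := fun v a b => by
    rcases hy' v a with rfl | rfl
    · exact absurd b hS
    · rw [update_self, update_of_ne hy]
      exact Bool.not_ne_self _
  refine ⟨update G.col G.w (!G.col y), fun σ hσ => ?_⟩
  rcases h σ hσ with a | ⟨u, v, a, rfl, b, c⟩ | ⟨-, b, c⟩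
  · exact Or.inl a
  · refine Or.inr ⟨u, v, ?_, rfl, b, c⟩
    by_cases hu : u = G.w
    · subst hu
      exact k v a (pair_comm G.w v ▸ hσ)
    · by_cases hv : v = G.w
      · subst hv
        exact (k u ((hG.symm _ _).trans a) hσ).symm
      · rw [update_of_ne hu, update_of_ne hv]
        exact hG.prop u v a hu hv
  · rcases hx with rfl | rfl
    · exact absurd b hS
    · exact absurd c hS

lemma kill_tri (hG : G.Ok) : ({G.c, G.z, G.w} : Finset α).card = 3 :=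
  card_eq_three.2 ⟨_, _, _, kill_cz hG, hG.cw, hG.zw, rfl⟩

lemma kill_edge (hG : G.Ok) (h : G.Sub S) {σ : Finset α} (hσ : σ ∈ S) (h2 : σ.card = 2)
    (hw : G.w ∈ σ) : (σ = {G.c, G.w} ∨ σ = {G.z, G.w}) ∧ {G.w} ∈ S := by
  rcases h σ hσ with ⟨v, rfl⟩ | ⟨u, v, a, rfl, b, c⟩ | ⟨rfl, -⟩
  · simp at h2
  · rcases mem_insert.1 hw with e | e
    · subst e
      refine ⟨?_, b⟩
      rw [pair_comm]
      rcases (hG.apex v).1 a with rfl | rfl
      · exact Or.inl rfl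
      · exact Or.inr rfl
    · obtain rfl := mem_singleton.1 e
      refine ⟨?_, c⟩
      rcases (hG.apex u).1 ((hG.symm _ _).trans a) with rfl | rfl
      · exact Or.inl rfl
      · exact Or.inr rfl
  · rw [kill_tri hG] at h2
    omega

lemma kill_same {σ : Finset α} (hσ : σ ∈ S) :
    ((cut S σ).filter fun ρ => ρ.card = σ.card).card + 1 =
      (S.filter fun ρ => ρ.card = σ.card).card := by
  rw [← card_erase_add_one (s := S.filter fun ρ => ρ.card = σ.card) (a := σ)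
    (mem_filter.2 ⟨hσ, rfl⟩)]
  refine congrArg (fun T : Finset (Finset α) => T.card + 1) (Finset.ext fun ρ => ?_)
  simp only [cut, mem_filter, mem_erase]
  constructor
  · rintro ⟨⟨a, b⟩, c⟩
    exact ⟨fun e => b e.ge, a, c⟩
  · rintro ⟨a, b, c⟩
    exact ⟨⟨b, fun e => a (eq_of_subset_of_card_le e c.le).symm⟩, c⟩

lemma kill_one (hb : S_bip) (hG : G.Ok) (h : G.Sub S) (hp : Even (nV S) ↔ Odd (nE S)) :
    Res true S := by
  by_cases hc : {G.c, G.w} ∈ S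
  swap
  · obtain ⟨col, hg⟩ := kill_gr hG h (Or.inl rfl) hc
    exact (hb α col S hg).2 ((Nat.even_or_odd _).symm.imp id hp.1)
  by_cases hz : {G.z, G.w} ∈ S
  swap
  · obtain ⟨col, hg⟩ := kill_gr hG h (Or.inr rfl) hz
    exact (hb α col S hg).2 ((Nat.even_or_odd _).symm.imp id hp.1)
  have c2 : ({G.c, G.w} : Finset α).card = 2 := card_pair hG.cw
  have z2 : ({G.z, G.w} : Finset α).card = 2 := card_pair hG.zw
  rw [Nat.even_iff, Nat.odd_iff] at hp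
  by_cases hv : nV S % 2 = 0
  · obtain ⟨col, hg⟩ := kill_gr hG (kill_cut h {G.c, G.w}) (Or.inl rfl)
      fun a => (mem_filter.1 a).2 Subset.rfl
    have e1 : nV (cut S {G.c, G.w}) = nV S := by
      refine congrArg Finset.card (Finset.ext fun ρ => ?_)
      simp only [cut, mem_filter]
      refine ⟨fun a => ⟨a.1.1, a.2⟩, fun a => ⟨⟨a.1, fun e => ?_⟩, a.2⟩⟩
      have := card_le_card e
      omega
    have e2 := kill_same hc
    rw [c2] at e2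
    have e3 : nE (cut S {G.c, G.w}) + 1 = nE S := e2
    refine Res.win S _ hc ((hb α col _ hg).1 ?_ ?_) <;> rw [Nat.even_iff] <;> omega
  · have hw := (kill_edge hG h hc c2 (by simp)).2
    obtain ⟨col, hg⟩ := kill_gr hG (kill_cut h {G.w}) (Or.inl rfl)
      fun a => (mem_filter.1 a).2 (subset_insert _ _)
    have e1 : nV (cut S {G.w}) + 1 = nV S := kill_same hw
    have ne : ({G.z, G.w} : Finset α) ≠ {G.c, G.w} := fun e => by
      have : G.c ∈ ({G.z, G.w} : Finset α) := e ▸ mem_insert_self _ _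
      simp [kill_cz hG, hG.cw] at this
    have e2 : nE (cut S {G.w}) + 1 + 1 = nE S := by
      rw [nE, nE, ← card_erase_add_one (s := S.filter _) (a := {G.c, G.w}) (mem_filter.2 ⟨hc, c2⟩),
        ← card_erase_add_one (s := (S.filter _).erase _) (a := {G.z, G.w})
          (mem_erase.2 ⟨ne, mem_filter.2 ⟨hz, z2⟩⟩)]
      refine congrArg (fun T : Finset (Finset α) => T.card + 1 + 1) (Finset.ext fun ρ => ?_)
      simp only [cut, mem_filter, mem_erase, singleton_subset_iff]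
      constructor
      · rintro ⟨⟨a, b⟩, c⟩
        exact ⟨fun e => b (by simp [e]), fun e => b (by simp [e]), a, c⟩
      · rintro ⟨a, b, c, d⟩
        exact ⟨⟨c, fun e => (kill_edge hG h c d e).1.elim b a⟩, d⟩
    refine Res.win S _ hw ((hb α col _ hg).1 ?_ ?_) <;> rw [Nat.even_iff] <;> omega

end

theorem p_kill (hb : S_bip) (hx : S_cx) : S_kill := by
  intro α _ G hG
  refine ⟨fun S h hp => kill_one hb hG h hp, fun s b v hv hs hd => ?_⟩
  obtain ⟨-, -, -, a4, a5, a6, -⟩ := hx α G hG s b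
  obtain ⟨b1, b2, b3, -⟩ := hx α G hG (s.erase v) b
  obtain ⟨col, hg⟩ := kill_gr hG b1 hv fun a => by
    rw [← a5] at a
    exact (mem_filter.1 a).2 (by simp)
  have e1 := a6 v hs
  have e2 := card_erase_add_one hs
  obtain ⟨k1, k2⟩ := hb α col _ hg
  rw [b2, b3] at k1 k2
  rw [Nat.odd_iff] at hd
  constructor
  · rintro ⟨c1, c2⟩
    rw [Nat.odd_iff] at c1 c2
    refine Res.win _ _ ((a4 v).2 hs) ?_
    rw [a5]
    refine k1 ?_ ?_ <;> rw [Nat.even_iff] <;> omega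
  · rintro ⟨c1, -⟩
    rw [Nat.even_iff] at c1
    refine k2 (Or.inl ?_)
    rw [Nat.odd_iff]
    omega

end Pool.Agent.Chomp.SC
end

-- merged part: Pool.Agent.Work.MP_ff0f6a_lc.SC.Lose
section
/-!
Paper A3: the introduction rule for lost apex complexes.
-/

namespace Pool.Agent.Chomp.SC

open Finset

theorem p_lose (hx : S_cx) (hk : S_kill) : S_lose := by
  intro α _ G hG s b
  obtain ⟨k1, k2⟩ := hk α G hG
  obtain ⟨-, -, -, x4, x5, x6, -, x8⟩ := hx α G hG s b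
  refine ⟨fun v hv hd => ?_, fun v hv h => ?_, fun ht h => ?_, fun ht hc ho hb => ?_⟩
  · have e1 := x6 v hv
    have e2 := card_erase_add_one hv
    simp only [Apex.ClE, Apex.ClO, Nat.even_iff, Nat.odd_iff] at hd ⊢
    omega
  · exact Res.win _ {v} ((x4 v).2 hv) (by rw [x5]; exact h)
  · obtain ⟨y1, y2⟩ := (hx α G hG s true).2.2.2.2.2.2.1 ht
    exact Res.win _ _ y1 (by rw [y2]; exact h)
  · have par : Even s.card ↔ Even (nE (G.cx s false)) := by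
      simp only [Apex.ClE, Apex.ClO, Nat.even_iff, Nat.odd_iff] at hc ⊢
      omega
    refine Res.lose _ fun σ hσ => ?_
    rcases x8 σ hσ with ⟨v, hv, rfl⟩ | ⟨rfl, -, rfl⟩ | ⟨y1, y2, y3⟩
    · rw [x5]
      by_cases hd : Odd (G.deg s v)
      · by_cases hg : v = G.c ∨ v = G.z
        · rcases hc with hc | ⟨-, h1, h2⟩
          · exact (k2 s b v hg hv hd).2 hc
          · rcases hg with rfl | rfl
            · exact absurd hd (Nat.not_odd_iff_even.2 h1)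
            · exact absurd hd (Nat.not_odd_iff_even.2 h2)
        · exact ho v hv hd (fun h => hg (Or.inl h)) (fun h => hg (Or.inr h))
      · obtain ⟨z1, z2, z3, -⟩ := hx α G hG (s.erase v) b
        refine k1 _ z1 ?_
        have e1 := x6 v hv
        have e2 := card_erase_add_one hv
        rw [z2, z3]
        simp only [Nat.even_iff, Nat.odd_iff] at hd par ⊢
        omega
    · rw [((hx α G hG s true).2.2.2.2.2.2.1 ht).2]
      exact hb rfl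
    · refine k1 _ y1 ?_
      rw [y2]
      simp only [Nat.even_iff, Nat.odd_iff] at par ⊢
      omega

end Pool.Agent.Chomp.SC
end

-- merged part: Pool.Agent.Work.MP_ff0f6a_lc.SC.Res
section
/-! The two outcomes exclude each other, and outcomes are kept by renaming the vertices. -/

namespace Pool.Agent.Chomp.SC

open Finset

theorem res_card {α : Type} [DecidableEq α] {S : Finset (Finset α)} {σ : Finset α} (h : σ ∈ S) :
    (cut S σ).card < S.card :=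
  card_lt_card (filter_ssubset.mpr ⟨σ, h, fun k => k Subset.rfl⟩)

theorem p_not_both : S_not_both := by
  intro α _ S h h'
  induction hn : S.card using Nat.strong_induction_on generalizing S with
  | _ n ih =>
    cases h with
    | win _ c hc h1 =>
      cases h' with
      | lose _ h2 => exact ih _ (hn ▸ res_card hc) _ (h2 c hc) h1 rfl

theorem res_cut {α β : Type} [DecidableEq α] [DecidableEq β] {f : α → β} {t : Finset α}
    (hf : Set.InjOn f t) {S : Finset (Finset α)} (hS : ∀ σ ∈ S, σ ⊆ t) {σ : Finset α}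
    (h : σ ∈ S) : cut (S.image (image f)) (image f σ) = (cut S σ).image (image f) := by
  rw [cut, cut, filter_image]
  congr 1
  refine filter_congr fun ρ hρ => not_congr ⟨fun k x hx => ?_, image_subset_image⟩
  obtain ⟨y, hy, e⟩ := mem_image.mp (k (mem_image_of_mem f hx))
  rwa [← hf (hS ρ hρ hy) (hS σ h hx) e]

theorem p_map : S_map := by
  intro α β _ _ f t hf o S hS h
  induction h with
  | win S σ hσ _ ih =>
    refine Res.win _ (image f σ) (mem_image_of_mem _ hσ) ?_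
    rw [res_cut hf hS hσ]
    exact ih fun ρ hρ => hS ρ (mem_filter.mp hρ).1
  | lose S _ ih =>
    refine Res.lose _ fun τ hτ => ?_
    obtain ⟨σ, hσ, rfl⟩ := mem_image.mp hτ
    rw [res_cut hf hS hσ]
    exact ih σ hσ fun ρ hρ => hS ρ (mem_filter.mp hρ).1

end Pool.Agent.Chomp.SC
end

-- merged part: Pool.Agent.Work.MP_ff0f6a_lc.GR.Stmt
section
/-!
Chomp on graphs: auxiliary definitions and the statements of the steps of the proof.
-/

namespace Pool.Agent.Chomp.GR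

open Finset Function Pool.Agent.Chomp.SC

/-- a machine in which only the classes with `lb κ` carry labels -/
structure Mg extends Mach where
  lb : ℕ → Bool

namespace Mg

variable (P : Mg)

def arc2 (u v : ℕ × ℕ × ℕ) : Bool := decide (
  (u.2.2 = 0 ∧ v.2.2 = 0 ∧ u.1 ≠ 0 ∧ v.1 ≠ 0 ∧ P.adj (u.1, u.2.1) (v.1, v.2.1) = true) ∨
  (u.2.2 = 0 ∧ u.1 ≠ 0 ∧ P.lb u.1 = true ∧ v.1 = u.1 ∧ v.2.2 = tau v.1 v.2.1 + 1 ∧
    (v.2.1 = 0 ∨ P.fix u.1 = true)) ∨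
  (1 ≤ u.2.2 ∧ v.1 = u.1 ∧ v.2.1 = u.2.1 ∧ v.2.2 = u.2.2 + 1) ∨
  (u.1 = 0 ∧ u.2.1 = 4 + (P.side v.1).toNat ∧ u.2.2 = 0 ∧
    (v.2.2 = 1 ∨ v.2.2 = tau v.1 v.2.1 + 1)) ∨
  (u.1 = 0 ∧ u.2.2 = 0 ∧ v.1 = 0 ∧ v.2.2 = 0 ∧ 4 ≤ u.2.1 ∧ u.2.1 < v.2.1 ∧ v.2.1 ≤ 6))

/-- the whole graph -/
def G2 : Apex (ℕ × ℕ × ℕ) where
  A u v := P.arc2 u v || P.arc2 v u
  col v := if v.2.2 = 0 then (if v.1 ≠ 0 then P.side v.1 else decide (v.2.1 = 5))
    else (P.side v.1 ^^ decide (v.2.2 % 2 = 1))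
  c := goal false
  z := goal true
  w := (0, 6, 0)

def In2 (s : Finset (ℕ × ℕ)) : Prop := ∀ u ∈ s, 0 < u.1 ∧ u.1 < P.K
/-- the labelled part -/
def lp (s : Finset (ℕ × ℕ)) : Finset (ℕ × ℕ) := s.filter fun u => P.lb u.1 = true
def pos2 (s : Finset (ℕ × ℕ)) : Finset (Finset (ℕ × ℕ × ℕ)) := P.G2.cx (P.vs s full) false
def od2 (s : Finset (ℕ × ℕ)) (u : ℕ × ℕ) : Prop :=
  Odd ((s.filter fun v => P.adj u v = true).card +
    if P.lb u.1 = true then 1 + (P.fix u.1).toNat else 0)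
def CE2 (s : Finset (ℕ × ℕ)) : Prop := P.G2.ClE (P.vs s full)
def CO2 (s : Finset (ℕ × ℕ)) : Prop := P.G2.ClO (P.vs s full)
/-- the player to move wins -/
def W (s : Finset (ℕ × ℕ)) : Prop := Res true (P.pos2 s)
/-- the player to move loses -/
def L (s : Finset (ℕ × ℕ)) : Prop := Res false (P.pos2 s)
def Good (s : Finset (ℕ × ℕ)) : Prop :=
  P.In2 s ∧ P.CO2 s ∧ ∀ κ, P.lb κ = true → Even (cnt s κ)
/-- a legal answer -/
def Same (u v : ℕ × ℕ) : Prop := P.lb u.1 = true ∨ P.lb v.1 = true → v.1 = u.1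

/-- a pairing of the machine vertices -/
structure Pm (π : ℕ × ℕ → ℕ × ℕ) (s : Finset (ℕ × ℕ)) : Prop where
  mem : ∀ v ∈ s, π v ∈ s
  inv : ∀ v ∈ s, π (π v) = v
  col : ∀ v ∈ s, P.side (π v).1 = P.side v.1
  cls : ∀ v ∈ s, P.lb v.1 = true → (π v).1 = v.1 ∧ π v ≠ v
  par : ∀ v ∈ s, (P.od2 s (π v) ↔ P.od2 s v)
  ev : ∀ v ∈ s, π v = v → ¬ P.od2 s v ∧ ∀ u ∈ s, P.adj (π u) v = P.adj u v
  blk : ∀ u ∈ s, ∀ v ∈ s, (P.adj u v ^^ P.adj u (π v)) = (P.adj (π u) v ^^ P.adj (π u) (π v))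

end Mg

def T_Gok : Prop := ∀ P : Mg, P.toMach.Ok → P.G2.Ok

def T_vs : Prop := ∀ P : Mg, P.toMach.Ok → ∀ (s : Finset (ℕ × ℕ)) (h : ℕ → ℕ → ℕ), P.In2 s →
  (∀ κ e, h κ e ≤ tau κ e + 1) →
  P.G2.Tri (P.vs s h) ∧
  (∀ v : ℕ × ℕ × ℕ, v ∈ P.vs s h ↔ (v.2.2 = 0 ∧ (v.1, v.2.1) ∈ s) ∨
    (v.1 < P.K ∧ v.2.1 < 2 ∧ 1 ≤ v.2.2 ∧ v.2.2 ≤ h v.1 v.2.1) ∨
    (v.1 = 0 ∧ v.2.2 = 0 ∧ 4 ≤ v.2.1 ∧ v.2.1 ≤ 6)) ∧
  (∀ u ∈ s, (P.vs s h).erase (u.1, u.2, 0) = P.vs (s.erase u) h) ∧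
  (∀ κ < P.K, ∀ e < 2, 1 ≤ h κ e → (P.vs s h).erase (κ, e, h κ e) = P.vs s (Mach.low h κ e)) ∧
  (Odd (P.vs s full).card ↔ Even s.card)

def T_deg : Prop := ∀ P : Mg, P.toMach.Ok → ∀ (s : Finset (ℕ × ℕ)) (h : ℕ → ℕ → ℕ), P.In2 s →
  (∀ κ e, h κ e ≤ tau κ e + 1) →
  (∀ u ∈ s, (Odd (P.G2.deg (P.vs s full) (u.1, u.2, 0)) ↔ P.od2 s u)) ∧
  (∀ κ < P.K, ∀ e < 2, ∀ r, 1 ≤ r → r ≤ h κ e →
    (Odd (P.G2.deg (P.vs s h) (κ, e, r)) ↔ r = h κ e ∧ P.Fr (P.lp s) h κ e)) ∧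
  Even (P.G2.deg (P.vs s h) P.G2.w)

def T_goal : Prop := ∀ P : Mg, P.toMach.Ok → ∀ (s : Finset (ℕ × ℕ)) (h : ℕ → ℕ → ℕ), P.In2 s →
  (∀ κ e, h κ e ≤ tau κ e + 1) → ∀ σ, (Odd (P.G2.deg (P.vs s h) (goal σ)) ↔ Odd (P.fr h σ 0))

def T_attack : Prop := ∀ P : Mg, P.toMach.Ok → ∀ (s : Finset (ℕ × ℕ)) (h : ℕ → ℕ → ℕ), P.In2 s →
  (∀ κ e, h κ e ≤ tau κ e + 1) → P.G2.ClO (P.vs s h) → ¬ P.Bal (P.lp s) h →
  Res true (P.G2.cx (P.vs s h) false)

/-- the rules on the machine level -/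
def T_rule : Prop := ∀ P : Mg, P.toMach.Ok → ∀ s : Finset (ℕ × ℕ), P.In2 s →
  (∀ κ, P.CO2 s → P.lb κ = true → Odd (cnt s κ) → P.W s) ∧
  (P.CE2 s ∨ P.Good s → (∀ u ∈ s, P.od2 s u → P.W (s.erase u)) → P.L s) ∧
  ∀ u ∈ s, (P.L (s.erase u) → P.W s) ∧
    (P.od2 s u → (P.CE2 s ↔ P.CO2 (s.erase u)) ∧ (P.CO2 s ↔ P.CE2 (s.erase u)))

def T_elem : Prop := ∀ (P : Mg) (s : Finset (ℕ × ℕ)), ∀ u ∈ s,
  (∀ v, (P.od2 (s.erase u) v ↔ (P.od2 s v ↔ P.adj v u = false))) ∧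
  ∀ κ, (Odd (cnt (s.erase u) κ) ↔ (Odd (cnt s κ) ↔ u.1 ≠ κ))

/-- one round -/
def T_round : Prop := ∀ P : Mg, P.toMach.Ok →
  (∀ s u v, P.Good s → u ∈ s → P.od2 s u → v ∈ s.erase u → P.od2 (s.erase u) v → P.Same u v →
    P.Good ((s.erase u).erase v)) ∧
  (∀ s u, P.Good s → u ∈ s → P.od2 s u →
    (∀ v ∈ s.erase u, P.od2 (s.erase u) v → P.Same u v → P.W ((s.erase u).erase v)) → P.W s) ∧
  ∀ I : Finset (ℕ × ℕ) → Prop, (∀ s, I s → P.Good s ∧ ∀ u ∈ s, P.od2 s u → ∃ v ∈ s.erase u,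
    I ((s.erase u).erase v) ∨ P.L ((s.erase u).erase v)) → ∀ s, I s → P.L s

def T_pm : Prop := ∀ P : Mg, P.toMach.Ok → ∀ π s, P.In2 s → P.Pm π s →
  (Even s.card → P.CO2 s) ∧ (P.CO2 s → P.L s)

def T_swap : Prop := ∀ P : Mg, P.toMach.Ok → ∀ (π : ℕ × ℕ → ℕ × ℕ) (s : Finset (ℕ × ℕ))
  (w e U V : ℕ × ℕ), P.Pm π s → w ∈ s → e ∈ s → V ∈ s → U ∉ s → P.od2 s w → π e = e → π V = V →
  P.lb w.1 = false → P.lb U.1 = false → P.side U.1 = P.side w.1 → P.adj w e = true →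
  P.adj U V = true → (∀ x ∈ s, P.adj U x = true → x = V) → (∀ x ∈ s, P.adj V x = false) →
  (∀ x ∈ s, P.adj e x = true → x = w ∨ x = π w) →
  (∀ x ∈ s, P.adj w (π x) = P.adj w x) → (∀ x ∈ s, π x = x → P.adj w x = true → x = e) →
  ∃ π', P.Pm π' (insert U (s.erase w))

/-! ### Formulas with three literals in each clause -/

/-- `QV q M k i a`: truth of `M` with the `k` variables from `i` on quantified -/
def QV (q : ℕ → Bool) (M : (ℕ → Bool) → Prop) : ℕ → ℕ → (ℕ → Bool) → Prop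
  | 0, _, a => M a
  | k + 1, i, a => if q i = true then ∀ b, QV q M k (i + 1) (update a i b)
      else ∃ b, QV q M k (i + 1) (update a i b)

/-- the literal with code `c` (variable `c / 3`, sign `c % 3`) is true -/
def tr (a : ℕ → Bool) (c : ℕ) : Prop := lit (c % 3) (a (c / 3))

instance (a : ℕ → Bool) (c : ℕ) : Decidable (tr a c) := by unfold tr lit; infer_instance

structure Q3 where
  n : ℕ
  m : ℕ
  q : ℕ → Bool
  lc : ℕ → ℕ → ℕ

namespace Q3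

variable (F : Q3)

structure Ok : Prop where
  hn : 0 < F.n
  hv : ∀ j < F.m, ∀ p < 3, F.lc j p / 3 < F.n ∧ F.lc j p % 3 ≠ 0
  hi : ∀ j < F.m, ∀ p < 3, ∀ p' < 3, F.lc j p / 3 = F.lc j p' / 3 → p = p'

def Mat (a : ℕ → Bool) : Prop := ∀ j < F.m, ∃ p < 3, tr a (F.lc j p)

/-- number of members of the class `8 * i + ty`; `ty` = 1 : g and d, 2 : K and a, 3 : X, 4 : Y,
5 : S, 6 : E, 7 : H -/
def size (κ : ℕ) : ℕ :=
  if κ % 8 = 7 ∧ κ / 8 < F.m then 16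
  else if (κ % 8 = 3 ∧ κ / 8 < F.n ∧ F.q (κ / 8) = false) ∨
    (κ % 8 = 4 ∧ κ / 8 / 3 < F.n ∧ (κ / 8 % 3 = 1 ∨ (κ / 8 % 3 = 2 ∧ F.q (κ / 8 / 3) = false))) ∨
    (κ % 8 = 5 ∧ κ / 8 / 3 < F.n ∧ κ / 8 % 3 ≠ 0) then 4
  else if ((κ % 8 = 1 ∨ κ % 8 = 2) ∧ κ / 8 ≤ 2 * F.n) ∨
    (κ % 8 = 6 ∧ κ / 8 / 3 < F.n ∧ κ / 8 % 3 ≠ 0) then 2 else 0

def arc (u v : ℕ × ℕ) : Bool := decide (
  (u.1 % 8 = 1 ∧ v.1 = u.1 + 8 ∧ u.2 = v.2 ∧ (u.2 = 0 ∨ u.1 = 1)) ∨
  (u.1 % 8 = 1 ∧ v.1 = u.1 + 1 ∧ u.2 = 0 ∧ (v.2 = 0 ∨ u.1 / 8 < 2 * F.n)) ∨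
  (u.1 % 8 = 2 ∧ v.1 = u.1 + 8 ∧ u.2 = 1 ∧ v.2 = 0) ∨
  (u.1 % 8 = 1 ∧ v.1 % 8 = 3 ∧ u.2 = 0 ∧ u.1 / 8 = 2 * (v.1 / 8) + 1) ∨
  (u.1 % 8 = 1 ∧ v.1 % 8 = 4 ∧ u.2 = 0 ∧ v.2 < 2 ∧ F.q (v.1 / 8 / 3) = true ∧
    (u.1 / 8 = 2 * (v.1 / 8 / 3) ∨ u.1 / 8 = 2 * (v.1 / 8 / 3) + 2)) ∨
  (u.1 = 8 * (2 * F.n) + 1 ∧ v.1 % 8 = 7 ∧ v.2 / 8 % 2 = 1) ∨
  (u.1 % 8 = 3 ∧ v.1 % 8 = 4 ∧ v.1 / 8 / 3 = u.1 / 8 ∧ v.2 < 2 ∧ u.2 / (v.1 / 8 % 3) % 2 = 1) ∨
  (u.1 % 8 = 5 ∧ v.1 % 8 = 4 ∧ v.2 = u.2 / 2 * 2 ∧ (v.1 + 1 = u.1 ∨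
    (v.1 + 9 = u.1 ∧ u.2 < 2 ∧ u.1 / 8 % 3 = 2 ∧ F.q (u.1 / 8 / 3) = true))) ∨
  (u.1 % 8 = 5 ∧ v.1 = u.1 + 1 ∧ v.2 = u.2 / 2) ∨
  (u.1 % 8 = 5 ∧ v.1 % 8 = 7 ∧ u.2 % 2 = 0 ∧
    ((u.1 / 8 = F.lc (v.1 / 8) 0 ∧ v.2 % 2 = 1) ∨ (u.1 / 8 = F.lc (v.1 / 8) 1 ∧ v.2 / 2 % 2 = 1) ∨
     (u.1 / 8 = F.lc (v.1 / 8) 2 ∧ v.2 / 4 % 2 = 1))))

def mach : Mg where
  K := 8 * (3 * F.n + F.m + 1)
  adj u v := F.arc u v || F.arc v u
  side κ := decide ((κ % 8 = 1 ∧ κ / 8 % 2 = 1) ∨ (κ % 8 = 2 ∧ κ / 8 % 2 = 0) ∨ κ % 8 = 4 ∨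
    κ % 8 = 6 ∨ κ % 8 = 7)
  fix κ := decide (κ % 8 = 4 ∨ κ % 8 = 7)
  lb κ := decide (κ % 8 = 3 ∨ κ % 8 = 4 ∨ κ % 8 = 7)

def alive (t : ℕ) (R : ℕ → Finset ℕ) (φ : ℕ → Bool) (u : ℕ × ℕ) : Prop :=
  u.2 < F.size u.1 ∧ (u.1 % 8 = 1 → u.2 = 0 → t ≤ u.1 / 8) ∧ (u.1 % 8 = 2 → u.2 = 1 → t ≤ u.1 / 8) ∧
    (u.1 % 8 = 3 → u.2 ∉ R (u.1 / 8)) ∧ (u.1 % 8 = 4 → φ (u.1 / 8) = true → 2 ≤ u.2)

instance (t : ℕ) (R : ℕ → Finset ℕ) (φ : ℕ → Bool) (u : ℕ × ℕ) : Decidable (F.alive t R φ u) := by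
  unfold alive; infer_instance

def St (t : ℕ) (R : ℕ → Finset ℕ) (φ : ℕ → Bool) : Finset (ℕ × ℕ) :=
  (range F.mach.K ×ˢ range 16).filter (F.alive t R φ)

/-- the sensor `c` is negative -/
def neg (c : ℕ) : Prop := c % 3 = 2 ∧ F.q (c / 3) = true
instance (c : ℕ) : Decidable (F.neg c) := by unfold neg; infer_instance
def host (c : ℕ) : ℕ := if F.neg c then c - 1 else c
/-- the sensor `c` is active -/
def act (φ : ℕ → Bool) (c : ℕ) : Prop := (φ (F.host c) = true ↔ ¬ F.neg c)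

/-- vertices that do not matter to the first player -/
def junk (t : ℕ) (φ : ℕ → Bool) (u : ℕ × ℕ) : Prop :=
  (u.1 % 8 = 1 ∧ u.2 = 1 ∧ u.1 / 8 < 2 * F.n) ∨ (u.1 % 8 = 2 ∧ u.1 / 8 < t) ∨
  (u.1 % 8 = 5 ∧ ((u.2 < 2 ∧ φ (F.host (u.1 / 8)) = true) ∨ (2 ≤ u.2 ∧ F.neg (u.1 / 8)))) ∨
  (u.1 % 8 = 6 ∧ ((u.2 = 0 ∧ φ (F.host (u.1 / 8)) = true) ∨ (u.2 = 1 ∧ F.neg (u.1 / 8))))

def Wf (R : ℕ → Finset ℕ) : Prop := ∀ i, (∀ b ∈ R i, b < 4) ∧ Even (R i).card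

def Inv (s : Finset (ℕ × ℕ)) (t : ℕ) (R : ℕ → Finset ℕ) (φ : ℕ → Bool) : Prop :=
  Wf R ∧ (∀ u ∈ s, u.2 < F.size u.1) ∧ ∀ u, ¬ F.junk t φ u → (u ∈ s ↔ F.alive t R φ u)

/-- the class `Y c` is enabled -/
def en (t : ℕ) (R : ℕ → Finset ℕ) (c : ℕ) : Prop :=
  (F.q (c / 3) = true ∧ 2 * (c / 3) < t ∧ t ≤ 2 * (c / 3) + 2) ∨
    (F.q (c / 3) = false ∧ Odd ((R (c / 3)).filter fun b => b / (c % 3) % 2 = 1).card)

/-- the odd vertices among those that matter -/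
def tab (t : ℕ) (R : ℕ → Finset ℕ) (u : ℕ × ℕ) : Prop :=
  (u.1 % 8 = 1 ∧ u.2 = 0 ∧ u.1 / 8 = t) ∨ (u.1 % 8 = 3 ∧ 2 * (u.1 / 8) + 1 < t) ∨
    (u.1 % 8 = 4 ∧ u.2 < 2 ∧ F.en t R (u.1 / 8))

/-- the odd vertices of `St` -/
def tabS (t : ℕ) (R : ℕ → Finset ℕ) (φ : ℕ → Bool) (u : ℕ × ℕ) : Prop :=
  F.tab t R u ∨ u = (8 * t + 2, 0) ∨ u = (1, 1) ∨ u = (9, 1) ∨ (u.1 % 8 = 5 ∧ F.junk t φ u)

/-- the pairing after the kill at stage `t` -/
def pk (t : ℕ) (ω : ℕ → ℕ) (u : ℕ × ℕ) : ℕ × ℕ :=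
  if u.1 % 8 = 1 ∧ u.1 / 8 = 2 * F.n then (u.1, 1 - u.2)
  else if u.1 % 8 = 1 ∧ u.2 = 0 then (u.1 + 9, 0)
  else if u.1 % 8 = 2 ∧ u.2 = 0 ∧ t < u.1 / 8 then (u.1 - 9, 0)
  else if u.1 % 8 = 3 then (u.1, u.2 ^^^ ω (u.1 / 8))
  else if u.1 % 8 = 4 ∨ u.1 % 8 = 5 then (u.1, u.2 ^^^ 1)
  else if u.1 % 8 = 7 then (u.1, u.2 ^^^ 8) else u

/-- the pairing at the end -/
def pf (a : ℕ → Bool) (ω p : ℕ → ℕ) (u : ℕ × ℕ) : ℕ × ℕ :=
  if u.1 % 8 = 3 then (u.1, u.2 ^^^ ω (u.1 / 8))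
  else if u.1 % 8 = 4 ∨ u.1 % 8 = 5 then (u.1, u.2 ^^^ if tr a (u.1 / 8) then 2 else 1)
  else if u.1 % 8 = 6 ∧ tr a (u.1 / 8) then (u.1, u.2 ^^^ 1)
  else if u.1 % 8 = 7 then (u.1, u.2 ^^^ 2 ^ p (u.1 / 8)) else u

def Adm (ω : ℕ → ℕ) (R : ℕ → Finset ℕ) : Prop :=
  ∀ i, 0 < ω i ∧ ω i < 4 ∧ ∀ b, (b ^^^ ω i ∈ R i ↔ b ∈ R i)

/-- true literals of the first `o` variables are idle -/
def Idle (R : ℕ → Finset ℕ) (φ : ℕ → Bool) (a : ℕ → Bool) (o : ℕ) : Prop :=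
  ∀ c, c / 3 < o → tr a c → ¬ F.act φ c ∧
    (F.q (c / 3) = false → Even ((R (c / 3)).filter fun b => b / (c % 3) % 2 = 1).card)

/-- state after the kill; `d` is the remaining end of the spare edge -/
def Kl (t : ℕ) (R : ℕ → Finset ℕ) (φ : ℕ → Bool) (x : ℕ × ℕ) : Finset (ℕ × ℕ) :=
  ((F.St t R φ).erase (8 * t + 2, 0)).erase x

def Fn (R : ℕ → Finset ℕ) (φ : ℕ → Bool) : Finset (ℕ × ℕ) :=
  ((F.St (2 * F.n) R φ).erase (8 * (2 * F.n) + 1, 0)).erase (1, 1)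

end Q3

def T_mok : Prop := ∀ F : Q3, F.mach.toMach.Ok ∧
  (∀ κ, F.size κ ≤ 16 ∧ Even (F.size κ) ∧ (0 < F.size κ → 0 < κ ∧ κ < F.mach.K)) ∧
  (∀ t R φ u, u ∈ F.St t R φ ↔ F.alive t R φ u) ∧ (∀ t R φ, F.mach.In2 (F.St t R φ)) ∧
  (∀ t R φ, Q3.Wf R → F.Inv (F.St t R φ) t R φ) ∧
  Even (F.St 0 (fun _ => ∅) fun _ => false).card ∧
  ∀ κ, Even (cnt (F.St 0 (fun _ => ∅) fun _ => false) κ)

/-- the gate neighbours of a vertex are even in number while all gates are complete -/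
def T_gate : Prop := ∀ F : Q3, ∀ (s : Finset (ℕ × ℕ)) (u : ℕ × ℕ), u.1 % 8 ≠ 7 →
  (∀ v : ℕ × ℕ, v.1 % 8 = 7 → (v ∈ s ↔ v.2 < F.size v.1)) →
  Even (s.filter fun v => v.1 % 8 = 7 ∧ F.mach.adj u v = true).card

/-- the parity table for the classes of type `ty` -/
def T_tab (ty : ℕ) : Prop := ∀ F : Q3, F.Ok → ∀ s t R φ, F.Inv s t R φ → t ≤ 2 * F.n + 1 →
  ∀ u ∈ s, u.1 % 8 = ty → ¬ F.junk t φ u → u ≠ (8 * t + 2, 0) → (F.mach.od2 s u ↔ F.tab t R u)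

def T_table : Prop := ∀ F : Q3, F.Ok → ∀ s t R φ, F.Inv s t R φ → t ≤ 2 * F.n + 1 →
  ∀ u ∈ s, u.1 % 8 ≠ 7 → ¬ F.junk t φ u → u ≠ (8 * t + 2, 0) → (F.mach.od2 s u ↔ F.tab t R u)

/-- junk vertices and gates of `St` -/
def T_tabJ (ty : ℕ) : Prop := ∀ F : Q3, F.Ok → ∀ t R φ, Q3.Wf R → t ≤ 2 * F.n →
  ∀ u ∈ F.St t R φ, u.1 % 8 = ty → ty = 7 ∨ F.junk t φ u ∨ u = (8 * t + 2, 0) →
  (F.mach.od2 (F.St t R φ) u ↔ F.tabS t R φ u)

def T_tableS : Prop := ∀ F : Q3, F.Ok → ∀ t R φ, Q3.Wf R → t ≤ 2 * F.n →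
  ∀ u ∈ F.St t R φ, (F.mach.od2 (F.St t R φ) u ↔ F.tabS t R φ u)

/-- at the end the two halves of a gate differ -/
def T_half : Prop := ∀ F : Q3, F.Ok → ∀ s R φ, F.Inv s (2 * F.n + 1) R φ → ∀ j < F.m, ∀ h < 16,
  (F.mach.od2 s (8 * j + 7, h ^^^ 8) ↔ ¬ F.mach.od2 s (8 * j + 7, h))

def T_mask : Prop :=
  (∀ R, Q3.Wf R → ∀ sg : ℕ → ℕ,
    (∀ i, Even ((R i).filter fun b => b / sg i % 2 = 1).card ∧ sg i < 3) →
    ∃ ω, Q3.Adm ω R ∧ ∀ i, ω i / sg i % 2 = 0) ∧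
  (∀ (r : Finset ℕ) (sg b : ℕ), (∀ x ∈ r, x < 4) → Even r.card → b < 4 → b ∉ r → sg < 3 →
    Even (r.filter fun x => x / sg % 2 = 1).card → ∃ b' < 4, b' ≠ b ∧ b' ∉ r ∧
      Even ((insert b (insert b' r)).filter fun x => x / sg % 2 = 1).card) ∧
  ∀ b < 4, b ≠ 0 → ∃ sg, (sg = 1 ∨ sg = 2) ∧
    Odd ((insert 0 (insert b (∅ : Finset ℕ))).filter fun x => x / sg % 2 = 1).card

/-- the items of `Pm` for the kill: `0` structure, `1` parity, `2` fixed points, `3` blocks -/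
def T_kill (k : ℕ) : Prop := ∀ F : Q3, F.Ok → ∀ t R φ ω x, Q3.Wf R → Q3.Adm ω R → t ≤ 2 * F.n →
  x = (1, 1) ∨ x = (9, 1) → ∀ v ∈ F.Kl t R φ x,
  (k = 0 → F.pk t ω v ∈ F.Kl t R φ x ∧ F.pk t ω (F.pk t ω v) = v ∧
    F.mach.side (F.pk t ω v).1 = F.mach.side v.1 ∧
    (F.mach.lb v.1 = true → (F.pk t ω v).1 = v.1 ∧ F.pk t ω v ≠ v)) ∧
  (k = 1 → (F.mach.od2 (F.Kl t R φ x) (F.pk t ω v) ↔ F.mach.od2 (F.Kl t R φ x) v) ∧
    (F.pk t ω v = v → ¬ F.mach.od2 (F.Kl t R φ x) v)) ∧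
  (k = 2 → F.pk t ω v = v → ∀ u ∈ F.Kl t R φ x, F.mach.adj (F.pk t ω u) v = F.mach.adj u v) ∧
  (k = 3 → ∀ u ∈ F.Kl t R φ x, (F.mach.adj u v ^^ F.mach.adj u (F.pk t ω v)) =
    (F.mach.adj (F.pk t ω u) v ^^ F.mach.adj (F.pk t ω u) (F.pk t ω v)))

def T_fin (k : ℕ) : Prop := ∀ F : Q3, F.Ok → ∀ R φ ω p a, Q3.Wf R → Q3.Adm ω R →
  F.Idle R φ a F.n → (∀ c, c / 3 < F.n → tr a c → F.q (c / 3) = false → ω (c / 3) / (c % 3) % 2 = 0) →
  (∀ j < F.m, p j < 3 ∧ tr a (F.lc j (p j))) → ∀ v ∈ F.Fn R φ,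
  (k = 0 → Q3.pf a ω p v ∈ F.Fn R φ ∧ Q3.pf a ω p (Q3.pf a ω p v) = v ∧
    F.mach.side (Q3.pf a ω p v).1 = F.mach.side v.1 ∧
    (F.mach.lb v.1 = true → (Q3.pf a ω p v).1 = v.1 ∧ Q3.pf a ω p v ≠ v)) ∧
  (k = 1 → (F.mach.od2 (F.Fn R φ) (Q3.pf a ω p v) ↔ F.mach.od2 (F.Fn R φ) v) ∧
    (Q3.pf a ω p v = v → ¬ F.mach.od2 (F.Fn R φ) v)) ∧
  (k = 2 → Q3.pf a ω p v = v → ∀ u ∈ F.Fn R φ, F.mach.adj (Q3.pf a ω p u) v = F.mach.adj u v) ∧
  (k = 3 → ∀ u ∈ F.Fn R φ, (F.mach.adj u v ^^ F.mach.adj u (Q3.pf a ω p v)) =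
    (F.mach.adj (Q3.pf a ω p u) v ^^ F.mach.adj (Q3.pf a ω p u) (Q3.pf a ω p v)))

/-- every move off the main line is refuted by the kill -/
def T_dev : Prop := ∀ F : Q3, F.Ok → ∀ t R φ, Q3.Wf R → t ≤ 2 * F.n → F.mach.Good (F.St t R φ) →
  ∀ u ∈ F.St t R φ, u = (8 * t + 2, 0) ∨ u = (1, 1) ∨ u = (9, 1) ∨ (u.1 % 8 = 5 ∧ F.junk t φ u) →
  ∃ v ∈ (F.St t R φ).erase u, F.mach.L (((F.St t R φ).erase u).erase v)

def T_end0 : Prop := ∀ F : Q3, F.Ok → ∀ R φ a, Q3.Wf R → F.mach.Good (F.St (2 * F.n) R φ) →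
  F.Idle R φ a F.n → F.Mat a → (1, 1) ∈ (F.St (2 * F.n) R φ).erase (8 * (2 * F.n) + 1, 0) ∧
  F.mach.L (F.Fn R φ)

def T_start : Prop := ∀ F : Q3, F.Ok → F.mach.Good (F.St 0 (fun _ => ∅) fun _ => false)

def T_trans : Prop := ∀ (F : Q3) (t : ℕ) (R : ℕ → Finset ℕ) (φ : ℕ → Bool),
  (t < 2 * F.n → ((F.St t R φ).erase (8 * t + 1, 0)).erase (8 * t + 2, 1) = F.St (t + 1) R φ) ∧
  (∀ i b b', ((F.St t R φ).erase (8 * i + 3, b)).erase (8 * i + 3, b') =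
    F.St t (update R i (insert b (insert b' (R i)))) φ) ∧
  (∀ c b, b < 2 → ((F.St t R φ).erase (8 * c + 4, b)).erase (8 * c + 4, 1 - b) =
    F.St t R (update φ c true)) ∧
  (∀ i b b', Q3.Wf R → b < 4 → b' < 4 → b ≠ b' → b ∉ R i → b' ∉ R i →
    Q3.Wf (update R i (insert b (insert b' (R i))))) ∧
  ∀ s, F.Inv s t R φ →
    (∀ i b b', Q3.Wf (update R i (insert b (insert b' (R i)))) →
      F.Inv ((s.erase (8 * i + 3, b)).erase (8 * i + 3, b')) t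
        (update R i (insert b (insert b' (R i)))) φ) ∧
    (∀ c, F.Inv ((s.erase (8 * c + 4, 0)).erase (8 * c + 4, 1)) t R (update φ c true)) ∧
    (∀ v, F.junk (t + 1) φ v → F.Inv ((s.erase (8 * t + 1, 0)).erase v) (t + 1) R φ) ∧
    F.Inv ((s.erase (8 * t + 1, 0)).erase (8 * (t + 1) + 1, 0)) (t + 2) R φ

/-- true formula: the first player loses -/
def T_zero : Prop := ∀ F : Q3, F.Ok → ∀ a, QV F.q F.Mat F.n 0 a →
  F.mach.L (F.St 0 (fun _ => ∅) fun _ => false)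

/-- a clause with three active sensors -/
def T_end1 : Prop := ∀ F : Q3, F.Ok → ∀ s R φ, F.mach.Good s → F.Inv s (2 * F.n + 1) R φ →
  ∀ j < F.m, (∀ p < 3, F.act φ (F.lc j p)) → F.mach.W s

/-- the three kinds of steps of the first player -/
def T_step : Prop := ∀ F : Q3, F.Ok → ∀ s t R φ, F.mach.Good s → F.Inv s t R φ → t ≤ 2 * F.n + 1 →
  (∀ c, 0 < F.size (8 * c + 4) → φ c = false → F.en t R c →
    (∀ s', s'.card < s.card → F.mach.Good s' → F.Inv s' t R (update φ c true) → F.mach.W s') →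
    F.mach.W s) ∧
  (∀ i < F.n, F.q i = false → R i = ∅ → 2 * i + 1 < t →
    (∀ s', ∀ b < 4, b ≠ 0 → s'.card < s.card → F.mach.Good s' →
      F.Inv s' t (update R i (insert 0 (insert b (R i)))) φ → F.mach.W s') → F.mach.W s) ∧
  (t ≤ 2 * F.n → (∀ s' t', s'.card < s.card → t < t' → t' ≤ t + 2 → t' ≤ 2 * F.n + 1 →
    F.mach.Good s' → F.Inv s' t' R φ → F.mach.W s') → F.mach.W s)

/-- false formula: the first player wins -/
def T_one : Prop := ∀ F : Q3, F.Ok → ∀ a, ¬ QV F.q F.Mat F.n 0 a →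
  F.mach.W (F.St 0 (fun _ => ∅) fun _ => false)

/-! ### Three literals in each clause -/

/-- clause `J = j * (n + 3) + r`; the new variables are `n + j * (n + 1) + r` and two more -/
def tsl (F : Qb) (J p : ℕ) : ℕ :=
  if p = 0 then
    (if J % (F.n + 3) < F.n then 3 * (F.n + J / (F.n + 3) * (F.n + 1) + J % (F.n + 3)) + 2
    else if J % (F.n + 3) = F.n then 3 * (F.n + J / (F.n + 3) * (F.n + 1)) + 1
    else if J % (F.n + 3) = F.n + 1 then 3 * (F.n + J / (F.n + 3) * (F.n + 1) + F.n) + 2 else 2)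
  else if p = 1 then
    (if J % (F.n + 3) < F.n ∧ F.sg (J / (F.n + 3)) (J % (F.n + 3)) ≠ 0 then
      3 * (J % (F.n + 3)) + F.sg (J / (F.n + 3)) (J % (F.n + 3))
    else 3 * (F.n + F.m * (F.n + 1)) + 1)
  else if J % (F.n + 3) < F.n then 3 * (F.n + J / (F.n + 3) * (F.n + 1) + J % (F.n + 3) + 1) + 1
  else 3 * (F.n + F.m * (F.n + 1) + 1) + 1

def ts (F : Qb) : Q3 where
  n := F.n + F.m * (F.n + 1) + 2
  m := F.m * (F.n + 3)
  q i := if i < F.n then F.q i else decide (F.n + F.m * (F.n + 1) ≤ i)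
  lc := tsl F

def T_tsok : Prop := ∀ F : Qb, F.Ok → (ts F).Ok

/-- the new variables -/
def T_tsmat : Prop := ∀ F : Qb, F.Ok → ∀ a : ℕ → Bool,
  (QV (ts F).q (ts F).Mat (F.m * (F.n + 1) + 2) F.n a ↔ a 0 = false ∧ F.Mat a)

def T_ts : Prop := ∀ F : Qb, F.Ok → F.q 0 = false →
  (QV (ts F).q (ts F).Mat (ts F).n 0 (fun _ => false) ↔ F.Val (F.n - 1) 1 fun _ => false)

def T_pairs : Prop := ∀ (α : Type) [DecidableEq α] (G : Apex α), G.Ok → ∀ s : Finset α,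
  (∀ σ ∈ G.cx s false, σ.Nonempty ∧ σ ⊆ s ∧ σ.card ≤ 2 ∧
    ∀ ρ ⊆ σ, ρ.Nonempty → ρ ∈ G.cx s false) ∧
  (∀ a b : α, ({a, b} : Finset α) ∈ G.cx s false ↔ a ∈ s ∧ b ∈ s ∧ (a = b ∨ G.A a b = true)) ∧
  ∃ col : α → Bool, ∀ a b, G.A a b = true → ({a, b} : Finset α) ≠ {G.c, G.w} → col a ≠ col b

end Pool.Agent.Chomp.GR
end

-- merged part: Pool.Agent.Work.MP_ff0f6a_lc.GR.Attack
section
/-!
The attack on an unbalanced state (step B1).
-/

namespace Pool.Agent.Chomp.GR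

open Finset Function Pool.Agent.Chomp.SC

theorem grAttack_low {h : ℕ → ℕ → ℕ} (hb : ∀ κ e, h κ e ≤ tau κ e + 1) (κ e : ℕ) :
    ∀ κ' e', Mach.low h κ e κ' e' ≤ tau κ' e' + 1 := by
  intro κ' e'
  unfold Mach.low
  split_ifs with hc
  · obtain ⟨rfl, rfl⟩ := hc
    have := hb κ' e'
    omega
  · exact hb κ' e'

theorem grAttack_in {P : Mg} {s : Finset (ℕ × ℕ)} (hi : P.In2 s) (u : ℕ × ℕ) :
    P.In2 (s.erase u) := fun v hv => hi v (mem_of_mem_erase hv)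

theorem t_attack (h0 : T_Gok) (hv : T_vs) (hd : T_deg) (hg : T_goal) (hs : S_step) (hk : S_kill)
    (hl : S_lose) : T_attack := by
  intro P hP
  have hG := h0 P hP
  have key : ∀ n : ℕ, ∀ (s : Finset (ℕ × ℕ)) (h : ℕ → ℕ → ℕ), (P.vs s h).card = n → P.In2 s →
      (∀ κ e, h κ e ≤ tau κ e + 1) →
      (P.G2.ClO (P.vs s h) → ¬ P.Bal (P.lp s) h → Res true (P.G2.cx (P.vs s h) false)) ∧
      (P.G2.ClE (P.vs s h) →
        (∀ u ∈ s, Odd (P.G2.deg (P.vs s h) (u.1, u.2, 0)) → ¬ P.Bal (P.lp (s.erase u)) h) →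
        (∀ κ e, P.Fr (P.lp s) h κ e → ¬ P.Bal (P.lp s) (Mach.low h κ e)) →
        Res false (P.G2.cx (P.vs s h) false)) := by
    intro n
    induction n using Nat.strong_induction_on with
    | _ n ih =>
    intro s h hn hi hb
    obtain ⟨tri, mem, er1, er2, -⟩ := hv P hP s h hi hb
    obtain ⟨-, dg2, dgw⟩ := hd P hP s h hi hb
    obtain ⟨l1, l2, -, l4⟩ := hl _ P.G2 hG (P.vs s h) false
    have lt : ∀ v ∈ P.vs s h, ((P.vs s h).erase v).card < n := fun v hv' =>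
      hn ▸ card_erase_lt_of_mem hv'
    refine ⟨fun hO hB => ?_, fun hE h1 h2 => ?_⟩
    · by_cases hσ : ∃ σ, Odd (P.fr h σ 0)
      · obtain ⟨σ, hσ⟩ := hσ
        have ho := (hg P hP s h hi hb σ).2 hσ
        have hcz : goal σ = P.G2.c ∨ goal σ = P.G2.z := by
          cases σ
          · exact Or.inl rfl
          · exact Or.inr rfl
        have hm : goal σ ∈ P.vs s h := by
          rcases hcz with e | e
          · exact e ▸ tri.1
          · exact e ▸ tri.2.1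
        exact ((hk _ P.G2 hG).2 (P.vs s h) false (goal σ) hcz hm ho).1 hO
      · have hev : ∀ σ, Even (P.fr h σ 0) := fun σ =>
          Nat.not_odd_iff_even.1 fun ho => hσ ⟨σ, ho⟩
        obtain ⟨κ, e, hF, b1, b2⟩ := hs P.toMach (P.lp s) h hb hB hev
        have hm : (κ, e, h κ e) ∈ P.vs s h :=
          (mem _).2 (Or.inr (Or.inl ⟨hF.1, hF.2.1, hF.2.2.1, le_rfl⟩))
        have ho : Odd (P.G2.deg (P.vs s h) (κ, e, h κ e)) :=
          (dg2 κ hF.1 e hF.2.1 _ hF.2.2.1 le_rfl).2 ⟨rfl, hF⟩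
        have he := er2 κ hF.1 e hF.2.1 hF.2.2.1
        have hE : P.G2.ClE (P.vs s (Mach.low h κ e)) := he ▸ ((l1 _ hm ho).2.1 hO)
        refine l2 _ hm ?_
        rw [he]
        exact (ih _ (he ▸ lt _ hm) s (Mach.low h κ e) rfl hi (grAttack_low hb κ e)).2 hE
          (fun u _ _ => b1 _) b2
    · refine l4 tri (Or.inl hE) (fun v hm ho hc hz => ?_) (fun hf => absurd hf (by simp))
      have hO := (l1 v hm ho).1.1 hE
      have hlt := lt v hm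
      obtain ⟨κ, e, r⟩ := v
      rcases (mem _).1 hm with ⟨hr, hu⟩ | ⟨hκ, he, hr1, hr2⟩ | ⟨hκ, hr, h4, h6⟩
      · obtain rfl : r = 0 := hr
        have he := er1 (κ, e) hu
        simp only at he
        rw [he] at hO hlt ⊢
        exact (ih _ hlt (s.erase (κ, e)) h rfl (grAttack_in hi _) hb).1 hO (h1 (κ, e) hu ho)
      · obtain ⟨rfl, hF⟩ := (dg2 κ hκ e he r hr1 hr2).1 ho
        have he' := er2 κ hκ e he hr1
        rw [he'] at hO hlt ⊢
        exact (ih _ hlt s (Mach.low h κ e) rfl hi (grAttack_low hb κ e)).1 hO (h2 κ e hF)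
      · obtain rfl : κ = 0 := hκ
        obtain rfl : r = 0 := hr
        simp only at h4 h6
        have : e = 4 ∨ e = 5 ∨ e = 6 := by omega
        rcases this with rfl | rfl | rfl
        · exact absurd rfl hc
        · exact absurd rfl hz
        · exact absurd ho (Nat.not_odd_iff_even.2 dgw)
  exact fun s h hi hb => (key _ s h rfl hi hb).1

end Pool.Agent.Chomp.GR
end

-- merged part: Pool.Agent.Work.MP_ff0f6a_lc.GR.Eqs
section
/-!
The unfolding lemma of the recursive definition is created once, here.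
-/

theorem Pool.Agent.Chomp.GR.eqs_qv : type_of% @Pool.Agent.Chomp.GR.QV.eq_def :=
  @Pool.Agent.Chomp.GR.QV.eq_def
end

-- merged part: Pool.Agent.Work.MP_ff0f6a_lc.GR.One
section
/-!
False formula: the first player wins.
-/

namespace Pool.Agent.Chomp.GR

open Finset Function Pool.Agent.Chomp.SC

theorem grOne_tr {a : ℕ → Bool} {k c : ℕ} (b : Bool) (h : c / 3 ≠ k) :
    tr (update a k b) c ↔ tr a c := by
  unfold tr
  rw [update_of_ne h]

theorem grOne_act (F : Q3) {φ : ℕ → Bool} {c c' : ℕ} (h : c / 3 ≠ c' / 3) :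
    F.act (update φ c' true) c ↔ F.act φ c := by
  have h1 : F.host c ≠ c' := by
    unfold Q3.host
    split_ifs with h2
    · have := h2.1
      omega
    · omega
  unfold Q3.act
  rw [update_of_ne h1]

theorem grOne_fire (F : Q3) (φ : ℕ → Bool) {c : ℕ} (h : ¬ F.neg c) : F.act (update φ c true) c := by
  unfold Q3.act Q3.host
  rw [if_neg h, update_self]
  exact iff_of_true rfl h

theorem grOne_size (F : Q3) {c : ℕ} (h : c / 3 < F.n)
    (h' : c % 3 = 1 ∨ (c % 3 = 2 ∧ F.q (c / 3) = false)) : 0 < F.size (8 * c + 4) := by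
  have e1 : (8 * c + 4) % 8 = 4 := by omega
  have e2 : (8 * c + 4) / 8 = c := by omega
  unfold Q3.size
  rw [e1, e2, if_neg (by omega), if_pos (Or.inr (Or.inl ⟨rfl, h, h'⟩))]
  omega

/-- firing the literal `sg` of the variable `k`, which the value `b` makes false -/
theorem grOne_next (F : Q3) {φ a : ℕ → Bool} {k sg : ℕ} {b : Bool} (hn : ¬ F.neg (3 * k + sg))
    (hs : (sg = 1 ∧ b = false) ∨ (sg = 2 ∧ b = true))
    (h : ∀ c, c / 3 < k → c % 3 ≠ 0 → ¬ tr a c → F.act φ c) :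
    ∀ c, c / 3 < k + 1 → c % 3 ≠ 0 → ¬ tr (update a k b) c →
      F.act (update φ (3 * k + sg) true) c := by
  intro c h1 h2 h3
  by_cases h4 : c / 3 = k
  · by_cases h5 : c = 3 * k + sg
    · rw [h5]
      exact grOne_fire F φ hn
    · refine absurd ?_ h3
      unfold tr lit
      rw [h4, update_self]
      rcases hs with ⟨rfl, rfl⟩ | ⟨rfl, rfl⟩
      · exact Or.inr ⟨by omega, rfl⟩
      · exact Or.inl ⟨by omega, rfl⟩
  · rw [grOne_act F (by omega)]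
    exact h c (by omega) h2 fun k' => h3 ((grOne_tr b h4).2 k')

theorem grOne_off {φ : ℕ → Bool} {k c' : ℕ} (h' : c' / 3 = k) (h : ∀ c, k ≤ c / 3 → φ c = false) :
    ∀ c, k + 1 ≤ c / 3 → update φ c' true c = false := fun c hc => by
  rw [update_of_ne (by omega)]
  exact h c (by omega)

theorem grOne_main (hk : T_mask) (hs : T_step) (h1 : T_end1) (F : Q3) (hF : F.Ok) (N : ℕ) :
    ∀ (s : Finset (ℕ × ℕ)) (t : ℕ) (R : ℕ → Finset ℕ) (φ : ℕ → Bool) (k : ℕ) (a : ℕ → Bool),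
    s.card + (F.n - k) < N → F.mach.Good s → F.Inv s t R φ → k ≤ F.n → t ≤ 2 * F.n + 1 →
    t ≤ 2 * k + 3 → (F.q k = true → t ≤ 2 * k + 2) → ¬ QV F.q F.Mat (F.n - k) k a →
    (∀ i, k ≤ i → R i = ∅) → (∀ c, k ≤ c / 3 → φ c = false) →
    (∀ c, c / 3 < k → c % 3 ≠ 0 → ¬ tr a c → F.act φ c) → F.mach.W s := by
  induction N with
  | zero => exact fun s t R φ k a h => absurd h (Nat.not_lt_zero _)
  | succ N ih =>
    intro s t R φ k a hN hG hI hkn ht t3 t2 hQ hR hφ hA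
    by_cases cA : k < F.n ∧ F.q k = true ∧ 2 * k < t
    · obtain ⟨k1, k2, k3⟩ := cA
      have t4 := t2 k2
      rw [show F.n - k = F.n - (k + 1) + 1 by omega, QV.eq_2, if_pos k2, not_forall] at hQ
      obtain ⟨b, hb⟩ := hQ
      cases b with
      | true =>
        refine ih s t R φ (k + 1) _ (by omega) hG hI k1 ht (by omega) (fun _ => by omega) hb
          (fun i hi => hR i (by omega)) (fun c hc => hφ c (by omega)) fun c c1 c2 c3 => ?_
        by_cases c4 : c / 3 = k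
        · have c5 : c % 3 = 2 := by
            by_contra c6
            refine c3 ?_
            unfold tr lit
            rw [c4, update_self]
            exact Or.inl ⟨by omega, rfl⟩
          have c6 : F.neg c := ⟨c5, c4 ▸ k2⟩
          unfold Q3.act Q3.host
          rw [if_pos c6, hφ (c - 1) (by omega)]
          exact iff_of_false Bool.false_ne_true (not_not.2 c6)
        · exact hA c (by omega) c2 fun k' => c3 ((grOne_tr true c4).2 k')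
      | false =>
        have e : (3 * k + 1) / 3 = k := by omega
        refine (hs F hF s t R φ hG hI ht).1 (3 * k + 1)
          (grOne_size F (by omega) (Or.inl (by omega))) (hφ _ e.ge)
          (Or.inl (by rw [e]; exact ⟨k2, k3, t4⟩)) fun s' c1 c2 c3 => ?_
        exact ih s' t R _ (k + 1) _ (by omega) c2 c3 k1 ht (by omega) (fun _ => by omega) hb
          (fun i hi => hR i (by omega)) (grOne_off e hφ)
          (grOne_next F (fun h => by have := h.1; omega) (Or.inl ⟨rfl, rfl⟩) hA)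
    by_cases cB : k < F.n ∧ F.q k = false ∧ 2 * k + 1 < t
    · obtain ⟨k1, k2, k3⟩ := cB
      rw [show F.n - k = F.n - (k + 1) + 1 by omega, QV.eq_2, if_neg (by simp [k2]),
        not_exists] at hQ
      refine (hs F hF s t R φ hG hI ht).2.1 k k1 k2 (hR k le_rfl) k3 fun s' b b1 b2 c1 c2 c3 => ?_
      obtain ⟨sg, g1, g2⟩ := hk.2.2 b b1 b2
      have e : (3 * k + sg) / 3 = k := by omega
      have e' : (3 * k + sg) % 3 = sg := by omega
      refine (hs F hF s' t _ φ c2 c3 ht).1 (3 * k + sg)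
        (grOne_size F (by omega) (by rw [e, e']; exact g1.imp id fun h => ⟨h, k2⟩)) (hφ _ e.ge)
        (Or.inr (by rw [e, e', update_self, hR k le_rfl]; exact ⟨k2, g2⟩)) fun s'' d1 d2 d3 => ?_
      refine ih s'' t _ _ (k + 1) _ (by omega) d2 d3 k1 ht (by omega) (fun _ => by omega)
        (hQ (decide (sg = 2))) (fun i hi => ?_) (grOne_off e hφ)
        (grOne_next F (fun h => ?_) ?_ hA)
      · rw [update_of_ne (by omega)]
        exact hR i (by omega)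
      · have := h.2
        rw [e, k2] at this
        exact Bool.false_ne_true this
      · rcases g1 with rfl | rfl
        · exact Or.inl ⟨rfl, rfl⟩
        · exact Or.inr ⟨rfl, rfl⟩
    have kA : k < F.n → F.q k = true → t ≤ 2 * k := fun x y => not_lt.1 fun z => cA ⟨x, y, z⟩
    have kB : k < F.n → t ≤ 2 * k + 1 := fun x => by
      cases hq : F.q k
      · exact not_lt.1 fun z => cB ⟨x, hq, z⟩
      · exact (kA x hq).trans (Nat.le_succ _)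
    by_cases cC : t ≤ 2 * F.n
    · refine (hs F hF s t R φ hG hI ht).2.2 cC fun s' t' c1 _ c3 c4 c5 c6 => ?_
      refine ih s' t' R φ k a (by omega) c5 c6 hkn c4 ?_ (fun hq => ?_) hQ hR hφ hA
      · rcases hkn.lt_or_eq with x | x
        · have := kB x
          omega
        · omega
      · rcases hkn.lt_or_eq with x | x
        · have := kA x hq
          omega
        · omega
    · obtain rfl : t = 2 * F.n + 1 := by omega
      obtain rfl : k = F.n := by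
        by_contra x
        have := kB (by omega)
        omega
      rw [Nat.sub_self, QV.eq_1] at hQ
      unfold Q3.Mat at hQ
      push Not at hQ
      obtain ⟨j, hj, hp⟩ := hQ
      exact h1 F hF s R φ hG hI j hj fun p p3 =>
        hA _ (hF.hv j hj p p3).1 (hF.hv j hj p p3).2 (hp p p3)

theorem t_one (hm : T_mok) (hk : T_mask) (hs : T_step) (h1 : T_end1) (hb : T_start) : T_one := by
  intro F hF a ha
  refine grOne_main hk hs h1 F hF _ _ 0 (fun _ => ∅) (fun _ => false) 0 a (Nat.lt_succ_self _)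
    (hb F hF) ((hm F).2.2.2.2.1 _ _ _ fun i => ⟨fun b h => absurd h (notMem_empty b), by simp⟩)
    (Nat.zero_le _) (Nat.zero_le _) (Nat.zero_le _) (fun _ => Nat.zero_le _) ha (fun _ _ => rfl)
    (fun _ _ => rfl) fun c h => absurd h (Nat.not_lt_zero _)

end Pool.Agent.Chomp.GR
end

-- merged part: Pool.Agent.Work.MP_ff0f6a_lc.GR.Pm
section
/-!
Paired machine states of the graph machine.
-/

namespace Pool.Agent.Chomp.GR

open Finset Function Pool.Agent.Chomp.SC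

/-- the pairing on all vertices -/
def grPm_pi (π : ℕ × ℕ → ℕ × ℕ) (v : ℕ × ℕ × ℕ) : ℕ × ℕ × ℕ :=
  if v.2.2 = 0 ∧ v.1 ≠ 0 then ((π (v.1, v.2.1)).1, (π (v.1, v.2.1)).2, 0) else v

theorem grPm_m (π : ℕ × ℕ → ℕ × ℕ) {u : ℕ × ℕ} (h : u.1 ≠ 0) :
    grPm_pi π (u.1, u.2, 0) = ((π u).1, (π u).2, 0) := if_pos ⟨rfl, h⟩

theorem grPm_n (π : ℕ × ℕ → ℕ × ℕ) {v : ℕ × ℕ × ℕ} (h : ¬ (v.2.2 = 0 ∧ v.1 ≠ 0)) :
    grPm_pi π v = v := if_neg h

theorem grPm_mm {P : Mg} (hP : P.toMach.Ok) {u v : ℕ × ℕ} (hu : u.1 ≠ 0) (hv : v.1 ≠ 0) :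
    P.G2.A (u.1, u.2, 0) (v.1, v.2, 0) = P.adj u v := by
  have e : ∀ {u v : ℕ × ℕ}, u.1 ≠ 0 → v.1 ≠ 0 →
      P.arc2 (u.1, u.2, 0) (v.1, v.2, 0) = P.adj u v := by
    intro u v hu hv
    rw [Bool.eq_iff_iff, Mg.arc2, decide_eq_true_iff]
    constructor
    · rintro (h | h | h | h | h)
      · exact h.2.2.2.2
      all_goals
        exfalso
        simp only at h
        omega
    · exact fun h => Or.inl ⟨rfl, rfl, hu, hv, h⟩
  change (P.arc2 _ _ || P.arc2 _ _) = _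
  rw [e hu hv, e hv hu, hP.symm v u, Bool.or_self]

theorem grPm_mn (P : Mg) {v : ℕ × ℕ × ℕ} (hv : ¬ (v.2.2 = 0 ∧ v.1 ≠ 0)) {u : ℕ × ℕ}
    (hu : u.1 ≠ 0) : P.G2.A (u.1, u.2, 0) v = true ↔ P.lb u.1 = true ∧ v.1 = u.1 ∧
      v.2.2 = tau v.1 v.2.1 + 1 ∧ (v.2.1 = 0 ∨ P.fix u.1 = true) := by
  change (P.arc2 _ _ || P.arc2 _ _) = true ↔ _
  rw [Bool.or_eq_true, Mg.arc2, Mg.arc2, decide_eq_true_iff, decide_eq_true_iff]
  constructor
  · rintro ((h | h | h | h | h) | h | h | h | h | h)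
    · exact absurd ⟨h.2.1, h.2.2.2.1⟩ hv
    · exact h.2.2
    rotate_left 3
    · exact absurd ⟨h.1, h.2.2.1⟩ hv
    · exact absurd ⟨h.1, h.2.1⟩ hv
    all_goals
      exfalso
      simp only at h
      omega
  · exact fun h => Or.inl (Or.inr (Or.inl ⟨rfl, hu, h⟩))

theorem grPm_cnt {P : Mg} {π : ℕ × ℕ → ℕ × ℕ} {s : Finset (ℕ × ℕ)} (h : P.Pm π s) (κ : ℕ) :
    Even (cnt (P.lp s) κ) := by
  have m : ∀ a, a ∈ (P.lp s).filter (fun u => u.1 = κ) ↔ (a ∈ s ∧ P.lb a.1 = true) ∧ a.1 = κ :=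
    fun a => by rw [mem_filter, Mg.lp, mem_filter]
  rw [← ZMod.natCast_eq_zero_iff_even, cnt, card_eq_sum_ones, Nat.cast_sum]
  refine sum_involution (fun a _ => π a) (fun _ _ => by decide) (fun a ha _ => ?_)
    (fun a ha => ?_) fun a ha => h.inv a ((m a).1 ha).1.1
  · exact (h.cls a ((m a).1 ha).1.1 ((m a).1 ha).1.2).2
  · obtain ⟨⟨a1, a2⟩, a3⟩ := (m a).1 ha
    have e := (h.cls a a1 a2).1
    exact (m _).2 ⟨⟨h.mem a a1, by rwa [e]⟩, e.trans a3⟩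

theorem t_pm (h0 : T_Gok) (hv : T_vs) (hd : T_deg) (hg : T_goal) (hf : S_fr) (ho : S_pairO)
    (hp : S_pair) : T_pm := by
  intro P hP π s hs hq
  have hh : ∀ κ e, full κ e ≤ tau κ e + 1 := fun _ _ => le_rfl
  obtain ⟨v1, v2, -, -, v5⟩ := hv P hP s full hs hh
  obtain ⟨d1, d2, d3⟩ := hd P hP s full hs hh
  have cl : ∀ v ∈ P.vs s full, (∃ u ∈ s, v = (u.1, u.2, 0)) ∨ ¬ (v.2.2 = 0 ∧ v.1 ≠ 0) := by
    rintro ⟨a, b, c⟩ h
    rcases (v2 _).1 h with h | h | h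
    · obtain ⟨rfl, k⟩ : c = 0 ∧ (a, b) ∈ s := h
      exact Or.inl ⟨(a, b), k, rfl⟩
    · right
      omega
    · right
      omega
  have nz : ∀ u ∈ s, u.1 ≠ 0 := fun u hu => (hs u hu).1.ne'
  have nz' : ∀ u ∈ s, (π u).1 ≠ 0 := fun u hu => nz _ (hq.mem u hu)
  have fx : ∀ u ∈ s, grPm_pi π (u.1, u.2, 0) = (u.1, u.2, 0) → π u = u := fun u hu e => by
    rw [grPm_m π (nz u hu)] at e
    exact Prod.ext (congrArg (fun x => x.1) e) (congrArg (fun x => x.2.1) e)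
  have pd : P.G2.Pd (grPm_pi π) (P.vs s full) := by
    refine ⟨v1, ⟨rfl, rfl, rfl⟩, fun v h => ?_, fun v h => ?_, fun v h => ?_, fun v h => ?_,
      fun v h e => ⟨?_, fun u hu => ?_⟩, fun u hu v h => ?_⟩
    · rcases cl v h with ⟨u, hu, rfl⟩ | hn
      · rw [grPm_m π (nz u hu)]
        exact (v2 _).2 (Or.inl ⟨rfl, hq.mem u hu⟩)
      · rwa [grPm_n π hn]
    · rcases cl v h with ⟨u, hu, rfl⟩ | hn
      · rw [grPm_m π (nz u hu), grPm_m π (nz' u hu), hq.inv u hu]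
      · rw [grPm_n π hn, grPm_n π hn]
    · rcases cl v h with ⟨u, hu, rfl⟩ | hn
      · rw [grPm_m π (nz u hu)]
        simp only [Mg.G2, if_true, if_pos (nz u hu), if_pos (nz' u hu)]
        exact hq.col u hu
      · rw [grPm_n π hn]
    · rcases cl v h with ⟨u, hu, rfl⟩ | hn
      · rw [grPm_m π (nz u hu), d1 _ (hq.mem u hu), d1 u hu]
        exact hq.par u hu
      · rw [grPm_n π hn]
    · rw [← Nat.not_odd_iff_even]
      obtain ⟨a, b, c⟩ := v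
      rcases (v2 _).1 h with h | h | h
      · obtain ⟨rfl, k⟩ : c = 0 ∧ (a, b) ∈ s := h
        exact fun o => (hq.ev _ k (fx _ k e)).1 ((d1 _ k).1 o)
      · rw [d2 a h.1 b h.2.1 c h.2.2.1 h.2.2.2]
        rintro ⟨-, -, -, -, k | k⟩
        · exact Nat.not_succ_le_self _ k
        · exact Nat.not_odd_iff_even.2 (grPm_cnt hq a) k.2
      · obtain ⟨rfl, rfl, h1, h2⟩ : a = 0 ∧ c = 0 ∧ 4 ≤ b ∧ b ≤ 6 := h
        have k := fun σ => hg P hP s full hs hh σ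
        simp only [(hf P.toMach full hh).1, Nat.not_odd_zero, iff_false] at k
        obtain rfl | rfl | rfl : b = 4 ∨ b = 5 ∨ b = 6 := by omega
        · exact k false
        · exact k true
        · exact Nat.not_odd_iff_even.2 d3
    · rcases cl u hu with ⟨a, ha, rfl⟩ | hn'
      · rw [grPm_m π (nz a ha)]
        rcases cl v h with ⟨b, hb, rfl⟩ | hn
        · rw [grPm_mm hP (nz' a ha) (nz b hb), grPm_mm hP (nz a ha) (nz b hb)]
          exact (hq.ev b hb (fx b hb e)).2 a ha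
        · rw [Bool.eq_iff_iff, grPm_mn P hn (nz' a ha), grPm_mn P hn (nz a ha)]
          constructor
          · intro k
            have := (hq.cls _ (hq.mem a ha) k.1).1
            rw [hq.inv a ha] at this
            rwa [this]
          · intro k
            rwa [(hq.cls a ha k.1).1]
      · rw [grPm_n π hn']
    · rcases cl v h with ⟨b, hb, rfl⟩ | hn
      · rcases cl u hu with ⟨a, ha, rfl⟩ | hn'
        · rw [grPm_m π (nz a ha), grPm_m π (nz b hb), grPm_mm hP (nz a ha) (nz b hb),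
            grPm_mm hP (nz a ha) (nz' b hb), grPm_mm hP (nz' a ha) (nz b hb),
            grPm_mm hP (nz' a ha) (nz' b hb)]
          exact hq.blk a ha b hb
        · rw [grPm_n π hn']
      · rw [grPm_n π hn, Bool.xor_self, Bool.xor_self]
  exact ⟨fun e => ⟨v5.2 e, ho _ P.G2 (h0 P hP) _ _ pd⟩, hp _ P.G2 (h0 P hP) _ _ pd⟩

end Pool.Agent.Chomp.GR
end

-- merged part: Pool.Agent.Work.MP_ff0f6a_lc.GR.Rule
section
/-!
The rules of the game on the machine level.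
-/

namespace Pool.Agent.Chomp.GR

open Finset Function Pool.Agent.Chomp.SC

theorem grRule_erase {α : Type} [DecidableEq α] (s : Finset α) (p : α → Prop)
    [DecidablePred p] (u : α) (hu : u ∈ s) :
    (s.filter p).card = ((s.erase u).filter p).card + if p u then 1 else 0 := by
  conv_lhs => rw [← Finset.insert_erase hu, Finset.filter_insert]
  split_ifs with h
  · rw [Finset.card_insert_of_notMem]
    simp
  · rfl

theorem t_elem : T_elem := by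
  intro P s u hu
  refine ⟨fun v => ?_, fun κ => ?_⟩
  · unfold Mg.od2
    rw [grRule_erase s (fun w => P.adj v w = true) u hu]
    generalize (if P.lb v.1 = true then 1 + (P.fix v.1).toNat else 0) = m
    cases h : P.adj v u
    · simp
    · simp only [if_true, Bool.true_eq_false, iff_false, Nat.odd_iff]
      omega
  · unfold cnt
    rw [grRule_erase s (fun w => w.1 = κ) u hu]
    by_cases h : u.1 = κ
    · simp only [h, if_true, ne_eq, not_true_eq_false, iff_false, Nat.odd_iff]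
      omega
    · simp [h]

theorem grRule_cnt (P : Mg) (s : Finset (ℕ × ℕ)) (κ : ℕ) :
    cnt (P.lp s) κ = if P.lb κ = true then cnt s κ else 0 := by
  unfold cnt Mg.lp
  rw [Finset.filter_filter]
  split_ifs with h
  · exact congrArg Finset.card (Finset.filter_congr fun u _ =>
      ⟨fun k => k.2, fun k => ⟨by rw [k, h], k⟩⟩)
  · rw [Finset.card_eq_zero, Finset.filter_eq_empty_iff]
    rintro u - ⟨k, rfl⟩
    exact h k

theorem t_rule (h0 : T_Gok) (hv : T_vs) (hd : T_deg) (hg : T_goal) (hf : S_fr) (ha : T_attack)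
    (hl : S_lose) : T_rule := by
  intro P hP s hs
  have hh : ∀ κ e, full κ e ≤ tau κ e + 1 := fun _ _ => le_rfl
  obtain ⟨v1, v2, v3, v4, -⟩ := hv P hP s full hs hh
  obtain ⟨d1, d2, d3⟩ := hd P hP s full hs hh
  obtain ⟨l1, l2, -, l4⟩ := hl _ P.G2 (h0 P hP) (P.vs s full) false
  obtain ⟨f1, -, f3⟩ := hf P.toMach full hh
  refine ⟨fun κ co lb od => ha P hP s full hs hh co fun b => ?_, fun hc hw => ?_, fun u hu => ?_⟩
  · obtain ⟨u, hu⟩ := Finset.card_pos.1 od.pos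
    obtain ⟨hu', e⟩ := Finset.mem_filter.1 hu
    exact b.1 _ (e ▸ (hs u hu').2) 0 (by decide) rfl ⟨Or.inl rfl, by rwa [grRule_cnt, if_pos lb]⟩
  · have k := fun σ => hg P hP s full hs hh σ
    simp only [f1, Nat.not_odd_zero, iff_false, Nat.not_odd_iff_even] at k
    refine l4 v1 (hc.imp id fun g => ⟨g.2.1, k false, k true⟩) ?_ fun e => nomatch e
    rintro ⟨a, b, c⟩ hm od nc nz
    rcases (v2 _).1 hm with h | h | h
    · obtain ⟨rfl, m⟩ : c = 0 ∧ (a, b) ∈ s := h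
      rw [v3 _ m]
      exact hw _ m ((d1 _ m).1 od)
    · obtain ⟨rfl, -, -, p1, q | q⟩ := (d2 a h.1 b h.2.1 c h.2.2.1 h.2.2.2).1 od
      · exact (Nat.not_succ_le_self _ q).elim
      · rcases hc with ce | g
        · have co := (l1 _ hm od).1.1 ce
          rw [v4 a h.1 b h.2.1 p1] at co ⊢
          refine ha P hP s _ hs (fun κ e => ?_) co fun bal => ?_
          · unfold Mach.low
            split_ifs with c
            · obtain ⟨rfl, rfl⟩ := c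
              exact (Nat.sub_le _ _).trans (hh _ _)
            · exact hh _ _
          · have := (f3 a h.1 b h.2.1 p1 _ 0).1 (bal.2 (P.side a) 0)
            rw [f1] at this
            exact this.1 Even.zero ⟨rfl, Or.inr (Nat.mod_self _).symm⟩
        · have q2 := q.2
          rw [grRule_cnt] at q2
          split_ifs at q2 with lb
          · exact (Nat.not_odd_iff_even.2 (g.2.2 a lb) q2).elim
          · exact (Nat.not_odd_zero q2).elim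
    · obtain ⟨rfl, rfl, h1, h2⟩ : a = 0 ∧ c = 0 ∧ 4 ≤ b ∧ b ≤ 6 := h
      obtain rfl | rfl | rfl : b = 4 ∨ b = 5 ∨ b = 6 := by omega
      · exact (nc rfl).elim
      · exact (nz rfl).elim
      · exact (Nat.not_odd_iff_even.2 d3 od).elim
  · have hm : (u.1, u.2, 0) ∈ P.vs s full := (v2 _).2 (Or.inl ⟨rfl, hu⟩)
    refine ⟨fun h => l2 _ hm ?_, fun h => ?_⟩
    · rw [v3 u hu]
      exact h
    · have k := l1 _ hm ((d1 u hu).2 h)
      rw [v3 u hu] at k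
      exact k

end Pool.Agent.Chomp.GR
end

-- merged part: Pool.Agent.Work.MP_ff0f6a_lc.GR.Ts
section
namespace Pool.Agent.Chomp.GR

open Finset Function Pool.Agent.Chomp.SC

theorem t_tsok : T_tsok := by
  intro F h
  have hn := h.hn
  have key : ∀ J < F.m * (F.n + 3), J / (F.n + 3) * (F.n + 1) + F.n + 1 ≤ F.m * (F.n + 1) := by
    intro J hJ
    have h1 : J / (F.n + 3) < F.m := by
      rw [Nat.div_lt_iff_lt_mul (by omega)]
      exact hJ
    have h2 := Nat.mul_le_mul_right (F.n + 1) (Nat.succ_le_of_lt h1)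
    rw [Nat.succ_mul] at h2
    omega
  refine ⟨by show 0 < F.n + F.m * (F.n + 1) + 2; omega, fun J hJ p hp => ?_,
    fun J hJ p hp p' hp' => ?_⟩
  · have k := key J hJ
    have s := h.hs (J / (F.n + 3)) (J % (F.n + 3))
    show tsl F J p / 3 < F.n + F.m * (F.n + 1) + 2 ∧ tsl F J p % 3 ≠ 0
    unfold tsl
    generalize F.sg (J / (F.n + 3)) (J % (F.n + 3)) = g at *
    generalize J / (F.n + 3) * (F.n + 1) = A at *
    generalize F.m * (F.n + 1) = B at *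
    generalize J % (F.n + 3) = r at *
    split_ifs <;> omega
  · have k := key J hJ
    have s := h.hs (J / (F.n + 3)) (J % (F.n + 3))
    show tsl F J p / 3 = tsl F J p' / 3 → p = p'
    unfold tsl
    generalize F.sg (J / (F.n + 3)) (J % (F.n + 3)) = g at *
    generalize J / (F.n + 3) * (F.n + 1) = A at *
    generalize F.m * (F.n + 1) = B at *
    generalize J % (F.n + 3) = r at *
    split_ifs <;> omega

lemma grTs_succ (q : ℕ → Bool) (M : (ℕ → Bool) → Prop) (k i : ℕ) (a : ℕ → Bool) :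
    QV q M (k + 1) i a ↔ if q i = true then ∀ b, QV q M k (i + 1) (update a i b)
      else ∃ b, QV q M k (i + 1) (update a i b) := Iff.rfl

lemma grTs_val (F : Qb) (k i : ℕ) (a : ℕ → Bool) :
    F.Val (k + 1) i a ↔ if F.q i = true then ∀ b, F.Val k (i + 1) (update a i b)
      else ∃ b, F.Val k (i + 1) (update a i b) := Iff.rfl

lemma grTs_add (q : ℕ → Bool) (M N : (ℕ → Bool) → Prop) (l e : ℕ) (h : ∀ b, QV q M l e b ↔ N b) :
    ∀ (k i : ℕ) (a : ℕ → Bool), i + k = e → (QV q M (l + k) i a ↔ QV q N k i a) := by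
  intro k
  induction k with
  | zero =>
    intro i a hi
    have : i = e := hi
    subst this
    exact h a
  | succ k ih =>
    intro i a hi
    have e1 : ∀ b, QV q M (l + k) (i + 1) (update a i b) ↔ QV q N k (i + 1) (update a i b) :=
      fun b => ih (i + 1) _ (by omega)
    rw [← Nat.add_assoc, grTs_succ, grTs_succ]
    split_ifs
    · exact forall_congr' e1
    · exact exists_congr e1

lemma grTs_pull (F : Qb) : ∀ (k i : ℕ) (a : ℕ → Bool), 1 ≤ i → i + k ≤ F.n →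
    (QV (ts F).q (fun b => b 0 = false ∧ F.Mat b) k i a ↔ a 0 = false ∧ F.Val k i a) := by
  intro k
  induction k with
  | zero => exact fun i a _ _ => Iff.rfl
  | succ k ih =>
    intro i a h1 hi
    have e1 : ∀ b, QV (ts F).q (fun b => b 0 = false ∧ F.Mat b) k (i + 1) (update a i b) ↔
        a 0 = false ∧ F.Val k (i + 1) (update a i b) := by
      intro b
      rw [ih (i + 1) _ (by omega) (by omega), update_of_ne (by omega)]
    have hq : (ts F).q i = F.q i := if_pos (by omega)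
    rw [grTs_succ, grTs_val, hq]
    split_ifs
    · exact ⟨fun H => ⟨((e1 false).1 (H false)).1, fun b => ((e1 b).1 (H b)).2⟩,
        fun H b => (e1 b).2 ⟨H.1, H.2 b⟩⟩
    · exact ⟨fun ⟨b, H⟩ => ⟨((e1 b).1 H).1, b, ((e1 b).1 H).2⟩,
        fun ⟨H, b, H'⟩ => ⟨b, (e1 b).2 ⟨H, H'⟩⟩⟩

theorem t_ts (h : T_tsmat) : T_ts := by
  intro F hF h0
  have hn := hF.hn
  have e0 : (ts F).n = F.m * (F.n + 1) + 2 + (F.n - 1 + 1) := by
    show F.n + F.m * (F.n + 1) + 2 = _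
    omega
  have hq : (ts F).q 0 = false := (if_pos hn).trans h0
  have e1 : ∀ b, QV (ts F).q (fun b => b 0 = false ∧ F.Mat b) (F.n - 1) (0 + 1)
      (update (fun _ => false) 0 b) ↔
      b = false ∧ F.Val (F.n - 1) 1 (update (fun _ => false) 0 b) := by
    intro b
    rw [grTs_pull F _ _ _ (by omega) (by omega), update_self]
  have e2 : update (fun _ : ℕ => false) 0 false = fun _ => false := update_eq_self 0 _
  rw [e0, grTs_add _ _ _ _ _ (h F hF) _ _ _ (by omega), grTs_succ, hq, if_neg (by decide)]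
  constructor
  · rintro ⟨b, H⟩
    obtain ⟨rfl, H'⟩ := (e1 b).1 H
    rwa [e2] at H'
  · intro H
    exact ⟨false, (e1 false).2 ⟨rfl, by rwa [e2]⟩⟩

lemma grTs_mem {α : Type} [DecidableEq α] (G : Apex α) (s σ : Finset α) :
    σ ∈ G.cx s false ↔ (∃ v ∈ s, σ = {v}) ∨ ∃ u ∈ s, ∃ v ∈ s, G.A u v = true ∧ σ = {u, v} := by
  unfold Apex.cx
  rw [if_neg (fun H => Bool.false_ne_true H.1), union_empty, mem_union, mem_image, mem_image]
  refine or_congr ⟨fun ⟨v, hv, e⟩ => ⟨v, hv, e.symm⟩, fun ⟨v, hv, e⟩ => ⟨v, hv, e.symm⟩⟩ ⟨?_, ?_⟩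
  · rintro ⟨p, hp, e⟩
    rw [mem_filter, mem_product] at hp
    exact ⟨p.1, hp.1.1, p.2, hp.1.2, hp.2, e.symm⟩
  · rintro ⟨u, hu, v, hv, a, e⟩
    exact ⟨(u, v), mem_filter.2 ⟨mem_product.2 ⟨hu, hv⟩, a⟩, e.symm⟩

lemma grTs_clique {α : Type} [DecidableEq α] {G : Apex α} (k : G.Ok) {s σ : Finset α}
    (hσ : σ ∈ G.cx s false) : σ.Nonempty ∧ σ ⊆ s ∧ σ.card ≤ 2 ∧
      ∀ u ∈ σ, ∀ v ∈ σ, u = v ∨ G.A u v = true := by
  rcases (grTs_mem G s σ).1 hσ with ⟨v, hv, rfl⟩ | ⟨u, hu, v, hv, a, rfl⟩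
  · exact ⟨singleton_nonempty v, singleton_subset_iff.2 hv, by simp, fun x hx y hy =>
      Or.inl ((mem_singleton.1 hx).trans (mem_singleton.1 hy).symm)⟩
  · refine ⟨insert_nonempty _ _, insert_subset hu (singleton_subset_iff.2 hv), card_le_two,
      fun x hx y hy => ?_⟩
    have a' := (k.symm _ _).trans a
    rw [mem_insert, mem_singleton] at hx hy
    rcases hx with rfl | rfl <;> rcases hy with rfl | rfl <;> simp only [true_or, or_true, a, a']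

lemma grTs_two {α : Type} [DecidableEq α] (G : Apex α) {s : Finset α} {u v : α} (hu : u ∈ s)
    (hv : v ∈ s) (e : u = v ∨ G.A u v = true) : ({u, v} : Finset α) ∈ G.cx s false := by
  rcases e with rfl | e
  · exact (grTs_mem G s _).2 (Or.inl ⟨u, hu, pair_eq_singleton u⟩)
  · exact (grTs_mem G s _).2 (Or.inr ⟨u, hu, v, hv, e, rfl⟩)

theorem t_pairs : T_pairs := by
  intro α _ G k s
  refine ⟨fun σ hσ => ?_, fun a b => ⟨fun hσ => ?_, fun ⟨ha, hb, e⟩ => grTs_two G ha hb e⟩,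
    update G.col G.w (G.col G.c), fun a b ab ne => ?_⟩
  · obtain ⟨h1, h2, h3, h4⟩ := grTs_clique k hσ
    refine ⟨h1, h2, h3, fun ρ hρ hn => ?_⟩
    have c1 := card_pos.2 hn
    have c2 := (card_le_card hρ).trans h3
    obtain ⟨a, b, rfl⟩ : ∃ a b, ρ = {a, b} := by
      obtain e | e : ρ.card = 1 ∨ ρ.card = 2 := by omega
      · obtain ⟨a, rfl⟩ := card_eq_one.1 e
        exact ⟨a, a, (pair_eq_singleton a).symm⟩
      · obtain ⟨a, b, _, rfl⟩ := card_eq_two.1 e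
        exact ⟨a, b, rfl⟩
    have ha : a ∈ σ := hρ (mem_insert_self _ _)
    have hb : b ∈ σ := hρ (mem_insert_of_mem (mem_singleton_self _))
    exact grTs_two G (h2 ha) (h2 hb) (h4 _ ha _ hb)
  · obtain ⟨_, h2, _, h4⟩ := grTs_clique k hσ
    have ha : a ∈ ({a, b} : Finset α) := mem_insert_self _ _
    have hb : b ∈ ({a, b} : Finset α) := mem_insert_of_mem (mem_singleton_self _)
    exact ⟨h2 ha, h2 hb, h4 _ ha _ hb⟩
  · have cz := k.prop _ _ k.cz k.cw k.zw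
    by_cases ha : a = G.w
    · subst ha
      rcases (k.apex b).1 ab with rfl | rfl
      · exact absurd (pair_comm _ _) ne
      · rw [update_self, update_of_ne k.zw]
        exact cz
    by_cases hb : b = G.w
    · subst hb
      rcases (k.apex a).1 ((k.symm _ _).trans ab) with rfl | rfl
      · exact absurd rfl ne
      · rw [update_self, update_of_ne k.zw]
        exact cz.symm
    rw [update_of_ne ha, update_of_ne hb]
    exact k.prop _ _ ab ha hb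

end Pool.Agent.Chomp.GR
end

-- merged part: Pool.Agent.Work.MP_ff0f6a_lc.GR.Tsm
section
/-!
Chomp on graphs: the new variables of the formula with three literals in each clause.
-/

namespace Pool.Agent.Chomp.GR

open Finset Function Pool.Agent.Chomp.SC

theorem grTsm_ex (q : ℕ → Bool) (M : (ℕ → Bool) → Prop) (l : ℕ) : ∀ (k i : ℕ) (a : ℕ → Bool),
    (∀ x, i ≤ x → x < i + k → q x = false) →
    (QV q M (l + k) i a ↔ ∃ b : ℕ → Bool, (∀ x, x < i ∨ i + k ≤ x → b x = a x) ∧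
      QV q M l (i + k) b) := by
  intro k
  induction k with
  | zero =>
    intro i a _
    constructor
    · exact fun h => ⟨a, fun _ _ => rfl, h⟩
    · rintro ⟨b, hb, h⟩
      have : b = a := funext fun x => hb x (by omega)
      rw [← this]
      exact h
  | succ k ih =>
    intro i a hq
    have h0 : q i = false := hq i le_rfl (by omega)
    have e : QV q M (l + (k + 1)) i a ↔ ∃ c, QV q M (l + k) (i + 1) (update a i c) := by
      rw [← Nat.add_assoc, QV.eq_2, if_neg (by rw [h0]; exact Bool.false_ne_true)]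
    have e2 : i + 1 + k = i + (k + 1) := by omega
    rw [e]
    constructor
    · rintro ⟨c, h⟩
      obtain ⟨b, hb, h⟩ := (ih (i + 1) _ fun x h1 h2 => hq x (by omega) (by omega)).1 h
      rw [e2] at h
      refine ⟨b, fun x hx => ?_, h⟩
      rw [hb x (by omega), update_of_ne (by omega)]
    · rintro ⟨b, hb, h⟩
      refine ⟨b i, (ih (i + 1) _ fun x h1 h2 => hq x (by omega) (by omega)).2 ⟨b, fun x hx => ?_,
        by rw [e2]; exact h⟩⟩
      by_cases c : x = i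
      · rw [c, update_self]
      · rw [update_of_ne c, hb x (by omega)]

theorem grTsm_tr (a : ℕ → Bool) (x s : ℕ) (hs : s < 3) : tr a (3 * x + s) ↔ lit s (a x) := by
  unfold tr
  rw [show (3 * x + s) % 3 = s by omega, show (3 * x + s) / 3 = x by omega]

theorem grTsm_one (a : ℕ → Bool) (x : ℕ) : tr a (3 * x + 1) ↔ a x = true := by
  rw [grTsm_tr a x 1 (by omega)]
  simp [lit]

theorem grTsm_two (a : ℕ → Bool) (x : ℕ) : tr a (3 * x + 2) ↔ a x = false := by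
  rw [grTsm_tr a x 2 (by omega)]
  simp [lit]

theorem grTsm_zero (a : ℕ → Bool) : tr a 2 ↔ a 0 = false := grTsm_two a 0

theorem grTsm_div (n j r : ℕ) (hr : r < n) : (j * n + r) / n = j ∧ (j * n + r) % n = r := by
  have h : 0 < n := by omega
  constructor
  · rw [Nat.add_comm, Nat.add_mul_div_right _ _ h, Nat.div_eq_of_lt hr, Nat.zero_add]
  · rw [Nat.add_comm, Nat.add_mul_mod_self_right, Nat.mod_eq_of_lt hr]

theorem grTsm_lt {n m j r : ℕ} (hj : j < m) (hr : r < n) : j * n + r < m * n := by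
  have := Nat.mul_le_mul_right n (show j + 1 ≤ m by omega)
  rw [Nat.add_mul] at this
  omega

theorem grTsm_three (P : ℕ → Prop) : (∃ p < 3, P p) ↔ P 0 ∨ P 1 ∨ P 2 := by
  constructor
  · rintro ⟨p, hp, h⟩
    have : p = 0 ∨ p = 1 ∨ p = 2 := by omega
    rcases this with rfl | rfl | rfl
    · exact Or.inl h
    · exact Or.inr (Or.inl h)
    · exact Or.inr (Or.inr h)
  · rintro (h | h | h)
    · exact ⟨0, by omega, h⟩
    · exact ⟨1, by omega, h⟩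
    · exact ⟨2, by omega, h⟩

theorem grTsm_fwd (F : Qb) (hF : F.Ok) (e : ℕ → Bool) (h : (ts F).Mat e)
    (hu : e (F.n + F.m * (F.n + 1)) = false) (hv : e (F.n + F.m * (F.n + 1) + 1) = false) :
    e 0 = false ∧ F.Mat e := by
  have cl : ∀ j < F.m, ∀ r < F.n + 3, tr e (tsl F (j * (F.n + 3) + r) 0) ∨
      tr e (tsl F (j * (F.n + 3) + r) 1) ∨ tr e (tsl F (j * (F.n + 3) + r) 2) := fun j hj r hr =>
    (grTsm_three _).1 (h _ (grTsm_lt hj hr))
  have last : ∀ j < F.m, ∀ r, F.n ≤ r → r < F.n + 3 → tr e (tsl F (j * (F.n + 3) + r) 0) := by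
    intro j hj r h1 hr
    obtain ⟨d1, d2⟩ := grTsm_div (F.n + 3) j r hr
    rcases cl j hj r hr with c | c | c
    · exact c
    · unfold tsl at c
      rw [if_neg (by omega), if_pos rfl, d2, if_neg (by omega), grTsm_one, hu] at c
      exact absurd c Bool.false_ne_true
    · unfold tsl at c
      rw [if_neg (by omega), if_neg (by omega), d2, if_neg (by omega), grTsm_one, hv] at c
      exact absurd c Bool.false_ne_true
  constructor
  · obtain ⟨d1, d2⟩ := grTsm_div (F.n + 3) 0 (F.n + 2) (by omega)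
    have c := last 0 hF.hm (F.n + 2) (by omega) (by omega)
    unfold tsl at c
    rwa [if_pos rfl, d2, if_neg (by omega), if_neg (by omega), if_neg (by omega), grTsm_zero] at c
  · intro j hj
    by_contra hn
    have step : ∀ r, r ≤ F.n → e (F.n + j * (F.n + 1) + r) = true := by
      intro r
      induction r with
      | zero =>
        intro _
        obtain ⟨d1, d2⟩ := grTsm_div (F.n + 3) j F.n (by omega)
        have c := last j hj F.n le_rfl (by omega)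
        unfold tsl at c
        rwa [if_pos rfl, d1, d2, if_neg (by omega), if_pos rfl, grTsm_one] at c
      | succ r ih =>
        intro hr
        have i1 := ih (by omega)
        obtain ⟨d1, d2⟩ := grTsm_div (F.n + 3) j r (by omega)
        rcases cl j hj r (by omega) with c | c | c
        · unfold tsl at c
          rw [if_pos rfl, d1, d2, if_pos (by omega), grTsm_two, i1] at c
          exact absurd c.symm Bool.false_ne_true
        · unfold tsl at c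
          rw [if_neg (by omega), if_pos rfl, d1, d2] at c
          by_cases s0 : r < F.n ∧ F.sg j r ≠ 0
          · rw [if_pos s0, grTsm_tr _ _ _ (hF.hs j r)] at c
            exact absurd ⟨r, s0.1, c⟩ hn
          · rw [if_neg s0, grTsm_one, hu] at c
            exact absurd c Bool.false_ne_true
        · unfold tsl at c
          rwa [if_neg (by omega), if_neg (by omega), d1, d2, if_pos (by omega), grTsm_one] at c
    obtain ⟨d1, d2⟩ := grTsm_div (F.n + 3) j (F.n + 1) (by omega)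
    have c := last j hj (F.n + 1) (by omega) (by omega)
    unfold tsl at c
    rw [if_pos rfl, d1, d2, if_neg (by omega), if_neg (by omega), if_pos rfl, grTsm_two,
      step F.n le_rfl] at c
    exact absurd c.symm Bool.false_ne_true

theorem grTsm_bwd (F : Qb) (hF : F.Ok) (e : ℕ → Bool) (h0 : e 0 = false) (h : F.Mat e)
    (hz : ∀ j < F.m, ∀ r ≤ F.n, (e (F.n + j * (F.n + 1) + r) = true ↔
      ∃ i, r ≤ i ∧ i < F.n ∧ lit (F.sg j i) (e i))) : (ts F).Mat e := by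
  intro J hJ
  have hJ' : J < F.m * (F.n + 3) := hJ
  have hj : J / (F.n + 3) < F.m := (Nat.div_lt_iff_lt_mul (by omega)).2 hJ'
  have hr : J % (F.n + 3) < F.n + 3 := Nat.mod_lt _ (by omega)
  rw [grTsm_three]
  show tr e (tsl F J 0) ∨ tr e (tsl F J 1) ∨ tr e (tsl F J 2)
  unfold tsl
  generalize J / (F.n + 3) = j at hj ⊢
  generalize J % (F.n + 3) = r at hr ⊢
  rw [if_pos rfl, if_neg (show ¬ (1 = 0) by omega), if_pos rfl, if_neg (show ¬ (2 = 0) by omega),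
    if_neg (show ¬ (2 = 1) by omega)]
  by_cases c1 : r < F.n
  · rw [if_pos c1, if_pos c1, grTsm_two, grTsm_one]
    by_cases c2 : e (F.n + j * (F.n + 1) + r) = true
    · obtain ⟨i, i1, i2, i3⟩ := (hz j hj r (by omega)).1 c2
      right
      by_cases c3 : i = r
      · left
        subst c3
        have s0 : F.sg j i ≠ 0 := by
          unfold lit at i3
          omega
        rw [if_pos ⟨c1, s0⟩, grTsm_tr _ _ _ (hF.hs j i)]
        exact i3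
      · right
        exact (hz j hj (r + 1) (by omega)).2 ⟨i, by omega, i2, i3⟩
    · exact Or.inl (Bool.eq_false_iff.2 c2)
  · left
    rw [if_neg c1]
    by_cases c2 : r = F.n
    · rw [if_pos c2, grTsm_one]
      obtain ⟨i, i1, i2⟩ := h j hj
      exact (hz j hj 0 (by omega)).2 ⟨i, by omega, i1, i2⟩
    · rw [if_neg c2]
      by_cases c3 : r = F.n + 1
      · rw [if_pos c3, grTsm_two]
        refine Bool.eq_false_iff.2 fun c => ?_
        obtain ⟨i, i1, i2, -⟩ := (hz j hj F.n le_rfl).1 c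
        omega
      · rw [if_neg c3, grTsm_zero]
        exact h0

theorem grTsm_mat (F : Qb) {a e : ℕ → Bool} (h : ∀ x < F.n, e x = a x) : F.Mat e ↔ F.Mat a := by
  refine forall₂_congr fun j _ => exists_congr fun i => and_congr_right fun hi => ?_
  rw [h i hi]

theorem t_tsmat : T_tsmat := by
  classical
  intro F hF a
  have hn := hF.hn
  have q1 : (ts F).q (F.n + F.m * (F.n + 1)) = true := by
    show (if _ then _ else decide _) = true
    rw [if_neg (by omega)]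
    exact decide_eq_true le_rfl
  have q2 : (ts F).q (F.n + F.m * (F.n + 1) + 1) = true := by
    show (if _ then _ else decide _) = true
    rw [if_neg (by omega)]
    exact decide_eq_true (by omega)
  have two : ∀ b, QV (ts F).q (ts F).Mat 2 (F.n + F.m * (F.n + 1)) b ↔ ∀ c d, (ts F).Mat
      (update (update b (F.n + F.m * (F.n + 1)) c) (F.n + F.m * (F.n + 1) + 1) d) := by
    intro b
    rw [show (2 : ℕ) = 1 + 1 from rfl, QV.eq_2, if_pos q1]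
    refine forall_congr' fun c => ?_
    rw [show (1 : ℕ) = 0 + 1 from rfl, QV.eq_2, if_pos q2]
    exact Iff.rfl
  rw [Nat.add_comm (F.m * (F.n + 1)) 2, grTsm_ex _ _ 2 _ F.n a (fun x h1 h2 => by
    show (if _ then _ else decide _) = false
    rw [if_neg (by omega)]
    exact decide_eq_false (by omega))]
  constructor
  · rintro ⟨b, hb, h⟩
    have key : ∀ x < F.n, update (update b (F.n + F.m * (F.n + 1)) false)
        (F.n + F.m * (F.n + 1) + 1) false x = a x := fun x hx => by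
      rw [update_of_ne (by omega), update_of_ne (by omega), hb x (Or.inl hx)]
    obtain ⟨h1, h2⟩ := grTsm_fwd F hF _ ((two b).1 h false false)
      (by rw [update_of_ne (by omega), update_self]) (by rw [update_self])
    exact ⟨by rw [← key 0 hn]; exact h1, (grTsm_mat F key).1 h2⟩
  · rintro ⟨h0, h⟩
    refine ⟨fun x => if F.n ≤ x ∧ x < F.n + F.m * (F.n + 1) then decide (∃ i,
      (x - F.n) % (F.n + 1) ≤ i ∧ i < F.n ∧ lit (F.sg ((x - F.n) / (F.n + 1)) i) (a i)) else a x,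
      fun x hx => if_neg (by omega), (two _).2 fun c d => ?_⟩
    have key : ∀ x < F.n, update (update (fun x => if F.n ≤ x ∧ x < F.n + F.m * (F.n + 1) then
        decide (∃ i, (x - F.n) % (F.n + 1) ≤ i ∧ i < F.n ∧
          lit (F.sg ((x - F.n) / (F.n + 1)) i) (a i)) else a x) (F.n + F.m * (F.n + 1)) c)
        (F.n + F.m * (F.n + 1) + 1) d x = a x := fun x hx => by
      rw [update_of_ne (by omega), update_of_ne (by omega), if_neg (by omega)]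
    refine grTsm_bwd F hF _ (by rw [key 0 hn]; exact h0) ((grTsm_mat F key).2 h) fun j hj r hr => ?_
    have l1 := grTsm_lt (n := F.n + 1) (r := r) hj (by omega)
    obtain ⟨d1, d2⟩ := grTsm_div (F.n + 1) j r (by omega)
    rw [update_of_ne (by omega), update_of_ne (by omega), if_pos (by omega),
      show F.n + j * (F.n + 1) + r - F.n = j * (F.n + 1) + r by omega, d1, d2, decide_eq_true_iff]
    refine exists_congr fun i => and_congr_right fun _ => and_congr_right fun hi => ?_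
    rw [key i hi]

end Pool.Agent.Chomp.GR
end
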